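import Pool.Agent.X52.RMat

/-!
# Projective geometries are indecomposable (abstract ground set)
-/

set_option autoImplicit false
set_option linter.unusedSectionVars false

namespace Pool.Agent.X52.PG

open Finset
open Pool.Agent.Results.MP_da28a5_co.Indecomposable

variable {K : Type} [Field K] {V : Type} [AddCommGroup V] [Module K V] [FiniteDimensional K V]
variable {E : Type} [Fintype E] [DecidableEq E]

theorem pg_indec {vec : E → V} {pt : V → E} {r : ℕ} (hr : Module.finrank K V = r)
    (G : Geo K vec pt) (hr3 : 3 ≤ r) {PGm : Matroid E}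
    (hPG : ∀ B, fam PGm B ↔ PB K vec r B) : IsIndecomposable PGm := by
  classical
  intro C hC
  have hsub : ∀ N ∈ C, matroidPolytope N ⊆ matroidPolytope PGm := by
    intro N hN
    rw [← hC.cover]
    exact Set.subset_biUnion_of_mem hN
  have hPG' : fam PGm = PB K vec r := funext fun B => propext (hPG B)
  have hpoly : matroidPolytope PGm = poly (PB K vec r) := by rw [mp_eq, hPG']
  have S : Subd r (PB K vec r) {F | ∃ N ∈ C, F = fam N} := by
    refine ⟨fun B hB => hB.2, ?_, ?_, ?_, ?_⟩
    · rintro F ⟨N, hN, rfl⟩ B hB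
      have h1 : ind B ∈ matroidPolytope N := by rw [mp_eq]; exact ind_mem hB
      have h2 := hsub N hN h1
      rw [hpoly] at h2
      exact of_ind_mem h2
    · rintro F ⟨N, hN, rfl⟩; exact exch_fam N
    · intro x hx
      rw [← hpoly, ← hC.cover] at hx
      simp only [Set.mem_iUnion] at hx
      obtain ⟨N, hN, hxN⟩ := hx
      exact ⟨_, ⟨N, hN, rfl⟩, by rw [← mp_eq]; exact hxN⟩
    · rintro F ⟨N, hN, rfl⟩ F' ⟨N', hN', rfl⟩ A B hA hB hx
      rw [← mp_eq] at hx
      have hA' : ind A ∈ matroidPolytope N := by rw [mp_eq]; exact ind_mem hA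
      have hB' : ind B ∈ matroidPolytope N := by rw [mp_eq]; exact ind_mem hB
      have hconv : Convex ℝ (matroidPolytope N) := convex_convexHull ℝ _
      have hxN : (1/2 : ℝ) • ind A + (1/2 : ℝ) • ind B ∈ matroidPolytope N :=
        hconv hA' hB' (by norm_num) (by norm_num) (by norm_num)
      have hseg : (1/2 : ℝ) • ind A + (1/2 : ℝ) • ind B ∈ openSegment ℝ (ind A) (ind B) :=
        ⟨1/2, 1/2, by norm_num, by norm_num, by norm_num, rfl⟩
      have hface := hC.face N hN N' hN'
      have h3 := (hface.left_mem_of_mem_openSegment hA' hB' ⟨hxN, hx⟩ hseg).2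
      have h4 := (hface.right_mem_of_mem_openSegment hA' hB' ⟨hxN, hx⟩ hseg).2
      rw [mp_eq] at h3 h4
      exact ⟨of_ind_mem h3, of_ind_mem h4⟩
  obtain ⟨F, ⟨N0, hN0, rfl⟩, hall⟩ := pg_main hr G S hr3
  have hN0eq : N0 = PGm := by
    apply eq_of_subset (hC.ground N0 hN0) (hsub N0 hN0)
    rw [hpoly, mp_eq]
    exact poly_mono hall
  have hmem : PGm ∈ C := hN0eq ▸ hN0
  intro N
  constructor
  · rintro ⟨hN, hmax⟩
    exact (hmax _ hmem (hsub N hN)).symm
  · rintro rfl
    refine ⟨hmem, ?_⟩
    intro N' hN' hle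
    exact eq_of_subset (hC.ground N' hN') (hsub N' hN') hle

end Pool.Agent.X52.PG
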