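import Mathlib

/-!
# Data for MP_6a60a4_co

`Q` is the bit mask of the non-zero squares modulo 67, `Lh` the list of the 32 translates of the
two quadratic classes modulo 67 that contain both `0` and `1`, `masks` their bit masks; `node` is
a depth-first search through the intersections of these sets.
-/

set_option autoImplicit false

namespace X52.Cov

/-- squares -/
def Q : ℕ := 61808106872519771730
/-- the sets through 0 and 1 -/
def Lh : List (ZMod 67 × Bool) := [(3, true), (8, true), (10, false), (12, true), (13, true), (15, false), (16, false), (17, false), (22, false), (23, false), (24, false), (25, false), (26, false), (28, true), (31, true), (32, true), (36, false), (37, false), (40, false), (42, true), (43, true), (44, true), (45, true), (46, true), (51, true), (52, true), (53, true), (55, false), (56, false), (58, true), (60, false), (65, false)]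
/-- their masks -/
def masks : List ℕ := [51742997211128935059, 32462432269685379691, 17724223510934893139, 76677058545936836275, 5780164502197259623, 124453294580887341667, 101332636572098270407, 55091320554520127887, 139608779258203550187, 131643605926730687447, 115713259263784961967, 83852565937893511007, 20131179286110609087, 67049235444965541123, 93672025790695090203, 39770098991713767479, 101548179012242308235, 55522405434808203543, 1457385709436389563, 141744405353884343571, 135914858118092274215, 124255763646508135503, 100937574703339858079, 54301196817003303231, 114324819657665161195, 81075686725653909463, 14577420861631405999, 89228240346131824963, 30882528102587236999, 23755609803175753187, 51398591872366553203, 21441461429289160299]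

/-- filter -/
noncomputable def flt (m : ℕ) (cur : List ℕ) : List ℕ :=
  List.rec (motive := fun _ => List ℕ) []
    (fun z _ ih => Bool.rec (motive := fun _ => List ℕ) ih (z :: ih)
      (Nat.beq (Nat.mod (Nat.shiftRight m z) 2) 1)) cur
/-- length -/
noncomputable def len (cur : List ℕ) : ℕ :=
  List.rec (motive := fun _ => ℕ) 0 (fun _ _ ih => Nat.succ ih) cur
/-- search -/
noncomputable def node (l : List ℕ) : List ℕ → ℕ → Bool :=
  List.rec (motive := fun _ => List ℕ → ℕ → Bool) (fun _ _ => true)
    (fun m _ ih cur d =>
      (fun c : List ℕ => (fun k : ℕ =>
        Bool.rec (motive := fun _ => Bool)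
          (Bool.rec (motive := fun _ => Bool) false
            (Bool.rec (motive := fun _ => Bool) false (ih cur d) (ih c (Nat.succ d)))
            (Bool.and (Nat.ble (Nat.succ d) 5) (Bool.or (Nat.ble (Nat.succ d) 3)
              (Nat.ble (Nat.add k (Nat.succ d)) 11))))
          (ih cur d) (Nat.ble k 5)) (len c)) (flt m cur)) l
/-- bit test -/
def inc (m z : ℕ) : Bool := Nat.beq (Nat.mod (Nat.shiftRight m z) 2) 1

theorem flt_eq (m : ℕ) (cur : List ℕ) : flt m cur = cur.filter (inc m) := by
  induction cur with
  | nil => rfl
  | cons z l ih =>
    have h : flt m (z :: l) = Bool.rec (motive := fun _ => List ℕ) (flt m l) (z :: flt m l)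
      (inc m z) := rfl
    rw [h, List.filter_cons, ih]
    cases inc m z <;> rfl

theorem len_eq (cur : List ℕ) : len cur = cur.length := by
  induction cur with
  | nil => rfl
  | cons z l ih =>
    have h : len (z :: l) = Nat.succ (len l) := rfl
    rw [h, ih]; rfl

theorem node_cons (m : ℕ) (l cur : List ℕ) (d : ℕ) (h : node (m :: l) cur d = true) :
    ((cur.filter (inc m)).length ≤ 5 ∨ ((d + 1 ≤ 5 ∧ (d + 1 ≤ 3 ∨
      (cur.filter (inc m)).length + (d + 1) ≤ 11)) ∧ node l (cur.filter (inc m)) (d + 1) = true)) ∧
      node l cur d = true := by
  have h1 : node (m :: l) cur d =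
        Bool.rec (motive := fun _ => Bool)
          (Bool.rec (motive := fun _ => Bool) false
            (Bool.rec (motive := fun _ => Bool) false (node l cur d)
              (node l (flt m cur) (Nat.succ d)))
            (Bool.and (Nat.ble (Nat.succ d) 5) (Bool.or (Nat.ble (Nat.succ d) 3)
              (Nat.ble (Nat.add (len (flt m cur)) (Nat.succ d)) 11))))
          (node l cur d) (Nat.ble (len (flt m cur)) 5) := rfl
  rw [h1] at h
  rw [← flt_eq, ← len_eq]
  cases h5 : Nat.ble (len (flt m cur)) 5 with
  | true =>
    rw [h5] at h
    exact ⟨Or.inl (Nat.le_of_ble_eq_true h5), h⟩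
  | false =>
    rw [h5] at h
    cases h6 : (Bool.and (Nat.ble (Nat.succ d) 5) (Bool.or (Nat.ble (Nat.succ d) 3)
              (Nat.ble (Nat.add (len (flt m cur)) (Nat.succ d)) 11))) with
    | false => rw [h6] at h; exact absurd h (by simp)
    | true =>
      rw [h6] at h
      cases h7 : node l (flt m cur) (Nat.succ d) with
      | false => rw [h7] at h; exact absurd h (by simp)
      | true =>
        rw [h7] at h
        have h8 := (Bool.and_eq_true _ _).mp h6
        refine ⟨Or.inr ⟨⟨Nat.le_of_ble_eq_true h8.1, ?_⟩, rfl⟩, h⟩
        rcases (Bool.or_eq_true _ _).mp h8.2 with h9 | h9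
        · exact Or.inl (Nat.le_of_ble_eq_true h9)
        · exact Or.inr (Nat.le_of_ble_eq_true h9)

set_option maxRecDepth 100000 in
theorem run : node masks (List.range 67) 0 = true := by decide +kernel

end X52.Cov
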