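import Mathlib

namespace Pool.Agent.X52.K4Rank

open Set

universe u v

/-! ### Rank functions and K4-configurations -/

/-- the properties of the rank function of a finite matroid which we use -/
structure RankFn {α : Type u} (r : Set α → ℕ) : Prop where
  mono : ∀ S T : Set α, S ⊆ T → r S ≤ r T
  sub : ∀ S T : Set α, r (S ∩ T) + r (S ∪ T) ≤ r S + r T
  unit : ∀ (S : Set α) (x : α), r (insert x S) ≤ r S + 1
  ext : ∀ S F : Set α, r S < r (S ∪ F) → ∃ p ∈ F, r S < r (insert p S)

/-- the four triangles of `K4`; the edge common to the `u`-th and the `v`-th triangle is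
`0, 1, 2, 3, 4, 5` for `uv = 01, 02, 03, 12, 13, 23` -/
def line : Fin 4 → Finset (Fin 6) := ![{0, 1, 2}, {0, 3, 4}, {1, 3, 5}, {2, 4, 5}]

/-- the spanning trees of `K4` -/
def IsTree (T : Finset (Fin 6)) : Prop := T.card = 3 ∧ ∀ u, T ≠ line u

instance : DecidablePred IsTree := fun T => by unfold IsTree; infer_instance

section
variable {α : Type u}

/-- the configuration `X, z` exhibits an `M(K4)`-minor (contract `X`, keep the `z i`) -/
structure Cfg (r : Set α → ℕ) (X : Set α) (z : Fin 6 → α) : Prop where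
  tree : ∀ T : Finset (Fin 6), IsTree T → r (X ∪ z '' (T : Set (Fin 6))) = r X + 3
  line : ∀ u, r (X ∪ z '' (line u : Set (Fin 6))) ≤ r X + 2

def HasK4 (r : Set α → ℕ) : Prop := ∃ X z, Cfg r X z

/-- the auxiliary function -/
def Q (r : Set α → ℕ) (X : Set α) (z : Fin 6 → α) (W : Set α) (S : Finset (Fin 6)) : ℕ :=
  r (X ∪ z '' (S : Set (Fin 6)) ∪ W)

variable {r : Set α → ℕ} {X : Set α} {z : Fin 6 → α}

lemma Q_mono (hr : RankFn r) {W W' : Set α} {S S' : Finset (Fin 6)} (hW : W ⊆ W') (hS : S ⊆ S') :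
    Q r X z W S ≤ Q r X z W' S' := by
  apply hr.mono
  apply Set.union_subset_union _ hW
  apply Set.union_subset_union_right
  apply Set.image_mono
  exact_mod_cast hS

lemma Q_sub (hr : RankFn r) {W₁ W₂ W₃ W₄ : Set α} {A B S T : Finset (Fin 6)}
    (h31 : W₃ ⊆ W₁) (h32 : W₃ ⊆ W₂) (h4 : W₄ ⊆ W₁ ∪ W₂) (hA : A ⊆ S ∩ T) (hB : B ⊆ S ∪ T) :
    Q r X z W₃ A + Q r X z W₄ B ≤ Q r X z W₁ S + Q r X z W₂ T := by
  have h1 := hr.sub (X ∪ z '' (S : Set (Fin 6)) ∪ W₁) (X ∪ z '' (T : Set (Fin 6)) ∪ W₂)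
  have h2 : Q r X z W₃ A ≤ r ((X ∪ z '' (S : Set (Fin 6)) ∪ W₁) ∩ (X ∪ z '' (T : Set (Fin 6)) ∪ W₂)) := by
    apply hr.mono
    rintro y ((hy | ⟨i, hi, rfl⟩) | hy)
    · exact ⟨Or.inl (Or.inl hy), Or.inl (Or.inl hy)⟩
    · have := hA (Finset.mem_coe.1 hi)
      rw [Finset.mem_inter] at this
      exact ⟨Or.inl (Or.inr ⟨i, this.1, rfl⟩), Or.inl (Or.inr ⟨i, this.2, rfl⟩)⟩
    · exact ⟨Or.inr (h31 hy), Or.inr (h32 hy)⟩
  have h3 : Q r X z W₄ B ≤ r ((X ∪ z '' (S : Set (Fin 6)) ∪ W₁) ∪ (X ∪ z '' (T : Set (Fin 6)) ∪ W₂)) := by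
    apply hr.mono
    rintro y ((hy | ⟨i, hi, rfl⟩) | hy)
    · exact Or.inl (Or.inl (Or.inl hy))
    · have := hB (Finset.mem_coe.1 hi)
      rw [Finset.mem_union] at this
      rcases this with h | h
      · exact Or.inl (Or.inl (Or.inr ⟨i, h, rfl⟩))
      · exact Or.inr (Or.inl (Or.inr ⟨i, h, rfl⟩))
    · rcases h4 hy with h | h
      · exact Or.inl (Or.inr h)
      · exact Or.inr (Or.inr h)
  have e1 : Q r X z W₁ S = r (X ∪ z '' (S : Set (Fin 6)) ∪ W₁) := rfl
  have e2 : Q r X z W₂ T = r (X ∪ z '' (T : Set (Fin 6)) ∪ W₂) := rfl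
  omega

lemma Q_insert (hr : RankFn r) (W : Set α) (S : Finset (Fin 6)) (i : Fin 6) :
    Q r X z W (insert i S) ≤ Q r X z W S + 1 := by
  have h := hr.unit (X ∪ z '' (S : Set (Fin 6)) ∪ W) (z i)
  have h2 : X ∪ z '' ((insert i S : Finset (Fin 6)) : Set (Fin 6)) ∪ W =
      insert (z i) (X ∪ z '' (S : Set (Fin 6)) ∪ W) := by
    ext y
    simp only [Finset.coe_insert, Set.image_insert_eq, Set.mem_union, Set.mem_insert_iff]
    tauto
  rw [Q, h2]; exact h

lemma Q_card (hr : RankFn r) (W : Set α) (A C : Finset (Fin 6)) :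
    Q r X z W (A ∪ C) ≤ Q r X z W A + C.card := by
  induction C using Finset.induction_on with
  | empty => simp
  | insert i C hi ih =>
    rw [Finset.union_insert, Finset.card_insert_of_notMem hi]
    have := Q_insert (X := X) (z := z) hr W (A ∪ C) i
    omega

lemma Q_card' (hr : RankFn r) (W : Set α) {A B : Finset (Fin 6)} (n : ℕ) (hA : A ⊆ B)
    (hn : (B \ A).card ≤ n) : Q r X z W B ≤ Q r X z W A + n := by
  have h := Q_card (X := X) (z := z) hr W A (B \ A)
  rw [Finset.union_sdiff_of_subset hA] at h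
  omega

lemma Q_point (hr : RankFn r) (p : α) (S : Finset (Fin 6)) :
    Q r X z {p} S ≤ Q r X z ∅ S + 1 := by
  have h := hr.unit (X ∪ z '' (S : Set (Fin 6))) p
  rw [Q, Q, Set.union_singleton, Set.union_empty]
  exact h

lemma Q_empty (W : Set α) : Q r X z W ∅ = r (X ∪ W) := by
  rw [Q]; simp

lemma Cfg_iff : Cfg r X z ↔ (∀ T, IsTree T → Q r X z ∅ T = Q r X z ∅ ∅ + 3) ∧
    ∀ u, Q r X z ∅ (line u) ≤ Q r X z ∅ ∅ + 2 := by
  have h : ∀ S : Finset (Fin 6), Q r X z ∅ S = r (X ∪ z '' (S : Set (Fin 6))) := fun S => by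
    rw [Q, Set.union_empty]
  have h0 : Q r X z ∅ ∅ = r X := by rw [Q_empty, Set.union_empty]
  constructor
  · rintro ⟨h1, h2⟩
    refine ⟨fun T hT => ?_, fun u => ?_⟩
    · rw [h, h0]; exact h1 T hT
    · rw [h, h0]; exact h2 u
  · rintro ⟨h1, h2⟩
    refine ⟨fun T hT => ?_, fun u => ?_⟩
    · have := h1 T hT; rwa [h, h0] at this
    · have := h2 u; rwa [h, h0] at this

lemma Q_insert_pt (p : α) (S : Finset (Fin 6)) :
    Q r (insert p X) z ∅ S = Q r X z {p} S := by
  rw [Q, Q]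
  congr 1
  ext y
  simp only [Set.mem_union, Set.mem_insert_iff, Set.mem_singleton_iff, Set.mem_empty_iff_false]
  tauto

/-- the effect of replacing `z 0` -/
lemma Q_update_of_notMem (p : α) (W : Set α) {S : Finset (Fin 6)} (h : (0 : Fin 6) ∉ S) :
    Q r X (Function.update z 0 p) W S = Q r X z W S := by
  rw [Q, Q]
  congr 3
  apply Set.image_congr
  intro i hi
  apply Function.update_of_ne
  rintro rfl
  exact h (Finset.mem_coe.1 hi)

lemma Q_update_of_mem (p : α) {S : Finset (Fin 6)} (h : (0 : Fin 6) ∈ S) :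
    Q r X (Function.update z 0 p) ∅ S = Q r X z {p} (S.erase 0) := by
  have e : Function.update z 0 p '' (S : Set (Fin 6)) = insert p (z '' ((S.erase 0 : Finset (Fin 6)) : Set (Fin 6))) := by
    ext y
    simp only [Set.mem_image, Finset.mem_coe, Set.mem_insert_iff, Finset.mem_erase]
    constructor
    · rintro ⟨i, hi, rfl⟩
      by_cases h0 : i = 0
      · subst h0; left; simp
      · right; exact ⟨i, ⟨h0, hi⟩, by rw [Function.update_of_ne h0]⟩
    · rintro (rfl | ⟨i, ⟨h0, hi⟩, rfl⟩)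
      · exact ⟨0, h, by simp⟩
      · exact ⟨i, hi, by rw [Function.update_of_ne h0]⟩
  rw [Q, Q, e]
  congr 1
  ext y
  simp only [Set.mem_union, Set.mem_insert_iff, Set.mem_singleton_iff, Set.mem_empty_iff_false]
  tauto

/-! ### Case B: the free element is contracted -/

lemma mem5 : ∀ i : Fin 6, i ≠ 0 → i ∈ ({1, 2, 3, 4, 5} : Finset (Fin 6)) := by decide

lemma tree_facts : IsTree {3, 4, 5} ∧ IsTree {1, 2, 3} ∧ IsTree {0, 2, 3} ∧ IsTree {0, 1, 3} ∧
    IsTree {1, 3, 4} := by decide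

/-- three dependent triangles force total rank at most three -/
lemma full_le (hr : RankFn r) (h345 : Q r X z ∅ {3, 4, 5} = Q r X z ∅ ∅ + 3)
    (h1 : Q r X z ∅ {0, 3, 4} ≤ Q r X z ∅ ∅ + 2) (h2 : Q r X z ∅ {1, 3, 5} ≤ Q r X z ∅ ∅ + 2)
    (h3 : Q r X z ∅ {2, 4, 5} ≤ Q r X z ∅ ∅ + 2) :
    Q r X z ∅ Finset.univ ≤ Q r X z ∅ ∅ + 3 := by
  have e0 : (∅ : Set α) ⊆ ∅ := Set.Subset.refl _
  have e1 : (∅ : Set α) ⊆ ∅ ∪ ∅ := by simp
  have a1 := Q_card' (X := X) (z := z) hr ∅ (A := {3, 4}) (B := {3, 4, 5}) 1 (by decide) (by decide)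
  have a2 := Q_card' (X := X) (z := z) hr ∅ (A := {3, 5}) (B := {3, 4, 5}) 1 (by decide) (by decide)
  have a3 := Q_card' (X := X) (z := z) hr ∅ (A := {4, 5}) (B := {3, 4, 5}) 1 (by decide) (by decide)
  have b1 := Q_sub (X := X) (z := z) hr e0 e0 e1 (A := {3, 4}) (B := {0, 3, 4, 5})
    (S := {0, 3, 4}) (T := {3, 4, 5}) (by decide) (by decide)
  have b2 := Q_sub (X := X) (z := z) hr e0 e0 e1 (A := {3, 5}) (B := {0, 1, 3, 4, 5})
    (S := {1, 3, 5}) (T := {0, 3, 4, 5}) (by decide) (by decide)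
  have b3 := Q_sub (X := X) (z := z) hr e0 e0 e1 (A := {4, 5}) (B := Finset.univ)
    (S := {2, 4, 5}) (T := {0, 1, 3, 4, 5}) (by decide) (by decide)
  omega

/-- the hypotheses in case B -/
structure HypB (r : Set α → ℕ) (X : Set α) (z : Fin 6 → α) (F : Set α) : Prop where
  notle : Q r X z ∅ ∅ + 1 ≤ Q r X z F ∅
  tree : ∀ T, IsTree T → Q r X z ∅ T = Q r X z ∅ ∅ + 3 ∧ Q r X z ∅ ∅ + 4 ≤ Q r X z F T
  line : ∀ u, Q r X z ∅ ∅ + 3 ≤ Q r X z ∅ (line u) → Q r X z F (line u) ≤ Q r X z ∅ ∅ + 3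

/-- contracting a point `p` of `F` -/
lemma caseB_contract (hr : RankFn r) {F : Set α} (h : HypB r X z F) {p : α} (hp : p ∈ F)
    (hp0 : Q r X z ∅ ∅ + 1 ≤ Q r X z {p} ∅)
    (htree : ∀ T, IsTree T → Q r X z ∅ ∅ + 4 ≤ Q r X z {p} T) : HasK4 r := by
  have hpF : ({p} : Set α) ⊆ F := by simpa using hp
  refine ⟨insert p X, z, Cfg_iff.2 ⟨fun T hT => ?_, fun u => ?_⟩⟩
  · rw [Q_insert_pt, Q_insert_pt]
    have h1 := htree T hT
    have h2 := Q_point (X := X) (z := z) hr p ∅
    have h3 := Q_card' (X := X) (z := z) hr {p} (A := ∅) (B := T) 3 (by simp) (by simp [hT.1])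
    omega
  · rw [Q_insert_pt, Q_insert_pt]
    have h2 := Q_point (X := X) (z := z) hr p (line u)
    have h4 := h.line u
    have h5 := Q_mono (X := X) (z := z) hr hpF (S := line u) (S' := line u) (Finset.Subset.refl _)
    omega

/-- `F` has rank one -/
lemma caseB_rank1 (hr : RankFn r) {F : Set α} (h : HypB r X z F)
    (h1 : Q r X z F ∅ ≤ Q r X z ∅ ∅ + 1) : HasK4 r := by
  have hlt : r X < r (X ∪ F) := by
    have := h.notle
    rw [Q_empty, Q_empty, Set.union_empty] at this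
    omega
  obtain ⟨p, hp, hlt2⟩ := hr.ext X F hlt
  have hpF : ({p} : Set α) ⊆ F := by simpa using hp
  have hp0 : Q r X z ∅ ∅ + 1 ≤ Q r X z {p} ∅ := by
    rw [Q_empty, Q_empty, Set.union_empty, Set.union_singleton]; omega
  refine caseB_contract hr h hp hp0 (fun T hT => ?_)
  have h2 := Q_sub (X := X) (z := z) hr (W₁ := F) (W₂ := {p}) (W₃ := {p}) (W₄ := F) hpF
    (Set.Subset.refl _) (Set.subset_union_left) (A := ∅) (B := T) (S := ∅) (T := T)
    (by simp) (by simp)
  have h3 := (h.tree T hT).2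
  omega

/-- case B with `m` lifted lines, namely the first `m` ones -/
lemma caseB_normal (hr : RankFn r) {F : Set α} (h : HypB r X z F) (m : ℕ) (hm : m ≤ 4)
    (hlift : ∀ u : Fin 4, Q r X z ∅ ∅ + 3 ≤ Q r X z ∅ (line u) ↔ u.val < m) : HasK4 r := by
  obtain ⟨t345, t123, t023, t013, t134⟩ := tree_facts
  have sE : (∅ : Set α) ⊆ F := Set.empty_subset _
  have sE0 : (∅ : Set α) ⊆ ∅ := Set.Subset.refl _
  have sF : F ⊆ F := Set.Subset.refl _
  have sF2 : F ⊆ F ∪ F := Set.subset_union_left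
  have sF3 : F ⊆ ∅ ∪ F := Set.subset_union_right
  have l0 : line 0 = {0, 1, 2} := rfl
  have l1 : line 1 = {0, 3, 4} := rfl
  have l2 : line 2 = {1, 3, 5} := rfl
  have l3 : line 3 = {2, 4, 5} := rfl
  have k0 := hlift 0
  have k1 := hlift 1
  have k2 := hlift 2
  have k3 := hlift 3
  have L0 := h.line 0
  have L1 := h.line 1
  have L2 := h.line 2
  have L3 := h.line 3
  rw [l0] at k0 L0
  rw [l1] at k1 L1
  rw [l2] at k2 L2
  rw [l3] at k3 L3
  have v0 : (0 : Fin 4).val = 0 := rfl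
  have v1 : (1 : Fin 4).val = 1 := rfl
  have v2 : (2 : Fin 4).val = 2 := rfl
  have v3 : (3 : Fin 4).val = 3 := rfl
  rw [v0] at k0
  rw [v1] at k1
  rw [v2] at k2
  rw [v3] at k3
  by_cases hF1 : Q r X z F ∅ ≤ Q r X z ∅ ∅ + 1
  · exact caseB_rank1 hr h hF1
  rcases Nat.lt_or_ge m 1 with hm0 | hm0
  · -- no lifted line
    refine ⟨X, z, Cfg_iff.2 ⟨fun T hT => (h.tree T hT).1, fun u => ?_⟩⟩
    have := hlift u
    omega
  rcases Nat.lt_or_ge m 2 with hm1 | hm1
  · -- one lifted line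
    exfalso
    have hfull := full_le (X := X) (z := z) hr (h.tree _ t345).1 (by omega) (by omega) (by omega)
    have b := Q_sub (X := X) (z := z) hr (W₁ := ∅) (W₂ := F) (W₃ := ∅) (W₄ := F) sE0 sE sF3
      (A := {0, 1, 2}) (B := Finset.univ) (S := Finset.univ) (T := {0, 1, 2}) (by decide) (by decide)
    have c := Q_mono (X := X) (z := z) hr sF (S := {3, 4, 5}) (S' := Finset.univ) (by decide)
    have d := (h.tree _ t345).2
    omega
  -- at least two lifted lines
  have A0 : Q r X z F {0} ≤ Q r X z ∅ ∅ + 2 := by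
    have b := Q_sub (X := X) (z := z) hr sF sF sF2
      (A := {0}) (B := {0, 1, 2, 3, 4}) (S := {0, 1, 2}) (T := {0, 3, 4}) (by decide) (by decide)
    have c := Q_mono (X := X) (z := z) hr sF (S := {1, 2, 3}) (S' := {0, 1, 2, 3, 4}) (by decide)
    have d := (h.tree _ t123).2
    omega
  rcases Nat.lt_or_ge m 3 with hm2 | hm2
  · -- exactly two lifted lines
    have q1 : Q r X z ∅ {0, 1, 3} ≤ Q r X z ∅ {0} + 2 :=
      Q_card' (X := X) (z := z) hr ∅ (A := {0}) (B := {0, 1, 3}) 2 (by decide) (by decide)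
    have q2 : Q r X z ∅ {0} ≤ Q r X z ∅ ∅ + 1 :=
      Q_card' (X := X) (z := z) hr ∅ (A := ∅) (B := {0}) 1 (by decide) (by decide)
    have T013 := h.tree _ t013
    have A1 : Q r X z ∅ {0} + 1 ≤ Q r X z F {0} := by
      have b := Q_sub (X := X) (z := z) hr (W₁ := F) (W₂ := ∅) (W₃ := ∅) (W₄ := F) sE sE0
        Set.subset_union_left
        (A := {0}) (B := {0, 1, 3}) (S := {0}) (T := {0, 1, 3}) (by decide) (by decide)
      omega
    obtain ⟨p, hp, hlt⟩ := hr.ext (X ∪ z '' (({0} : Finset (Fin 6)) : Set (Fin 6))) F (by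
      have e1 : Q r X z ∅ {0} = r (X ∪ z '' (({0} : Finset (Fin 6)) : Set (Fin 6))) := by
        rw [Q, Set.union_empty]
      have e2 : Q r X z F {0} = r (X ∪ z '' (({0} : Finset (Fin 6)) : Set (Fin 6)) ∪ F) := rfl
      omega)
    have hlt' : Q r X z ∅ {0} + 1 ≤ Q r X z {p} {0} := by
      have e1 : Q r X z ∅ {0} = r (X ∪ z '' (({0} : Finset (Fin 6)) : Set (Fin 6))) := by
        rw [Q, Set.union_empty]
      have e2 : Q r X z {p} {0} = r (insert p (X ∪ z '' (({0} : Finset (Fin 6)) : Set (Fin 6)))) := by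
        rw [Q, Set.union_singleton]
      omega
    have spF : ({p} : Set α) ⊆ F := by simpa using hp
    have spp : ({p} : Set α) ⊆ {p} := Set.Subset.refl _
    have spE : (∅ : Set α) ⊆ {p} := Set.empty_subset _
    have r1 : Q r X z {p} {0} ≤ Q r X z {p} ∅ + 1 :=
      Q_card' (X := X) (z := z) hr {p} (A := ∅) (B := {0}) 1 (by decide) (by decide)
    have r2 := Q_point (X := X) (z := z) hr p ∅
    -- sets containing 0
    have key : ∀ S : Finset (Fin 6), (0 : Fin 6) ∈ S → Q r X z F S ≤ Q r X z {p} S := by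
      intro S hS
      have b := Q_sub (X := X) (z := z) hr (W₁ := F) (W₂ := {p}) (W₃ := {p}) (W₄ := F) spF spp
        Set.subset_union_left (A := {0}) (B := S) (S := {0}) (T := S)
        (by simp [hS]) (by simp)
      omega
    have q5 : Q r X z ∅ {3, 4, 5} ≤ Q r X z ∅ {5} + 2 :=
      Q_card' (X := X) (z := z) hr ∅ (A := {5}) (B := {3, 4, 5}) 2 (by decide) (by decide)
    have T345 := h.tree _ t345
    have hQ : Q r X z ∅ {1, 2, 3, 4, 5} ≤ Q r X z ∅ ∅ + 3 := by
      have b := Q_sub (X := X) (z := z) hr (W₁ := ∅) (W₂ := ∅) (W₃ := ∅) (W₄ := ∅) sE0 sE0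
        (by simp) (A := {5}) (B := {1, 2, 3, 4, 5}) (S := {1, 3, 5}) (T := {2, 4, 5})
        (by decide) (by decide)
      omega
    by_cases hq : Q r X z {p} {1, 2, 3, 4, 5} ≤ Q r X z ∅ ∅ + 3
    · -- replace `z 0` by `p`
      refine ⟨X, Function.update z 0 p, Cfg_iff.2 ⟨fun T hT => ?_, fun u => ?_⟩⟩
      · rw [Q_update_of_notMem (X := X) (z := z) (r := r) p ∅ (S := ∅) (by simp)]
        have HT := h.tree T hT
        by_cases h0 : (0 : Fin 6) ∈ T
        · rw [Q_update_of_mem p h0]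
          have b := Q_sub (X := X) (z := z) hr (W₁ := {p}) (W₂ := ∅) (W₃ := ∅) (W₄ := {p}) spE sE0
            Set.subset_union_left (A := T.erase 0) (B := T) (S := T.erase 0) (T := T)
            (by
              intro i hi
              exact Finset.mem_inter.2 ⟨hi, Finset.mem_of_mem_erase hi⟩)
            (Finset.subset_union_right)
          have c := key T h0
          have d := Q_point (X := X) (z := z) hr p (T.erase 0)
          have e : Q r X z ∅ T ≤ Q r X z ∅ (T.erase 0) + 1 := by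
            apply Q_card' (X := X) (z := z) hr ∅ 1 (Finset.erase_subset _ _)
            rw [Finset.card_sdiff_of_subset (Finset.erase_subset _ _), Finset.card_erase_of_mem h0]
            omega
          have f : Q r X z ∅ (T.erase 0) ≤ Q r X z ∅ ∅ + 2 := by
            apply Q_card' (X := X) (z := z) hr ∅ 2 (Finset.empty_subset _)
            rw [Finset.sdiff_empty, Finset.card_erase_of_mem h0, hT.1]
          omega
        · rw [Q_update_of_notMem p ∅ h0]
          exact HT.1
      · rw [Q_update_of_notMem (X := X) (z := z) (r := r) p ∅ (S := ∅) (by simp)]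
        have hu : Q r X z {p} Finset.univ ≥ Q r X z ∅ ∅ + 4 := by
          have b := key {0, 1, 3} (by decide)
          have c := Q_mono (X := X) (z := z) hr spp (S := {0, 1, 3}) (S' := Finset.univ) (by decide)
          omega
        fin_cases u
        · show Q r X (Function.update z 0 p) ∅ {0, 1, 2} ≤ _
          rw [Q_update_of_mem p (by decide)]
          have e : ({0, 1, 2} : Finset (Fin 6)).erase 0 = {1, 2} := by decide
          rw [e]
          have b := Q_sub (X := X) (z := z) hr (W₁ := F) (W₂ := {p}) (W₃ := {p}) (W₄ := {p}) spF spp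
            Set.subset_union_right (A := {1, 2}) (B := Finset.univ) (S := {0, 1, 2})
            (T := {1, 2, 3, 4, 5}) (by decide) (by decide)
          omega
        · show Q r X (Function.update z 0 p) ∅ {0, 3, 4} ≤ _
          rw [Q_update_of_mem p (by decide)]
          have e : ({0, 3, 4} : Finset (Fin 6)).erase 0 = {3, 4} := by decide
          rw [e]
          have b := Q_sub (X := X) (z := z) hr (W₁ := F) (W₂ := {p}) (W₃ := {p}) (W₄ := {p}) spF spp
            Set.subset_union_right (A := {3, 4}) (B := Finset.univ) (S := {0, 3, 4})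
            (T := {1, 2, 3, 4, 5}) (by decide) (by decide)
          omega
        · show Q r X (Function.update z 0 p) ∅ {1, 3, 5} ≤ _
          rw [Q_update_of_notMem p ∅ (by decide)]
          omega
        · show Q r X (Function.update z 0 p) ∅ {2, 4, 5} ≤ _
          rw [Q_update_of_notMem p ∅ (by decide)]
          omega
    · -- contract `p`
      refine caseB_contract hr h hp (by omega) (fun T hT => ?_)
      have HT := h.tree T hT
      by_cases h0 : (0 : Fin 6) ∈ T
      · have := key T h0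
        omega
      · have b := Q_sub (X := X) (z := z) hr (W₁ := {p}) (W₂ := ∅) (W₃ := ∅) (W₄ := {p}) spE sE0
          Set.subset_union_left (A := T) (B := {1, 2, 3, 4, 5}) (S := T) (T := {1, 2, 3, 4, 5})
          (by
            intro i hi
            exact Finset.mem_inter.2 ⟨hi, mem5 i (fun h => h0 (h ▸ hi))⟩)
          (Finset.subset_union_right)
        omega
  · -- at least three lifted lines
    exfalso
    have A1 : Q r X z F {1} ≤ Q r X z ∅ ∅ + 2 := by
      have b := Q_sub (X := X) (z := z) hr sF sF sF2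
        (A := {1}) (B := {0, 1, 2, 3, 5}) (S := {0, 1, 2}) (T := {1, 3, 5}) (by decide) (by decide)
      have c := Q_mono (X := X) (z := z) hr sF (S := {0, 2, 3}) (S' := {0, 1, 2, 3, 5}) (by decide)
      have d := (h.tree _ t023).2
      omega
    have b := Q_sub (X := X) (z := z) hr sF sF sF2
      (A := ∅) (B := {0, 1}) (S := {0}) (T := {1}) (by decide) (by decide)
    have c := Q_card' (X := X) (z := z) hr F (A := {0, 1}) (B := {0, 1, 3}) 1 (by decide) (by decide)
    have d := (h.tree _ t013).2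
    omega

/-! ### Symmetries -/

/-- index of the edge common to two triangles -/
def idx : Fin 4 → Fin 4 → Fin 6 :=
  ![![0, 0, 1, 2], ![0, 0, 3, 4], ![1, 3, 0, 5], ![2, 4, 5, 0]]

/-- the two triangles through an edge -/
def pr : Fin 6 → Fin 4 × Fin 4 := ![(0, 1), (0, 2), (0, 3), (1, 2), (1, 3), (2, 3)]

/-- the permutation of the edges induced by a permutation of the triangles -/
def pi (τ : Equiv.Perm (Fin 4)) (i : Fin 6) : Fin 6 := idx (τ (pr i).1) (τ (pr i).2)

lemma pi_line : ∀ (τ : Equiv.Perm (Fin 4)) (u : Fin 4), (line u).image (pi τ) = line (τ u) := by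
  decide +kernel

lemma pi_tree : ∀ (τ : Equiv.Perm (Fin 4)) (T : Finset (Fin 6)), IsTree T →
    IsTree (T.image (pi τ)) := by
  decide +kernel

lemma exists_normal : ∀ b : Fin 4 → Bool, ∃ τ : Equiv.Perm (Fin 4), ∃ m : Fin 5,
    ∀ u, b (τ u) = true ↔ u.val < m.val := by
  decide +kernel

lemma exists_zero : ∀ i : Fin 6, ∃ τ : Equiv.Perm (Fin 4), pi τ 0 = i := by
  decide +kernel

lemma pi_inj : ∀ (τ : Equiv.Perm (Fin 4)) (i j : Fin 6), pi τ i = pi τ j → i = j := by
  decide +kernel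

lemma Q_comp (τ : Equiv.Perm (Fin 4)) (W : Set α) (S : Finset (Fin 6)) :
    Q r X (z ∘ pi τ) W S = Q r X z W (S.image (pi τ)) := by
  rw [Q, Q, Set.image_comp, Finset.coe_image]

lemma Q_comp_empty (τ : Equiv.Perm (Fin 4)) (W : Set α) :
    Q r X (z ∘ pi τ) W ∅ = Q r X z W ∅ := by
  rw [Q_comp, Finset.image_empty]

lemma caseB (hr : RankFn r) {F : Set α} (h : HypB r X z F) : HasK4 r := by
  classical
  obtain ⟨τ, m, hm⟩ := exists_normal (fun u => decide (Q r X z ∅ ∅ + 3 ≤ Q r X z ∅ (line u)))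
  have h' : HypB r X (z ∘ pi τ) F := by
    refine ⟨?_, fun T hT => ?_, fun u => ?_⟩
    · rw [Q_comp_empty, Q_comp_empty]; exact h.notle
    · rw [Q_comp_empty, Q_comp, Q_comp]
      exact h.tree _ (pi_tree τ T hT)
    · rw [Q_comp_empty, Q_comp, Q_comp, pi_line]
      exact h.line _
  refine caseB_normal hr h' m.val (by omega) (fun u => ?_)
  have := hm u
  rw [decide_eq_true_iff] at this
  rw [Q_comp_empty, Q_comp, pi_line]
  exact this

/-- case A: the free element is `z 0` -/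
lemma caseA (hr : RankFn r) {F : Set α}
    (ht0 : ∀ T, IsTree T → (0 : Fin 6) ∉ T → Q r X z ∅ T = Q r X z ∅ ∅ + 3)
    (ht1 : ∀ T, IsTree T → (0 : Fin 6) ∈ T →
      min (Q r X z ∅ (T.erase 0) + 1) (Q r X z F (T.erase 0)) = Q r X z ∅ ∅ + 3)
    (hl0 : ∀ u, (0 : Fin 6) ∉ line u → Q r X z ∅ (line u) ≤ Q r X z ∅ ∅ + 2)
    (hl1 : ∀ u, (0 : Fin 6) ∈ line u →
      min (Q r X z ∅ ((line u).erase 0) + 1) (Q r X z F ((line u).erase 0)) ≤ Q r X z ∅ ∅ + 2)
    (hx : Q r X z ∅ ∅ + 1 ≤ Q r X z F ∅) : HasK4 r := by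
  obtain ⟨t345, t123, t023, t013, t134⟩ := tree_facts
  have sE : (∅ : Set α) ⊆ F := Set.empty_subset _
  have sE0 : (∅ : Set α) ⊆ ∅ := Set.Subset.refl _
  have sF : F ⊆ F := Set.Subset.refl _
  have sF2 : F ⊆ F ∪ F := Set.subset_union_left
  have L0 := hl1 0 (by decide)
  have L1 := hl1 1 (by decide)
  have e0 : (line 0).erase 0 = {1, 2} := by decide
  have e1 : (line 1).erase 0 = {3, 4} := by decide
  rw [e0] at L0
  rw [e1] at L1
  have T123 := ht0 _ t123 (by decide)
  have T134 := ht0 _ t134 (by decide)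
  have a1 := Q_card' (X := X) (z := z) hr ∅ (A := {1, 2}) (B := {1, 2, 3}) 1 (by decide) (by decide)
  have a2 := Q_card' (X := X) (z := z) hr ∅ (A := {3, 4}) (B := {1, 3, 4}) 1 (by decide) (by decide)
  have b := Q_sub (X := X) (z := z) hr sF sF sF2
    (A := ∅) (B := {1, 2, 3, 4}) (S := {1, 2}) (T := {3, 4}) (by decide) (by decide)
  have c := Q_mono (X := X) (z := z) hr sE (S := {1, 2, 3}) (S' := {1, 2, 3, 4}) (by decide)
  have hF1 : Q r X z F ∅ ≤ Q r X z ∅ ∅ + 1 := by omega
  obtain ⟨p, hp, hlt2⟩ := hr.ext X F (by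
    rw [Q_empty, Q_empty, Set.union_empty] at hx
    omega)
  have spF : ({p} : Set α) ⊆ F := by simpa using hp
  have spp : ({p} : Set α) ⊆ {p} := Set.Subset.refl _
  have hp0 : Q r X z ∅ ∅ + 1 ≤ Q r X z {p} ∅ := by
    rw [Q_empty, Q_empty, Set.union_empty, Set.union_singleton]; omega
  have key : ∀ S, Q r X z F S ≤ Q r X z {p} S := by
    intro S
    have h2 := Q_sub (X := X) (z := z) hr (W₁ := F) (W₂ := {p}) (W₃ := {p}) (W₄ := F) spF
      spp (Set.subset_union_left) (A := ∅) (B := S) (S := ∅) (T := S)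
      (by simp) (by simp)
    omega
  refine ⟨X, Function.update z 0 p, Cfg_iff.2 ⟨fun T hT => ?_, fun u => ?_⟩⟩
  · rw [Q_update_of_notMem (X := X) (z := z) (r := r) p ∅ (S := ∅) (by simp)]
    by_cases h0 : (0 : Fin 6) ∈ T
    · rw [Q_update_of_mem p h0]
      have h1 := ht1 T hT h0
      have h2 := key (T.erase 0)
      have d := Q_point (X := X) (z := z) hr p (T.erase 0)
      have f : Q r X z ∅ (T.erase 0) ≤ Q r X z ∅ ∅ + 2 := by
        apply Q_card' (X := X) (z := z) hr ∅ 2 (Finset.empty_subset _)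
        rw [Finset.sdiff_empty, Finset.card_erase_of_mem h0, hT.1]
      omega
    · rw [Q_update_of_notMem p ∅ h0]
      exact ht0 T hT h0
  · rw [Q_update_of_notMem (X := X) (z := z) (r := r) p ∅ (S := ∅) (by simp)]
    by_cases h0 : (0 : Fin 6) ∈ line u
    · rw [Q_update_of_mem p h0]
      have h3 : Q r X z ∅ ∅ + 2 ≤ Q r X z ∅ ((line u).erase 0) := by
        fin_cases u
        · show _ ≤ Q r X z ∅ ((line 0).erase 0)
          rw [e0]; omega
        · show _ ≤ Q r X z ∅ ((line 1).erase 0)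
          rw [e1]; omega
        · exact absurd h0 (by decide)
        · exact absurd h0 (by decide)
      have h1 := hl1 u h0
      have h2 := Q_mono (X := X) (z := z) hr spF (S := (line u).erase 0)
        (S' := (line u).erase 0) (Finset.Subset.refl _)
      omega
    · rw [Q_update_of_notMem p ∅ h0]
      exact hl0 u h0

lemma tree_pair : ∀ i : Fin 6, ∃ T : Finset (Fin 6), IsTree T ∧ i ∈ T := by decide +kernel

lemma tree_pair2 : ∀ i j : Fin 6, i ≠ j → ∃ T : Finset (Fin 6), IsTree T ∧ i ∈ T ∧ j ∈ T := by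
  decide +kernel

/-- elements of a configuration add rank -/
lemma Cfg.notMem (hr : RankFn r) (h : Cfg r X z) (i : Fin 6) : z i ∉ X := by
  intro hi
  obtain ⟨T, hT, hiT⟩ := tree_pair i
  have h1 := (Cfg_iff.1 h).1 T hT
  have h2 : Q r X z ∅ T ≤ Q r X z ∅ (T.erase i) := by
    apply hr.mono
    rintro y ((hy | ⟨j, hj, rfl⟩) | hy)
    · exact Or.inl (Or.inl hy)
    · by_cases hji : j = i
      · subst hji; exact Or.inl (Or.inl hi)
      · exact Or.inl (Or.inr ⟨j, Finset.mem_coe.2 (Finset.mem_erase.2 ⟨hji, hj⟩), rfl⟩)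
    · exact Or.inr hy
  have h3 : Q r X z ∅ (T.erase i) ≤ Q r X z ∅ ∅ + 2 := by
    apply Q_card' (X := X) (z := z) hr ∅ 2 (Finset.empty_subset _)
    rw [Finset.sdiff_empty, Finset.card_erase_of_mem hiT, hT.1]
  omega

lemma Cfg.inj (hr : RankFn r) (h : Cfg r X z) : Function.Injective z := by
  intro i j hij
  by_contra hne
  obtain ⟨T, hT, hiT, hjT⟩ := tree_pair2 i j hne
  have h1 := (Cfg_iff.1 h).1 T hT
  have h2 : Q r X z ∅ T ≤ Q r X z ∅ (T.erase i) := by
    apply hr.mono
    rintro y ((hy | ⟨k, hk, rfl⟩) | hy)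
    · exact Or.inl (Or.inl hy)
    · by_cases hki : k = i
      · subst hki
        exact Or.inl (Or.inr ⟨j, Finset.mem_coe.2 (Finset.mem_erase.2 ⟨fun h => hne h.symm, hjT⟩),
          hij.symm⟩)
      · exact Or.inl (Or.inr ⟨k, Finset.mem_coe.2 (Finset.mem_erase.2 ⟨hki, hk⟩), rfl⟩)
    · exact Or.inr hy
  have h3 : Q r X z ∅ (T.erase i) ≤ Q r X z ∅ ∅ + 2 := by
    apply Q_card' (X := X) (z := z) hr ∅ 2 (Finset.empty_subset _)
    rw [Finset.sdiff_empty, Finset.card_erase_of_mem hiT, hT.1]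
  omega

lemma Cfg.comp (h : Cfg r X z) (τ : Equiv.Perm (Fin 4)) : Cfg r X (z ∘ pi τ) := by
  rw [Cfg_iff] at h ⊢
  refine ⟨fun T hT => ?_, fun u => ?_⟩
  · rw [Q_comp, Q_comp_empty]; exact h.1 _ (pi_tree τ T hT)
  · rw [Q_comp, Q_comp_empty, pi_line]; exact h.2 _

/-- **Principal extensions do not create `M(K4)`-minors.** -/
theorem prext {r r' : Set α → ℕ} (hr : RankFn r) (hr' : RankFn r') (x : α) (F : Set α)
    (h1 : ∀ S, x ∉ S → r' S = r S)
    (h2 : ∀ S, x ∉ S → r' (insert x S) = min (r S + 1) (r (S ∪ F))) (hk : HasK4 r') :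
    HasK4 r := by
  obtain ⟨X, z, hc⟩ := hk
  by_cases hxX : x ∈ X
  · -- case B
    have hzx : ∀ i, z i ≠ x := fun i h => hc.notMem hr' i (h ▸ hxX)
    have hQ : ∀ S, Q r' X z ∅ S = min (Q r (X \ {x}) z ∅ S + 1) (Q r (X \ {x}) z F S) := by
      intro S
      have e : X ∪ z '' (S : Set (Fin 6)) = insert x ((X \ {x}) ∪ z '' (S : Set (Fin 6))) := by
        ext y
        simp only [Set.mem_union, Set.mem_insert_iff, Set.mem_sdiff, Set.mem_singleton_iff]
        by_cases hy : y = x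
        · subst hy; simp [hxX]
        · simp [hy]
      have hx : x ∉ (X \ {x}) ∪ z '' (S : Set (Fin 6)) := by
        rintro (h | ⟨i, _, h⟩)
        · exact h.2 rfl
        · exact hzx i h
      rw [Q, Set.union_empty, e, h2 _ hx, Q, Q, Set.union_empty]
    rw [Cfg_iff] at hc
    by_cases hle : Q r (X \ {x}) z F ∅ ≤ Q r (X \ {x}) z ∅ ∅
    · refine ⟨X \ {x}, z, Cfg_iff.2 ?_⟩
      have key : ∀ S, Q r' X z ∅ S = Q r (X \ {x}) z ∅ S := by
        intro S
        rw [hQ]
        have b := Q_sub (X := X \ {x}) (z := z) hr (W₁ := F) (W₂ := ∅) (W₃ := ∅) (W₄ := F)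
          (Set.empty_subset _) (Set.Subset.refl _) Set.subset_union_left (A := ∅) (B := S)
          (S := ∅) (T := S) (by simp) (by simp)
        have c := Q_mono (X := X \ {x}) (z := z) hr (Set.empty_subset F) (Finset.Subset.refl S)
        omega
      simp only [key] at hc
      exact hc
    · have hb : HypB r (X \ {x}) z F := by
        refine ⟨by omega, fun T hT => ?_, fun u hu => ?_⟩
        · have h3 := hc.1 T hT
          rw [hQ, hQ] at h3
          have h4 := Q_card' (X := X \ {x}) (z := z) hr ∅ (A := ∅) (B := T) 3 (by simp)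
            (by simp [hT.1])
          omega
        · have h3 := hc.2 u
          rw [hQ, hQ] at h3
          omega
      exact caseB hr hb
  · by_cases hxz : ∃ i, z i = x
    · -- case A
      obtain ⟨i, hi⟩ := hxz
      obtain ⟨τ, hτ⟩ := exists_zero i
      have hc' := hc.comp τ
      set z' := z ∘ pi τ with hz'
      have hz0 : z' 0 = x := by rw [hz', Function.comp_apply, hτ, hi]
      have hinj := hc'.inj hr'
      have hzx : ∀ i, i ≠ 0 → z' i ≠ x := fun i hi0 h => hi0 (hinj (h.trans hz0.symm))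
      have hQ0 : ∀ S : Finset (Fin 6), (0 : Fin 6) ∉ S → Q r' X z' ∅ S = Q r X z' ∅ S := by
        intro S hS
        rw [Q, Q, h1]
        rintro ((h | ⟨j, hj, h⟩) | h)
        · exact hxX h
        · exact hzx j (fun h0 => hS (h0 ▸ hj)) h
        · exact h
      have hQ1 : ∀ S : Finset (Fin 6), (0 : Fin 6) ∈ S → Q r' X z' ∅ S =
          min (Q r X z' ∅ (S.erase 0) + 1) (Q r X z' F (S.erase 0)) := by
        intro S hS
        have e : X ∪ z' '' (S : Set (Fin 6)) =
            insert x (X ∪ z' '' ((S.erase 0 : Finset (Fin 6)) : Set (Fin 6))) := by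
          ext y
          simp only [Set.mem_union, Set.mem_insert_iff, Set.mem_image, Finset.mem_coe,
            Finset.mem_erase]
          constructor
          · rintro (h | ⟨j, hj, rfl⟩)
            · exact Or.inr (Or.inl h)
            · by_cases hj0 : j = 0
              · subst hj0; exact Or.inl hz0
              · exact Or.inr (Or.inr ⟨j, ⟨hj0, hj⟩, rfl⟩)
          · rintro (rfl | h | ⟨j, ⟨_, hj⟩, rfl⟩)
            · exact Or.inr ⟨0, hS, hz0⟩
            · exact Or.inl h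
            · exact Or.inr ⟨j, hj, rfl⟩
        have hx : x ∉ X ∪ z' '' ((S.erase 0 : Finset (Fin 6)) : Set (Fin 6)) := by
          rintro (h | ⟨j, hj, h⟩)
          · exact hxX h
          · exact hzx j (Finset.ne_of_mem_erase (Finset.mem_coe.1 hj)) h
        rw [Q, Set.union_empty, e, h2 _ hx, Q, Q, Set.union_empty]
      rw [Cfg_iff] at hc'
      have hQe : Q r' X z' ∅ ∅ = Q r X z' ∅ ∅ := hQ0 ∅ (by simp)
      apply caseA (X := X) (z := z') (F := F) hr
      · intro T hT h0
        have := hc'.1 T hT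
        rwa [hQ0 T h0, hQe] at this
      · intro T hT h0
        have := hc'.1 T hT
        rwa [hQ1 T h0, hQe] at this
      · intro u h0
        have := hc'.2 u
        rwa [hQ0 _ h0, hQe] at this
      · intro u h0
        have := hc'.2 u
        rwa [hQ1 _ h0, hQe] at this
      · -- `x` is not a loop
        have t := hc'.1 {0, 1, 3} (by decide)
        have q := Q_card' (X := X) (z := z') hr' ∅ (A := {0}) (B := {0, 1, 3}) 2 (by decide)
          (by decide)
        have e := hQ1 {0} (by decide)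
        have e2 : ({0} : Finset (Fin 6)).erase 0 = ∅ := by decide
        rw [e2] at e
        omega
    · -- case C
      have hxz' : ∀ i, z i ≠ x := fun i h => hxz ⟨i, h⟩
      refine ⟨X, z, Cfg_iff.2 ?_⟩
      have key : ∀ S, Q r' X z ∅ S = Q r X z ∅ S := by
        intro S
        rw [Q, Q, h1]
        rintro ((h | ⟨j, hj, h⟩) | h)
        · exact hxX h
        · exact hxz' j h
        · exact h
      rw [Cfg_iff] at hc
      simp only [key] at hc
      exact hc

end

end Pool.Agent.X52.K4Rank
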