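import Mathlib
import Pool.Agent.X52.K4Rank

namespace Pool.Agent.X52.K4Ops

open Set Pool.Agent.X52.K4Rank
open scoped Matroid

universe u v

variable {α : Type u}

/-- natural-valued rank -/
noncomputable def rk (M : Matroid α) (S : Set α) : ℕ := (M.eRk S).toNat

lemma coe_rk (M : Matroid α) [M.Finite] (S : Set α) : ((rk M S : ℕ) : ℕ∞) = M.eRk S := by
  unfold rk
  rw [ENat.natCast_toNat]
  have h : M.eRk S ≤ M.E.encard := (M.eRk_le_eRank S).trans M.eRank_le_encard_ground
  have h2 : M.E.encard ≠ ⊤ := by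
    rw [Set.encard_ne_top_iff]; exact M.ground_finite
  exact ne_top_of_le_ne_top h2 h

lemma le_rk_iff (M : Matroid α) [M.Finite] {S : Set α} {n : ℕ} :
    n ≤ rk M S ↔ ∃ I, I ⊆ S ∧ M.Indep I ∧ I.ncard = n := by
  have h : n ≤ rk M S ↔ (n : ℕ∞) ≤ M.eRk S := by
    rw [← coe_rk]; norm_cast
  rw [h, Matroid.le_eRk_iff]
  constructor
  · rintro ⟨I, h1, h2, h3⟩
    exact ⟨I, h1, h2, by rw [Set.ncard, h3]; rfl⟩
  · rintro ⟨I, h1, h2, h3⟩
    refine ⟨I, h1, h2, ?_⟩
    have hfin : I.Finite := M.ground_finite.subset h2.subset_ground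
    rw [← h3, hfin.cast_ncard_eq]

lemma indep_iff_rk (M : Matroid α) [M.Finite] {I : Set α} (hI : I.Finite) :
    M.Indep I ↔ I.ncard ≤ rk M I := by
  rw [le_rk_iff]
  constructor
  · intro h; exact ⟨I, Set.Subset.refl _, h, rfl⟩
  · rintro ⟨J, h1, h2, h3⟩
    have : J = I := Set.eq_of_subset_of_ncard_le h1 h3.ge hI
    rwa [this] at h2

lemma rk_le_ncard (M : Matroid α) [M.Finite] {I : Set α} (hI : I.Finite) : rk M I ≤ I.ncard := by
  obtain ⟨J, h1, _, h3⟩ := (le_rk_iff M).1 (le_refl (rk M I))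
  rw [← h3]; exact Set.ncard_le_ncard h1 hI

lemma rk_inter_ground (M : Matroid α) (S : Set α) : rk M (S ∩ M.E) = rk M S := by
  rw [rk, Matroid.eRk_inter_ground, rk]

lemma rk_rankFn (M : Matroid α) [M.Finite] : RankFn (rk M) := by
  refine ⟨fun S T h => ?_, fun S T => ?_, fun S x => ?_, fun S F h => ?_⟩
  · have := M.eRk_mono h
    rw [← coe_rk, ← coe_rk] at this
    exact_mod_cast this
  · have := M.eRk_inter_add_eRk_union_le S T
    rw [← coe_rk, ← coe_rk, ← coe_rk, ← coe_rk] at this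
    exact_mod_cast this
  · have := M.eRk_insert_le_add_one x S
    rw [← coe_rk, ← coe_rk] at this
    exact_mod_cast this
  · have h' : M.eRk S < M.eRk (S ∪ F) := by
      rw [← coe_rk, ← coe_rk]; exact_mod_cast h
    obtain ⟨y, hy, hy2⟩ := Matroid.exists_eRk_insert_eq_add_one_of_lt h'
    refine ⟨y, ?_, ?_⟩
    · rcases hy.1 with h1 | h1
      · exact absurd h1 hy.2
      · exact h1
    · rw [← coe_rk, ← coe_rk] at hy2
      have : rk M (insert y S) = rk M S + 1 := by exact_mod_cast hy2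
      omega

/-- `M` has an `M(K4)`-minor, in terms of ranks -/
def K4M (M : Matroid α) : Prop := HasK4 (rk M)

/-- each element of a tree matters -/
lemma Cfg.strict {r : Set α → ℕ} (hr : RankFn r) {X : Set α} {z : Fin 6 → α} (h : Cfg r X z)
    {T : Finset (Fin 6)} (hT : IsTree T) {i : Fin 6} (hi : i ∈ T) :
    Q r X z ∅ (T.erase i) < Q r X z ∅ T := by
  have h1 := (Cfg_iff.1 h).1 T hT
  have h3 : Q r X z ∅ (T.erase i) ≤ Q r X z ∅ ∅ + 2 := by
    apply Q_card' (X := X) (z := z) hr ∅ 2 (Finset.empty_subset _)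
    rw [Finset.sdiff_empty, Finset.card_erase_of_mem hi, hT.1]
  omega

/-- passing to an intersection with a fixed set -/
lemma Cfg.inter {r r' : Set α → ℕ} (hr' : RankFn r') {R : Set α} (h : ∀ S, r' S = r (S ∩ R))
    {X : Set α} {z : Fin 6 → α} (hc : Cfg r' X z) : (∀ i, z i ∈ R) ∧ Cfg r (X ∩ R) z := by
  have hz : ∀ i, z i ∈ R := by
    intro i
    by_contra hi
    obtain ⟨T, hT, hiT⟩ := tree_pair i
    have h1 := Cfg.strict hr' hc hT hiT
    have h2 : Q r' X z ∅ (T.erase i) = Q r' X z ∅ T := by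
      rw [Q, Q, h, h]
      congr 1
      ext y
      simp only [Set.mem_inter_iff, Set.mem_union, Set.mem_image, Finset.mem_coe,
        Finset.mem_erase, Set.mem_empty_iff_false, or_false]
      constructor
      · rintro ⟨h3 | ⟨j, ⟨_, hj⟩, rfl⟩, h4⟩
        · exact ⟨Or.inl h3, h4⟩
        · exact ⟨Or.inr ⟨j, hj, rfl⟩, h4⟩
      · rintro ⟨h3 | ⟨j, hj, rfl⟩, h4⟩
        · exact ⟨Or.inl h3, h4⟩
        · refine ⟨Or.inr ⟨j, ⟨?_, hj⟩, rfl⟩, h4⟩
          rintro rfl
          exact hi h4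
    omega
  refine ⟨hz, ?_⟩
  have key : ∀ S : Set (Fin 6), (X ∪ z '' S) ∩ R = (X ∩ R) ∪ z '' S := by
    intro S
    ext y
    simp only [Set.mem_inter_iff, Set.mem_union, Set.mem_image]
    constructor
    · rintro ⟨h3 | h3, h4⟩
      · exact Or.inl ⟨h3, h4⟩
      · exact Or.inr h3
    · rintro (⟨h3, h4⟩ | ⟨j, hj, rfl⟩)
      · exact ⟨Or.inl h3, h4⟩
      · exact ⟨Or.inr ⟨j, hj, rfl⟩, hz j⟩
  refine ⟨fun T hT => ?_, fun w => ?_⟩
  · have := hc.tree T hT
    rwa [h, h, key] at this
  · have := hc.line w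
    rwa [h, h, key] at this

/-- restriction (also with loops added) -/
lemma K4M_restrict (M : Matroid α) [M.Finite] (R : Set α) [(M ↾ R).Finite] (h : K4M (M ↾ R)) :
    K4M M := by
  obtain ⟨X, z, hc⟩ := h
  have := Cfg.inter (rk_rankFn (M ↾ R)) (r := rk M) (R := R) (fun S => by
    rw [rk, Matroid.restrict_eRk_eq', rk]) hc
  exact ⟨_, _, this.2⟩

lemma card_line : ∀ w, (line w).card = 3 := by decide

/-- complementary edges -/
def opp (i : Fin 6) : Fin 6 := 5 - i

lemma opp_line : ∀ u, ((line u).image opp)ᶜ = line u := by decide +kernel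

lemma opp_tree : ∀ T : Finset (Fin 6), IsTree T → IsTree ((T.image opp)ᶜ) := by decide +kernel

/-- duality -/
lemma K4M_dual (M : Matroid α) [M.Finite] (h : K4M M✶) : K4M M := by
  obtain ⟨X', z, hc'⟩ := h
  have hr := rk_rankFn M✶
  obtain ⟨hz, hc⟩ := Cfg.inter hr (r := rk M✶) (R := M.E) (fun S => by
    rw [← Matroid.dual_ground, rk_inter_ground]) hc'
  set X := X' ∩ M.E with hX
  have hXE : X ⊆ M.E := Set.inter_subset_right
  have hXfin : X.Finite := M.ground_finite.subset hXE
  have hinj := hc.inj hr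
  have hnot := fun i => hc.notMem hr i
  have hQ := Cfg_iff.1 hc
  obtain ⟨t345, t123, t023, t013, t134⟩ := tree_facts
  have hfull : Q (rk M✶) X z ∅ Finset.univ = Q (rk M✶) X z ∅ ∅ + 3 := by
    have a := full_le (X := X) (z := z) hr (hQ.1 _ t345) (hQ.2 1) (hQ.2 2) (hQ.2 3)
    have b := Q_mono (X := X) (z := z) hr (Set.Subset.refl (∅ : Set α)) (S := {3, 4, 5})
      (S' := Finset.univ) (by decide)
    have c := hQ.1 _ t345
    omega
  have hdual : ∀ S ⊆ M.E, rk M✶ S + rk M M.E = rk M (M.E \ S) + S.ncard := by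
    intro S hS
    have h1 := M.eRk_dual_add_eRank S hS
    have hSf : S.Finite := M.ground_finite.subset hS
    rw [← M.eRk_ground, ← hSf.cast_ncard_eq, ← coe_rk, ← coe_rk, ← coe_rk] at h1
    exact_mod_cast h1
  have hncard : ∀ S : Finset (Fin 6), (X ∪ z '' (S : Set (Fin 6))).ncard = X.ncard + S.card := by
    intro S
    rw [Set.ncard_union_eq _ hXfin ((S.finite_toSet).image z), Set.ncard_image_of_injective _ hinj,
      Set.ncard_coe_finset]
    rw [Set.disjoint_left]
    rintro y hy ⟨i, _, rfl⟩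
    exact hnot i hy
  have hsub : ∀ S : Finset (Fin 6), X ∪ z '' (S : Set (Fin 6)) ⊆ M.E := by
    intro S
    apply Set.union_subset hXE
    rintro y ⟨i, _, rfl⟩
    exact hz i
  set X₂ := M.E \ (X ∪ z '' ((Finset.univ : Finset (Fin 6)) : Set (Fin 6))) with hX₂
  have key : ∀ S : Finset (Fin 6), X₂ ∪ (z ∘ opp) '' (S : Set (Fin 6)) =
      M.E \ (X ∪ z '' (((S.image opp)ᶜ : Finset (Fin 6)) : Set (Fin 6))) := by
    intro S
    ext y
    simp only [hX₂, Set.mem_union, Set.mem_sdiff, Set.mem_image, Finset.mem_coe, Finset.mem_compl,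
      Finset.mem_image, Finset.mem_univ, true_and, Function.comp_apply]
    constructor
    · rintro (⟨h1, h2⟩ | ⟨i, hi, rfl⟩)
      · refine ⟨h1, ?_⟩
        rintro (h3 | ⟨j, _, rfl⟩)
        · exact h2 (Or.inl h3)
        · exact h2 (Or.inr ⟨j, rfl⟩)
      · refine ⟨hz _, ?_⟩
        rintro (h3 | ⟨j, hj, h3⟩)
        · exact hnot _ h3
        · exact hj ⟨i, hi, (hinj h3).symm⟩
    · rintro ⟨h1, h2⟩
      by_cases h3 : ∃ j, z j = y
      · obtain ⟨j, rfl⟩ := h3
        right
        by_contra h4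
        apply h2
        right
        refine ⟨j, ?_, rfl⟩
        rintro ⟨i, hi, rfl⟩
        exact h4 ⟨i, hi, rfl⟩
      · left
        refine ⟨h1, ?_⟩
        rintro (h4 | h4)
        · exact h2 (Or.inl h4)
        · exact h3 h4
  have hval : ∀ S : Finset (Fin 6), Q (rk M) X₂ (z ∘ opp) ∅ S + (X.ncard + ((S.image opp)ᶜ).card)
      = Q (rk M✶) X z ∅ ((S.image opp)ᶜ) + rk M M.E := by
    intro S
    have h1 := hdual _ (hsub ((S.image opp)ᶜ))
    rw [← key, hncard] at h1
    rw [Q, Q, Set.union_empty, Set.union_empty]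
    omega
  have h0 := hval ∅
  rw [Finset.image_empty, Finset.compl_empty, hfull] at h0
  have hc0 : (Finset.univ : Finset (Fin 6)).card = 6 := rfl
  refine ⟨X₂, z ∘ opp, Cfg_iff.2 ⟨fun T hT => ?_, fun w => ?_⟩⟩
  · have h1 := hval T
    have h2 := opp_tree T hT
    have h3 := hQ.1 _ h2
    rw [h2.1] at h1
    omega
  · have h1 := hval (line w)
    rw [opp_line] at h1
    have h3 := hQ.2 w
    have h4 := card_line w
    omega

/-- truncation -/
lemma K4M_truncation (M N : Matroid α) [M.Finite] [N.Finite] (k : ℕ)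
    (h : ∀ I, N.Indep I ↔ M.Indep I ∧ I.encard ≤ k) (hk : K4M N) : K4M M := by
  have hr := rk_rankFn M
  have hmin : ∀ S, rk N S = min (rk M S) k := by
    intro S
    apply le_antisymm
    · obtain ⟨I, h1, h2, h3⟩ := (le_rk_iff N).1 (le_refl (rk N S))
      rw [h] at h2
      have hfin : I.Finite := M.ground_finite.subset h2.1.subset_ground
      have h4 : rk N S ≤ rk M S := (le_rk_iff M).2 ⟨I, h1, h2.1, h3⟩
      have h5 : I.ncard ≤ k := by
        have := h2.2
        rw [← hfin.cast_ncard_eq] at this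
        exact_mod_cast this
      omega
    · obtain ⟨I, h1, h2, h3⟩ := (le_rk_iff M).1 (Nat.min_le_left (rk M S) k)
      have hfin : I.Finite := M.ground_finite.subset h2.subset_ground
      rw [le_rk_iff]
      refine ⟨I, h1, (h I).2 ⟨h2, ?_⟩, h3⟩
      rw [← hfin.cast_ncard_eq, h3]
      exact_mod_cast Nat.min_le_right _ _
  obtain ⟨X, z, hc⟩ := hk
  have h1 := (Cfg_iff.1 hc).1 {3, 4, 5} (by decide)
  have hQ : ∀ S, Q (rk N) X z ∅ S = min (Q (rk M) X z ∅ S) k := fun S => hmin _
  rw [hQ, hQ] at h1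
  have hc' := Cfg_iff.1 hc
  have hu := Q_card' (X := X) (z := z) hr ∅ (A := ∅) (B := {3, 4, 5}) 3 (by decide) (by decide)
  refine ⟨X, z, Cfg_iff.2 ⟨fun T hT => ?_, fun w => ?_⟩⟩
  · have h2 := hc'.1 T hT
    rw [hQ, hQ] at h2
    have h3 := Q_card' (X := X) (z := z) hr ∅ (A := ∅) (B := T) 3 (by simp) (by simp [hT.1])
    omega
  · have h2 := hc'.2 w
    rw [hQ, hQ] at h2
    omega

/-- direct sums -/
lemma rk_sum {β : Type v} (M : Matroid α) (N : Matroid β) [M.Finite] [N.Finite]
    [(M.sum N).Finite] (S : Set (α ⊕ β)) :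
    rk (M.sum N) S = rk M (Sum.inl ⁻¹' S) + rk N (Sum.inr ⁻¹' S) := by
  have hsplit : ∀ I : Set (α ⊕ β), I.Finite →
      I.ncard = (Sum.inl ⁻¹' I).ncard + (Sum.inr ⁻¹' I).ncard := by
    intro I hI
    have e : I = Sum.inl '' (Sum.inl ⁻¹' I) ∪ Sum.inr '' (Sum.inr ⁻¹' I) := by
      ext y
      rcases y with y | y <;> simp
    have f1 : (Sum.inl ⁻¹' I).Finite := hI.preimage Sum.inl_injective.injOn
    have f2 : (Sum.inr ⁻¹' I).Finite := hI.preimage Sum.inr_injective.injOn
    conv_lhs => rw [e]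
    rw [Set.ncard_union_eq _ (f1.image _) (f2.image _),
      Set.ncard_image_of_injective _ Sum.inl_injective,
      Set.ncard_image_of_injective _ Sum.inr_injective]
    rw [Set.disjoint_left]
    rintro y ⟨a, _, rfl⟩ ⟨b, _, h⟩
    exact Sum.inr_ne_inl h
  apply le_antisymm
  · obtain ⟨I, h1, h2, h3⟩ := (le_rk_iff (M.sum N)).1 (le_refl (rk (M.sum N) S))
    have hfin : I.Finite := (M.sum N).ground_finite.subset h2.subset_ground
    rw [Matroid.sum_indep_iff] at h2
    rw [← h3, hsplit I hfin]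
    have a1 := (le_rk_iff M).2 ⟨Sum.inl ⁻¹' I, Set.preimage_mono h1, h2.1, rfl⟩
    have a2 := (le_rk_iff N).2 ⟨Sum.inr ⁻¹' I, Set.preimage_mono h1, h2.2, rfl⟩
    omega
  · obtain ⟨I, h1, h2, h3⟩ := (le_rk_iff M).1 (le_refl (rk M (Sum.inl ⁻¹' S)))
    obtain ⟨J, g1, g2, g3⟩ := (le_rk_iff N).1 (le_refl (rk N (Sum.inr ⁻¹' S)))
    have f1 : I.Finite := M.ground_finite.subset h2.subset_ground
    have f2 : J.Finite := N.ground_finite.subset g2.subset_ground
    have e1 : Sum.inl ⁻¹' ((Sum.inl '' I ∪ Sum.inr '' J : Set (α ⊕ β))) = I := by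
      ext y; simp
    have e2 : Sum.inr ⁻¹' ((Sum.inl '' I ∪ Sum.inr '' J : Set (α ⊕ β))) = J := by
      ext y; simp
    rw [le_rk_iff]
    refine ⟨Sum.inl '' I ∪ Sum.inr '' J, ?_, ?_, ?_⟩
    · rintro y (⟨a, ha, rfl⟩ | ⟨a, ha, rfl⟩)
      · exact h1 ha
      · exact g1 ha
    · rw [Matroid.sum_indep_iff, e1, e2]; exact ⟨h2, g2⟩
    · rw [hsplit _ ((f1.image _).union (f2.image _)), e1, e2, h3, g3]

lemma two_in_tree : ∀ (w : Fin 4) (i j : Fin 6), i ∈ line w → j ∈ line w → i ≠ j →
    ∃ T : Finset (Fin 6), IsTree T ∧ i ∈ T ∧ j ∈ T := by decide +kernel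

lemma line_inter : ∀ i j : Fin 6, ∃ w w' : Fin 4, ∃ k, i ∈ line w ∧ k ∈ line w ∧ k ∈ line w' ∧
    j ∈ line w' := by decide +kernel

lemma line_three : ∀ (w : Fin 4) (i j : Fin 6), i ∈ line w → j ∈ line w → i ≠ j →
    ∃ k, k ≠ i ∧ k ≠ j ∧ line w = {i, j, k} := by decide +kernel

lemma K4M_sum {β : Type v} (M : Matroid α) (N : Matroid β) [M.Finite] [N.Finite]
    [(M.sum N).Finite] (h : K4M (M.sum N)) : K4M M ∨ K4M N := by
  obtain ⟨X, z, hc⟩ := h
  have hr := rk_rankFn (M.sum N)
  have hr1 := rk_rankFn M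
  have hr2 := rk_rankFn N
  have hc' := Cfg_iff.1 hc
  set X1 : Set α := Sum.inl ⁻¹' X with hX1
  set X2 : Set β := Sum.inr ⁻¹' X with hX2
  -- every subset of size at most three of a tree is independent
  have hind : ∀ T : Finset (Fin 6), IsTree T → ∀ S ⊆ T,
      Q (rk (M.sum N)) X z ∅ S = Q (rk (M.sum N)) X z ∅ ∅ + S.card := by
    intro T hT S hS
    have h1 := hc'.1 T hT
    have h2 := Q_card' (X := X) (z := z) hr ∅ (T \ S).card hS (le_refl _)
    have h3 := Q_card' (X := X) (z := z) hr ∅ (A := ∅) (B := S) S.card (by simp) (by simp)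
    have h4 : (T \ S).card + S.card = T.card := Finset.card_sdiff_add_card_eq_card hS
    have h5 := hT.1
    omega
  -- elements of a line are on the same side
  have hside : ∀ w : Fin 4, ∀ i ∈ line w, ∀ j ∈ line w, (z i).isLeft = (z j).isLeft := by
    intro w
    by_contra hcon
    push Not at hcon
    obtain ⟨i0, hi0, j0, hj0, hne0⟩ := hcon
    have hij0 : i0 ≠ j0 := fun h => hne0 (by rw [h])
    obtain ⟨k0, hk1, hk2, hk3⟩ := line_three w i0 j0 hi0 hj0 hij0
    -- get two on the same side and one on the other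
    have hex : ∃ i j k : Fin 6, i ≠ j ∧ k ≠ i ∧ k ≠ j ∧ line w = {i, j, k} ∧
        (z i).isLeft = (z j).isLeft ∧ (z k).isLeft ≠ (z i).isLeft := by
      rcases hik : (z i0).isLeft with _ | _ <;> rcases hjk : (z j0).isLeft with _ | _ <;>
        rcases hkk : (z k0).isLeft with _ | _
      · exact absurd (hik.trans hjk.symm) hne0
      · exact absurd (hik.trans hjk.symm) hne0
      · exact ⟨i0, k0, j0, hk1.symm, hij0.symm, hk2.symm, by
          rw [hk3]; ext x; simp only [Finset.mem_insert, Finset.mem_singleton]; tauto,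
          by rw [hik, hkk], by rw [hik, hjk]; simp⟩
      · exact ⟨j0, k0, i0, hk2.symm, hij0, hk1.symm, by
          rw [hk3]; ext x; simp only [Finset.mem_insert, Finset.mem_singleton]; tauto,
          by rw [hjk, hkk], by rw [hik, hjk]; simp⟩
      · exact ⟨j0, k0, i0, hk2.symm, hij0, hk1.symm, by
          rw [hk3]; ext x; simp only [Finset.mem_insert, Finset.mem_singleton]; tauto,
          by rw [hjk, hkk], by rw [hik, hjk]; simp⟩
      · exact ⟨i0, k0, j0, hk1.symm, hij0.symm, hk2.symm, by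
          rw [hk3]; ext x; simp only [Finset.mem_insert, Finset.mem_singleton]; tauto,
          by rw [hik, hkk], by rw [hik, hjk]; simp⟩
      · exact absurd (hik.trans hjk.symm) hne0
      · exact absurd (hik.trans hjk.symm) hne0
    obtain ⟨i, j, k, hij, hki, hkj, hline, hs1, hs2⟩ := hex
    have hiw : i ∈ line w := by rw [hline]; simp
    have hjw : j ∈ line w := by rw [hline]; simp
    have hkw : k ∈ line w := by rw [hline]; simp
    obtain ⟨T, hT, hiT, hjT⟩ := two_in_tree w i j hiw hjw hij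
    obtain ⟨T', hT', hkT', _⟩ := two_in_tree w k i hkw hiw hki
    have a1 := hind T hT {i, j} (by
      intro x hx
      rw [Finset.mem_insert, Finset.mem_singleton] at hx
      rcases hx with rfl | rfl
      · exact hiT
      · exact hjT)
    have a2 := hind T' hT' {k} (by
      intro x hx
      rw [Finset.mem_singleton] at hx
      subst hx; exact hkT')
    have a3 := hc'.2 w
    rw [hline] at a3
    rw [Finset.card_pair hij] at a1
    rw [Finset.card_singleton] at a2
    simp only [Q, Set.union_empty, rk_sum] at a1 a2 a3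
    simp only [Finset.coe_insert, Finset.coe_singleton, Finset.coe_empty, Set.image_empty,
      Set.image_insert_eq, Set.image_singleton, Set.union_empty, Set.preimage_union] at a1 a2 a3
    rcases hzi : z i with y1 | y1 <;> rcases hzj : z j with y2 | y2 <;>
      rcases hzk : z k with y3 | y3 <;> rw [hzi, hzj] at hs1 <;> rw [hzi, hzk] at hs2 <;>
      simp only [Sum.isLeft_inl, Sum.isLeft_inr, ne_eq, not_true_eq_false, Bool.true_eq_false,
        Bool.false_eq_true, not_false_eq_true] at hs1 hs2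
    · rw [hzi, hzj] at a1 a3
      rw [hzk] at a2 a3
      have b1 : Sum.inl ⁻¹' ({Sum.inl y1, Sum.inl y2} : Set (α ⊕ β)) = {y1, y2} := by
        ext y; simp
      have b2 : Sum.inr ⁻¹' ({Sum.inl y1, Sum.inl y2} : Set (α ⊕ β)) = ∅ := by
        ext y; simp
      have b3 : Sum.inl ⁻¹' ({Sum.inr y3} : Set (α ⊕ β)) = ∅ := by
        ext y; simp
      have b4 : Sum.inr ⁻¹' ({Sum.inr y3} : Set (α ⊕ β)) = {y3} := by
        ext y; simp
      have b5 : Sum.inl ⁻¹' ({Sum.inl y1, Sum.inl y2, Sum.inr y3} : Set (α ⊕ β)) = {y1, y2} := by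
        ext y; simp
      have b6 : Sum.inr ⁻¹' ({Sum.inl y1, Sum.inl y2, Sum.inr y3} : Set (α ⊕ β)) = {y3} := by
        ext y; simp
      rw [b1, b2] at a1
      rw [b3, b4] at a2
      rw [b5, b6] at a3
      simp only [Set.union_empty] at a1 a2 a3
      omega
    · rw [hzi, hzj] at a1 a3
      rw [hzk] at a2 a3
      have b1 : Sum.inl ⁻¹' ({Sum.inr y1, Sum.inr y2} : Set (α ⊕ β)) = ∅ := by
        ext y; simp
      have b2 : Sum.inr ⁻¹' ({Sum.inr y1, Sum.inr y2} : Set (α ⊕ β)) = {y1, y2} := by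
        ext y; simp
      have b3 : Sum.inl ⁻¹' ({Sum.inl y3} : Set (α ⊕ β)) = {y3} := by
        ext y; simp
      have b4 : Sum.inr ⁻¹' ({Sum.inl y3} : Set (α ⊕ β)) = ∅ := by
        ext y; simp
      have b5 : Sum.inl ⁻¹' ({Sum.inr y1, Sum.inr y2, Sum.inl y3} : Set (α ⊕ β)) = {y3} := by
        ext y; simp
      have b6 : Sum.inr ⁻¹' ({Sum.inr y1, Sum.inr y2, Sum.inl y3} : Set (α ⊕ β)) = {y1, y2} := by
        ext y; simp
      rw [b1, b2] at a1
      rw [b3, b4] at a2
      rw [b5, b6] at a3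
      simp only [Set.union_empty] at a1 a2 a3
      omega
  have hall : ∀ i j, (z i).isLeft = (z j).isLeft := by
    intro i j
    obtain ⟨w, w', k, h1, h2, h3, h4⟩ := line_inter i j
    exact (hside w i h1 k h2).trans (hside w' k h3 j h4)
  rcases h0 : z 0 with y0 | y0
  · left
    have hz : ∀ i, ∃ y, z i = Sum.inl y := by
      intro i
      have := hall i 0
      rw [h0] at this
      rcases hi : z i with y | y
      · exact ⟨y, rfl⟩
      · rw [hi] at this; simp at this
    choose f hf using hz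
    have e : ∀ S : Set (Fin 6), rk (M.sum N) (X ∪ z '' S) = rk M (X1 ∪ f '' S) + rk N X2 := by
      intro S
      rw [rk_sum]
      congr 2
      · ext y
        simp only [Set.mem_preimage, Set.mem_union, Set.mem_image, hX1]
        refine or_congr_right ⟨?_, ?_⟩
        · rintro ⟨i, hi, h⟩
          exact ⟨i, hi, Sum.inl_injective ((hf i).symm.trans h)⟩
        · rintro ⟨i, hi, rfl⟩
          exact ⟨i, hi, hf i⟩
      · ext y
        simp only [Set.mem_preimage, Set.mem_union, Set.mem_image, hX2]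
        constructor
        · rintro (h | ⟨i, hi, h⟩)
          · exact h
          · rw [hf] at h; simp at h
        · exact Or.inl
    have e0 : rk (M.sum N) X = rk M X1 + rk N X2 := rk_sum M N X
    refine ⟨X1, f, fun T hT => ?_, fun w => ?_⟩
    · have := hc.tree T hT
      rw [e, e0] at this
      omega
    · have := hc.line w
      rw [e, e0] at this
      omega
  · right
    have hz : ∀ i, ∃ y, z i = Sum.inr y := by
      intro i
      have := hall i 0
      rw [h0] at this
      rcases hi : z i with y | y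
      · rw [hi] at this; simp at this
      · exact ⟨y, rfl⟩
    choose f hf using hz
    have e : ∀ S : Set (Fin 6), rk (M.sum N) (X ∪ z '' S) = rk M X1 + rk N (X2 ∪ f '' S) := by
      intro S
      rw [rk_sum]
      congr 2
      · ext y
        simp only [Set.mem_preimage, Set.mem_union, Set.mem_image, hX1]
        constructor
        · rintro (h | ⟨i, hi, h⟩)
          · exact h
          · rw [hf] at h; simp at h
        · exact Or.inl
      · ext y
        simp only [Set.mem_preimage, Set.mem_union, Set.mem_image, hX2]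
        refine or_congr_right ⟨?_, ?_⟩
        · rintro ⟨i, hi, h⟩
          exact ⟨i, hi, Sum.inr_injective ((hf i).symm.trans h)⟩
        · rintro ⟨i, hi, rfl⟩
          exact ⟨i, hi, hf i⟩
    have e0 : rk (M.sum N) X = rk M X1 + rk N X2 := rk_sum M N X
    refine ⟨X2, f, fun T hT => ?_, fun w => ?_⟩
    · have := hc.tree T hT
      rw [e, e0] at this
      omega
    · have := hc.line w
      rw [e, e0] at this
      omega

end Pool.Agent.X52.K4Ops
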