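import Mathlib
import Pool.Agent.X52.K4Ops

/-!
Separators, components and ranks of finite matroids.
-/

namespace Pool.Agent.X52.LP

open Set Pool.Agent.X52.K4Ops
open scoped Matroid

universe u

variable {α : Type u} {M : Matroid α}

lemma rk_mono [M.Finite] {X Y : Set α} (h : X ⊆ Y) : rk M X ≤ rk M Y := (rk_rankFn M).mono _ _ h

lemma rk_submod [M.Finite] (X Y : Set α) : rk M (X ∩ Y) + rk M (X ∪ Y) ≤ rk M X + rk M Y :=
  (rk_rankFn M).sub _ _

lemma rk_union_le [M.Finite] (X Y : Set α) : rk M (X ∪ Y) ≤ rk M X + rk M Y := by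
  have := rk_submod (M := M) X Y
  omega

lemma rk_indep [M.Finite] {I : Set α} (h : M.Indep I) : rk M I = I.ncard := by
  have hf : I.Finite := M.ground_finite.subset h.subset_ground
  exact le_antisymm (rk_le_ncard M hf) ((indep_iff_rk M hf).1 h)

lemma rk_isBasis [M.Finite] {I X : Set α} (h : M.IsBasis I X) : rk M X = I.ncard := by
  rw [← rk_indep h.indep, rk, rk, h.eRk_eq_eRk]

lemma ncard_le_rk [M.Finite] {I X : Set α} (h : M.Indep I) (hI : I ⊆ X) : I.ncard ≤ rk M X := by
  rw [← rk_indep h]; exact rk_mono hI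

lemma rk_closure [M.Finite] (X : Set α) : rk M (M.closure X) = rk M X := by
  rw [rk, rk, Matroid.eRk_closure_eq]

lemma isBasis_of_ncard [M.Finite] {I X : Set α} (h : M.Indep I) (hI : I ⊆ X) (hX : X ⊆ M.E)
    (hr : rk M X ≤ I.ncard) : M.IsBasis I X := by
  obtain ⟨J, hJ, hIJ⟩ := h.subset_isBasis_of_subset hI hX
  have h1 := rk_isBasis hJ
  have h2 : I = J := Set.eq_of_subset_of_ncard_le hIJ (by omega)
    (M.ground_finite.subset hJ.indep.subset_ground)
  rw [h2]; exact hJ

lemma rk_circuit [M.Finite] {C : Set α} (hC : M.IsCircuit C) : rk M C + 1 = C.ncard := by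
  have hf : C.Finite := M.ground_finite.subset hC.subset_ground
  obtain ⟨e, he⟩ := hC.nonempty
  have h1 := rk_isBasis (hC.sdiff_singleton_isBasis he)
  have h2 := Set.ncard_sdiff_singleton_add_one he hf
  omega

/-- an element spanned by a set, in terms of rank -/
lemma mem_closure_of_rk [M.Finite] {X : Set α} {x : α} (hX : X ⊆ M.E) (hx : x ∈ M.E)
    (h : rk M (insert x X) ≤ rk M X) : x ∈ M.closure X := by
  obtain ⟨I, hI⟩ := M.exists_isBasis X
  rw [← hI.closure_eq_closure]
  by_contra hcon
  rw [hI.indep.notMem_closure_iff hx] at hcon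
  have h1 := ncard_le_rk hcon.1 (Set.insert_subset_insert (a := x) hI.subset)
  have hf : I.Finite := M.ground_finite.subset hI.indep.subset_ground
  rw [Set.ncard_insert_of_notMem hcon.2 hf, ← rk_isBasis hI] at h1
  omega

lemma rk_of_mem_closure [M.Finite] {X : Set α} {x : α} (h : x ∈ M.closure X) :
    rk M (insert x X) ≤ rk M X := by
  rw [← rk_closure X, rk, ← Matroid.eRk_closure_eq, Matroid.closure_insert_eq_of_mem_closure h]
  rfl

/-! ### Separators -/

/-- a separator: no circuit crosses it -/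
def Sep (M : Matroid α) (S : Set α) : Prop := ∀ C, M.IsCircuit C → C ⊆ S ∨ Disjoint C S

lemma Sep.compl {S : Set α} (h : Sep M S) : Sep M (M.E \ S) := by
  intro C hC
  rcases h C hC with h1 | h1
  · right
    rw [Set.disjoint_left]
    intro x hx hx2
    exact hx2.2 (h1 hx)
  · left
    intro x hx
    exact ⟨hC.subset_ground hx, Set.disjoint_left.1 h1 hx⟩

lemma Sep.inter {S T : Set α} (h : Sep M S) (h' : Sep M T) : Sep M (S ∩ T) := by
  intro C hC
  rcases h C hC with h1 | h1
  · rcases h' C hC with h2 | h2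
    · exact Or.inl (Set.subset_inter h1 h2)
    · exact Or.inr (h2.mono_right Set.inter_subset_right)
  · exact Or.inr (h1.mono_right Set.inter_subset_left)

lemma Sep.union {S T : Set α} (h : Sep M S) (h' : Sep M T) : Sep M (S ∪ T) := by
  intro C hC
  rcases h C hC with h1 | h1
  · exact Or.inl (h1.trans Set.subset_union_left)
  · rcases h' C hC with h2 | h2
    · exact Or.inl (h2.trans Set.subset_union_right)
    · exact Or.inr (Disjoint.union_right h1 h2)

lemma Sep.rk [M.Finite] {S : Set α} (h : Sep M S) {X : Set α} (hX : X ⊆ M.E) :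
    rk M X = K4Ops.rk M (X ∩ S) + K4Ops.rk M (X \ S) := by
  apply le_antisymm
  · have := rk_union_le (M := M) (X ∩ S) (X \ S)
    rwa [Set.inter_union_sdiff] at this
  · obtain ⟨I, hI⟩ := M.exists_isBasis (X ∩ S) (Set.inter_subset_left.trans hX)
    obtain ⟨J, hJ⟩ := M.exists_isBasis (X \ S) (Set.sdiff_subset.trans hX)
    have hIJ : M.Indep (I ∪ J) := by
      rw [Matroid.indep_iff_forall_subset_not_isCircuit
        (Set.union_subset hI.indep.subset_ground hJ.indep.subset_ground)]
      intro C hCs hC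
      rcases h C hC with h1 | h1
      · have : C ⊆ I := by
          intro x hx
          rcases hCs hx with h2 | h2
          · exact h2
          · exact absurd (h1 hx) (hJ.subset h2).2
        exact hC.dep.not_indep (hI.indep.subset this)
      · have : C ⊆ J := by
          intro x hx
          rcases hCs hx with h2 | h2
          · exact absurd (hI.subset h2).2 (Set.disjoint_left.1 h1 hx)
          · exact h2
        exact hC.dep.not_indep (hJ.indep.subset this)
    have h1 := ncard_le_rk hIJ (X := X) (Set.union_subset (hI.subset.trans Set.inter_subset_left)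
      (hJ.subset.trans Set.sdiff_subset))
    have hdis : Disjoint I J := by
      rw [Set.disjoint_left]
      intro x h2 h3
      exact (hJ.subset h3).2 (hI.subset h2).2
    rw [Set.ncard_union_eq hdis (M.ground_finite.subset hI.indep.subset_ground)
      (M.ground_finite.subset hJ.indep.subset_ground)] at h1
    rw [rk_isBasis hI, rk_isBasis hJ]
    exact h1

/-- the components: minimal nonempty separators -/
def Comp (M : Matroid α) (K : Set α) : Prop :=
  K ⊆ M.E ∧ K.Nonempty ∧ Sep M K ∧ ∀ S ⊆ M.E, Sep M S → S.Nonempty → S ⊆ K → K ⊆ S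

lemma Comp.subset_of_mem {K S : Set α} (hK : Comp M K) (hS : Sep M S) {x : α} (hx : x ∈ K)
    (hx' : x ∈ S) : K ⊆ S := by
  have := hK.2.2.2 (K ∩ S) (Set.inter_subset_left.trans hK.1) (hK.2.2.1.inter hS) ⟨x, hx, hx'⟩
    Set.inter_subset_left
  exact this.trans Set.inter_subset_right

lemma Comp.eq_of_mem {K L : Set α} (hK : Comp M K) (hL : Comp M L) {x : α} (hx : x ∈ K)
    (hx' : x ∈ L) : K = L :=
  Set.Subset.antisymm (hK.subset_of_mem hL.2.2.1 hx hx') (hL.subset_of_mem hK.2.2.1 hx' hx)

lemma exists_comp {x : α} (hx : x ∈ M.E) : ∃ K, Comp M K ∧ x ∈ K := by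
  set K : Set α := {y ∈ M.E | ∀ S ⊆ M.E, Sep M S → x ∈ S → y ∈ S} with hK
  have hxK : x ∈ K := ⟨hx, fun S _ _ h => h⟩
  have hsep : Sep M K := by
    intro C hC
    by_cases h : ∀ S ⊆ M.E, Sep M S → x ∈ S → C ⊆ S
    · left
      intro y hy
      exact ⟨hC.subset_ground hy, fun S h1 h2 h3 => h S h1 h2 h3 hy⟩
    · push Not at h
      obtain ⟨S, h1, h2, h3, h4⟩ := h
      right
      rcases h2 C hC with h5 | h5
      · exact absurd h5 h4
      · rw [Set.disjoint_left]
        intro y hy hy2
        exact Set.disjoint_left.1 h5 hy (hy2.2 S h1 h2 h3)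
  refine ⟨K, ⟨fun y hy => hy.1, ⟨x, hxK⟩, hsep, ?_⟩, hxK⟩
  intro S hSE hS ⟨s, hs⟩ hSK
  by_cases hxS : x ∈ S
  · intro y hy
    exact hy.2 S hSE hS hxS
  · exfalso
    have h1 : Sep M (M.E \ S) := hS.compl
    exact ((hSK hs).2 (M.E \ S) Set.sdiff_subset h1 ⟨hx, hxS⟩).2 hs

/-- a circuit meeting a component lies in it -/
lemma Comp.circuit {K C : Set α} (hK : Comp M K) (hC : M.IsCircuit C) {x : α} (hx : x ∈ C)
    (hx' : x ∈ K) : C ⊆ K := by
  rcases hK.2.2.1 C hC with h | h
  · exact h
  · exact absurd hx' (Set.disjoint_left.1 h hx)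

end Pool.Agent.X52.LP
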