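import Mathlib
import Pool.Agent.X52.LPSep

/-!
Matroids with a linear order in which circuits span their hulls tightly.
-/

namespace Pool.Agent.X52.LP

open Set Pool.Agent.X52.K4Ops
open scoped Matroid

universe u

variable {α : Type u} {M : Matroid α} {pos : α → ℤ}

/-- the elements before `t` -/
def pre (M : Matroid α) (pos : α → ℤ) (t : ℤ) : Set α := {x | x ∈ M.E ∧ pos x < t}

/-- the elements from `t` on -/
def suf (M : Matroid α) (pos : α → ℤ) (t : ℤ) : Set α := {x | x ∈ M.E ∧ t ≤ pos x}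

structure Ord (M : Matroid α) (pos : α → ℤ) : Prop where
  inj : Set.InjOn pos M.E
  hull : ∀ C, M.IsCircuit C → ∀ a ∈ C, ∀ b ∈ C, (∀ x ∈ C, pos a ≤ pos x ∧ pos x ≤ pos b) →
    rk M (pre M pos (pos b + 1)) + rk M (suf M pos (pos a)) ≤ rk M M.E + rk M C

lemma pre_subset (t : ℤ) : pre M pos t ⊆ M.E := fun _ h => h.1
lemma suf_subset (t : ℤ) : suf M pos t ⊆ M.E := fun _ h => h.1

lemma pre_mono {s t : ℤ} (h : s ≤ t) : pre M pos s ⊆ pre M pos t := fun _ hx => ⟨hx.1, hx.2.trans_le h⟩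
lemma suf_anti {s t : ℤ} (h : s ≤ t) : suf M pos t ⊆ suf M pos s := fun _ hx => ⟨hx.1, h.trans hx.2⟩

lemma pre_neg (t : ℤ) : pre M (fun x => - pos x) t = suf M pos (1 - t) := by
  ext x
  simp only [pre, suf, Set.mem_ofPred_eq]
  constructor <;> rintro ⟨h1, h2⟩ <;> exact ⟨h1, by omega⟩

lemma suf_neg (t : ℤ) : suf M (fun x => - pos x) t = pre M pos (1 - t) := by
  ext x
  simp only [pre, suf, Set.mem_ofPred_eq]
  constructor <;> rintro ⟨h1, h2⟩ <;> exact ⟨h1, by omega⟩

lemma Ord.neg (h : Ord M pos) : Ord M (fun x => - pos x) := by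
  refine ⟨fun x hx y hy e => h.inj hx hy (by simpa using e), fun C hC a ha b hb hab => ?_⟩
  have := h.hull C hC b hb a ha (fun x hx => by have := hab x hx; omega)
  rw [pre_neg, suf_neg]
  have e1 : 1 - (- pos b + 1) = pos b := by ring
  have e2 : 1 - (- pos a) = pos a + 1 := by ring
  rw [e1, e2]
  omega

lemma exists_min [M.Finite] {C : Set α} (hC : C ⊆ M.E) (hne : C.Nonempty) (f : α → ℤ) :
    ∃ a ∈ C, ∀ x ∈ C, f a ≤ f x := by
  obtain ⟨a, ha, h⟩ := Set.exists_min_image C f (M.ground_finite.subset hC) hne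
  exact ⟨a, ha, h⟩

lemma exists_max [M.Finite] {C : Set α} (hC : C ⊆ M.E) (hne : C.Nonempty) (f : α → ℤ) :
    ∃ a ∈ C, ∀ x ∈ C, f x ≤ f a := by
  obtain ⟨a, ha, h⟩ := Set.exists_max_image C f (M.ground_finite.subset hC) hne
  exact ⟨a, ha, h⟩

/-- the hull of a circuit is spanned by it -/
lemma Ord.mem_closure [M.Finite] (h : Ord M pos) {C : Set α} (hC : M.IsCircuit C) {z : α}
    (hz : z ∈ M.E) {p q : α} (hp : p ∈ C) (hq : q ∈ C) (h1 : pos p ≤ pos z)
    (h2 : pos z ≤ pos q) : z ∈ M.closure C := by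
  obtain ⟨a, ha, ha'⟩ := exists_min hC.subset_ground hC.nonempty pos
  obtain ⟨b, hb, hb'⟩ := exists_max hC.subset_ground hC.nonempty pos
  have key := h.hull C hC a ha b hb (fun x hx => ⟨ha' x hx, hb' x hx⟩)
  have hsub := rk_submod (M := M) (pre M pos (pos b + 1)) (suf M pos (pos a))
  have hE : M.E ⊆ pre M pos (pos b + 1) ∪ suf M pos (pos a) := by
    intro x hx
    by_cases hxb : pos x < pos b + 1
    · exact Or.inl ⟨hx, hxb⟩
    · right
      exact ⟨hx, by have := ha' b hb; omega⟩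
  have hE' := rk_mono (M := M) hE
  have hI : insert z C ⊆ pre M pos (pos b + 1) ∩ suf M pos (pos a) := by
    intro x hx
    rcases hx with rfl | hx
    · have e1 := ha' p hp
      have e2 := hb' q hq
      exact ⟨⟨hz, by omega⟩, ⟨hz, by omega⟩⟩
    · have e1 := ha' x hx
      have e2 := hb' x hx
      exact ⟨⟨hC.subset_ground hx, by omega⟩, ⟨hC.subset_ground hx, by omega⟩⟩
  have hI' := rk_mono (M := M) hI
  exact mem_closure_of_rk hC.subset_ground hz (by omega)

def Cut (M : Matroid α) (pos : α → ℤ) (t : ℤ) : Prop :=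
  rk M (pre M pos t) + rk M (suf M pos t) ≤ rk M M.E

lemma Cut.sep [M.Finite] {t : ℤ} (h : Cut M pos t) : Sep M (pre M pos t) := by
  intro C hC
  by_contra hcon
  push Not at hcon
  obtain ⟨h1, h2⟩ := hcon
  obtain ⟨q, hq, hq'⟩ := Set.not_subset.1 h1
  obtain ⟨p, hp, hp'⟩ := Set.not_disjoint_iff.1 h2
  have i1 : M.Indep (C ∩ pre M pos t) := by
    apply hC.ssubset_indep
    refine ⟨Set.inter_subset_left, fun hh => hq' (hh hq).2⟩
  have i2 : M.Indep (C ∩ suf M pos t) := by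
    apply hC.ssubset_indep
    refine ⟨Set.inter_subset_left, fun hh => ?_⟩
    have := (hh hp).2.2
    have := hp'.2
    omega
  have s1 := rk_submod (M := M) C (pre M pos t)
  have s2 := rk_submod (M := M) (C ∪ pre M pos t) (suf M pos t)
  have s3 : rk M M.E ≤ rk M (C ∪ pre M pos t ∪ suf M pos t) := by
    apply rk_mono
    intro x hx
    by_cases hxt : pos x < t
    · exact Or.inl (Or.inr ⟨hx, hxt⟩)
    · exact Or.inr ⟨hx, by omega⟩
  have s4 : rk M (C ∩ suf M pos t) ≤ rk M ((C ∪ pre M pos t) ∩ suf M pos t) :=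
    rk_mono (Set.inter_subset_inter_left _ Set.subset_union_left)
  have s5 := rk_circuit hC
  rw [rk_indep i1] at s1
  rw [rk_indep i2] at s4
  have hf : C.Finite := M.ground_finite.subset hC.subset_ground
  have s6 : C.ncard ≤ (C ∩ pre M pos t).ncard + (C ∩ suf M pos t).ncard := by
    have : C ⊆ (C ∩ pre M pos t) ∪ (C ∩ suf M pos t) := by
      intro x hx
      by_cases hxt : pos x < t
      · exact Or.inl ⟨hx, hC.subset_ground hx, hxt⟩
      · exact Or.inr ⟨hx, hC.subset_ground hx, by omega⟩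
    exact (Set.ncard_le_ncard this ((hf.subset Set.inter_subset_left).union
      (hf.subset Set.inter_subset_left))).trans (Set.ncard_union_le _ _)
  unfold Cut at h
  omega

lemma cut_of_sep [M.Finite] {t : ℤ} (h : Sep M (pre M pos t)) : Cut M pos t := by
  have h1 := h.rk (Set.Subset.refl M.E)
  have e1 : M.E ∩ pre M pos t = pre M pos t := Set.inter_eq_self_of_subset_right (pre_subset t)
  have e2 : M.E \ pre M pos t = suf M pos t := by
    ext x
    simp only [pre, suf, Set.mem_sdiff, Set.mem_ofPred_eq]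
    constructor
    · rintro ⟨h1, h2⟩
      exact ⟨h1, by by_contra h3; exact h2 ⟨h1, by omega⟩⟩
    · rintro ⟨h1, h2⟩
      exact ⟨h1, fun h3 => by omega⟩
  rw [e1, e2] at h1
  unfold Cut
  omega

lemma exists_cross [M.Finite] {t : ℤ} (h : ¬ Cut M pos t) :
    ∃ C, M.IsCircuit C ∧ (∃ p ∈ C, pos p < t) ∧ ∃ q ∈ C, t ≤ pos q := by
  by_contra hcon
  push Not at hcon
  apply h
  apply cut_of_sep
  intro C hC
  by_cases hp : ∃ p ∈ C, pos p < t
  · left
    intro x hx
    exact ⟨hC.subset_ground hx, hcon C hC hp x hx⟩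
  · right
    push Not at hp
    rw [Set.disjoint_left]
    intro x hx hx'
    have := hp x hx
    have := hx'.2
    omega

lemma Ord.loop_cut [M.Finite] (h : Ord M pos) {z : α} (hz : M.IsCircuit {z}) :
    Cut M pos (pos z) ∧ Cut M pos (pos z + 1) := by
  have h1 := h.hull {z} hz z rfl z rfl (by rintro x rfl; exact ⟨le_refl _, le_refl _⟩)
  have h2 := rk_circuit hz
  rw [Set.ncard_singleton] at h2
  have h3 := rk_mono (M := M) (pre_mono (M := M) (pos := pos) (s := pos z) (t := pos z + 1)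
    (by omega))
  have h4 := rk_mono (M := M) (suf_anti (M := M) (pos := pos) (s := pos z) (t := pos z + 1)
    (by omega))
  unfold Cut
  omega

lemma side_loop {K C : Set α} (hK : Sep M K) {z : α}
    (hz : z ∈ M.closure C) (h : (C ⊆ K ∧ z ∉ K) ∨ (Disjoint C K ∧ z ∈ K)) : M.IsCircuit {z} := by
  have hzC : z ∉ C := by
    rcases h with ⟨h1, h2⟩ | ⟨h1, h2⟩
    · exact fun h3 => h2 (h1 h3)
    · exact fun h3 => Set.disjoint_left.1 h1 h3 h2
  obtain ⟨D, hD, hDc, hzD⟩ := Matroid.exists_isCircuit_of_mem_closure hz hzC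
  have : D = {z} := by
    apply Set.Subset.antisymm _ (by rintro x rfl; exact hzD)
    intro x hx
    rcases hD hx with h1 | h1
    · exact h1
    · exfalso
      rcases h with ⟨h2, h3⟩ | ⟨h2, h3⟩
      · rcases hK D hDc with h4 | h4
        · exact h3 (h4 hzD)
        · exact Set.disjoint_left.1 h4 hx (h2 h1)
      · rcases hK D hDc with h4 | h4
        · exact Set.disjoint_left.1 h2 h1 (h4 hx)
        · exact Set.disjoint_left.1 h4 hzD h3
  rwa [this] at hDc

lemma Comp.no_cut [M.Finite] {K : Set α} (hK : Comp M K) {x y : α} (hx : x ∈ K) (hy : y ∈ K)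
    {t : ℤ} (h1 : pos x < t) (h2 : t ≤ pos y) : ¬ Cut M pos t := by
  intro h
  have := hK.subset_of_mem h.sep hx ⟨hK.1 hx, h1⟩ hy
  have := this.2
  omega

lemma Comp.convex_aux [M.Finite] (h : Ord M pos) {K : Set α} (hK : Comp M K) {x y z : α}
    (hx : x ∈ K) (hy : y ∈ K) (hz : z ∈ M.E) (h1 : pos x < pos z) (h2 : pos z < pos y) :
    z ∈ K := by
  by_contra hzK
  obtain ⟨a, ⟨ha, haz⟩, hmax⟩ := exists_max (M := M) (C := {a | a ∈ K ∧ pos a < pos z})
    (fun a ha => hK.1 ha.1) ⟨x, hx, h1⟩ pos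
  have hnc := hK.no_cut (pos := pos) ha hy (t := pos a + 1) (by omega) (by omega)
  obtain ⟨C, hC, ⟨p, hp, hp'⟩, q, hq, hq'⟩ := exists_cross hnc
  rcases hK.2.2.1 C hC with h3 | h3
  · have hqz : pos z ≤ pos q := by
      by_contra hcon
      have := hmax q ⟨h3 hq, by omega⟩
      omega
    have hcl := h.mem_closure hC hz hp hq (by omega) hqz
    have hl := side_loop hK.2.2.1 hcl (Or.inl ⟨h3, hzK⟩)
    exact hK.no_cut (pos := pos) ha hy (t := pos z) haz (by omega) (h.loop_cut hl).1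
  · have hcl := h.mem_closure hC (hK.1 ha) hp hq (by omega) (by omega)
    have hl := side_loop hK.2.2.1 hcl (Or.inr ⟨h3, ha⟩)
    exact hnc (h.loop_cut hl).2

lemma Comp.convex [M.Finite] (h : Ord M pos) {K : Set α} (hK : Comp M K) {x y z : α}
    (hx : x ∈ K) (hy : y ∈ K) (hz : z ∈ M.E) (h1 : pos x ≤ pos z) (h2 : pos z ≤ pos y) :
    z ∈ K := by
  rcases eq_or_lt_of_le h1 with h3 | h3
  · rw [← h.inj (hK.1 hx) hz h3]; exact hx
  rcases eq_or_lt_of_le h2 with h4 | h4
  · rw [h.inj hz (hK.1 hy) h4]; exact hy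
  exact hK.convex_aux h hx hy hz h3 h4

lemma Comp.cut_start [M.Finite] (h : Ord M pos) {K : Set α} (hK : Comp M K) {k : α}
    (hk : k ∈ K) (hmin : ∀ x ∈ K, pos k ≤ pos x) : Cut M pos (pos k) := by
  by_contra hcon
  obtain ⟨C, hC, ⟨p, hp, hp'⟩, q, hq, hq'⟩ := exists_cross hcon
  rcases hK.2.2.1 C hC with h3 | h3
  · have := hmin p (h3 hp)
    omega
  · have hcl := h.mem_closure hC (hK.1 hk) hp hq (by omega) (by omega)
    have hl := side_loop hK.2.2.1 hcl (Or.inr ⟨h3, hk⟩)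
    exact hcon (h.loop_cut hl).1

lemma cut_neg (t : ℤ) : Cut M (fun x => - pos x) t ↔ Cut M pos (1 - t) := by
  unfold Cut
  rw [pre_neg, suf_neg, add_comm]

/-- the part of `pre` in a component -/
lemma Comp.rk_pre [M.Finite] (h : Ord M pos) {K : Set α} (hK : Comp M K) {k b : α}
    (hk : k ∈ K) (hmin : ∀ x ∈ K, pos k ≤ pos x) (hb : b ∈ K) :
    pre M pos (pos b + 1) ∩ pre M pos (pos k) = pre M pos (pos k) ∧
    pre M pos (pos b + 1) \ pre M pos (pos k) = K ∩ pre M pos (pos b + 1) ∧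
    rk M (pre M pos (pos b + 1)) = rk M (pre M pos (pos k)) + rk M (K ∩ pre M pos (pos b + 1)) := by
  have hkb := hmin b hb
  have e1 : pre M pos (pos b + 1) ∩ pre M pos (pos k) = pre M pos (pos k) :=
    Set.inter_eq_self_of_subset_right (pre_mono (by omega))
  have e2 : pre M pos (pos b + 1) \ pre M pos (pos k) = K ∩ pre M pos (pos b + 1) := by
    ext x
    constructor
    · rintro ⟨hx, hx'⟩
      have hkx : pos k ≤ pos x := by
        by_contra hcon
        exact hx' ⟨hx.1, by omega⟩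
      have := hx.2
      exact ⟨hK.convex h hk hb hx.1 hkx (by omega), hx⟩
    · rintro ⟨hx, hx'⟩
      refine ⟨hx', fun hx2 => ?_⟩
      have := hmin x hx
      have := hx2.2
      omega
  refine ⟨e1, e2, ?_⟩
  have := (hK.cut_start h hk hmin).sep.rk (pre_subset (M := M) (pos := pos) (pos b + 1))
  rwa [e1, e2] at this

/-- the hull inequality within a component -/
lemma Comp.hull [M.Finite] (h : Ord M pos) {K : Set α} (hK : Comp M K) {C : Set α}
    (hC : M.IsCircuit C) (hCK : C ⊆ K) {a b : α} (ha : a ∈ C) (hb : b ∈ C)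
    (hab : ∀ x ∈ C, pos a ≤ pos x ∧ pos x ≤ pos b) :
    rk M (K ∩ pre M pos (pos b + 1)) + rk M (K ∩ suf M pos (pos a)) ≤ rk M K + rk M C := by
  obtain ⟨k, hk, hkmin⟩ := exists_min hK.1 hK.2.1 pos
  obtain ⟨l, hl, hlmax⟩ := exists_max hK.1 hK.2.1 pos
  have h1 := h.hull C hC a ha b hb hab
  obtain ⟨_, _, h2⟩ := hK.rk_pre h hk hkmin (hCK hb)
  obtain ⟨_, _, h3⟩ := hK.rk_pre h.neg hl (fun x hx => neg_le_neg (hlmax x hx)) (hCK ha)
  have e1 : pre M (fun x => - pos x) (- pos a + 1) = suf M pos (pos a) := by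
    rw [pre_neg]; congr 1; ring
  have e2 : pre M (fun x => - pos x) (- pos l) = suf M pos (pos l + 1) := by
    rw [pre_neg]; congr 1; ring
  rw [e1, e2] at h3
  have h4 : rk M M.E ≤ rk M (pre M pos (pos k)) + rk M K + rk M (suf M pos (pos l + 1)) := by
    have hE : M.E ⊆ pre M pos (pos k) ∪ K ∪ suf M pos (pos l + 1) := by
      intro x hx
      by_cases hxk : pos x < pos k
      · exact Or.inl (Or.inl ⟨hx, hxk⟩)
      by_cases hxl : pos l + 1 ≤ pos x
      · exact Or.inr ⟨hx, hxl⟩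
      · exact Or.inl (Or.inr (hK.convex h hk hl hx (by omega) (by omega)))
    have a1 := rk_mono (M := M) hE
    have a2 := rk_union_le (M := M) (pre M pos (pos k) ∪ K) (suf M pos (pos l + 1))
    have a3 := rk_union_le (M := M) (pre M pos (pos k)) K
    omega
  omega

/-! ### Greedy bases and the families -/

def Greedy (M : Matroid α) (pos : α → ℤ) (B : Set α) : Prop :=
  M.Indep B ∧ ∀ t, (B ∩ pre M pos t).ncard = rk M (pre M pos t)

/-- the family of relatively closed cyclic subsets of `K` spanned by elements of `B` -/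
structure Fam (M : Matroid α) (B A K : Set α) : Prop where
  sub : A ⊆ K
  closed : ∀ X ⊆ M.E, A ⊆ X → X ⊆ K → (∃ I ⊆ M.E, M.IsBasis I A ∧ M.IsBasis I X) → X ⊆ A
  cyc : ∀ X ⊆ M.E, (∀ C ⊆ M.E, M.IsCircuit C → C ⊆ A → C ⊆ X) → A ⊆ X
  span : ∃ I ⊆ M.E, I ⊆ B ∧ M.IsBasis I A

lemma Fam.mem_of_closure {B A K : Set α} (hA : Fam M B A K) (hK : K ⊆ M.E) {z : α} (hz : z ∈ K)
    (hcl : z ∈ M.closure A) : z ∈ A := by
  obtain ⟨I, hI⟩ := M.exists_isBasis A (hA.sub.trans hK)
  apply hA.closed (insert z A) (Set.insert_subset (hK hz) (hA.sub.trans hK))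
    (Set.subset_insert _ _) (Set.insert_subset hz hA.sub) _ (Set.mem_insert _ _)
  refine ⟨I, hI.indep.subset_ground, hI, ?_⟩
  apply hI.indep.isBasis_of_subset_of_subset_closure (hI.subset.trans (Set.subset_insert _ _))
  rw [hI.closure_eq_closure]
  exact Set.insert_subset hcl (M.subset_closure A (hA.sub.trans hK))

lemma Fam.exists_circuit {B A K : Set α} (hA : Fam M B A K) {x : α}
    (hx : x ∈ A) : ∃ C, M.IsCircuit C ∧ C ⊆ A ∧ x ∈ C := by
  have := hA.cyc {y | y ∈ M.E ∧ ∃ C, M.IsCircuit C ∧ C ⊆ A ∧ y ∈ C} (fun y hy => hy.1)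
    (fun C hCE hC hCA y hy => ⟨hCE hy, C, hC, hCA, hy⟩) hx
  exact this.2

lemma Fam.initial [M.Finite] (h : Ord M pos) {K B A : Set α} (hK : Comp M K)
    (hB : Greedy M pos B) (hA : Fam M B A K) {x y : α} (hx : x ∈ A) (hy : y ∈ K)
    (hlt : pos y < pos x) : y ∈ A := by
  by_contra hyA
  have hAE : A ⊆ M.E := hA.sub.trans hK.1
  -- the last element of `K \ A` before `x`
  obtain ⟨y0, ⟨hy0K, hy0A, hy0x⟩, hmax⟩ := exists_max (M := M)
    (C := {y | y ∈ K ∧ y ∉ A ∧ pos y < pos x}) (fun a ha => hK.1 ha.1) ⟨y, hy, hyA, hlt⟩ pos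
  obtain ⟨w, ⟨hwA, hwy⟩, hwmin⟩ := exists_min (M := M)
    (C := {w | w ∈ A ∧ pos y0 < pos w}) (fun a ha => hAE ha.1) ⟨x, hx, hy0x⟩ pos
  have hwx : pos w ≤ pos x := hwmin x ⟨hx, hy0x⟩
  have hgap : ∀ z ∈ M.E, pos y0 < pos z → pos w ≤ pos z := by
    intro z hz hyz
    by_contra hcon
    have hzK : z ∈ K := hK.convex h hy0K (hA.sub hx) hz hyz.le (by omega)
    by_cases hzA : z ∈ A
    · have := hwmin z ⟨hzA, hyz⟩
      omega
    · have := hmax z ⟨hzK, hzA, by omega⟩
      omega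
  obtain ⟨C, hC, hCA, hwC⟩ := hA.exists_circuit hwA
  -- circuits in `A` containing an element from `w` on lie from `w` on
  have hright : ∀ D, M.IsCircuit D → D ⊆ A → ∀ z ∈ D, pos w ≤ pos z → ∀ p ∈ D,
      pos w ≤ pos p := by
    intro D hD hDA z hz hwz p hp
    by_contra hcon
    have hp0 : pos p ≤ pos y0 := by
      by_contra hc
      have := hgap p (hAE (hDA hp)) (by omega)
      omega
    have hcl := h.mem_closure hD (hK.1 hy0K) hp hz hp0 (by omega)
    exact hy0A (hA.mem_of_closure hK.1 hy0K (M.closure_subset_closure hDA hcl))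
  have hCmin : ∀ p ∈ C, pos w ≤ pos p := hright C hC hCA w hwC le_rfl
  obtain ⟨b, hb, hbmax⟩ := exists_max hC.subset_ground hC.nonempty pos
  have hull := h.hull C hC w hwC b hb (fun p hp => ⟨hCmin p hp, hbmax p hp⟩)
  have hfill : ∀ D, M.IsCircuit D → D ⊆ A → ∀ z ∈ D, ∀ d ∈ D, ∀ z' ∈ M.E, pos z ≤ pos z' →
      pos z' ≤ pos d → z' ∈ A := by
    intro D hD hDA z hz d hd z' hz' h1 h2
    have hcl := h.mem_closure hD hz' hz hd h1 h2
    have hzK := hK.convex h (hA.sub (hDA hz)) (hA.sub (hDA hd)) hz' h1 h2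
    exact hA.mem_of_closure hK.1 hzK (M.closure_subset_closure hDA hcl)
  obtain ⟨b', ⟨hb'A, hb'w, hb'fill⟩, hb'max⟩ := exists_max (M := M)
    (C := {b' | b' ∈ A ∧ pos w ≤ pos b' ∧ ∀ z ∈ M.E, pos w ≤ pos z → pos z ≤ pos b' → z ∈ A})
    (fun a ha => hAE ha.1) ⟨b, hCA hb, hCmin b hb, hfill C hC hCA w hwC b hb⟩ pos
  have hbb' : pos b ≤ pos b' := hb'max b ⟨hCA hb, hCmin b hb, hfill C hC hCA w hwC b hb⟩
  set T : Set α := {z | z ∈ M.E ∧ pos w ≤ pos z ∧ pos z ≤ pos b'} with hT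
  have hTE : T ⊆ M.E := fun z hz => hz.1
  have hTA : T ⊆ A := fun z hz => hb'fill z hz.1 hz.2.1 hz.2.2
  obtain ⟨I, hIE, hIB, hIA⟩ := hA.span
  have hspan : T ⊆ M.closure (I ∩ T) := by
    intro z hz
    by_cases hzI : z ∈ I
    · exact M.mem_closure_of_mem ⟨hzI, hz⟩ (Set.inter_subset_right.trans hTE)
    have hzcl : z ∈ M.closure I := hIA.subset_closure (hTA hz)
    obtain ⟨D, hDsub, hD, hzD⟩ := Matroid.exists_isCircuit_of_mem_closure hzcl hzI
    have hDA : D ⊆ A := hDsub.trans (Set.insert_subset (hTA hz) hIA.subset)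
    have hDT : D ⊆ T := by
      intro d hd
      refine ⟨hAE (hDA hd), hright D hD hDA z hzD hz.2.1 d hd, ?_⟩
      by_contra hcon
      have : pos d ≤ pos b' := by
        apply hb'max d
        refine ⟨hDA hd, hright D hD hDA z hzD hz.2.1 d hd, fun z' hz' g1 g2 => ?_⟩
        by_cases hz'b : pos z' ≤ pos b'
        · exact hb'fill z' hz' g1 hz'b
        · exact hfill D hD hDA z hzD d hd z' hz' (by have := hz.2.2; omega) g2
      omega
    have h1 := hD.mem_closure_sdiff_singleton_of_mem hzD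
    apply M.closure_subset_closure _ h1
    rintro d ⟨hd, hdz⟩
    refine ⟨?_, hDT hd⟩
    rcases hDsub hd with h2 | h2
    · exact absurd h2 hdz
    · exact h2
  have hBf : B.Finite := M.ground_finite.subset hB.1.subset_ground
  have r1 : rk M T ≤ (B ∩ T).ncard := by
    have a1 := rk_mono (M := M) hspan
    rw [rk_closure] at a1
    have a2 := rk_le_ncard M (I := I ∩ T) ((hBf.subset hIB).subset Set.inter_subset_left)
    have a3 := Set.ncard_le_ncard (Set.inter_subset_inter_left T hIB)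
      (hBf.subset Set.inter_subset_left)
    omega
  have r2 : rk M (pre M pos (pos b' + 1)) = rk M (pre M pos (pos w)) + (B ∩ T).ncard := by
    rw [← hB.2, ← hB.2, ← Set.ncard_union_eq _ (hBf.subset Set.inter_subset_left)
      (hBf.subset Set.inter_subset_left)]
    · congr 1
      ext z
      simp only [Set.mem_inter_iff, Set.mem_union, pre, T, Set.mem_ofPred_eq]
      constructor
      · rintro ⟨g1, g2, g3⟩
        by_cases hzw : pos z < pos w
        · exact Or.inl ⟨g1, g2, hzw⟩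
        · exact Or.inr ⟨g1, g2, by omega, by omega⟩
      · rintro (⟨g1, g2, g3⟩ | ⟨g1, g2, g3, g4⟩)
        · exact ⟨g1, g2, by omega⟩
        · exact ⟨g1, g2, by omega⟩
    · rw [Set.disjoint_left]
      rintro z ⟨_, g1⟩ ⟨_, g2⟩
      have := g1.2
      have := g2.2.1
      omega
  have r3 := rk_submod (M := M) T (pre M pos (pos b + 1))
  have r4 : rk M C ≤ rk M (T ∩ pre M pos (pos b + 1)) := by
    apply rk_mono
    intro p hp
    have := hbmax p hp
    exact ⟨⟨hC.subset_ground hp, hCmin p hp, by omega⟩, hC.subset_ground hp, by omega⟩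
  have r5 : rk M (pre M pos (pos b' + 1)) ≤ rk M (T ∪ pre M pos (pos b + 1)) := by
    apply rk_mono
    intro z hz
    have hz2 := hz.2
    by_cases hzw : pos w ≤ pos z
    · exact Or.inl ⟨hz.1, hzw, by omega⟩
    · right
      have := hCmin b hb
      exact ⟨hz.1, by omega⟩
  have hcut : Cut M pos (pos w) := by
    unfold Cut
    omega
  exact hK.no_cut hy0K (hA.sub hwA) hwy le_rfl hcut

end Pool.Agent.X52.LP
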