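import Mathlib
import Pool.Agent.X52.LPFwd

namespace Pool.Agent.X52.LP

open Set Pool.Agent.X52.K4Ops
open scoped Matroid

universe u

variable {α : Type u} {M : Matroid α} {pos : α → ℤ}

/-- `C` and `K` are the meet and join of a modular pair `A, Z` -/
def Mod (M : Matroid α) (A Z C K : Set α) : Prop :=
  ∃ I ⊆ M.E, ∃ J₁ ⊆ M.E, ∃ J₂ ⊆ M.E, ∃ J₃ ⊆ M.E, M.IsBasis I C ∧ M.IsBasis J₁ A ∧
    M.IsBasis J₂ Z ∧ M.IsBasis J₃ K ∧ I ⊆ J₁ ∧ I ⊆ J₂ ∧
    (∀ Y ⊆ M.E, Y ⊆ J₁ → Y ⊆ J₂ → Y ⊆ I) ∧ J₁ ⊆ J₃ ∧ J₂ ⊆ J₃ ∧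
    ∀ X ⊆ M.E, J₁ ⊆ X → J₂ ⊆ X → J₃ ⊆ X

lemma Mod.rk [M.Finite] {A Z C K : Set α} (h : Mod M A Z C K) :
    K4Ops.rk M A + K4Ops.rk M Z = K4Ops.rk M K + K4Ops.rk M C := by
  obtain ⟨I, hI, J₁, h1, J₂, h2, J₃, h3, bI, b1, b2, b3, i1, i2, hint, j1, j2, huni⟩ := h
  have e1 : J₁ ∩ J₂ = I := by
    apply Set.Subset.antisymm _ (Set.subset_inter i1 i2)
    exact hint _ (Set.inter_subset_left.trans h1) Set.inter_subset_left Set.inter_subset_right
  have e2 : J₁ ∪ J₂ = J₃ := by
    apply Set.Subset.antisymm (Set.union_subset j1 j2)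
    exact huni _ (Set.union_subset h1 h2) Set.subset_union_left Set.subset_union_right
  have := Set.ncard_union_add_ncard_inter J₁ J₂ (M.ground_finite.subset h1)
    (M.ground_finite.subset h2)
  rw [e1, e2] at this
  rw [rk_isBasis bI, rk_isBasis b1, rk_isBasis b2, rk_isBasis b3]
  omega

lemma mod_of_rk [M.Finite] {A Z C K : Set α} (hK : K ⊆ M.E) (hA : A ⊆ K) (hZ : Z ⊆ K)
    (hCA : C ⊆ A) (hCZ : C ⊆ Z) (hAZ : K ⊆ A ∪ Z)
    (h : rk M A + rk M Z ≤ rk M K + rk M C) : Mod M A Z C K := by
  obtain ⟨I, bI⟩ := M.exists_isBasis C (hCA.trans (hA.trans hK))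
  obtain ⟨J₁, b1, i1⟩ := bI.indep.subset_isBasis_of_subset (bI.subset.trans hCA) (hA.trans hK)
  obtain ⟨J₂, b2, i2⟩ := bI.indep.subset_isBasis_of_subset (bI.subset.trans hCZ) (hZ.trans hK)
  have h1 := b1.indep.subset_ground
  have h2 := b2.indep.subset_ground
  have hc := Set.ncard_union_add_ncard_inter J₁ J₂ (M.ground_finite.subset h1)
    (M.ground_finite.subset h2)
  have f12 : (J₁ ∩ J₂).Finite := M.ground_finite.subset (Set.inter_subset_left.trans h1)
  have hle : I.ncard ≤ (J₁ ∩ J₂).ncard := Set.ncard_le_ncard (Set.subset_inter i1 i2) f12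
  have hspan : K ⊆ M.closure (J₁ ∪ J₂) := by
    intro x hx
    rcases hAZ hx with h3 | h3
    · exact M.closure_subset_closure Set.subset_union_left (b1.subset_closure h3)
    · exact M.closure_subset_closure Set.subset_union_right (b2.subset_closure h3)
  have hf : (J₁ ∪ J₂).Finite := (M.ground_finite.subset h1).union (M.ground_finite.subset h2)
  have hr : rk M K ≤ rk M (J₁ ∪ J₂) := by
    have := rk_mono (M := M) hspan
    rwa [rk_closure] at this
  have hr2 := rk_le_ncard M hf
  rw [rk_isBasis bI, rk_isBasis b1, rk_isBasis b2] at h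
  have hint : J₁ ∩ J₂ = I := by
    symm
    apply Set.eq_of_subset_of_ncard_le (Set.subset_inter i1 i2) (by omega) f12
  have hind : M.Indep (J₁ ∪ J₂) := by
    rw [indep_iff_rk M hf]
    omega
  have b3 : M.IsBasis (J₁ ∪ J₂) K :=
    isBasis_of_ncard hind (Set.union_subset (b1.subset.trans hA) (b2.subset.trans hZ)) hK (by omega)
  refine ⟨I, bI.indep.subset_ground, J₁, h1, J₂, h2, J₁ ∪ J₂, Set.union_subset h1 h2, bI, b1, b2,
    b3, i1, i2, fun Y _ g1 g2 => ?_, Set.subset_union_left, Set.subset_union_right,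
    fun X _ g1 g2 => Set.union_subset g1 g2⟩
  rw [← hint]
  exact Set.subset_inter g1 g2

/-- the sentence -/
def Phi (M : Matroid α) : Prop :=
  ∃ B₁ ⊆ M.E, ∃ B₂ ⊆ M.E, ∀ K ⊆ M.E, Comp M K →
    (∀ A ⊆ M.E, ∀ A' ⊆ M.E, Fam M B₁ A K → Fam M B₁ A' K → A ⊆ A' ∨ A' ⊆ A) ∧
    (∀ Z ⊆ M.E, ∀ Z' ⊆ M.E, Fam M B₂ Z K → Fam M B₂ Z' K → Z ⊆ Z' ∨ Z' ⊆ Z) ∧
    (∀ A ⊆ M.E, ∀ Z ⊆ M.E, Fam M B₁ A K → Fam M B₂ Z K → Disjoint A Z ∨ K ⊆ A ∪ Z) ∧
    (∀ C ⊆ M.E, M.IsCircuit C → C ⊆ K → ∃ A ⊆ M.E, ∃ Z ⊆ M.E, Fam M B₁ A K ∧ Fam M B₂ Z K ∧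
      C ⊆ A ∧ C ⊆ Z ∧ Mod M A Z C K)

lemma exists_fam [M.Finite] (h : Ord M pos) {K B C : Set α} (hK : Comp M K)
    (hB : Greedy M pos B) (hC : M.IsCircuit C) (hCK : C ⊆ K) {a b : α} (ha : a ∈ C) (hb : b ∈ C)
    (hab : ∀ x ∈ C, pos a ≤ pos x ∧ pos x ≤ pos b) :
    Fam M B (K ∩ M.closure (K ∩ pre M pos (pos b + 1))) K := by
  set P : Set α := K ∩ pre M pos (pos b + 1) with hP
  have hPK : P ⊆ K := Set.inter_subset_left
  have hPE : P ⊆ M.E := hPK.trans hK.1
  have hPcl : P ⊆ M.closure P := M.subset_closure P hPE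
  have hPA : P ⊆ K ∩ M.closure P := Set.subset_inter hPK hPcl
  have hclA : M.closure (K ∩ M.closure P) = M.closure P := by
    apply Set.Subset.antisymm
    · exact M.closure_subset_closure_of_subset_closure Set.inter_subset_right
    · exact M.closure_subset_closure hPA
  have hCP : C ⊆ P := fun x hx => ⟨hCK hx, hC.subset_ground hx, by have := (hab x hx).2; omega⟩
  have hrA : rk M (K ∩ M.closure P) = rk M P := by
    rw [← rk_closure (M := M) (K ∩ M.closure P), hclA, rk_closure]
  refine ⟨Set.inter_subset_left, ?_, ?_, ?_⟩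
  · rintro X hXE hAX hXK ⟨I, hIE, hIA, hIX⟩
    apply Set.subset_inter hXK
    have := hIX.subset_closure
    rwa [← hclA, ← hIA.closure_eq_closure]
  · intro X hXE hX x hx
    have key : ∃ D, M.IsCircuit D ∧ D ⊆ K ∩ M.closure P ∧ x ∈ D := by
      by_cases hxP : x ∈ P
      · by_cases hxC : x ∈ C
        · exact ⟨C, hC, hCP.trans hPA, hxC⟩
        by_cases hax : pos a ≤ pos x
        · have hxb : pos x ≤ pos b := by have := hxP.2.2; omega
          have hcl := h.mem_closure hC (hPE hxP) ha hb hax hxb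
          obtain ⟨D, hD, hDc, hxD⟩ := Matroid.exists_isCircuit_of_mem_closure hcl hxC
          exact ⟨D, hDc, (hD.trans (Set.insert_subset hxP hCP)).trans hPA, hxD⟩
        · by_contra hcon
          set A : Set α := K ∩ M.closure P with hA
          have hxA : x ∈ A := hx
          have hAE : A ⊆ M.E := Set.inter_subset_left.trans hK.1
          have n1 : x ∉ M.closure (A \ {x}) := by
            intro hcl
            obtain ⟨D, hD, hDc, hxD⟩ := Matroid.exists_isCircuit_of_mem_closure hcl (fun h => h.2 rfl)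
            apply hcon
            refine ⟨D, hDc, ?_, hxD⟩
            rwa [Set.insert_sdiff_singleton, Set.insert_eq_of_mem hxA] at hD
          have n2 : rk M (A \ {x}) + 1 ≤ rk M A := by
            by_contra hc
            apply n1
            apply mem_closure_of_rk (Set.sdiff_subset.trans hAE) (hAE hxA)
            rw [Set.insert_sdiff_singleton, Set.insert_eq_of_mem hxA]
            omega
          -- a circuit of `M` through `x`
          have n3 : ∃ D, M.IsCircuit D ∧ x ∈ D := by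
            by_contra hc
            push Not at hc
            have hsep : Sep M {x} := by
              intro D hD
              right
              rw [Set.disjoint_singleton_right]
              exact hc D hD
            have := hK.subset_of_mem hsep (hPK hxP) rfl (hCK ha)
            rw [Set.mem_singleton_iff] at this
            exact hxC (this ▸ ha)
          obtain ⟨D, hD, hxD⟩ := n3
          have hDK := hK.circuit hD hxD (hPK hxP)
          have n4 : x ∈ M.closure (K \ {x}) :=
            M.closure_subset_closure (Set.sdiff_subset_sdiff_left hDK)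
              (hD.mem_closure_sdiff_singleton_of_mem hxD)
          have n5 := rk_of_mem_closure n4
          rw [Set.insert_sdiff_singleton, Set.insert_eq_of_mem (hPK hxP)] at n5
          have hull := hK.hull h hC hCK ha hb hab
          rw [← hP] at hull
          have s1 := rk_submod (M := M) (A \ {x}) (K ∩ suf M pos (pos a))
          have s2 : rk M C ≤ rk M ((A \ {x}) ∩ (K ∩ suf M pos (pos a))) := by
            apply rk_mono
            intro y hy
            refine ⟨⟨hPA (hCP hy), ?_⟩, hCK hy, hC.subset_ground hy, (hab y hy).1⟩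
            rintro rfl
            exact hxC hy
          have s3 : rk M (K \ {x}) ≤ rk M ((A \ {x}) ∪ (K ∩ suf M pos (pos a))) := by
            apply rk_mono
            rintro y ⟨hy, hyx⟩
            by_cases hyb : pos y ≤ pos b
            · exact Or.inl ⟨hPA ⟨hy, hK.1 hy, by omega⟩, hyx⟩
            · have := (hab b hb).1
              exact Or.inr ⟨hy, hK.1 hy, by omega⟩
          omega
      · obtain ⟨D, hD, hDc, hxD⟩ := Matroid.exists_isCircuit_of_mem_closure hx.2 hxP
        exact ⟨D, hDc, hD.trans (Set.insert_subset hx hPA), hxD⟩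
    obtain ⟨D, hD, hDA, hxD⟩ := key
    exact hX D hD.subset_ground hD hDA hxD
  · have hI : M.Indep (B ∩ P) := hB.1.subset Set.inter_subset_left
    refine ⟨B ∩ P, hI.subset_ground, Set.inter_subset_left, ?_⟩
    apply isBasis_of_ncard hI (Set.inter_subset_right.trans hPA)
      (Set.inter_subset_left.trans hK.1)
    rw [hrA]
    obtain ⟨k, hk, hkmin⟩ := exists_min hK.1 hK.2.1 pos
    obtain ⟨e1, e2, e3⟩ := hK.rk_pre h hk hkmin (hCK hb)
    rw [← hP] at e2 e3
    have hBf : B.Finite := M.ground_finite.subset hB.1.subset_ground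
    have e4 : (B ∩ pre M pos (pos b + 1)).ncard =
        (B ∩ pre M pos (pos k)).ncard + (B ∩ P).ncard := by
      rw [← Set.ncard_union_eq _ (hBf.subset Set.inter_subset_left)
        (hBf.subset Set.inter_subset_left)]
      · congr 1
        rw [← e2, ← Set.inter_union_distrib_left]
        congr 1
        rw [Set.union_sdiff_self]
        rw [Set.union_eq_self_of_subset_left]
        rw [← e1]
        exact Set.inter_subset_left
      · rw [Set.disjoint_left]
        rintro z ⟨_, g1⟩ ⟨_, g2⟩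
        rw [← e2] at g2
        exact g2.2 g1
    rw [hB.2, hB.2] at e4
    omega

/-- the sentence holds -/
theorem phi_of_ord [M.Finite] (h : Ord M pos) {B₁ B₂ : Set α} (h1 : Greedy M pos B₁)
    (h2 : Greedy M (fun x => - pos x) B₂) : Phi M := by
  refine ⟨B₁, h1.1.subset_ground, B₂, h2.1.subset_ground, fun K hKE hK => ⟨?_, ?_, ?_, ?_⟩⟩
  · intro A _ A' _ hA hA'
    by_contra hcon
    push Not at hcon
    obtain ⟨x, hx, hx'⟩ := Set.not_subset.1 hcon.1
    obtain ⟨y, hy, hy'⟩ := Set.not_subset.1 hcon.2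
    rcases lt_trichotomy (pos x) (pos y) with hlt | heq | hlt
    · exact hx' (hA'.initial h hK h1 hy (hA.sub hx) hlt)
    · have := h.inj (hKE (hA.sub hx)) (hKE (hA'.sub hy)) heq
      exact hx' (this ▸ hy)
    · exact hy' (hA.initial h hK h1 hx (hA'.sub hy) hlt)
  · intro A _ A' _ hA hA'
    by_contra hcon
    push Not at hcon
    obtain ⟨x, hx, hx'⟩ := Set.not_subset.1 hcon.1
    obtain ⟨y, hy, hy'⟩ := Set.not_subset.1 hcon.2
    rcases lt_trichotomy (pos x) (pos y) with hlt | heq | hlt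
    · exact hy' (hA.initial h.neg hK h2 hx (hA'.sub hy) (by simpa using hlt))
    · have := h.inj (hKE (hA.sub hx)) (hKE (hA'.sub hy)) heq
      exact hx' (this ▸ hy)
    · exact hx' (hA'.initial h.neg hK h2 hy (hA.sub hx) (by simpa using hlt))
  · intro A _ Z _ hA hZ
    by_cases hdis : Disjoint A Z
    · exact Or.inl hdis
    right
    obtain ⟨x, hxA, hxZ⟩ := Set.not_disjoint_iff.1 hdis
    intro y hy
    rcases lt_trichotomy (pos y) (pos x) with hlt | heq | hlt
    · exact Or.inl (hA.initial h hK h1 hxA hy hlt)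
    · have := h.inj (hKE hy) (hKE (hA.sub hxA)) heq
      exact Or.inl (this ▸ hxA)
    · exact Or.inr (hZ.initial h.neg hK h2 hxZ hy (by simpa using hlt))
  · intro C hCE hC hCK
    obtain ⟨a, ha, hamin⟩ := exists_min hC.subset_ground hC.nonempty pos
    obtain ⟨b, hb, hbmax⟩ := exists_max hC.subset_ground hC.nonempty pos
    have hab : ∀ x ∈ C, pos a ≤ pos x ∧ pos x ≤ pos b := fun x hx => ⟨hamin x hx, hbmax x hx⟩
    have fA := exists_fam h hK h1 hC hCK ha hb hab
    have fZ := exists_fam h.neg hK h2 hC hCK hb ha (fun x hx => by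
      have := hab x hx
      constructor <;> omega)
    have e1 : pre M (fun x => - pos x) (- pos a + 1) = suf M pos (pos a) := by
      rw [pre_neg]; congr 1; ring
    rw [e1] at fZ
    set P : Set α := K ∩ pre M pos (pos b + 1) with hP
    set R : Set α := K ∩ suf M pos (pos a) with hR
    have hPE : P ⊆ M.E := Set.inter_subset_left.trans hKE
    have hRE : R ⊆ M.E := Set.inter_subset_left.trans hKE
    have hPA : P ⊆ K ∩ M.closure P := Set.subset_inter Set.inter_subset_left (M.subset_closure P hPE)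
    have hRZ : R ⊆ K ∩ M.closure R := Set.subset_inter Set.inter_subset_left (M.subset_closure R hRE)
    have hCP : C ⊆ P := fun x hx => ⟨hCK hx, hC.subset_ground hx, by have := (hab x hx).2; omega⟩
    have hCR : C ⊆ R := fun x hx => ⟨hCK hx, hC.subset_ground hx, (hab x hx).1⟩
    refine ⟨_, Set.inter_subset_left.trans hKE, _, Set.inter_subset_left.trans hKE, fA, fZ,
      hCP.trans hPA, hCR.trans hRZ, ?_⟩
    apply mod_of_rk hKE Set.inter_subset_left Set.inter_subset_left (hCP.trans hPA)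
      (hCR.trans hRZ)
    · intro y hy
      by_cases hyb : pos y ≤ pos b
      · exact Or.inl (hPA ⟨hy, hKE hy, by omega⟩)
      · have := (hab b hb).1
        exact Or.inr (hRZ ⟨hy, hKE hy, by omega⟩)
    · have hull := hK.hull h hC hCK ha hb hab
      rw [← hP, ← hR] at hull
      have r1 : rk M (K ∩ M.closure P) ≤ rk M P := by
        rw [← rk_closure (M := M) P]; exact rk_mono Set.inter_subset_right
      have r2 : rk M (K ∩ M.closure R) ≤ rk M R := by
        rw [← rk_closure (M := M) R]; exact rk_mono Set.inter_subset_right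
      omega

end Pool.Agent.X52.LP
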