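import Mathlib
import Pool.Agent.X52.LPPhi

namespace Pool.Agent.X52.LP

open Set Pool.Agent.X52.K4Ops
open scoped Matroid

universe u

variable {α : Type u} {M : Matroid α}

lemma chain_count {𝒲 : Set (Set α)} (hf : 𝒲.Finite)
    (hch : ∀ W ∈ 𝒲, ∀ W' ∈ 𝒲, W ⊆ W' ∨ W' ⊆ W) {W : Set α} (hW : W ∈ 𝒲) {x y : α}
    (hx : x ∈ W) (hy : y ∉ W) :
    {V | V ∈ 𝒲 ∧ x ∉ V}.ncard < {V | V ∈ 𝒲 ∧ y ∉ V}.ncard := by
  apply Set.ncard_lt_ncard _ (hf.subset (fun V hV => hV.1))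
  constructor
  · rintro V ⟨h1, h2⟩
    refine ⟨h1, fun h3 => ?_⟩
    rcases hch W hW V h1 with h4 | h4
    · exact h2 (h4 hx)
    · exact hy (h4 h3)
  · intro h
    exact (h (show W ∈ {V | V ∈ 𝒲 ∧ y ∉ V} from ⟨hW, hy⟩)).2 hx

/-- the lower sets of `K` obtained from the two families -/
def WF (M : Matroid α) (B₁ B₂ K : Set α) : Set (Set α) :=
  {W | Fam M B₁ W K ∨ ∃ Z, Fam M B₂ Z K ∧ W = K \ Z}

theorem key_of_phi [M.Finite] (h : Phi M) : ∃ key : α → ℕ, ∀ B ⊆ M.E, B.ncard = rk M M.E →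
    (∀ D ⊆ M.E, (∀ x ∈ D, ∀ y ∈ M.E, y ∉ D → key x < key y) → (B ∩ D).ncard ≤ rk M D) →
    (∀ U ⊆ M.E, (∀ x ∈ U, ∀ y ∈ M.E, y ∉ U → key y < key x) → (B ∩ U).ncard ≤ rk M U) →
    M.Indep B := by
  classical
  obtain ⟨B₁, hB₁, B₂, hB₂, hPhi⟩ := h
  have hEf : (𝒫 M.E).Finite := M.ground_finite.powerset
  obtain ⟨g, hg⟩ := Set.countable_iff_exists_injOn.1 hEf.countable
  have hcomp : ∀ x : α, ∃ K : Set α, x ∈ M.E → Comp M K ∧ x ∈ K := by
    intro x
    by_cases hx : x ∈ M.E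
    · obtain ⟨K, hK⟩ := exists_comp hx
      exact ⟨K, fun _ => hK⟩
    · exact ⟨∅, fun h => absurd h hx⟩
  choose κ hκ using hcomp
  set N : ℕ := (𝒫 M.E).ncard + 1 with hN
  set c : α → ℕ := fun x => g (κ x) with hc
  set f : α → ℕ := fun x => {V | V ∈ WF M B₁ B₂ (κ x) ∧ x ∉ V}.ncard with hf
  have hWE : ∀ K, Comp M K → WF M B₁ B₂ K ⊆ 𝒫 M.E := by
    rintro K hK W (hW | ⟨Z, hZ, rfl⟩)
    · exact hW.sub.trans hK.1
    · exact Set.sdiff_subset.trans hK.1
  have hfN : ∀ x ∈ M.E, f x < N := by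
    intro x hx
    have : f x ≤ (𝒫 M.E).ncard := by
      apply Set.ncard_le_ncard _ hEf
      intro V hV
      exact hWE _ (hκ x hx).1 hV.1
    omega
  refine ⟨fun x => c x * N + f x, ?_⟩
  have key1 : ∀ x ∈ M.E, ∀ y ∈ M.E, c x < c y → c x * N + f x < c y * N + f y := by
    intro x hx y _ hxy
    have h1 := hfN x hx
    have h2 : (c x + 1) * N ≤ c y * N := Nat.mul_le_mul_right N hxy
    rw [Nat.add_mul, Nat.one_mul] at h2
    omega
  have key2 : ∀ x y, c x = c y → f x < f y → c x * N + f x < c y * N + f y := by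
    intro x y h1 h2
    rw [h1]; omega
  intro B hB hBr hlow hup
  by_contra hBi
  obtain ⟨C, hCB, hC⟩ := (show M.Dep B from ⟨hBi, hB⟩).exists_isCircuit_subset
  obtain ⟨p, hp⟩ := hC.nonempty
  have hpE := hC.subset_ground hp
  obtain ⟨hK, hpK⟩ := hκ p hpE
  set K := κ p with hKdef
  have hCK : C ⊆ K := hK.circuit hC hp hpK
  have hκK : ∀ x ∈ K, κ x = K := by
    intro x hx
    obtain ⟨h1, h2⟩ := hκ x (hK.1 hx)
    exact h1.eq_of_mem hK h2 hx
  have hcK : ∀ x ∈ K, c x = g K := fun x hx => by simp only [hc]; rw [hκK x hx]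
  have hcK' : ∀ x ∈ M.E, c x = g K → x ∈ K := by
    intro x hx h1
    obtain ⟨h2, h3⟩ := hκ x hx
    have : κ x = K := hg (show κ x ∈ 𝒫 M.E from h2.1) (show K ∈ 𝒫 M.E from hK.1) h1
    rw [← this]; exact h3
  obtain ⟨ha, hb, hab, hd⟩ := hPhi K hK.1 hK
  obtain ⟨A, hAE, Z, hZE, hA, hZ, hCA, hCZ, hmod⟩ := hd C hC.subset_ground hC hCK
  have hmod' := hmod.rk
  have hcov : K ⊆ A ∪ Z := by
    rcases hab A hAE Z hZE hA hZ with h1 | h1
    · exact absurd (hCZ hp) (Set.disjoint_left.1 h1 (hCA hp))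
    · exact h1
  -- the lower sets form a chain
  have hWfin : (WF M B₁ B₂ K).Finite := hEf.subset (hWE K hK)
  have hchain : ∀ W ∈ WF M B₁ B₂ K, ∀ W' ∈ WF M B₁ B₂ K, W ⊆ W' ∨ W' ⊆ W := by
    have mixed : ∀ A Z, Fam M B₁ A K → Fam M B₂ Z K → A ⊆ K \ Z ∨ K \ Z ⊆ A := by
      intro A Z hA hZ
      rcases hab A (hA.sub.trans hK.1) Z (hZ.sub.trans hK.1) hA hZ with h1 | h1
      · left
        intro x hx
        exact ⟨hA.sub hx, Set.disjoint_left.1 h1 hx⟩
      · right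
        rintro x ⟨hx, hx'⟩
        exact (h1 hx).resolve_right hx'
    rintro W (hW | ⟨Z, hZ, rfl⟩) W' (hW' | ⟨Z', hZ', rfl⟩)
    · exact ha W (hW.sub.trans hK.1) W' (hW'.sub.trans hK.1) hW hW'
    · exact mixed W Z' hW hZ'
    · exact (mixed W' Z hW' hZ).symm
    · rcases hb Z (hZ.sub.trans hK.1) Z' (hZ'.sub.trans hK.1) hZ hZ' with h1 | h1
      · exact Or.inr (Set.sdiff_subset_sdiff_right h1)
      · exact Or.inl (Set.sdiff_subset_sdiff_right h1)
  have hfK : ∀ W ∈ WF M B₁ B₂ K, ∀ x ∈ K, ∀ y ∈ K, x ∈ W → y ∉ W → f x < f y := by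
    intro W hW x hx y hy hxW hyW
    simp only [hf]
    rw [hκK x hx, hκK y hy]
    exact chain_count hWfin hchain hW hxW hyW
  set S₁ : Set α := {x | x ∈ M.E ∧ c x < g K} with hS₁
  set S₂ : Set α := {x | x ∈ M.E ∧ g K < c x} with hS₂
  have hsep₁ : Sep M S₁ := by
    intro C' hC'
    obtain ⟨p', hp'⟩ := hC'.nonempty
    obtain ⟨h1, h2⟩ := hκ p' (hC'.subset_ground hp')
    have h3 := h1.circuit hC' hp' h2
    have h4 : ∀ x ∈ C', c x = c p' := by
      intro x hx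
      obtain ⟨g1, g2⟩ := hκ x (hC'.subset_ground hx)
      simp only [hc]
      rw [g1.eq_of_mem h1 g2 (h3 hx)]
    by_cases h5 : c p' < g K
    · left
      intro x hx
      exact ⟨hC'.subset_ground hx, by rw [h4 x hx]; exact h5⟩
    · right
      rw [Set.disjoint_left]
      rintro x hx ⟨_, hx2⟩
      rw [h4 x hx] at hx2
      exact h5 hx2
  have hD := hlow (S₁ ∪ A) (Set.union_subset (fun x hx => hx.1) hAE) (by
    rintro x (hx | hx) y hy hyD
    · apply key1 x hx.1 y hy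
      have : ¬ c y < g K := fun h => hyD (Or.inl ⟨hy, h⟩)
      have := hx.2
      omega
    · have hxc := hcK x (hA.sub hx)
      have h1 : ¬ c y < g K := fun h => hyD (Or.inl ⟨hy, h⟩)
      by_cases h2 : c y = g K
      · have hyK := hcK' y hy h2
        apply key2 x y (by omega)
        exact hfK A (Or.inl hA) x (hA.sub hx) y hyK hx (fun h => hyD (Or.inr h))
      · exact key1 x (hAE hx) y hy (by omega))
  have hU := hup (S₂ ∪ Z) (Set.union_subset (fun x hx => hx.1) hZE) (by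
    rintro x (hx | hx) y hy hyD
    · apply key1 y hy x hx.1
      have : ¬ g K < c y := fun h => hyD (Or.inl ⟨hy, h⟩)
      have := hx.2
      omega
    · have hxc := hcK x (hZ.sub hx)
      have h1 : ¬ g K < c y := fun h => hyD (Or.inl ⟨hy, h⟩)
      by_cases h2 : c y = g K
      · have hyK := hcK' y hy h2
        apply key2 y x (by omega)
        exact hfK (K \ Z) (Or.inr ⟨Z, hZ, rfl⟩) y hyK x (hZ.sub hx)
          ⟨hyK, fun h => hyD (Or.inr h)⟩ (fun h => h.2 hx)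
      · exact key1 y hy x (hZE hx) (by omega))
  have r1 := rk_union_le (M := M) S₁ A
  have r2 := rk_union_le (M := M) S₂ Z
  have r3 := hsep₁.rk (Set.Subset.refl M.E)
  have r4 := hK.2.2.1.rk (X := M.E \ S₁) Set.sdiff_subset
  have e1 : M.E ∩ S₁ = S₁ := Set.inter_eq_self_of_subset_right (fun x hx => hx.1)
  have e2 : (M.E \ S₁) ∩ K = K := by
    apply Set.inter_eq_self_of_subset_right
    intro x hx
    refine ⟨hK.1 hx, fun h => ?_⟩
    have := h.2
    rw [hcK x hx] at this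
    omega
  have e3 : (M.E \ S₁) \ K = S₂ := by
    ext x
    constructor
    · rintro ⟨⟨g1, g2⟩, g3⟩
      refine ⟨g1, ?_⟩
      have h1 : ¬ c x < g K := fun h => g2 ⟨g1, h⟩
      have h2 : c x ≠ g K := fun h => g3 (hcK' x g1 h)
      omega
    · rintro ⟨g1, g2⟩
      refine ⟨⟨g1, fun h => ?_⟩, fun h => ?_⟩
      · have := h.2
        omega
      · rw [hcK x h] at g2
        omega
  rw [e1] at r3
  rw [e2, e3] at r4
  have r5 := rk_circuit hC
  have hBf : B.Finite := M.ground_finite.subset hB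
  have n1 := Set.ncard_union_add_ncard_inter (B ∩ (S₁ ∪ A)) (B ∩ (S₂ ∪ Z))
    (hBf.subset Set.inter_subset_left) (hBf.subset Set.inter_subset_left)
  have n2 : B ⊆ B ∩ (S₁ ∪ A) ∪ B ∩ (S₂ ∪ Z) := by
    intro x hx
    rw [← Set.inter_union_distrib_left]
    refine ⟨hx, ?_⟩
    rcases lt_trichotomy (c x) (g K) with h1 | h1 | h1
    · exact Or.inl (Or.inl ⟨hB hx, h1⟩)
    · rcases hcov (hcK' x (hB hx) h1) with h2 | h2
      · exact Or.inl (Or.inr h2)
      · exact Or.inr (Or.inr h2)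
    · exact Or.inr (Or.inl ⟨hB hx, h1⟩)
  have n3 := Set.ncard_le_ncard n2 ((hBf.subset Set.inter_subset_left).union
    (hBf.subset Set.inter_subset_left))
  have n4 : C ⊆ B ∩ (S₁ ∪ A) ∩ (B ∩ (S₂ ∪ Z)) := fun x hx =>
    ⟨⟨hCB hx, Or.inr (hCA hx)⟩, hCB hx, Or.inr (hCZ hx)⟩
  have n5 := Set.ncard_le_ncard n4 ((hBf.subset Set.inter_subset_left).subset Set.inter_subset_left)
  omega

end Pool.Agent.X52.LP
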