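import Mathlib
import Pool.Agent.X52.K4Rank

namespace Pool.Agent.X52.K4Graph

open Pool.Agent.X52.K4Rank

/-- the edges of `K4`, numbered; edge `i` -/
def edv : Fin 6 → Sym2 (Fin 4) := ![s(2, 3), s(1, 3), s(1, 2), s(0, 3), s(0, 2), s(0, 1)]

lemma edv_inj : Function.Injective edv := by decide

lemma edv_notDiag : ∀ i, ¬ (edv i).IsDiag := by decide

lemma edv_surj : ∀ e : Sym2 (Fin 4), ¬ e.IsDiag → ∃ i, edv i = e := by decide

/-- the graph with edge set `S` -/
def GS (S : Finset (Fin 6)) : SimpleGraph (Fin 4) :=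
  SimpleGraph.fromEdgeSet (edv '' (S : Set (Fin 6)))

lemma GS_adj (S : Finset (Fin 6)) (a b : Fin 4) : (GS S).Adj a b ↔ ∃ i ∈ S, edv i = s(a, b) := by
  rw [GS, SimpleGraph.fromEdgeSet_adj]
  constructor
  · rintro ⟨⟨i, hi, h⟩, _⟩
    exact ⟨i, hi, h⟩
  · rintro ⟨i, hi, h⟩
    refine ⟨⟨i, hi, h⟩, ?_⟩
    rintro rfl
    have := edv_notDiag i
    rw [h] at this
    exact this (Sym2.mk_isDiag_iff.2 rfl)

lemma GS_edgeSet (S : Finset (Fin 6)) : (GS S).edgeSet = edv '' (S : Set (Fin 6)) := by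
  rw [GS, SimpleGraph.edgeSet_fromEdgeSet]
  ext e
  simp only [Set.mem_sdiff, Set.mem_image]
  constructor
  · rintro ⟨h, _⟩; exact h
  · rintro ⟨i, hi, rfl⟩
    exact ⟨⟨i, hi, rfl⟩, edv_notDiag i⟩

lemma tri1 : ∀ a b c : Fin 4, ∀ i j k : Fin 6, edv i = s(a, b) → edv j = s(a, c) →
    edv k = s(b, c) → ∃ u, line u = {i, j, k} := by decide +kernel

lemma tri2 : ∀ u : Fin 4, ∃ a b c : Fin 4, ∃ i j k : Fin 6, a ≠ b ∧ a ≠ c ∧ b ≠ c ∧
    i ∈ line u ∧ j ∈ line u ∧ k ∈ line u ∧ edv i = s(a, b) ∧ edv j = s(a, c) ∧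
    edv k = s(b, c) := by decide +kernel

lemma acyclic_iff (S : Finset (Fin 6)) :
    (GS S).IsAcyclic ↔ S.card ≤ 3 ∧ ∀ u, ¬ line u ⊆ S := by
  classical
  constructor
  · intro h
    constructor
    · obtain ⟨F, hF, _, hT⟩ := (SimpleGraph.connected_top (V := Fin 4)).exists_isTree_le_of_le_of_isAcyclic
        (le_top : GS S ≤ ⊤) h
      have h1 := hT.card_edgeFinset
      have h2 : (GS S).edgeFinset ⊆ F.edgeFinset := SimpleGraph.edgeFinset_subset_edgeFinset.2 hF
      have h3 : (GS S).edgeFinset = S.image edv := by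
        ext e
        rw [SimpleGraph.mem_edgeFinset, GS_edgeSet]
        simp
      have h4 := Finset.card_le_card h2
      rw [h3, Finset.card_image_of_injective _ edv_inj] at h4
      rw [Fintype.card_fin] at h1
      omega
    · intro u hu
      obtain ⟨a, b, c, i, j, k, hab, hac, hbc, hi, hj, hk, e1, e2, e3⟩ := tri2 u
      have hcl : ∃ s : Finset (Fin 4), (GS S).IsNClique 3 s := by
        refine ⟨{a, b, c}, ?_⟩
        rw [SimpleGraph.is3Clique_triple_iff]
        exact ⟨(GS_adj S a b).2 ⟨i, hu hi, e1⟩, (GS_adj S a c).2 ⟨j, hu hj, e2⟩,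
          (GS_adj S b c).2 ⟨k, hu hk, e3⟩⟩
      obtain ⟨v, w, hw, _⟩ := SimpleGraph.is3Clique_iff_exists_cycle_length_three.1 hcl
      exact h w hw
  · rintro ⟨h1, h2⟩ v w hw
    have h3 : w.length ≤ 3 := by
      have a1 : w.edges.length = w.length := w.length_edges
      have a2 : w.edges.Nodup := hw.edges_nodup
      have a3 : w.edges.toFinset ⊆ S.image edv := by
        intro e he
        rw [List.mem_toFinset] at he
        have := w.edges_subset_edgeSet he
        rw [GS_edgeSet] at this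
        simpa using this
      have a4 := Finset.card_le_card a3
      rw [List.toFinset_card_of_nodup a2, Finset.card_image_of_injective _ edv_inj] at a4
      omega
    have h4 : 3 ≤ w.length := hw.three_le_length
    obtain ⟨s, hs⟩ := SimpleGraph.is3Clique_iff_exists_cycle_length_three.2
      ⟨v, w, hw, le_antisymm h3 h4⟩
    rw [SimpleGraph.is3Clique_iff] at hs
    obtain ⟨a, b, c, hab, hac, hbc, _⟩ := hs
    obtain ⟨i, hi, ei⟩ := (GS_adj S a b).1 hab
    obtain ⟨j, hj, ej⟩ := (GS_adj S a c).1 hac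
    obtain ⟨k, hk, ek⟩ := (GS_adj S b c).1 hbc
    obtain ⟨u, hu⟩ := tri1 a b c i j k ei ej ek
    apply h2 u
    rw [hu]
    intro x hx
    simp only [Finset.mem_insert, Finset.mem_singleton] at hx
    rcases hx with rfl | rfl | rfl <;> assumption

/-- every admissible set extends to a tree -/
lemma extend_tree : ∀ S : Finset (Fin 6), S.card ≤ 3 → (∀ u, ¬ line u ⊆ S) →
    ∃ T : Finset (Fin 6), IsTree T ∧ S ⊆ T := by decide +kernel

end Pool.Agent.X52.K4Graph
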