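import Mathlib
import Pool.Agent.X52.K4Ops

namespace Pool.Agent.X52.K4Ind

open Set Pool.Agent.X52.K4Rank Pool.Agent.X52.K4Ops
open scoped Matroid

universe u v

variable {α : Type u}

lemma aug (M : Matroid α) [M.Finite] {I J : Set α} (hI : M.Indep I) (hJ : M.Indep J)
    (h : I.ncard < J.ncard) : ∃ e ∈ J, e ∉ I ∧ M.Indep (insert e I) := by
  have hIf : I.Finite := M.ground_finite.subset hI.subset_ground
  have hJf : J.Finite := M.ground_finite.subset hJ.subset_ground
  have h' : I.encard < J.encard := by
    rw [← hIf.cast_ncard_eq, ← hJf.cast_ncard_eq]; exact_mod_cast h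
  obtain ⟨e, he, he2⟩ := hI.exists_insert_of_encard_lt hJ h'
  exact ⟨e, he.1, he.2, he2⟩

/-- independent sets of the principal extension of `M` by `x` on the set `F` -/
def prInd (M : Matroid α) (x : α) (F I : Set α) : Prop :=
  (x ∉ I ∧ M.Indep I) ∨ (x ∈ I ∧ ∃ f ∈ F, f ∉ I ∧ M.Indep (insert f (I \ {x})))

lemma prInd_aug (M : Matroid α) [M.Finite] (x : α) (F : Set α) (hx : x ∉ M.E)
    {I J : Set α} (hI : prInd M x F I) (hJ : prInd M x F J) (h : I.ncard < J.ncard) :
    ∃ e ∈ J, e ∉ I ∧ prInd M x F (insert e I) := by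
  have hnx : ∀ {K : Set α}, M.Indep K → x ∉ K := fun hK h => hx (hK.subset_ground h)
  have card1 : ∀ {K : Set α} {f : α}, x ∈ K → f ∉ K → M.Indep (insert f (K \ {x})) →
      (insert f (K \ {x})).ncard = K.ncard := by
    intro K f hxK hfK hK
    have hfin : (insert f (K \ {x})).Finite := M.ground_finite.subset hK.subset_ground
    have hfin' : (K \ {x}).Finite := hfin.subset (Set.subset_insert _ _)
    rw [Set.ncard_insert_of_notMem (fun h => hfK h.1) hfin']
    have hK : K = insert x (K \ {x}) := by
      rw [Set.insert_sdiff_singleton, Set.insert_eq_of_mem hxK]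
    conv_rhs => rw [hK]
    rw [Set.ncard_insert_of_notMem (fun h => h.2 rfl) hfin']
  rcases hI with ⟨hxI, hI⟩ | ⟨hxI, f, hfF, hfI, hI⟩
  · rcases hJ with ⟨hxJ, hJ⟩ | ⟨hxJ, g, hgF, hgJ, hJ⟩
    · obtain ⟨e, he, he2, he3⟩ := aug M hI hJ h
      exact ⟨e, he, he2, Or.inl ⟨hnx he3, he3⟩⟩
    · have h' : I.ncard < (insert g (J \ {x})).ncard := by rw [card1 hxJ hgJ hJ]; exact h
      obtain ⟨e, he, he2, he3⟩ := aug M hI hJ h'
      rw [Set.mem_insert_iff] at he
      rcases he with rfl | he
      · refine ⟨x, hxJ, hxI, Or.inr ⟨Set.mem_insert _ _, e, hgF, ?_, ?_⟩⟩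
        · rw [Set.mem_insert_iff]
          rintro (rfl | h3)
          · exact hgJ hxJ
          · exact he2 h3
        · rw [Set.insert_sdiff_of_mem _ (Set.mem_singleton _), Set.sdiff_singleton_eq_self hxI]
          exact he3
      · exact ⟨e, he.1, he2, Or.inl ⟨hnx he3, he3⟩⟩
  · have hIins : ∀ e, e ≠ x → (insert e I) \ {x} = insert e (I \ {x}) := by
      intro e he
      rw [Set.insert_sdiff_of_notMem]
      simpa using he
    rcases hJ with ⟨hxJ, hJ⟩ | ⟨hxJ, g, hgF, hgJ, hJ⟩
    · have h' : (insert f (I \ {x})).ncard < J.ncard := by rw [card1 hxI hfI hI]; exact h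
      obtain ⟨e, he, he2, he3⟩ := aug M hI hJ h'
      rw [Set.mem_insert_iff] at he2
      push Not at he2
      have hex : e ≠ x := fun h => hxJ (h ▸ he)
      refine ⟨e, he, fun h3 => he2.2 ⟨h3, hex⟩, Or.inr ⟨Set.mem_insert_of_mem _ hxI, f, hfF, ?_, ?_⟩⟩
      · rw [Set.mem_insert_iff]
        rintro (h3 | h3)
        · exact he2.1 h3.symm
        · exact hfI h3
      · rw [hIins e hex, Set.insert_comm]; exact he3
    · have c1 := card1 hxI hfI hI
      have c2 := card1 hxJ hgJ hJ
      have h' : (insert f (I \ {x})).ncard < (insert g (J \ {x})).ncard := by omega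
      obtain ⟨e, he, he2, he3⟩ := aug M hI hJ h'
      rw [Set.mem_insert_iff] at he he2
      push Not at he2
      rcases he with rfl | he
      · -- `e = g`
        have hIf : (insert f (I \ {x})).Finite := M.ground_finite.subset hI.subset_ground
        have hIf' : (I \ {x}).Finite := hIf.subset (Set.subset_insert _ _)
        have hJf : (insert e (J \ {x})).Finite := M.ground_finite.subset hJ.subset_ground
        have hJf' : (J \ {x}).Finite := hJf.subset (Set.subset_insert _ _)
        have d1 : (insert f (I \ {x})).ncard = (I \ {x}).ncard + 1 :=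
          Set.ncard_insert_of_notMem (fun h => hfI h.1) hIf'
        have d2 : (insert e (J \ {x})).ncard = (J \ {x}).ncard + 1 :=
          Set.ncard_insert_of_notMem (fun h => hgJ h.1) hJf'
        have hI0 : M.Indep (I \ {x}) := hI.subset (Set.subset_insert _ _)
        have hJ0 : M.Indep (J \ {x}) := hJ.subset (Set.subset_insert _ _)
        obtain ⟨y, hy, hy2, hy3⟩ := aug M hI0 hJ0 (by omega)
        have hyx : y ≠ x := hy.2
        have d3 : (insert y (I \ {x})).ncard = (I \ {x}).ncard + 1 :=
          Set.ncard_insert_of_notMem hy2 hIf'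
        have d4 : (insert e (insert f (I \ {x}))).ncard = (I \ {x}).ncard + 2 := by
          rw [Set.ncard_insert_of_notMem (by
            rw [Set.mem_insert_iff]; push Not; exact he2) hIf, d1]
        obtain ⟨w, hw, hw2, hw3⟩ := aug M hy3 he3 (by omega)
        rw [Set.mem_insert_iff] at hw2
        push Not at hw2
        have hwF : w ∈ F := by
          rcases hw with rfl | rfl | hw
          · exact hgF
          · exact hfF
          · exact absurd hw hw2.2
        have hwx : w ≠ x := fun h => hnx hw3 (h ▸ Set.mem_insert _ _)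
        refine ⟨y, hy.1, fun h3 => hy2 ⟨h3, hyx⟩,
          Or.inr ⟨Set.mem_insert_of_mem _ hxI, w, hwF, ?_, ?_⟩⟩
        · rw [Set.mem_insert_iff]
          rintro (h3 | h3)
          · exact hw2.1 h3
          · exact hw2.2 ⟨h3, hwx⟩
        · rw [hIins y hyx]; exact hw3
      · have hex : e ≠ x := he.2
        refine ⟨e, he.1, fun h3 => he2.2 ⟨h3, hex⟩,
          Or.inr ⟨Set.mem_insert_of_mem _ hxI, f, hfF, ?_, ?_⟩⟩
        · rw [Set.mem_insert_iff]
          rintro (h3 | h3)
          · exact he2.1 h3.symm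
          · exact hfI h3
        · rw [hIins e hex, Set.insert_comm]; exact he3

/-- existence of principal extensions, with their properties -/
theorem exists_prExt (M : Matroid α) [M.Finite] (x : α) (F : Set α) (hx : x ∉ M.E) :
    ∃ P : Matroid α, P.Finite ∧ P.E = insert x M.E ∧ (∀ I, P.Indep I ↔ prInd M x F I) ∧
      (K4M P → K4M M) := by
  let P : Matroid α := (IndepMatroid.ofFinite (E := insert x M.E) (M.ground_finite.insert x)
    (prInd M x F) (Or.inl ⟨Set.notMem_empty _, M.empty_indep⟩)
    (by
      rintro I J (⟨hxJ, hJ⟩ | ⟨hxJ, f, hf, hfJ, hJ⟩) hIJ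
      · exact Or.inl ⟨fun h => hxJ (hIJ h), hJ.subset hIJ⟩
      · by_cases hxI : x ∈ I
        · exact Or.inr ⟨hxI, f, hf, fun h => hfJ (hIJ h),
            hJ.subset (Set.insert_subset_insert (Set.sdiff_subset_sdiff_left hIJ))⟩
        · refine Or.inl ⟨hxI, hJ.subset ?_⟩
          intro y hy
          exact Set.mem_insert_of_mem _ ⟨hIJ hy, fun h => hxI (h ▸ hy)⟩)
    (fun I J hI hJ h => prInd_aug M x F hx hI hJ h)
    (by
      rintro I (⟨_, hI⟩ | ⟨hxI, f, hf, hfI, hI⟩)
      · exact hI.subset_ground.trans (Set.subset_insert _ _)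
      · intro y hy
        by_cases hyx : y = x
        · exact hyx ▸ Set.mem_insert _ _
        · exact Set.mem_insert_of_mem _ (hI.subset_ground (Set.mem_insert_of_mem _ ⟨hy, hyx⟩)))).matroid
  have hP : ∀ I, P.Indep I ↔ prInd M x F I := fun I => Iff.rfl
  have hfin : P.Finite := ⟨M.ground_finite.insert x⟩
  refine ⟨P, hfin, rfl, hP, ?_⟩
  have hr := rk_rankFn M
  have hr' := rk_rankFn P
  have hnx : ∀ {K : Set α}, M.Indep K → x ∉ K := fun hK h => hx (hK.subset_ground h)
  apply prext hr hr' x F
  · intro S hS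
    apply le_antisymm
    · obtain ⟨I, h1, h2, h3⟩ := (le_rk_iff P).1 (le_refl (rk P S))
      rw [hP] at h2
      rcases h2 with ⟨_, h2⟩ | ⟨h2, _⟩
      · exact (le_rk_iff M).2 ⟨I, h1, h2, h3⟩
      · exact absurd (h1 h2) hS
    · obtain ⟨I, h1, h2, h3⟩ := (le_rk_iff M).1 (le_refl (rk M S))
      exact (le_rk_iff P).2 ⟨I, h1, (hP I).2 (Or.inl ⟨fun h => hS (h1 h), h2⟩), h3⟩
  · intro S hS
    apply le_antisymm
    · obtain ⟨I, h1, h2, h3⟩ := (le_rk_iff P).1 (le_refl (rk P (insert x S)))
      rw [hP] at h2
      rcases h2 with ⟨hxI, h2⟩ | ⟨hxI, f, hf, hfI, h2⟩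
      · have h4 : I ⊆ S := by
          intro y hy
          rcases h1 hy with rfl | h
          · exact absurd hy hxI
          · exact h
        have h5 := (le_rk_iff M).2 ⟨I, h4, h2, h3⟩
        have h6 := hr.mono S (S ∪ F) Set.subset_union_left
        omega
      · have hfin1 : (insert f (I \ {x})).Finite := M.ground_finite.subset h2.subset_ground
        have hfin2 : (I \ {x}).Finite := hfin1.subset (Set.subset_insert _ _)
        have h4 : I \ {x} ⊆ S := by
          intro y hy
          rcases h1 hy.1 with h | h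
          · exact absurd h hy.2
          · exact h
        have h5 : (I \ {x}).ncard ≤ rk M S :=
          (le_rk_iff M).2 ⟨I \ {x}, h4, h2.subset (Set.subset_insert _ _), rfl⟩
        have h6 : (insert f (I \ {x})).ncard ≤ rk M (S ∪ F) := by
          refine (le_rk_iff M).2 ⟨insert f (I \ {x}), ?_, h2, rfl⟩
          apply Set.insert_subset (Set.mem_union_right _ hf)
          exact h4.trans Set.subset_union_left
        have h7 : (insert f (I \ {x})).ncard = (I \ {x}).ncard + 1 :=
          Set.ncard_insert_of_notMem (fun h => hfI h.1) hfin2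
        have h8 : I.ncard = (I \ {x}).ncard + 1 := by
          conv_lhs => rw [← Set.insert_eq_of_mem hxI, ← Set.insert_sdiff_singleton]
          rw [Set.ncard_insert_of_notMem (fun h => h.2 rfl) hfin2]
        omega
    · by_cases hle : rk M (S ∪ F) ≤ rk M S
      · obtain ⟨I, h1, h2, h3⟩ := (le_rk_iff M).1 (le_refl (rk M S))
        have h4 : rk M S ≤ rk P (insert x S) := (le_rk_iff P).2
          ⟨I, h1.trans (Set.subset_insert _ _), (hP I).2 (Or.inl ⟨hnx h2, h2⟩), h3⟩
        omega
      · obtain ⟨p, hp, hlt⟩ := hr.ext S F (by omega)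
        obtain ⟨I, h1, h2, h3⟩ := (le_rk_iff M).1 (le_refl (rk M S))
        have hIf : I.Finite := M.ground_finite.subset h2.subset_ground
        have h4 : rk M S < rk M (insert p I) := by
          have a := hr.sub (insert p I) S
          have b : rk M I ≤ rk M (insert p I ∩ S) := hr.mono _ _ (fun y hy =>
            ⟨Set.mem_insert_of_mem _ hy, h1 hy⟩)
          have c : rk M (insert p S) ≤ rk M (insert p I ∪ S) := hr.mono _ _ (by
            intro y hy
            rcases hy with rfl | hy
            · exact Or.inl (Set.mem_insert _ _)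
            · exact Or.inr hy)
          have d : I.ncard ≤ rk M I := (indep_iff_rk M hIf).1 h2
          omega
        have h5 : p ∉ I := by
          intro hpI
          rw [Set.insert_eq_of_mem hpI] at h4
          have := rk_le_ncard M hIf
          omega
        have h6 : (insert p I).ncard = I.ncard + 1 := Set.ncard_insert_of_notMem h5 hIf
        have h7 : M.Indep (insert p I) := by
          rw [indep_iff_rk M (hIf.insert p)]; omega
        have h8 : rk M S + 1 ≤ rk P (insert x S) := by
          refine (le_rk_iff P).2 ⟨insert x I, Set.insert_subset_insert h1, ?_, ?_⟩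
          · rw [hP]
            refine Or.inr ⟨Set.mem_insert _ _, p, hp, ?_, ?_⟩
            · rw [Set.mem_insert_iff]
              rintro (rfl | h)
              · exact hnx h7 (Set.mem_insert _ _)
              · exact h5 h
            · rw [Set.insert_sdiff_of_mem _ (Set.mem_singleton _),
                Set.sdiff_singleton_eq_self (hnx h2)]
              exact h7
          · rw [Set.ncard_insert_of_notMem (hnx h2) hIf, h3]
        omega

/-- preimages under injections -/
lemma hasK4_of_preimage {β : Type v} {r : Set α → ℕ} {r' : Set β → ℕ} (hr' : RankFn r')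
    (f : α → β) (hf : Function.Injective f) (h : ∀ S, r' S = r (f ⁻¹' S)) (hk : HasK4 r') :
    HasK4 r := by
  obtain ⟨X, z, hc⟩ := hk
  obtain ⟨hz, _⟩ := Cfg.inter hr' (r := r') (R := Set.range f) (fun S => by
    rw [h, h]
    congr 1
    ext y; simp) hc
  choose g hg using hz
  have key : ∀ S : Set (Fin 6), f ⁻¹' (X ∪ z '' S) = f ⁻¹' X ∪ g '' S := by
    intro S
    ext y
    simp only [Set.mem_preimage, Set.mem_union, Set.mem_image]
    refine or_congr_right ⟨?_, ?_⟩
    · rintro ⟨i, hi, h2⟩
      exact ⟨i, hi, hf ((hg i).trans h2)⟩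
    · rintro ⟨i, hi, rfl⟩
      exact ⟨i, hi, (hg i).symm⟩
  refine ⟨f ⁻¹' X, g, fun T hT => ?_, fun w => ?_⟩
  · have := hc.tree T hT
    rwa [h, h, key] at this
  · have := hc.line w
    rwa [h, h, key] at this

lemma hasK4_of_image {β : Type v} {r : Set β → ℕ} {r' : Set α → ℕ}
    (f : α → β) (h : ∀ S, r' S = r (f '' S)) (hk : HasK4 r') : HasK4 r := by
  obtain ⟨X, z, hc⟩ := hk
  have key : ∀ S : Set (Fin 6), f '' (X ∪ z '' S) = f '' X ∪ (f ∘ z) '' S := by
    intro S
    rw [Set.image_union, Set.image_comp]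
  refine ⟨f '' X, f ∘ z, fun T hT => ?_, fun w => ?_⟩
  · have := hc.tree T hT
    rwa [h, h, key] at this
  · have := hc.line w
    rwa [h, h, key] at this

/-- the condition describing bipartite induction -/
def BipCond {T : Type u} (M : Matroid T) (Rl : T → T → Prop) (B : Set T) (J : Set (T ⊕ T)) : Prop :=
  (∀ t, Sum.inl t ∈ J → t ∈ B) ∧ ∃ μ : T → T,
    (∀ t, Sum.inl t ∈ J → Rl t (μ t) ∧ Sum.inr (μ t) ∉ J) ∧
    (∀ t t', Sum.inl t ∈ J → Sum.inl t' ∈ J → μ t = μ t' → t = t') ∧
    M.Indep ({v | Sum.inr v ∈ J} ∪ μ '' {t | Sum.inl t ∈ J})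

theorem exists_chain {T : Type u} [Finite T] (M : Matroid T) (hM : M.E = Set.univ)
    (Rl : T → T → Prop) (B : Finset T) :
    ∃ P : Matroid (T ⊕ T), P.Finite ∧ P.E = Sum.inr '' Set.univ ∪ Sum.inl '' (B : Set T) ∧
      (∀ J, P.Indep J ↔ BipCond M Rl B J) ∧ (K4M P → K4M M) := by
  classical
  have hMfin : M.Finite := ⟨Set.toFinite _⟩
  induction B using Finset.induction_on with
  | empty =>
    let P : Matroid (T ⊕ T) := M.map Sum.inr Sum.inr_injective.injOn
    have hPE : P.E = Sum.inr '' Set.univ := by
      show (M.map Sum.inr _).E = _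
      rw [Matroid.map_ground, hM]
    have hPfin : P.Finite := ⟨by rw [hPE]; exact Set.toFinite _⟩
    refine ⟨P, hPfin, by rw [hPE]; simp, ?_, ?_⟩
    · intro J
      show (M.map Sum.inr _).Indep J ↔ _
      rw [Matroid.map_indep_iff]
      constructor
      · rintro ⟨I, hI, rfl⟩
        refine ⟨fun t ht => by simp at ht, id, fun t ht => by simp at ht,
          fun t t' ht => by simp at ht, ?_⟩
        have : ({v | Sum.inr v ∈ (Sum.inr '' I : Set (T ⊕ T))} ∪
            id '' {t | Sum.inl t ∈ (Sum.inr '' I : Set (T ⊕ T))}) = I := by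
          ext y; simp
        rw [this]; exact hI
      · rintro ⟨h1, μ, h2, h3, h4⟩
        refine ⟨{v | Sum.inr v ∈ J}, h4.subset Set.subset_union_left, ?_⟩
        ext y
        rcases y with y | y
        · simp only [Set.mem_image, Set.mem_ofPred_eq, reduceCtorEq, and_false, exists_false,
            iff_false]
          intro hy
          have := h1 y hy
          simp at this
        · simp
    · intro hk
      refine hasK4_of_preimage (rk_rankFn P) (Sum.inr : T → T ⊕ T) Sum.inr_injective (r := rk M) ?_ hk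
      intro S
      apply le_antisymm
      · obtain ⟨I, h1, h2, h3⟩ := (le_rk_iff P).1 (le_refl (rk P S))
        rw [show P.Indep I ↔ _ from Matroid.map_indep_iff] at h2
        obtain ⟨I₀, hI₀, rfl⟩ := h2
        refine (le_rk_iff M).2 ⟨I₀, ?_, hI₀, ?_⟩
        · intro y hy; exact h1 ⟨y, hy, rfl⟩
        · rw [← h3, Set.ncard_image_of_injective _ Sum.inr_injective]
      · obtain ⟨I, h1, h2, h3⟩ := (le_rk_iff M).1 (le_refl (rk M (Sum.inr ⁻¹' S)))
        refine (le_rk_iff P).2 ⟨Sum.inr '' I, ?_, ?_, ?_⟩
        · rintro y ⟨a, ha, rfl⟩; exact h1 ha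
        · rw [show P.Indep (Sum.inr '' I) ↔ _ from Matroid.map_indep_iff]
          exact ⟨I, h2, rfl⟩
        · rw [Set.ncard_image_of_injective _ Sum.inr_injective, h3]
  | insert t B htB ih =>
    obtain ⟨P, hPfin, hPE, hPI, hPK⟩ := ih
    have hx : Sum.inl t ∉ P.E := by
      rw [hPE]
      rintro (⟨a, _, h⟩ | ⟨a, ha, h⟩)
      · simp at h
      · have : a = t := Sum.inl_injective h
        subst this
        exact htB (Finset.mem_coe.1 ha)
    obtain ⟨P', hP'fin, hP'E, hP'I, hP'K⟩ := exists_prExt P (Sum.inl t) (Sum.inr '' {v | Rl t v}) hx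
    refine ⟨P', hP'fin, ?_, ?_, fun h => hPK (hP'K h)⟩
    · rw [hP'E, hPE, Finset.coe_insert, Set.image_insert_eq, Set.union_insert]
    intro J
    rw [hP'I]
    have hset : ∀ (μ : T → T), Sum.inl t ∈ J → Sum.inr (μ t) ∉ J →
        ({v | Sum.inr v ∈ insert (Sum.inr (μ t)) (J \ {Sum.inl t})} ∪
          μ '' {s | Sum.inl s ∈ insert (Sum.inr (μ t)) (J \ {Sum.inl t})} : Set T) =
        {v | Sum.inr v ∈ J} ∪ μ '' {s | Sum.inl s ∈ J} := by
      intro μ h1 h2
      ext w
      simp only [Set.mem_union, Set.mem_ofPred_eq, Set.mem_insert_iff, Set.mem_sdiff,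
        Set.mem_singleton_iff, Sum.inr.injEq, reduceCtorEq, not_false_eq_true, and_true,
        Set.mem_image, false_or, Sum.inl.injEq]
      constructor
      · rintro ((rfl | h) | ⟨s, ⟨hs, _⟩, rfl⟩)
        · exact Or.inr ⟨t, h1, rfl⟩
        · exact Or.inl h
        · exact Or.inr ⟨s, hs, rfl⟩
      · rintro (h | ⟨s, hs, rfl⟩)
        · exact Or.inl (Or.inr h)
        · by_cases hst : s = t
          · subst hst; exact Or.inl (Or.inl rfl)
          · exact Or.inr ⟨s, ⟨hs, hst⟩, rfl⟩
    constructor
    · rintro (⟨h1, h2⟩ | ⟨h1, f, ⟨v, hv, rfl⟩, h3, h4⟩)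
      · rw [hPI] at h2
        obtain ⟨a1, μ, a2⟩ := h2
        exact ⟨fun s hs => by
          rw [Finset.coe_insert]; exact Set.mem_insert_of_mem _ (a1 s hs), μ, a2⟩
      · rw [hPI] at h4
        obtain ⟨a1, μ, a2, a3, a4⟩ := h4
        have hmem : ∀ s, s ≠ t → Sum.inl s ∈ J →
            Sum.inl s ∈ insert (Sum.inr v) (J \ {Sum.inl t}) := by
          intro s hs hsJ
          refine Set.mem_insert_of_mem _ ⟨hsJ, ?_⟩
          intro h
          exact hs (Sum.inl_injective h)
        have ht : (Function.update μ t v) t = v := Function.update_self ..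
        refine ⟨fun s hs => ?_, Function.update μ t v, fun s hs => ?_, fun s s' hs hs' h => ?_, ?_⟩
        · rw [Finset.coe_insert]
          by_cases hst : s = t
          · exact hst ▸ Set.mem_insert _ _
          · exact Set.mem_insert_of_mem _ (a1 s (hmem s hst hs))
        · by_cases hst : s = t
          · subst hst; rw [ht]; exact ⟨hv, h3⟩
          · rw [Function.update_of_ne hst]
            obtain ⟨b1, b2⟩ := a2 s (hmem s hst hs)
            refine ⟨b1, fun hb => b2 (Set.mem_insert_of_mem _ ⟨hb, by simp⟩)⟩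
        · by_cases hst : s = t
          · by_cases hst' : s' = t
            · rw [hst, hst']
            · subst hst
              rw [ht, Function.update_of_ne hst'] at h
              exact absurd (by rw [← h]; exact Set.mem_insert _ _) (a2 s' (hmem s' hst' hs')).2
          · by_cases hst' : s' = t
            · subst hst'
              rw [ht, Function.update_of_ne hst] at h
              exact absurd (by rw [h]; exact Set.mem_insert _ _) (a2 s (hmem s hst hs)).2
            · rw [Function.update_of_ne hst, Function.update_of_ne hst'] at h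
              exact a3 s s' (hmem s hst hs) (hmem s' hst' hs') h
        · have e := hset (Function.update μ t v) h1 (by rw [ht]; exact h3)
          rw [ht] at e
          rw [← e]
          have e2 : (Function.update μ t v) '' {s | Sum.inl s ∈ insert (Sum.inr v) (J \ {Sum.inl t})}
              = μ '' {s | Sum.inl s ∈ insert (Sum.inr v) (J \ {Sum.inl t})} := by
            apply Set.image_congr
            intro s hs
            apply Function.update_of_ne
            rintro rfl
            rcases hs with hs | hs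
            · simp at hs
            · exact hs.2 rfl
          rw [e2]; exact a4
    · rintro ⟨a1, μ, a2, a3, a4⟩
      by_cases h1 : Sum.inl t ∈ J
      · right
        refine ⟨h1, Sum.inr (μ t), ⟨μ t, (a2 t h1).1, rfl⟩, (a2 t h1).2, ?_⟩
        rw [hPI]
        refine ⟨fun s hs => ?_, μ, fun s hs => ?_, fun s s' hs hs' h => ?_, ?_⟩
        · rcases hs with hs | hs
          · simp at hs
          · have := a1 s hs.1
            rw [Finset.coe_insert] at this
            rcases this with h | h
            · exact absurd (by rw [h]; rfl) hs.2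
            · exact h
        · rcases hs with hs | hs
          · simp at hs
          · refine ⟨(a2 s hs.1).1, ?_⟩
            rintro (h | h)
            · have := a3 s t hs.1 h1 (Sum.inr_injective h)
              exact hs.2 (by rw [this]; rfl)
            · exact (a2 s hs.1).2 h.1
        · rcases hs with hs | hs
          · simp at hs
          rcases hs' with hs' | hs'
          · simp at hs'
          exact a3 s s' hs.1 hs'.1 h
        · rw [hset μ h1 (a2 t h1).2]; exact a4
      · left
        refine ⟨h1, ?_⟩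
        rw [hPI]
        refine ⟨fun s hs => ?_, μ, a2, a3, a4⟩
        have := a1 s hs
        rw [Finset.coe_insert] at this
        rcases this with h | h
        · exact absurd (h ▸ hs) h1
        · exact h

/-- bipartite induction -/
theorem exists_bip {T : Type u} [Finite T] (M : Matroid T) (hM : M.E = Set.univ)
    (Rl : T → T → Prop) :
    ∃ N : Matroid T, N.E = Set.univ ∧ (∀ I, N.Indep I ↔ ∃ μ : T → T, (∀ t ∈ I, Rl t (μ t)) ∧
      Set.InjOn μ I ∧ M.Indep (μ '' I)) ∧ (K4M N → K4M M) := by
  classical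
  have := Fintype.ofFinite T
  obtain ⟨P, hPfin, hPE, hPI, hPK⟩ := exists_chain M hM Rl Finset.univ
  refine ⟨P.comap Sum.inl, ?_, ?_, ?_⟩
  · rw [Matroid.comap_ground_eq, hPE]
    ext y; simp
  · intro I
    rw [Matroid.comap_indep_iff, hPI]
    have e : ∀ μ : T → T, ({v | Sum.inr v ∈ (Sum.inl '' I : Set (T ⊕ T))} ∪
        μ '' {t | Sum.inl t ∈ (Sum.inl '' I : Set (T ⊕ T))}) = μ '' I := by
      intro μ
      ext y; simp
    constructor
    · rintro ⟨⟨_, μ, a2, a3, a4⟩, _⟩
      rw [e] at a4
      exact ⟨μ, fun t ht => (a2 t ⟨t, ht, rfl⟩).1,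
        fun t ht t' ht' h => a3 t t' ⟨t, ht, rfl⟩ ⟨t', ht', rfl⟩ h, a4⟩
    · rintro ⟨μ, a2, a3, a4⟩
      refine ⟨⟨fun t _ => Finset.mem_coe.2 (Finset.mem_univ _), μ, fun t ht => ⟨?_, ?_⟩,
        fun t t' ht ht' h => ?_, by rw [e]; exact a4⟩, Sum.inl_injective.injOn⟩
      · obtain ⟨t', ht', h⟩ := ht
        rw [← Sum.inl_injective h]; exact a2 t' ht'
      · rintro ⟨a, _, h⟩; simp at h
      · obtain ⟨s, hs, h1⟩ := ht
        obtain ⟨s', hs', h1'⟩ := ht'
        have g1 := Sum.inl_injective h1
        have g2 := Sum.inl_injective h1'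
        subst g1; subst g2
        exact a3 hs hs' h
  · intro hk
    apply hPK
    refine hasK4_of_image (r := rk P) (Sum.inl : T → T ⊕ T) ?_ hk
    intro S
    rw [rk, Matroid.eRk_comap, rk]

end Pool.Agent.X52.K4Ind
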