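import Mathlib

/-!
# Matroid subdivisions of 0/1-polytopes given by families of bases: octahedra
-/

set_option autoImplicit false
set_option linter.unusedSectionVars false

namespace Pool.Agent.X52.PG

open Finset

variable {P : Type} [Fintype P] [DecidableEq P]

/-- indicator vector -/
noncomputable def ind (B : Finset P) : P → ℝ := fun e => if e ∈ B then 1 else 0

/-- polytope of a family of finite sets -/
noncomputable def poly (N : Finset P → Prop) : Set (P → ℝ) :=
  convexHull ℝ {x | ∃ B, N B ∧ x = ind B}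

/-- `x` is the convex combination of the members of `N` with coefficients `l` -/
structure Rep (N : Finset P → Prop) (x : P → ℝ) (l : Finset P → ℝ) : Prop where
  nonneg : ∀ B, 0 ≤ l B
  mem : ∀ B, 0 < l B → N B
  sum : ∑ B, l B = 1
  eq : ∀ e, x e = ∑ B, l B * ind B e

theorem exists_rep {N : Finset P → Prop} {x : P → ℝ} (hx : x ∈ poly N) : ∃ l, Rep N x l := by
  have : poly N ⊆ {x | ∃ l, Rep N x l} := by
    apply convexHull_min
    · rintro x ⟨B, hB, rfl⟩
      refine ⟨fun A => if A = B then 1 else 0, ?_, ?_, ?_, ?_⟩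
      · intro A; split_ifs <;> norm_num
      · intro A hA; split_ifs at hA with h
        · exact h ▸ hB
        · exact absurd hA (lt_irrefl _)
      · simp
      · intro e; simp
    · rintro x ⟨l, hl⟩ y ⟨k, hk⟩ a b ha hb hab
      refine ⟨fun B => a * l B + b * k B, ?_, ?_, ?_, ?_⟩
      · intro B; exact add_nonneg (mul_nonneg ha (hl.nonneg B)) (mul_nonneg hb (hk.nonneg B))
      · intro B hB
        skip
        by_cases h1 : 0 < l B
        · exact hl.mem B h1
        · by_cases h2 : 0 < k B
          · exact hk.mem B h2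
          · have e1 : l B = 0 := le_antisymm (not_lt.1 h1) (hl.nonneg B)
            have e2 : k B = 0 := le_antisymm (not_lt.1 h2) (hk.nonneg B)
            rw [e1, e2] at hB; simp at hB
      · rw [Finset.sum_add_distrib, ← Finset.mul_sum, ← Finset.mul_sum, hl.sum, hk.sum]
        simpa using hab
      · intro e
        have : ∀ B, (a * l B + b * k B) * ind B e = a * (l B * ind B e) + b * (k B * ind B e) := by
          intro B; ring
        simp only [this, Finset.sum_add_distrib, ← Finset.mul_sum]
        rw [← hl.eq, ← hk.eq]; rfl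
  exact this hx

theorem convex_poly (N : Finset P → Prop) : Convex ℝ (poly N) := convex_convexHull _ _

theorem ind_mem {N : Finset P → Prop} {B : Finset P} (h : N B) : ind B ∈ poly N :=
  subset_convexHull _ _ ⟨B, h, rfl⟩

theorem rep_dot {N : Finset P → Prop} {x : P → ℝ} {l : Finset P → ℝ} (h : Rep N x l)
    (s : P → ℝ) : ∑ e, s e * x e = ∑ B, l B * ∑ e, s e * ind B e := by
  have h1 : ∀ e, s e * x e = ∑ B, l B * (s e * ind B e) := by
    intro e; rw [h.eq e, Finset.mul_sum]; apply Finset.sum_congr rfl; intro B _; ring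
  simp only [h1, Finset.mul_sum]
  exact Finset.sum_comm

theorem rep_pos_neg {N : Finset P → Prop} {x : P → ℝ} {l : Finset P → ℝ} (h : Rep N x l)
    (s : P → ℝ) {v : ℝ} (hv : ∑ e, s e * x e = v) {B : Finset P} (hB : 0 < l B)
    (hB' : v < ∑ e, s e * ind B e) : ∃ A, 0 < l A ∧ ∑ e, s e * ind A e < v := by
  by_contra hcon
  push Not at hcon
  have h1 : ∑ A, l A * ((∑ e, s e * ind A e) - v) = 0 := by
    simp only [mul_sub, Finset.sum_sub_distrib]
    rw [← rep_dot h s, hv, ← Finset.sum_mul, h.sum]; ring
  have h2 : 0 < ∑ A, l A * ((∑ e, s e * ind A e) - v) := by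
    apply Finset.sum_pos' 
    · intro A _
      rcases (h.nonneg A).lt_or_eq with h3 | h3
      · exact mul_nonneg h3.le (sub_nonneg.2 (hcon A h3))
      · rw [← h3]; simp
    · exact ⟨B, Finset.mem_univ _, mul_pos hB (sub_pos.2 hB')⟩
  linarith

theorem dot_ind (s : P → ℝ) (B : Finset P) : ∑ e, s e * ind B e = ∑ e ∈ B, s e := by
  simp [ind, Finset.sum_ite_mem]

theorem rep_exists_mem {N : Finset P → Prop} {x : P → ℝ} {l : Finset P → ℝ} (h : Rep N x l)
    {e : P} (he : 0 < x e) : ∃ B, 0 < l B ∧ e ∈ B := by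
  by_contra hcon
  push Not at hcon
  have : x e = 0 := by
    rw [h.eq e]
    apply Finset.sum_eq_zero
    intro B _
    rcases (h.nonneg B).lt_or_eq with h3 | h3
    · have := hcon B h3; simp [ind, this]
    · rw [← h3]; simp
  linarith

theorem rep_exists_not_mem {N : Finset P → Prop} {x : P → ℝ} {l : Finset P → ℝ} (h : Rep N x l)
    {e : P} (he : x e < 1) : ∃ B, 0 < l B ∧ e ∉ B := by
  by_contra hcon
  push Not at hcon
  have : x e = 1 := by
    rw [h.eq e, ← h.sum]
    apply Finset.sum_congr rfl
    intro B _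
    rcases (h.nonneg B).lt_or_eq with h3 | h3
    · have := hcon B h3; simp [ind, this]
    · rw [← h3]; simp
  linarith

theorem rep_mem_of_one {N : Finset P → Prop} {x : P → ℝ} {l : Finset P → ℝ} (h : Rep N x l)
    {e : P} (he : x e = 1) {B : Finset P} (hB : 0 < l B) : e ∈ B := by
  by_contra hcon
  have h1 : ∑ A, l A * (1 - ind A e) = 0 := by
    simp only [mul_sub, Finset.sum_sub_distrib, mul_one]
    rw [h.sum, ← h.eq e, he]; ring
  have h2 : 0 < ∑ A, l A * (1 - ind A e) := by
    apply Finset.sum_pos'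
    · intro A _
      apply mul_nonneg (h.nonneg A)
      simp only [ind]; split_ifs <;> norm_num
    · exact ⟨B, Finset.mem_univ _, by simp [ind, hcon, hB]⟩
  linarith

theorem rep_not_mem_of_zero {N : Finset P → Prop} {x : P → ℝ} {l : Finset P → ℝ} (h : Rep N x l)
    {e : P} (he : x e = 0) {B : Finset P} (hB : 0 < l B) : e ∉ B := by
  intro hcon
  have h1 : ∑ A, l A * ind A e = 0 := by rw [← h.eq e, he]
  have h2 : 0 < ∑ A, l A * ind A e := by
    apply Finset.sum_pos'
    · intro A _
      apply mul_nonneg (h.nonneg A)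
      simp only [ind]; split_ifs <;> norm_num
    · exact ⟨B, Finset.mem_univ _, by simp [ind, hcon, hB]⟩
  linarith

theorem of_ind_mem {N : Finset P → Prop} {B : Finset P} (h : ind B ∈ poly N) : N B := by
  obtain ⟨l, hl⟩ := exists_rep h
  have : ∃ A, 0 < l A := by
    by_contra hcon
    push Not at hcon
    have : ∑ A, l A ≤ 0 := Finset.sum_nonpos (fun A _ => hcon A)
    rw [hl.sum] at this; norm_num at this
  obtain ⟨A, hA⟩ := this
  have : A = B := by
    ext e
    constructor
    · intro he
      by_contra hcon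
      exact rep_not_mem_of_zero hl (by simp [ind, hcon]) hA he
    · intro he
      exact rep_mem_of_one hl (by simp [ind, he]) hA
  exact this ▸ hl.mem A hA

/-- exchange property -/
def Exch (N : Finset P → Prop) : Prop :=
  ∀ A B, N A → N B → ∀ e ∈ A, e ∉ B → ∃ f ∈ B, f ∉ A ∧ N (insert f (A.erase e))

/-- the family `C` of families of sets subdivides the polytope of `M` -/
structure Subd (r : ℕ) (M : Finset P → Prop) (C : Set (Finset P → Prop)) : Prop where
  card : ∀ B, M B → B.card = r
  sub : ∀ N ∈ C, ∀ B, N B → M B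
  exch : ∀ N ∈ C, Exch N
  cover : ∀ x ∈ poly M, ∃ N ∈ C, x ∈ poly N
  face : ∀ N ∈ C, ∀ N' ∈ C, ∀ A B : Finset P, N A → N B →
    (1/2 : ℝ) • ind A + (1/2 : ℝ) • ind B ∈ poly N' → N' A ∧ N' B

/-- `I ∪ {a, b}` -/
def bs (I : Finset P) (a b : P) : Finset P := insert a (insert b I)

theorem bs_comm (I : Finset P) (a b : P) : bs I a b = bs I b a := Finset.insert_comm a b I

/-- the centre of the octahedron -/
noncomputable def oc (I : Finset P) (a b c d : P) : P → ℝ :=
  (1/2 : ℝ) • ind (bs I a b) + (1/2 : ℝ) • ind (bs I c d)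

theorem bs_card {I : Finset P} {r : ℕ} (hI : I.card + 2 = r) {a b : P}
    (h : (bs I a b).card = r) : a ≠ b ∧ a ∉ I ∧ b ∉ I := by
  unfold bs at h
  have hle : (insert b I).card ≤ I.card + 1 := Finset.card_insert_le _ _
  have hle2 : (insert a (insert b I)).card ≤ (insert b I).card + 1 := Finset.card_insert_le _ _
  have hb : b ∉ I := by
    intro hb; rw [Finset.insert_eq_of_mem hb] at hle2 h; omega
  have ha : a ∉ insert b I := by
    intro ha; rw [Finset.insert_eq_of_mem ha] at h; omega
  rw [Finset.mem_insert] at ha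
  push Not at ha
  exact ⟨ha.1, ha.2, hb⟩

theorem ind_bs {I : Finset P} {a b : P} (hab : a ≠ b) (ha : a ∉ I) (hb : b ∉ I) (e : P) :
    ind (bs I a b) e = ind I e + (if e = a then 1 else 0) + (if e = b then 1 else 0) := by
  unfold ind bs
  simp only [Finset.mem_insert]
  by_cases h1 : e = a
  · subst h1; simp [hab, ha]
  · by_cases h2 : e = b
    · subst h2; simp [h1, hb]
    · simp [h1, h2]

end Pool.Agent.X52.PG
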