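import Pool.Agent.X52.PGSplit

/-!
# From the local closure rule to the whole matroid
-/

set_option autoImplicit false
set_option linter.unusedSectionVars false

namespace Pool.Agent.X52.PG

open Finset

variable {P : Type} [Fintype P] [DecidableEq P]
variable {r : ℕ} {M : Finset P → Prop} {C : Set (Finset P → Prop)}

/-- closure rule -/
def Clo (r : ℕ) (M N : Finset P → Prop) : Prop :=
  ∀ (I : Finset P) (a b c d : P), I.card + 2 = r → Q4 M I a b c d → N (bs I a b) →
    N (bs I c d) → N (bs I a c)

/-- all neighbours of `B` in `M` are in `N` -/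
def Comp (N M : Finset P → Prop) (B : Finset P) : Prop :=
  ∀ i ∈ B, ∀ x, x ∉ B → M (insert x (B.erase i)) → N (insert x (B.erase i))

theorem bs_erase2 {B : Finset P} {i j : P} (hi : i ∈ B) (hj : j ∈ B) (hij : i ≠ j) :
    bs ((B.erase i).erase j) i j = B := by
  unfold bs
  rw [Finset.insert_erase (Finset.mem_erase.2 ⟨hij.symm, hj⟩), Finset.insert_erase hi]

theorem ins_erase1 {B : Finset P} {i j : P} (x : P) (hj : j ∈ B) (hij : i ≠ j) :
    insert x (B.erase i) = bs ((B.erase i).erase j) x j := by
  unfold bs
  rw [Finset.insert_erase (Finset.mem_erase.2 ⟨hij.symm, hj⟩)]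

theorem ins_erase2 {B : Finset P} {i j : P} (x : P) (hi : i ∈ B) (hij : i ≠ j) :
    insert x (B.erase j) = bs ((B.erase i).erase j) x i := by
  unfold bs
  rw [Finset.erase_right_comm, Finset.insert_erase (Finset.mem_erase.2 ⟨hij, hi⟩)]

theorem nonloop_ext {N : Finset P → Prop} (hE : Exch N) (hc : ∀ B, N B → B.card = r)
    {B : Finset P} (hB : N B) {x : P} (hx : x ∉ B) :
    ∀ n : ℕ, ∀ A, N A → x ∈ A → (A \ B).card = n → ∃ j ∈ B, N (insert x (B.erase j)) := by
  intro n
  induction n with
  | zero =>
    intro A _ hxA h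
    have : x ∈ A \ B := Finset.mem_sdiff.2 ⟨hxA, hx⟩
    rw [Finset.card_eq_zero] at h
    rw [h] at this; simp at this
  | succ n ih =>
    intro A hA hxA h
    by_cases hex : ∃ e ∈ A, e ∉ B ∧ e ≠ x
    · obtain ⟨e, heA, heB, hex⟩ := hex
      obtain ⟨f, hf, hf', hN⟩ := hE A B hA hB e heA heB
      apply ih _ hN (by simp [hxA, hex.symm])
      have : insert f (A.erase e) \ B = (A \ B).erase e := by
        ext t; simp only [Finset.mem_sdiff, Finset.mem_insert, Finset.mem_erase]
        constructor
        · rintro ⟨h1 | h1, h2⟩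
          · exact absurd (h1 ▸ hf) h2
          · exact ⟨h1.1, h1.2, h2⟩
        · rintro ⟨h1, h2, h3⟩; exact ⟨Or.inr ⟨h1, h2⟩, h3⟩
      rw [this, Finset.card_erase_of_mem (Finset.mem_sdiff.2 ⟨heA, heB⟩), h]; rfl
    · push Not at hex
      have hAB : A \ B = {x} := by
        ext t; simp only [Finset.mem_sdiff, Finset.mem_singleton]
        constructor
        · rintro ⟨h1, h2⟩; exact hex t h1 h2
        · rintro rfl; exact ⟨hxA, hx⟩
      have hBA : (B \ A).card = 1 := by
        have h1 := Finset.card_sdiff_add_card_inter A B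
        have h2 := Finset.card_sdiff_add_card_inter B A
        rw [Finset.inter_comm B A] at h2
        rw [hc A hA, hAB, Finset.card_singleton] at h1
        rw [hc B hB] at h2
        omega
      obtain ⟨j, hj⟩ := Finset.card_eq_one.1 hBA
      have hjm : j ∈ B \ A := by rw [hj]; simp
      rw [Finset.mem_sdiff] at hjm
      refine ⟨j, hjm.1, ?_⟩
      have : insert x (B.erase j) = A := by
        ext t
        simp only [Finset.mem_insert, Finset.mem_erase]
        constructor
        · rintro (h1 | ⟨h1, h2⟩)
          · exact h1 ▸ hxA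
          · by_contra hcon
            have : t ∈ B \ A := Finset.mem_sdiff.2 ⟨h2, hcon⟩
            rw [hj] at this; exact h1 (Finset.mem_singleton.1 this)
        · intro ht
          by_cases htx : t = x
          · exact Or.inl htx
          · right
            refine ⟨fun h' => hjm.2 (h' ▸ ht), ?_⟩
            by_contra hcon
            exact htx (hex t ht hcon)
      rw [this]; exact hA

theorem card_erase2 {B : Finset P} (hB : B.card = r) {i j : P} (hi : i ∈ B) (hj : j ∈ B)
    (hij : i ≠ j) : ((B.erase i).erase j).card + 2 = r := by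
  have h1 := Finset.card_erase_add_one hi
  have h2 := Finset.card_erase_add_one (Finset.mem_erase.2 ⟨hij.symm, hj⟩)
  omega

theorem comp_of_star {N : Finset P → Prop} (hE : Exch N) (hc : ∀ B, N B → B.card = r)
    (hNM : ∀ B, N B → M B) (hClo : Clo r M N) {B : Finset P} (hB : N B) {u : P} (hu : u ∉ B)
    (hstar : ∀ i ∈ B, N (insert u (B.erase i))) (hloop : ∀ x, ∃ A, N A ∧ x ∈ A) :
    Comp N M B := by
  intro i hi x hx hM
  by_cases hxu : x = u
  · rw [hxu]; exact hstar i hi
  obtain ⟨A, hA, hxA⟩ := hloop x
  obtain ⟨j, hj, hNj⟩ := nonloop_ext hE hc hB hx _ A hA hxA rfl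
  by_cases hij : i = j
  · rw [hij]; exact hNj
  have hI := card_erase2 (hc B hB) hi hj hij
  rw [ins_erase1 x hj hij] at hM ⊢
  rw [ins_erase2 x hi hij] at hNj
  have h1 := hstar i hi
  rw [ins_erase1 u hj hij] at h1
  have h2 := hstar j hj
  rw [ins_erase2 u hi hij] at h2
  have h0 := hB
  rw [← bs_erase2 hi hj hij] at h0
  set I := (B.erase i).erase j with hIdef
  have hux : u ≠ x := fun h => hxu h.symm
  have hiu : i ≠ u := fun h => hu (h ▸ hi)
  by_cases hMxu : M (bs I x u)
  · -- octahedron
    have q : Q4 M I x i j u := by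
      refine ⟨hNM _ hNj, hM, hMxu, hNM _ h0, ?_, ?_⟩
      · rw [bs_comm]; exact hNM _ h2
      · rw [bs_comm]; exact hNM _ h1
    exact hClo I x i j u hI q hNj (by rw [bs_comm]; exact h1)
  · rcases exch_pair hE hc hI hNj (by rw [bs_comm]; exact h1 : N (bs I j u)) hij hiu with k | k
    · exact k
    · exact absurd (hNM _ k) hMxu

theorem Comp.prop {N : Finset P → Prop} (hE : Exch N) (hc : ∀ B, N B → B.card = r)
    (hNM : ∀ B, N B → M B) (hEM : Exch M) (hcM : ∀ B, M B → B.card = r) (hClo : Clo r M N)
    {B : Finset P} (hB : N B) (hcomp : Comp N M B) {i x : P} (hi : i ∈ B) (hx : x ∉ B)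
    (hB' : M (insert x (B.erase i))) : Comp N M (insert x (B.erase i)) := by
  intro j hj y hy hM
  by_cases hjx : j = x
  · have he : (insert x (B.erase i)).erase j = B.erase i := by
      rw [hjx, Finset.erase_insert]; simp [hx]
    rw [he] at hM ⊢
    by_cases hyi : y = i
    · rw [hyi, Finset.insert_erase hi]; exact hB
    · refine hcomp i hi y ?_ hM
      intro h; exact hy (by simp [h, hyi])
  have hjB : j ∈ B := by
    simp only [Finset.mem_insert, Finset.mem_erase] at hj
    rcases hj with h | h
    · exact absurd h hjx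
    · exact h.2
  have hji : i ≠ j := by
    simp only [Finset.mem_insert, Finset.mem_erase] at hj
    rcases hj with h | h
    · exact absurd h hjx
    · exact h.1.symm
  have hI := card_erase2 (hc B hB) hi hjB hji
  have he : insert y ((insert x (B.erase i)).erase j) = bs ((B.erase i).erase j) x y := by
    rw [bs_comm]; unfold bs
    rw [Finset.erase_insert_of_ne (fun h => hjx h.symm)]
  have hNx := hcomp i hi x hx hB'
  rw [he] at hM ⊢
  rw [ins_erase1 x hjB hji] at hNx
  have h0 := hB
  rw [← bs_erase2 hi hjB hji] at h0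
  have hix : M (bs ((B.erase i).erase j) i x) → N (bs ((B.erase i).erase j) i x) := by
    intro h
    have := hcomp j hjB x hx (by rw [ins_erase2 x hi hji, bs_comm]; exact h)
    rw [ins_erase2 x hi hji, bs_comm] at this; exact this
  by_cases hyi : y = i
  · subst hyi; rw [bs_comm]; exact hix (by rw [bs_comm]; exact hM)
  have hyB : y ∉ B := by
    intro h; exact hy (by simp [h, hyi])
  have hiy : M (bs ((B.erase i).erase j) i y) → N (bs ((B.erase i).erase j) i y) := by
    intro h
    have := hcomp j hjB y hyB (by rw [ins_erase2 y hi hji, bs_comm]; exact h)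
    rw [ins_erase2 y hi hji, bs_comm] at this; exact this
  have hjy : M (bs ((B.erase i).erase j) j y) → N (bs ((B.erase i).erase j) j y) := by
    intro h
    have := hcomp i hi y hyB (by rw [ins_erase1 y hjB hji, bs_comm]; exact h)
    rw [ins_erase1 y hjB hji, bs_comm] at this; exact this
  set I := (B.erase i).erase j with hIdef
  have hxi : x ≠ i := fun h => hx (h ▸ hi)
  have hxj : x ≠ j := fun h => hx (h ▸ hjB)
  have hyj : y ≠ j := fun h => hyB (h ▸ hjB)
  have hMij := hNM _ h0
  have hMxj := hNM _ hNx
  by_cases c1 : M (bs I i y)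
  · by_cases c2 : M (bs I j y)
    · by_cases c3 : M (bs I i x)
      · have q : Q4 M I x i y j := ⟨by rw [bs_comm]; exact c3, hM, hMxj, c1, hMij,
          by rw [bs_comm]; exact c2⟩
        exact hClo I x i y j hI q (by rw [bs_comm]; exact hix c3) (by rw [bs_comm]; exact hjy c2)
      · rcases exch_pair hE hc hI hNx (hiy c1) hji.symm (Ne.symm hyj) with k | k
        · exact absurd (hNM _ k) (by rw [bs_comm]; exact c3)
        · exact k
    · rcases exch_pair hE hc hI (by rw [bs_comm]; exact hiy c1 : N (bs I y i)) hNx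
        (Ne.symm hxi) hji with k | k
      · rw [bs_comm]; exact k
      · exact absurd (hNM _ k) (by rw [bs_comm]; exact c2)
  · have c3 : M (bs I i x) := by
      rcases exch_pair hEM hcM hI hMij hM (Ne.symm hxj) (Ne.symm hyj) with k | k
      · exact k
      · exact absurd k c1
    have c2 : M (bs I j y) := by
      rcases exch_pair hEM hcM hI (by rw [bs_comm]; exact hM : M (bs I y x)) hMij hxi hxj with k | k
      · exact absurd (by rw [bs_comm]; exact k) c1
      · rw [bs_comm]; exact k
    rcases exch_pair hE hc hI (by rw [bs_comm]; exact hjy c2 : N (bs I y j))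
      (by rw [bs_comm]; exact hix c3 : N (bs I x i)) (Ne.symm hxj) hji.symm with k | k
    · rw [bs_comm]; exact k
    · exact absurd (hNM _ k) (by rw [bs_comm]; exact c1)

theorem all_of_comp {N : Finset P → Prop} (hE : Exch N) (hc : ∀ B, N B → B.card = r)
    (hNM : ∀ B, N B → M B) (hEM : Exch M) (hcM : ∀ B, M B → B.card = r) (hClo : Clo r M N)
    {B : Finset P} (hB : N B) (hcomp : Comp N M B) :
    ∀ n : ℕ, ∀ A, M A → (A \ B).card = n → N A ∧ Comp N M A := by
  intro n
  induction n with
  | zero =>
    intro A hA h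
    rw [Finset.card_eq_zero, Finset.sdiff_eq_empty_iff_subset] at h
    have : A = B := Finset.eq_of_subset_of_card_le h (by rw [hc B hB, hcM A hA])
    rw [this]; exact ⟨hB, hcomp⟩
  | succ n ih =>
    intro A hA h
    have hne : (A \ B).Nonempty := by rw [← Finset.card_pos]; omega
    obtain ⟨e, he⟩ := hne
    have he' := Finset.mem_sdiff.1 he
    obtain ⟨f, hf, hf', hM⟩ := hEM A B hA (hNM _ hB) e he'.1 he'.2
    have hcard : (insert f (A.erase e) \ B).card = n := by
      have : insert f (A.erase e) \ B = (A \ B).erase e := by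
        ext t; simp only [Finset.mem_sdiff, Finset.mem_insert, Finset.mem_erase]
        constructor
        · rintro ⟨h1 | h1, h2⟩
          · exact absurd (h1 ▸ hf) h2
          · exact ⟨h1.1, h1.2, h2⟩
        · rintro ⟨h1, h2, h3⟩; exact ⟨Or.inr ⟨h1, h2⟩, h3⟩
      rw [this, Finset.card_erase_of_mem he, h]; rfl
    obtain ⟨hN, hC⟩ := ih _ hM hcard
    have hef : e ≠ f := fun h' => hf' (h' ▸ he'.1)
    have hback : insert e ((insert f (A.erase e)).erase f) = A := by
      rw [Finset.erase_insert (by simp [hf']), Finset.insert_erase he'.1]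
    have hne : e ∉ insert f (A.erase e) := by simp [hef]
    have hfm : f ∈ insert f (A.erase e) := by simp
    have hNA : N A := by
      have := hC f hfm e hne (by rw [hback]; exact hA)
      rw [hback] at this; exact this
    refine ⟨hNA, ?_⟩
    have := hC.prop hE hc hNM hEM hcM hClo hN hfm hne (by rw [hback]; exact hA)
    rw [hback] at this; exact this

end Pool.Agent.X52.PG
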