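import Pool.Agent.X52.PGLine

/-!
# Projective geometries: determinants modulo a subspace of codimension two
-/

set_option autoImplicit false
set_option linter.unusedSectionVars false

namespace Pool.Agent.X52.PG

open Finset

variable {K : Type} [Field K] {V : Type} [AddCommGroup V] [Module K V] [FiniteDimensional K V]
variable {P : Type} [Fintype P] [DecidableEq P]
variable {r : ℕ} {M : Finset P → Prop} {C : Set (Finset P → Prop)}

/-- bases of the vector configuration `vec` -/
def PB (K : Type) [Field K] {V : Type} [AddCommGroup V] [Module K V] (vec : P → V) (r : ℕ)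
    (B : Finset P) : Prop :=
  LinearIndepOn K vec (B : Set P) ∧ B.card = r

theorem span_top {vec : P → V} (hr : Module.finrank K V = r) {B : Finset P}
    (hB : PB K vec r B) : Submodule.span K (vec '' (B : Set P)) = ⊤ := by
  have h := hB.1
  have := LinearIndependent.span_eq_top_of_card_eq_finrank'
    (b := fun x : (B : Set P) => vec x) h (by simp [hB.2, hr])
  rw [Set.image_eq_range]; exact this

theorem dualf {vec : P → V} {B : Finset P} (hB : LinearIndepOn K vec (B : Set P)) {e : P}
    (he : e ∈ B) : ∃ f : V →ₗ[K] K, f (vec e) = 1 ∧ ∀ e' ∈ B, e' ≠ e → f (vec e') = 0 := by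
  have h1 : (B : Set P) = insert e ((B.erase e : Finset P) : Set P) := by
    rw [← Finset.coe_insert, Finset.insert_erase he]
  rw [h1, linearIndepOn_insert (by simp)] at hB
  obtain ⟨f, hf, hk⟩ := Submodule.exists_le_ker_of_notMem hB.2
  refine ⟨(f (vec e))⁻¹ • f, by simp [hf], ?_⟩
  intro e' he' hne
  have : vec e' ∈ LinearMap.ker f := hk (Submodule.subset_span ⟨e', by simp [he', hne], rfl⟩)
  rw [LinearMap.mem_ker] at this
  simp [this]

theorem det_iff {vec : P → V} (hr : Module.finrank K V = r) {I : Finset P}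
    (hI : I.card + 2 = r) (hind : LinearIndepOn K vec (I : Set P)) {f g : V →ₗ[K] K}
    (hf : ∀ x ∈ I, f (vec x) = 0) (hg : ∀ x ∈ I, g (vec x) = 0) {a b : V}
    (hab : f a * g b - f b * g a ≠ 0) (x y : P) :
    PB K vec r (bs I x y) ↔ f (vec x) * g (vec y) - f (vec y) * g (vec x) ≠ 0 := by
  have hsf : ∀ v ∈ Submodule.span K (vec '' (I : Set P)), f v = 0 := by
    have : Submodule.span K (vec '' (I : Set P)) ≤ LinearMap.ker f := by
      rw [Submodule.span_le]; rintro _ ⟨t, ht, rfl⟩; exact hf t ht
    exact fun v hv => this hv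
  have hsg : ∀ v ∈ Submodule.span K (vec '' (I : Set P)), g v = 0 := by
    have : Submodule.span K (vec '' (I : Set P)) ≤ LinearMap.ker g := by
      rw [Submodule.span_le]; rintro _ ⟨t, ht, rfl⟩; exact hg t ht
    exact fun v hv => this hv
  constructor
  · intro hB hdet
    have htop := span_top hr hB
    have key : ∀ w : V, (∀ t ∈ bs I x y, f (vec t) * g w - f w * g (vec t) = 0) →
        ∀ v, f v * g w - f w * g v = 0 := by
      intro w hw v
      have h1 : (g w) • f = (f w) • g := by
        apply LinearMap.ext_on htop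
        rintro _ ⟨t, ht, rfl⟩
        have := hw t ht
        simp only [LinearMap.smul_apply, smul_eq_mul]
        linear_combination this
      have h2 : ((g w) • f) v = ((f w) • g) v := by rw [h1]
      simp only [LinearMap.smul_apply, smul_eq_mul] at h2
      linear_combination h2
    have hgen : ∀ w ∈ bs I x y, ∀ t ∈ bs I x y,
        f (vec t) * g (vec w) - f (vec w) * g (vec t) = 0 := by
      intro w hw t ht
      simp only [bs, Finset.mem_insert] at hw ht
      rcases hw with rfl | rfl | hw <;> rcases ht with rfl | rfl | ht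
      · ring
      · linear_combination -hdet
      · rw [hf t ht, hg t ht]; ring
      · exact hdet
      · ring
      · rw [hf t ht, hg t ht]; ring
      · rw [hf w hw, hg w hw]; ring
      · rw [hf w hw, hg w hw]; ring
      · rw [hf w hw, hg w hw]; ring
    have h1 : ∀ w ∈ bs I x y, ∀ v, f v * g (vec w) - f (vec w) * g v = 0 :=
      fun w hw => key _ (hgen w hw)
    have h2 : ∀ v, f v * g b - f b * g v = 0 :=
      key b (fun t ht => by have := h1 t ht b; linear_combination -this)
    exact hab (h2 a)
  · intro hdet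
    have hy : vec y ∉ Submodule.span K (vec '' (I : Set P)) := by
      intro h; apply hdet; rw [hsf _ h, hsg _ h]; ring
    have hyI : y ∉ I := by
      intro h; exact hy (Submodule.subset_span ⟨y, h, rfl⟩)
    have hx : vec x ∉ Submodule.span K (vec '' (insert y (I : Set P))) := by
      intro h
      rw [Set.image_insert_eq, Submodule.mem_span_insert] at h
      obtain ⟨s, t, ht, hxs⟩ := h
      apply hdet
      rw [hxs]
      simp only [map_add, map_smul, smul_eq_mul, hsf _ ht, hsg _ ht]
      ring
    have hxI : x ∉ insert y I := by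
      intro h; apply hx
      exact Submodule.subset_span ⟨x, by simpa using h, rfl⟩
    refine ⟨?_, ?_⟩
    · unfold bs
      rw [Finset.coe_insert, Finset.coe_insert, linearIndepOn_insert (by simpa using hxI),
        linearIndepOn_insert (by simpa using hyI)]
      exact ⟨⟨hind, hy⟩, hx⟩
    · unfold bs
      rw [Finset.card_insert_of_notMem hxI, Finset.card_insert_of_notMem hyI]; omega

theorem Q4.swap {I : Finset P} {a b c d : P} (q : Q4 M I a b c d) : Q4 M I b a c d :=
  ⟨by rw [bs_comm]; exact q.ab, q.bc, q.bd, q.ac, q.ad, q.cd⟩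

theorem Q4.flip {I : Finset P} {a b c d : P} (q : Q4 M I a b c d) : Q4 M I c d a b :=
  ⟨q.cd, by rw [bs_comm]; exact q.ac, by rw [bs_comm]; exact q.bc,
    by rw [bs_comm]; exact q.ad, by rw [bs_comm]; exact q.bd, q.ab⟩

/-- parallel modulo `I`, in coordinates -/
def Par (F G : P → K) (x y : P) : Prop := ∃ c : K, c ≠ 0 ∧ F y = c * F x ∧ G y = c * G x

theorem step (S : Subd r M C) {I : Finset P} (hI : I.card + 2 = r) {F G : P → K}
    (hM : ∀ x y, M (bs I x y) ↔ F x * G y - F y * G x ≠ 0) {x x' y z w : P}
    (hp : Par F G x x') (q : Q4 M I x y z w) :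
    Q4 M I x' y z w ∧ (Sp C I x y z w → Sp C I x' y z w) := by
  obtain ⟨c, hc, h1, h2⟩ := hp
  have key : ∀ t, M (bs I x t) → M (bs I x' t) := by
    intro t ht; rw [hM] at ht ⊢; rw [h1, h2]; intro h; apply ht
    have : c * (F x * G t - F t * G x) = 0 := by linear_combination h
    exact (mul_eq_zero.1 this).resolve_left hc
  refine ⟨⟨key _ q.ab, key _ q.ac, key _ q.ad, q.bc, q.bd, q.cd⟩,
    fun h => h.repl S hI q (key _ q.ab) (key _ q.ac) (key _ q.ad) ?_⟩
  rw [hM, h1, h2]; push Not; ring

theorem chain (S : Subd r M C) {I : Finset P} (hI : I.card + 2 = r) {F G : P → K}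
    (hM : ∀ x y, M (bs I x y) ↔ F x * G y - F y * G x ≠ 0) {x y : Fin 4 → P}
    (hp : ∀ i, Par F G (x i) (y i)) (q : Q4 M I (x 0) (x 1) (x 2) (x 3)) :
    Q4 M I (y 0) (y 1) (y 2) (y 3) ∧
      (Sp C I (x 0) (x 1) (x 2) (x 3) → Sp C I (y 0) (y 1) (y 2) (y 3)) := by
  obtain ⟨q1, s1⟩ := step S hI hM (hp 0) q
  obtain ⟨q2, s2⟩ := step S hI hM (hp 1) q1.swap
  obtain ⟨q3, s3⟩ := step S hI hM (hp 2) q2.swap.flip
  obtain ⟨q4, s4⟩ := step S hI hM (hp 3) q3.swap
  exact ⟨q4.swap.flip, fun h => ((s4 (s3 (s2 (s1 h).swap).swap.flip).swap).swap).flip⟩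

theorem col_le {vec : P → V} {T : Finset P} {e1 e2 : V}
    (hT : ∀ x ∈ T, vec x ∈ Submodule.span K ({e1, e2} : Set V)) (B : Finset P)
    (hB : PB K vec r B) : (B ∩ T).card ≤ 2 := by
  classical
  have h1 : LinearIndepOn K vec ((B ∩ T : Finset P) : Set P) := hB.1.mono (by simp)
  have h2 : Module.finrank K (Submodule.span K
      (Set.range (fun x : ((B ∩ T : Finset P) : Set P) => vec x))) = (B ∩ T).card := by
    rw [finrank_span_eq_card h1]; simp
    congr 1; ext t; simp [and_comm]
  have h3 : Module.finrank K (Submodule.span K ({e1, e2} : Set V)) ≤ 2 := by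
    have := finrank_span_finset_le_card (R := K) ({e1, e2} : Finset V)
    rw [Finset.coe_insert, Finset.coe_singleton] at this
    exact le_trans this Finset.card_le_two
  have h4 : Submodule.span K (Set.range (fun x : ((B ∩ T : Finset P) : Set P) => vec x))
      ≤ Submodule.span K ({e1, e2} : Set V) := by
    rw [Submodule.span_le]
    rintro _ ⟨⟨t, ht⟩, rfl⟩
    have ht' : t ∈ B ∩ T := ht
    exact hT t (Finset.mem_inter.1 ht').2
  have h5 := Submodule.finrank_mono h4
  omega

end Pool.Agent.X52.PG
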