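import Pool.Agent.X52.PGRepl

/-!
# Splits of octahedra: replacing an element of the contracted set
-/

set_option autoImplicit false
set_option linter.unusedSectionVars false

namespace Pool.Agent.X52.PG

open Finset

variable {P : Type} [Fintype P] [DecidableEq P]
variable {r : ℕ} {M : Finset P → Prop} {C : Set (Finset P → Prop)}

theorem dotT (T : Finset P) (x : P → ℝ) :
    ∑ e, (if e ∈ T then (-1:ℝ) else 0) * x e = - ∑ e ∈ T, x e := by
  simp [ite_mul, Finset.sum_ite_mem]

theorem sum_ind (T A : Finset P) : ∑ e ∈ T, ind A e = ((A ∩ T).card : ℝ) := by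
  simp only [ind]
  rw [Finset.sum_ite_mem, Finset.inter_comm]
  simp

theorem Sp.replI (S : Subd r M C) {J : Finset P} (hJ : J.card + 3 = r) {p p' : P} (hp : p ∉ J)
    (hp' : p' ∉ J) (hpp : p ≠ p') {x y z w : P} (q : Q4 M (insert p J) x y z w)
    (q' : Q4 M (insert p' J) x y z w)
    (hcol : ∀ B, M B → (B ∩ ({x, y, z, w} : Finset P)).card ≤ 2)
    (h : Sp C (insert p J) x y z w) : Sp C (insert p' J) x y z w := by
  have hI : (insert p J).card + 2 = r := by rw [Finset.card_insert_of_notMem hp]; omega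
  have hI' : (insert p' J).card + 2 = r := by rw [Finset.card_insert_of_notMem hp']; omega
  have D := q.dist S hI
  have D' := q'.dist S hI'
  set T : Finset P := {x, y, z, w} with hT
  have hTp : ∀ e ∈ T, e ≠ p ∧ e ≠ p' ∧ e ∉ J := by
    intro e he
    have h1 : e ∉ insert p J ∧ e ∉ insert p' J := by
      simp only [hT, Finset.mem_insert, Finset.mem_singleton] at he
      rcases he with rfl | rfl | rfl | rfl
      exacts [⟨D.a, D'.a⟩, ⟨D.b, D'.b⟩, ⟨D.c, D'.c⟩, ⟨D.d, D'.d⟩]
    simp only [Finset.mem_insert, not_or] at h1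
    exact ⟨h1.1.1, h1.2.1, h1.1.2⟩
  have hpT : p ∉ T := fun h => (hTp p h).1 rfl
  have hpT' : p' ∉ T := fun h => (hTp p' h).2.1 rfl
  have hTcard : T.card = 4 := by
    rw [hT, Finset.card_insert_of_notMem, Finset.card_insert_of_notMem, Finset.card_pair D.cd]
    · simp [D.bc, D.bd]
    · simp [D.ab, D.ac, D.ad]
  set v : P → ℝ := (1/2 : ℝ) • oc (insert p J) x y z w + (1/2 : ℝ) • oc (insert p' J) x y z w
    with hvdef
  have hv : v ∈ poly M := convex_poly M (oc_mem q.ab q.cd) (oc_mem q'.ab q'.cd)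
    (by norm_num) (by norm_num) (by norm_num)
  obtain ⟨N, hN, hvN⟩ := S.cover v hv
  obtain ⟨l, hl⟩ := exists_rep hvN
  have val : ∀ e, v e = (1/2) * (if e ∈ insert p J then 1 else if e ∈ T then 1/2
      else 0) + (1/2) * (if e ∈ insert p' J then 1 else if e ∈ T then 1/2
      else 0) := by
    intro e; simp only [hvdef, Pi.add_apply, Pi.smul_apply, smul_eq_mul, D.val, D'.val, hT]
  have vJ : ∀ e ∈ J, v e = 1 := by intro e he; rw [val]; simp [he]; norm_num
  have vp : v p = 1/2 := by rw [val]; simp [hpT, hpp, hp]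
  have vp' : v p' = 1/2 := by rw [val]; simp [hpT', hpp.symm, hp']
  have vT : ∀ e ∈ T, v e = 1/2 := by
    intro e he; rw [val]; obtain ⟨h1, h2, h3⟩ := hTp e he; simp [h1, h2, h3, he]; norm_num
  have v0 : ∀ e, e ∉ J → e ≠ p → e ≠ p' → e ∉ T → v e = 0 := by
    intro e h1 h2 h3 h4; rw [val]; simp [h1, h2, h3, h4]
  have hsumT : ∑ e ∈ T, v e = 2 := by
    rw [Finset.sum_congr rfl vT]; simp [hTcard]; norm_num
  have hBT : ∀ B, 0 < l B → (B ∩ T).card = 2 := by
    intro B hB
    by_contra hcon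
    have hle := hcol B (S.sub N hN _ (hl.mem _ hB))
    have hlt : (B ∩ T).card < 2 := lt_of_le_of_ne hle hcon
    obtain ⟨A, hA, hA'⟩ := rep_pos_neg hl (fun e => if e ∈ T then (-1:ℝ) else 0)
      ((dotT T v).trans (by rw [hsumT])) hB (by
        rw [dotT, sum_ind]
        have : ((B ∩ T).card : ℝ) < 2 := by exact_mod_cast hlt
        linarith)
    rw [dotT, sum_ind] at hA'
    have h3 := hcol A (S.sub N hN _ (hl.mem _ hA))
    have : ((A ∩ T).card : ℝ) ≤ 2 := by exact_mod_cast h3
    linarith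
  have supp : ∀ B, 0 < l B → ∃ a ∈ T, ∃ b ∈ T, a ≠ b ∧
      (B = bs (insert p J) a b ∨ B = bs (insert p' J) a b) := by
    intro B hB
    obtain ⟨a, b, hab, hBab⟩ := Finset.card_eq_two.1 (hBT B hB)
    have ha : a ∈ B ∩ T := by rw [hBab]; simp
    have hb : b ∈ B ∩ T := by rw [hBab]; simp
    rw [Finset.mem_inter] at ha hb
    refine ⟨a, ha.2, b, hb.2, hab, ?_⟩
    have hJB : J ⊆ B \ T := by
      intro e he
      rw [Finset.mem_sdiff]
      exact ⟨rep_mem_of_one hl (vJ e he) hB, fun h' => (hTp e h').2.2 he⟩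
    have hBr := S.cardN hN B (hl.mem B hB)
    have hsd : (B \ T).card = J.card + 1 := by
      have := Finset.card_inter_add_card_sdiff B T
      rw [hBT B hB] at this; omega
    have h1 : ((B \ T) \ J).card = 1 := by
      rw [Finset.card_sdiff_of_subset hJB, hsd]; omega
    obtain ⟨g, hg⟩ := Finset.card_eq_one.1 h1
    have hgm : g ∈ (B \ T) \ J := by rw [hg]; simp
    rw [Finset.mem_sdiff, Finset.mem_sdiff] at hgm
    have hgp : g = p ∨ g = p' := by
      by_contra hcon
      push Not at hcon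
      exact rep_not_mem_of_zero hl (v0 g hgm.2 hcon.1 hcon.2 hgm.1.2) hB hgm.1.1
    have hBeq : B = bs (insert g J) a b := by
      have e1 : B \ T = insert g J := by
        rw [← Finset.sdiff_union_of_subset hJB, hg]; ext e; simp
      have e2 : B = (B ∩ T) ∪ (B \ T) := by
        rw [Finset.union_comm]; exact (Finset.sdiff_union_inter B T).symm
      rw [e2, e1, hBab, Finset.insert_union, Finset.singleton_union]; rfl
    rcases hgp with rfl | rfl
    · exact Or.inl hBeq
    · exact Or.inr hBeq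
  -- a base with `p` and a base with `p'`
  have hTmem : ∀ (K : Finset P) (g a b : P), g ∉ T → a ∈ T → b ∈ T → g ∈ bs K a b → g ∈ K := by
    intro K g a b hg ha hb h'
    simp only [bs, Finset.mem_insert] at h'
    rcases h' with h' | h' | h'
    · exact absurd (h' ▸ ha) hg
    · exact absurd (h' ▸ hb) hg
    · exact h'
  obtain ⟨B1, hB1, hpB1⟩ := rep_exists_mem hl (e := p) (by rw [vp]; norm_num)
  obtain ⟨a, ha, b, hb, hab, hB1'⟩ := supp B1 hB1
  have hNab : N (bs (insert p J) a b) := by
    rcases hB1' with h' | h'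
    · rw [← h']; exact hl.mem _ hB1
    · exfalso
      rw [h'] at hpB1
      have := hTmem _ p a b hpT ha hb hpB1
      simp [hpp, hp] at this
  have hB1eq : B1 = bs (insert p J) a b := by
    rcases hB1' with h' | h'
    · exact h'
    · exfalso
      rw [h'] at hpB1
      have := hTmem _ p a b hpT ha hb hpB1
      simp [hpp, hp] at this
  obtain ⟨B2, hB2, hpB2⟩ := rep_exists_mem hl (e := p') (by rw [vp']; norm_num)
  obtain ⟨c, hc, d, hd, hcd, hB2'⟩ := supp B2 hB2
  have hNcd : N (bs (insert p' J) c d) := by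
    rcases hB2' with h' | h'
    · exfalso
      rw [h'] at hpB2
      have := hTmem _ p' c d hpT' hc hd hpB2
      simp [hpp.symm, hp'] at this
    · rw [← h']; exact hl.mem _ hB2
  have P1 : ∀ a ∈ T, ∀ b ∈ T, a ≠ b → N (bs (insert p J) a b) → N (bs (insert p' J) a b) :=
    fun a ha b hb hab h' => prodStr S hN hp hp' hpp T hcol ha hb hc hd hab hpT h' hNcd
  have P2 : ∀ a ∈ T, ∀ b ∈ T, a ≠ b → N (bs (insert p' J) a b) → N (bs (insert p J) a b) :=
    fun a' ha' b' hb' hab' h' =>
      prodStr S hN hp' hp hpp.symm T hcol ha' hb' ha hb hab' hpT' h' hNab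
  -- the complementary pair
  have hcard2 : (T \ {a, b}).card = 2 := by
    rw [Finset.card_sdiff_of_subset, hTcard, Finset.card_pair hab]
    intro e he
    simp only [Finset.mem_insert, Finset.mem_singleton] at he
    rcases he with rfl | rfl
    exacts [ha, hb]
  obtain ⟨s, t, hst, hTst⟩ := Finset.card_eq_two.1 hcard2
  have hs : s ∈ T \ {a, b} := by rw [hTst]; simp
  have ht : t ∈ T \ {a, b} := by rw [hTst]; simp
  simp only [Finset.mem_sdiff, Finset.mem_insert, Finset.mem_singleton, not_or] at hs ht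
  obtain ⟨hs, hsa, hsb⟩ := hs
  obtain ⟨ht, hta, htb⟩ := ht
  replace hsa : s ≠ a := hsa
  replace hsb : s ≠ b := hsb
  replace hta : t ≠ a := hta
  replace htb : t ≠ b := htb
  have hTeq : T = {a, b, s, t} := by
    have hsub : ({a, b} : Finset P) ⊆ T := by
      intro e he
      simp only [Finset.mem_insert, Finset.mem_singleton] at he
      rcases he with rfl | rfl
      exacts [ha, hb]
    rw [← Finset.sdiff_union_of_subset hsub, hTst, Finset.union_comm, Finset.insert_union,
      Finset.singleton_union]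
  have notI : ∀ e ∈ T, e ∉ insert p J := by
    intro e he; obtain ⟨h1, _, h3⟩ := hTp e he; simp [h1, h3]
  have notI' : ∀ e ∈ T, e ∉ insert p' J := by
    intro e he; obtain ⟨_, h2, h3⟩ := hTp e he; simp [h2, h3]
  have Dab : D4 (insert p J) a b s t := ⟨hab, hsa.symm, hta.symm, hsb.symm, htb.symm, hst,
    notI a ha, notI b hb, notI s hs, notI t ht⟩
  have Dab' : D4 (insert p' J) a b s t := ⟨hab, hsa.symm, hta.symm, hsb.symm, htb.symm, hst,
    notI' a ha, notI' b hb, notI' s hs, notI' t ht⟩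
  have hNst : N (bs (insert p J) s t) ∧ N (bs (insert p' J) s t) := by
    have hv0 : v a + v b - v s - v t = 0 := by
      rw [vT a ha, vT b hb, vT s hs, vT t ht]; norm_num
    obtain ⟨A, hA, hneg⟩ := rep_pos_neg hl _ ((dot4 a b s t v).trans hv0) hB1 (by
      rw [dot4, hB1eq, ind_bs hab Dab.a Dab.b, ind_bs hab Dab.a Dab.b, ind_bs hab Dab.a Dab.b,
        ind_bs hab Dab.a Dab.b]
      have i1 := Dab.a; have i2 := Dab.b; have i3 := Dab.c; have i4 := Dab.d
      simp [ind, i1, i2, i3, i4, hab, hab.symm, hsa, hsb, hta, htb] <;> norm_num)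
    rw [dot4] at hneg
    obtain ⟨c', hc', d', hd', hcd', hA'⟩ := supp A hA
    rw [hTeq] at hc' hd'
    rcases hA' with h' | h'
    · rw [h'] at hneg hA
      rw [neg_pair hab hsa.symm hta.symm hsb.symm htb.symm hst Dab.a Dab.b Dab.c Dab.d hc' hd'
        hcd' hneg] at hA
      exact ⟨hl.mem _ hA, P1 s hs t ht hst (hl.mem _ hA)⟩
    · rw [h'] at hneg hA
      rw [neg_pair hab hsa.symm hta.symm hsb.symm htb.symm hst Dab'.a Dab'.b Dab'.c Dab'.d hc' hd'
        hcd' hneg] at hA
      exact ⟨P2 s hs t ht hst (hl.mem _ hA), hl.mem _ hA⟩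
  have ho : oc (insert p J) x y z w ∈ poly N := by
    have : oc (insert p J) x y z w = oc (insert p J) a b s t := by
      ext e; rw [D.val, Dab.val, ← hT, hTeq]
    rw [this]; exact oc_mem hNab hNst.1
  have ho' : oc (insert p' J) x y z w ∈ poly N := by
    have : oc (insert p' J) x y z w = oc (insert p' J) a b s t := by
      ext e; rw [D'.val, Dab'.val, ← hT, hTeq]
    rw [this]; exact oc_mem (P1 a ha b hb hab hNab) hNst.2
  refine ⟨N, hN, ho', ?_⟩
  rintro ⟨g1, g2⟩
  exact h.all S hN ho ⟨P2 x (by simp [hT]) y (by simp [hT]) D.ab g1,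
    P2 z (by simp [hT]) w (by simp [hT]) D.cd g2⟩

end Pool.Agent.X52.PG
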