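import Pool.Agent.X52.PGStar
import Pool.Agent.X52.PGReplI

/-!
# A cell containing all pairs of a line
-/

set_option autoImplicit false
set_option linter.unusedSectionVars false

namespace Pool.Agent.X52.PG

open Finset

variable {P : Type} [Fintype P] [DecidableEq P]
variable {r : ℕ} {M : Finset P → Prop} {C : Set (Finset P → Prop)}

theorem centre_mem {I L : Finset P} (hI : I.card + 2 = r) (hcM : ∀ B, M B → B.card = r)
    (hL2 : 2 ≤ L.card) (hLM : ∀ x ∈ L, ∀ y ∈ L, x ≠ y → M (bs I x y)) :
    (fun e => ind I e + (2 / (L.card : ℝ)) * ind L e) ∈ poly M := by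
  have hinner : ∀ x ∈ L, (∑ y ∈ L.erase x, (1 / ((L.erase x).card : ℝ)) • ind (bs I x y))
      ∈ poly M := by
    intro x hx
    apply poly_avg
    · rw [← Finset.card_pos, Finset.card_erase_of_mem hx]; omega
    · intro y hy
      rw [Finset.mem_erase] at hy
      exact hLM x hx y hy.2 hy.1.symm
  have houter : (∑ x ∈ L, (1 / (L.card : ℝ)) •
      (∑ y ∈ L.erase x, (1 / ((L.erase x).card : ℝ)) • ind (bs I x y))) ∈ poly M := by
    apply (convex_poly M).sum_mem
    · intro i _; positivity
    · have : (L.card : ℝ) ≠ 0 := by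
        have : 0 < L.card := by omega
        exact_mod_cast this.ne'
      simp [this]
    · exact hinner
  convert houter using 1
  ext e
  have hm0 : (0:ℝ) < L.card := by
    have : 0 < L.card := by omega
    exact_mod_cast this
  have hm1 : (0:ℝ) < (L.card : ℝ) - 1 := by
    have : (2:ℝ) ≤ L.card := by exact_mod_cast hL2
    linarith
  have hval : ∀ x ∈ L, (∑ y ∈ L.erase x, (1 / ((L.erase x).card : ℝ)) • ind (bs I x y)) e
      = ind I e + (if e = x then 1 else 0)
        + (1 / ((L.card : ℝ) - 1)) * (ind L e - if e = x then 1 else 0) := by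
    intro x hx
    rw [Finset.sum_apply]
    have hcast : ((L.erase x).card : ℝ) = (L.card : ℝ) - 1 := by
      rw [Finset.card_erase_of_mem hx, Nat.cast_sub (by omega)]; simp
    rw [hcast]
    have h1 : ∀ y ∈ L.erase x, ((1 / ((L.card : ℝ) - 1)) • ind (bs I x y)) e
        = (1 / ((L.card : ℝ) - 1)) * (ind I e + (if e = x then 1 else 0))
          + (1 / ((L.card : ℝ) - 1)) * (if e = y then 1 else 0) := by
      intro y hy
      rw [Finset.mem_erase] at hy
      obtain ⟨h2, h3, h4⟩ := bs_card hI (hcM _ (hLM x hx y hy.2 hy.1.symm))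
      simp only [Pi.smul_apply, smul_eq_mul]
      rw [ind_bs h2 h3 h4]; ring
    rw [Finset.sum_congr rfl h1, Finset.sum_add_distrib, Finset.sum_const, ← Finset.mul_sum,
      Finset.sum_ite_eq, nsmul_eq_mul, hcast]
    have h5 : (if e ∈ L.erase x then (1:ℝ) else 0) = ind L e - if e = x then 1 else 0 := by
      simp only [ind, Finset.mem_erase]
      by_cases hex : e = x
      · subst hex; simp [hx]
      · simp [hex]
    rw [h5]
    field_simp
  rw [Finset.sum_apply]
  have h6 : ∀ x ∈ L, ((1 / (L.card : ℝ)) •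
      (∑ y ∈ L.erase x, (1 / ((L.erase x).card : ℝ)) • ind (bs I x y))) e
      = (1 / (L.card : ℝ)) * (ind I e + (1 / ((L.card : ℝ) - 1)) * ind L e)
        + ((1 / (L.card : ℝ)) * (1 - 1 / ((L.card : ℝ) - 1))) * (if e = x then 1 else 0) := by
    intro x hx
    rw [Pi.smul_apply, smul_eq_mul, hval x hx]; ring
  rw [Finset.sum_congr rfl h6, Finset.sum_add_distrib, Finset.sum_const, ← Finset.mul_sum,
    Finset.sum_ite_eq, nsmul_eq_mul]
  have h7 : (if e ∈ L then (1:ℝ) else 0) = ind L e := rfl
  rw [h7]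
  field_simp
  ring

theorem line_all (S : Subd r M C) {I : Finset P} (hI : I.card + 2 = r) {L : Finset P}
    (hL2 : 2 ≤ L.card) (hLM : ∀ x ∈ L, ∀ y ∈ L, x ≠ y → M (bs I x y))
    (hσ : ∀ a ∈ L, ∀ b ∈ L, ∀ z ∈ L, a ≠ b → a ≠ z → b ≠ z → ∃ σ : P → P,
      (∀ x ∈ L, σ x ∈ L) ∧ (∀ x ∈ L, σ (σ x) = x) ∧ σ a = a ∧ σ b = z ∧
      ∀ x1 ∈ L, ∀ x2 ∈ L, ∀ x3 ∈ L, ∀ x4 ∈ L, x1 ≠ x2 → x1 ≠ x3 → x1 ≠ x4 → x2 ≠ x3 →
        x2 ≠ x4 → x3 ≠ x4 → Sp C I x1 x2 x3 x4 → Sp C I (σ x1) (σ x2) (σ x3) (σ x4)) :
    ∃ N ∈ C, ∀ x ∈ L, ∀ y ∈ L, x ≠ y → N (bs I x y) := by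
  classical
  obtain ⟨N, hN, hcN⟩ := S.cover _ (centre_mem hI S.card hL2 hLM)
  refine ⟨N, hN, ?_⟩
  obtain ⟨l, hl⟩ := exists_rep hcN
  have hE := S.exch N hN
  have hc := S.cardN hN
  have hLI : ∀ e ∈ L, e ∉ I := by
    intro e he
    have : ∃ y ∈ L, e ≠ y := by
      by_contra hcon
      push Not at hcon
      have : L ⊆ {e} := fun t ht => Finset.mem_singleton.2 (hcon t ht).symm
      have := Finset.card_le_card this
      simp at this; omega
    obtain ⟨y, hy, hey⟩ := this
    exact (bs_card hI (S.card _ (hLM e he y hy hey))).2.1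
  have hm0 : (0:ℝ) < L.card := by
    have : 0 < L.card := by omega
    exact_mod_cast this
  have hone : ∀ e ∈ I, (fun e => ind I e + (2 / (L.card : ℝ)) * ind L e) e = 1 := by
    intro e he
    have : e ∉ L := fun h => hLI e h he
    simp [ind, he, this]
  have hzero : ∀ e, e ∉ I → e ∉ L →
      (fun e => ind I e + (2 / (L.card : ℝ)) * ind L e) e = 0 := by
    intro e he he'; simp [ind, he, he']
  have hLval : ∀ e ∈ L, (fun e => ind I e + (2 / (L.card : ℝ)) * ind L e) e
      = 2 / (L.card : ℝ) := by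
    intro e he; simp [ind, he, hLI e he]
  have nonloop : ∀ e ∈ L, ∃ t ∈ L, e ≠ t ∧ N (bs I e t) := by
    intro e he
    obtain ⟨B, hB, heB⟩ := rep_exists_mem hl (e := e)
      (by have h0 := hLval e he; simp only at h0; rw [h0]; positivity)
    obtain ⟨p, hp, q, hq, hpq, _, _, rfl⟩ := supp_pair hc hI hl L hone hzero hB
    simp only [bs, Finset.mem_insert] at heB
    rcases heB with h | h | h
    · subst h; exact ⟨q, hq, hpq, hl.mem _ hB⟩
    · subst h; exact ⟨p, hp, hpq.symm, by rw [bs_comm]; exact hl.mem _ hB⟩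
    · exact absurd h (hLI e he)
  by_contra hcon
  push Not at hcon
  obtain ⟨a, ha, b, hb, hab, hNab⟩ := hcon
  set A : Finset P := L.filter (fun x => x = a ∨ ¬ N (bs I a x)) with hA
  have hmem : ∀ x, x ∈ A ↔ x ∈ L ∧ (x = a ∨ ¬ N (bs I a x)) := by intro x; simp [hA]
  have haA : a ∈ A := (hmem a).2 ⟨ha, Or.inl rfl⟩
  have hbA : b ∈ A := (hmem b).2 ⟨hb, Or.inr hNab⟩
  have hAL : A ⊆ L := Finset.filter_subset _ _
  have inA : ∀ x ∈ A, ∀ y ∈ A, x ≠ y → ¬ N (bs I x y) := by
    intro x hx y hy hxy hNxy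
    obtain ⟨hxL, hx'⟩ := (hmem x).1 hx
    obtain ⟨hyL, hy'⟩ := (hmem y).1 hy
    rcases hx' with rfl | hx'
    · rcases hy' with h | hy'
      · exact hxy h.symm
      · exact hy' hNxy
    · rcases hy' with rfl | hy'
      · exact hx' (by rw [bs_comm]; exact hNxy)
      · obtain ⟨t, ht, hat, hNat⟩ := nonloop a ha
        have h1 : t ≠ x := fun h => hx' (h ▸ hNat)
        have h2 : t ≠ y := fun h => hy' (h ▸ hNat)
        rcases exch_pair hE hc hI hNat hNxy h1 h2 with k | k
        · exact hx' k
        · exact hy' k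
  have outA : ∀ x ∈ A, ∀ y ∈ L, y ∉ A → N (bs I x y) := by
    intro x hx y hy hyA
    obtain ⟨hxL, hx'⟩ := (hmem x).1 hx
    have hNay : N (bs I a y) := by
      by_contra h; exact hyA ((hmem y).2 ⟨hy, Or.inr h⟩)
    rcases hx' with rfl | hx'
    · exact hNay
    · obtain ⟨t, ht, hxt, hNxt⟩ := nonloop x hxL
      have h1 : t ≠ a := fun h => hx' (by rw [bs_comm]; exact h ▸ hNxt)
      by_cases h2 : t = y
      · rw [← h2]; exact hNxt
      · rcases exch_pair hE hc hI hNxt hNay h1 h2 with k | k
        · exact absurd (by rw [bs_comm]; exact k) hx'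
        · exact k
  have hAcard : 2 * A.card ≤ L.card := by
    have h1 : ∑ e, ind A e * (ind I e + (2 / (L.card : ℝ)) * ind L e) ≤ 1 := by
      have := rep_dot hl (ind A)
      rw [this, ← hl.sum]
      apply Finset.sum_le_sum
      intro B _
      rcases (hl.nonneg B).lt_or_eq with h3 | h3
      · have h4 : ∑ e, ind A e * ind B e ≤ 1 := by
          rw [dot_ind, sum_ind]
          have : (A ∩ B).card ≤ 1 := by
            rw [Finset.card_le_one]
            intro s hs t ht
            by_contra hst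
            rw [Finset.mem_inter] at hs ht
            obtain ⟨p, hp, q, hq, hpq, _, _, rfl⟩ := supp_pair hc hI hl L hone hzero h3
            have hNB := hl.mem _ h3
            have key : ∀ s t : P, s ∈ A → t ∈ A → s ∈ bs I p q → t ∈ bs I p q → s ≠ t →
                bs I p q = bs I s t := by
              intro s t hs ht hs' ht' hst
              have hsI := hLI s (hAL hs)
              have htI := hLI t (hAL ht)
              simp only [bs, Finset.mem_insert] at hs' ht'
              rcases hs' with h1 | h1 | h1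
              · rcases ht' with h2 | h2 | h2
                · exact absurd (h1.trans h2.symm) hst
                · rw [h1, h2]
                · exact absurd h2 htI
              · rcases ht' with h2 | h2 | h2
                · rw [h1, h2, bs_comm]
                · exact absurd (h1.trans h2.symm) hst
                · exact absurd h2 htI
              · exact absurd h1 hsI
            rw [key s t hs.1 ht.1 hs.2 ht.2 hst] at hNB
            exact inA s hs.1 t ht.1 hst hNB
          exact_mod_cast this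
        have := mul_le_mul_of_nonneg_left h4 h3.le
        linarith
      · rw [← h3]; simp
    have h2 : ∑ e, ind A e * (ind I e + (2 / (L.card : ℝ)) * ind L e)
        = A.card * (2 / (L.card : ℝ)) := by
      have : ∀ e, ind A e * (ind I e + (2 / (L.card : ℝ)) * ind L e)
          = (2 / (L.card : ℝ)) * ind A e := by
        intro e
        by_cases he : e ∈ A
        · have h1 : ind A e = 1 := by simp [ind, he]
          have h2 := hLval e (hAL he)
          simp only at h2
          rw [h1, h2]; ring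
        · have h1 : ind A e = 0 := by simp [ind, he]
          rw [h1]; ring
      rw [Finset.sum_congr rfl (fun e _ => this e), ← Finset.mul_sum]
      have : ∑ e, ind A e = (A.card : ℝ) := by simp [ind]
      rw [this]; ring
    rw [h2, mul_div_assoc', div_le_one hm0] at h1
    have : ((2 * A.card : ℕ) : ℝ) ≤ (L.card : ℝ) := by push_cast; linarith
    exact_mod_cast this
  have hA2 : 2 ≤ A.card := by
    have : ({a, b} : Finset P) ⊆ A := by
      intro t ht
      simp only [Finset.mem_insert, Finset.mem_singleton] at ht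
      rcases ht with rfl | rfl
      exacts [haA, hbA]
    have := Finset.card_le_card this
    rwa [Finset.card_pair hab] at this
  have hz : ∃ z ∈ L, z ∉ A := by
    by_contra h
    push Not at h
    have := Finset.card_le_card (show L ⊆ A from h)
    omega
  obtain ⟨z, hz, hzA⟩ := hz
  have haz : a ≠ z := fun h => hzA (h ▸ haA)
  have hbz : b ≠ z := fun h => hzA (h ▸ hbA)
  obtain ⟨σ, σL, σσ, σa, σb, σS⟩ := hσ a ha b hb z hz hab haz hbz
  have σz : σ z = b := by rw [← σb, σσ b hb]
  have hw : ∃ w ∈ L, w ∉ A ∧ w ≠ z ∧ σ w ∉ A := by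
    by_contra h
    push Not at h
    have h1 : ((L \ A).erase z).card ≤ ((A.erase a).erase b).card := by
      apply Finset.card_le_card_of_injOn σ
      · intro w hw
        have hw' : w ∈ (L \ A).erase z := hw
        rw [Finset.mem_erase, Finset.mem_sdiff] at hw'
        have h2 := h w hw'.2.1 hw'.2.2 hw'.1
        have h3 : σ w ≠ a := by
          intro h4; apply hw'.2.2
          have := σσ w hw'.2.1
          rw [h4, σa] at this; rw [← this]; exact haA
        have h5 : σ w ≠ b := by
          intro h4; apply hw'.1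
          have := σσ w hw'.2.1
          rw [h4, σb] at this; exact this.symm
        exact Finset.mem_erase.2 ⟨h5, Finset.mem_erase.2 ⟨h3, h2⟩⟩
      · intro w hw w' hw' hww
        have h1 : w ∈ (L \ A).erase z := hw
        have h2 : w' ∈ (L \ A).erase z := hw'
        rw [Finset.mem_erase, Finset.mem_sdiff] at h1 h2
        have hww' : σ w = σ w' := hww
        rw [← σσ w h1.2.1, ← σσ w' h2.2.1, hww']
    rw [Finset.card_erase_of_mem (Finset.mem_sdiff.2 ⟨hz, hzA⟩),
      Finset.card_sdiff_of_subset hAL,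
      Finset.card_erase_of_mem (Finset.mem_erase.2 ⟨hab.symm, hbA⟩),
      Finset.card_erase_of_mem haA] at h1
    omega
  obtain ⟨w, hw, hwA, hwz, hσwA⟩ := hw
  have hσw := σL w hw
  have haw : a ≠ w := fun h => hwA (h ▸ haA)
  have hbw : b ≠ w := fun h => hwA (h ▸ hbA)
  have haσ : a ≠ σ w := fun h => hσwA (h ▸ haA)
  have hbσ : b ≠ σ w := fun h => hσwA (h ▸ hbA)
  have hzσ : z ≠ σ w := by
    intro h; apply hwA
    have := σσ w hw
    rw [← h, σz] at this; rw [← this]; exact hbA
  have D1 : D4 I a b z w := ⟨hab, haz, haw, hbz, hbw, hwz.symm, hLI a ha, hLI b hb, hLI z hz,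
    hLI w hw⟩
  have D2 : D4 I a b z (σ w) := ⟨hab, haz, haσ, hbz, hbσ, hzσ, hLI a ha, hLI b hb, hLI z hz,
    hLI _ hσw⟩
  have S1 : Sp C I a b z w := by
    refine ⟨N, hN, ?_, fun h => hNab h.1⟩
    rw [D1.oc_acbd]
    exact oc_mem (outA a haA z hz hzA) (outA b hbA w hw hwA)
  have S2 : Sp C I a b z (σ w) := by
    refine ⟨N, hN, ?_, fun h => hNab h.1⟩
    rw [D2.oc_acbd]
    exact oc_mem (outA a haA z hz hzA) (outA b hbA _ hσw hσwA)
  have S3 := σS a ha b hb z hz w hw hab haz haw hbz hbw hwz.symm S1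
  rw [σa, σb, σz] at S3
  exact Sp.uniq S hI D2 S2 S3

end Pool.Agent.X52.PG
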