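import Pool.Agent.X52.PGUnsplit

/-!
# Projective geometries are indecomposable (coordinates)
-/

set_option autoImplicit false
set_option linter.unusedSectionVars false

namespace Pool.Agent.X52.PG

open Finset

variable {K : Type} [Field K] {V : Type} [AddCommGroup V] [Module K V] [FiniteDimensional K V]
variable {P : Type} [Fintype P] [DecidableEq P]
variable {r : ℕ} {C : Set (Finset P → Prop)}

theorem exch_PB {vec : P → V} (hr : Module.finrank K V = r) : Exch (PB K vec r) := by
  classical
  intro A B hA hB e heA heB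
  have hAe : (A : Set P) = insert e ((A.erase e : Finset P) : Set P) := by
    rw [← Finset.coe_insert, Finset.insert_erase heA]
  have h1 := hA.1
  rw [hAe, linearIndepOn_insert (by simp)] at h1
  have hex : ∃ f ∈ B, vec f ∉ Submodule.span K (vec '' ((A.erase e : Finset P) : Set P)) := by
    by_contra hcon
    push Not at hcon
    apply h1.2
    have h2 : Submodule.span K (vec '' (B : Set P))
        ≤ Submodule.span K (vec '' ((A.erase e : Finset P) : Set P)) := by
      rw [Submodule.span_le]; rintro _ ⟨t, ht, rfl⟩; exact hcon t ht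
    rw [span_top hr hB] at h2
    exact h2 trivial
  obtain ⟨f, hf, hfs⟩ := hex
  have hfe : f ∉ A.erase e := fun h => hfs (Submodule.subset_span ⟨f, h, rfl⟩)
  have hfA : f ∉ A := by
    intro h
    by_cases hfe' : f = e
    · exact heB (hfe' ▸ hf)
    · exact hfe (Finset.mem_erase.2 ⟨hfe', h⟩)
  refine ⟨f, hf, hfA, ?_, ?_⟩
  · rw [Finset.coe_insert, linearIndepOn_insert (fun h => hfe (Finset.mem_coe.1 h))]
    exact ⟨h1.1, hfs⟩
  · rw [Finset.card_insert_of_notMem hfe, Finset.card_erase_add_one heA]; exact hA.2

theorem exists_base {vec : P → V} {pt : V → P} (hr : Module.finrank K V = r) (G : Geo K vec pt)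
    (x : P) : ∃ A, PB K vec r A ∧ x ∈ A := by
  classical
  have h0 : LinearIndepOn K vec ({x} : Set P) := by
    rw [linearIndepOn_singleton_iff]; exact G.ne x
  set s := h0.extend (Set.subset_univ _) with hs
  have h1 : LinearIndepOn K vec s := h0.linearIndepOn_extend _
  have h2 : Submodule.span K (vec '' s) = Submodule.span K (vec '' Set.univ) :=
    h0.span_image_extend_eq_span_image _
  have h3 : Submodule.span K (vec '' (Set.univ : Set P)) = ⊤ := by
    rw [eq_top_iff]
    intro v _
    by_cases hv : v = 0
    · rw [hv]; exact Submodule.zero_mem _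
    · obtain ⟨c, hc, hvc⟩ := G.pt v hv
      have : v = c⁻¹ • vec (pt v) := by rw [hvc, smul_smul, inv_mul_cancel₀ hc, one_smul]
      rw [this]
      exact Submodule.smul_mem _ _ (Submodule.subset_span ⟨_, trivial, rfl⟩)
  refine ⟨s.toFinset, ⟨by rw [Set.coe_toFinset]; exact h1, ?_⟩, ?_⟩
  · have h4 : Module.finrank K (Submodule.span K (Set.range (fun x : s => vec x)))
        = Fintype.card s := finrank_span_eq_card h1
    rw [← Set.image_eq_range, h2, h3, finrank_top, hr] at h4
    rw [Set.toFinset_card]; exact h4.symm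
  · rw [Set.mem_toFinset]
    exact h0.subset_extend _ rfl

theorem pg_main {vec : P → V} {pt : V → P} (hr : Module.finrank K V = r) (G : Geo K vec pt)
    (S : Subd r (PB K vec r) C) (hr3 : 3 ≤ r) : ∃ N ∈ C, ∀ A, PB K vec r A → N A := by
  classical
  have : Nontrivial V := Module.nontrivial_of_finrank_pos (R := K) (by omega)
  obtain ⟨v0, hv0⟩ := exists_ne (0 : V)
  obtain ⟨B, hB, -⟩ := exists_base hr G (pt v0)
  set s : V := ∑ e ∈ B, vec e with hs
  have hfs : ∀ e ∈ B, ∀ f : V →ₗ[K] K, f (vec e) = 1 → (∀ e' ∈ B, e' ≠ e → f (vec e') = 0) →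
      f s = 1 := by
    intro e he f h1 h2
    rw [hs, map_sum, ← Finset.add_sum_erase B _ he, h1]
    have : ∑ x ∈ B.erase e, f (vec x) = 0 := by
      apply Finset.sum_eq_zero
      intro x hx; rw [Finset.mem_erase] at hx; exact h2 x hx.2 hx.1
    rw [this]; ring
  have hBne : B.Nonempty := by rw [← Finset.card_pos, hB.2]; omega
  have hs0 : s ≠ 0 := by
    intro h
    obtain ⟨e, he⟩ := hBne
    obtain ⟨f, hf1, hf0⟩ := dualf hB.1 he
    have := hfs e he f hf1 hf0
    rw [h, map_zero] at this; exact zero_ne_one this
  obtain ⟨c, hc, hvc⟩ := G.pt s hs0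
  have hu : pt s ∉ B := by
    intro h
    have : ∃ e ∈ B, e ≠ pt s := by
      by_contra hcon
      push Not at hcon
      have : B ⊆ {pt s} := fun t ht => Finset.mem_singleton.2 (hcon t ht)
      have := Finset.card_le_card this
      rw [hB.2] at this; simp at this; omega
    obtain ⟨e, he, hne⟩ := this
    obtain ⟨f, hf1, hf0⟩ := dualf hB.1 he
    have h1 := hf0 _ h hne.symm
    rw [hvc, map_smul, hfs e he f hf1 hf0] at h1
    simp at h1; exact hc h1
  apply main_of_clo S (exch_PB hr) (fun N hN => clo_of_geo hr G S hr3 N hN)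
    (U := insert (pt s) B)
  · rw [Finset.card_insert_of_notMem hu, hB.2]
  · intro e he
    rw [Finset.mem_insert] at he
    rcases he with rfl | he
    · rw [Finset.erase_insert hu]; exact hB
    · have hne : pt s ≠ e := fun h => hu (h ▸ he)
      rw [Finset.erase_insert_of_ne hne]
      obtain ⟨f, hf1, hf0⟩ := dualf hB.1 he
      have h1 : vec (pt s) ∉ Submodule.span K (vec '' ((B.erase e : Finset P) : Set P)) := by
        intro h
        have h2 : Submodule.span K (vec '' ((B.erase e : Finset P) : Set P))
            ≤ LinearMap.ker f := by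
          rw [Submodule.span_le]; rintro _ ⟨t, ht, rfl⟩
          have ht' : t ∈ B.erase e := ht
          rw [Finset.mem_erase] at ht'
          exact hf0 t ht'.2 ht'.1
        have h3 : f (vec (pt s)) = 0 := h2 h
        rw [hvc, map_smul, hfs e he f hf1 hf0] at h3
        simp at h3; exact hc h3
      have h4 : pt s ∉ B.erase e := fun h => h1 (Submodule.subset_span ⟨_, h, rfl⟩)
      refine ⟨?_, ?_⟩
      · rw [Finset.coe_insert, linearIndepOn_insert (fun h => h4 (Finset.mem_coe.1 h))]
        exact ⟨hB.1.mono (by simp), h1⟩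
      · rw [Finset.card_insert_of_notMem h4, Finset.card_erase_add_one he]; exact hB.2
  · exact exists_base hr G

end Pool.Agent.X52.PG
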