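import Pool.Agent.X52.PGBase

/-!
# Splits of octahedra
-/

set_option autoImplicit false
set_option linter.unusedSectionVars false

namespace Pool.Agent.X52.PG

open Finset

variable {P : Type} [Fintype P] [DecidableEq P]

theorem exch_pair {N : Finset P → Prop} (hE : Exch N) {r : ℕ} (hc : ∀ B, N B → B.card = r)
    {I : Finset P} (hI : I.card + 2 = r) {a b c d : P} (h1 : N (bs I a b)) (h2 : N (bs I c d))
    (hbc : b ≠ c) (hbd : b ≠ d) : N (bs I a c) ∨ N (bs I a d) := by
  obtain ⟨hab, haI, hbI⟩ := bs_card hI (hc _ h1)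
  have hb1 : b ∈ bs I a b := by simp [bs]
  have hb2 : b ∉ bs I c d := by simp [bs, hbc, hbd, hbI]
  obtain ⟨f, hf, hf', hN⟩ := hE _ _ h1 h2 b hb1 hb2
  have he : (bs I a b).erase b = insert a I := by
    ext e; simp only [bs, Finset.mem_erase, Finset.mem_insert]
    constructor
    · rintro ⟨h, h' | h' | h'⟩
      · exact Or.inl h'
      · exact absurd h' h
      · exact Or.inr h'
    · rintro (h | h)
      · subst h; exact ⟨hab, Or.inl rfl⟩
      · exact ⟨fun h' => hbI (h' ▸ h), Or.inr (Or.inr h)⟩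
  rw [he] at hN
  have hfI : f ∉ I := fun h => hf' (by simp [bs, h])
  simp only [bs, Finset.mem_insert] at hf
  rcases hf with rfl | rfl | hf
  · left; rw [bs_comm]; exact hN
  · right; rw [bs_comm]; exact hN
  · exact absurd hf hfI

/-- all six pairs give bases -/
structure Q4 (M : Finset P → Prop) (I : Finset P) (a b c d : P) : Prop where
  ab : M (bs I a b)
  ac : M (bs I a c)
  ad : M (bs I a d)
  bc : M (bs I b c)
  bd : M (bs I b d)
  cd : M (bs I c d)

theorem oc_apply {I : Finset P} {a b c d : P} (hab : a ≠ b) (hcd : c ≠ d) (ha : a ∉ I)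
    (hb : b ∉ I) (hc : c ∉ I) (hd : d ∉ I) (e : P) : oc I a b c d e = ind I e +
      (1/2) * ((if e = a then 1 else 0) + (if e = b then 1 else 0) + (if e = c then 1 else 0)
        + (if e = d then 1 else 0)) := by
  simp only [oc, Pi.add_apply, Pi.smul_apply, smul_eq_mul, ind_bs hab ha hb, ind_bs hcd hc hd]
  ring

theorem oc_swap {I : Finset P} {a b c d : P} (hab : a ≠ b) (hcd : c ≠ d) (hac : a ≠ c)
    (hbd : b ≠ d) (ha : a ∉ I) (hb : b ∉ I) (hc : c ∉ I) (hd : d ∉ I) :
    oc I a b c d = oc I a c b d := by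
  ext e
  rw [oc_apply hab hcd ha hb hc hd, oc_apply hac hbd ha hc hb hd]
  ring

theorem oc_mem {N : Finset P → Prop} {I : Finset P} {a b c d : P} (h1 : N (bs I a b))
    (h2 : N (bs I c d)) : oc I a b c d ∈ poly N :=
  convex_poly N (ind_mem h1) (ind_mem h2) (by norm_num) (by norm_num) (by norm_num)

/-- the octahedron is split by the square without `ab` and `cd` -/
def Sp (C : Set (Finset P → Prop)) (I : Finset P) (a b c d : P) : Prop :=
  ∃ N ∈ C, oc I a b c d ∈ poly N ∧ ¬ (N (bs I a b) ∧ N (bs I c d))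

theorem Sp.swap {C : Set (Finset P → Prop)} {I : Finset P} {a b c d : P} (h : Sp C I a b c d) :
    Sp C I b a c d := by
  unfold Sp oc at *; rw [bs_comm I b a]; exact h

theorem Sp.flip {C : Set (Finset P → Prop)} {I : Finset P} {a b c d : P} (h : Sp C I a b c d) :
    Sp C I c d a b := by
  obtain ⟨N, hN, h1, h2⟩ := h
  refine ⟨N, hN, ?_, fun h => h2 ⟨h.2, h.1⟩⟩
  unfold oc at *; rw [add_comm]; exact h1

variable {r : ℕ} {M : Finset P → Prop} {C : Set (Finset P → Prop)}

theorem Subd.cardN (S : Subd r M C) {N : Finset P → Prop} (hN : N ∈ C) (B : Finset P)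
    (h : N B) : B.card = r := S.card B (S.sub N hN B h)

theorem Sp.all (S : Subd r M C) {I : Finset P} {a b c d : P} (h : Sp C I a b c d)
    {N : Finset P → Prop} (hN : N ∈ C) (_ho : oc I a b c d ∈ poly N) :
    ¬ (N (bs I a b) ∧ N (bs I c d)) := by
  rintro ⟨h1, h2⟩
  obtain ⟨N', hN', ho', h'⟩ := h
  exact h' (S.face N hN N' hN' _ _ h1 h2 ho')

theorem supp_pair {N : Finset P → Prop} (hc : ∀ B, N B → B.card = r) {I : Finset P}
    (hI : I.card + 2 = r) {v : P → ℝ} {l : Finset P → ℝ} (h : Rep N v l) (T : Finset P)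
    (hone : ∀ e ∈ I, v e = 1) (hzero : ∀ e, e ∉ I → e ∉ T → v e = 0) {B : Finset P}
    (hB : 0 < l B) : ∃ a ∈ T, ∃ b ∈ T, a ≠ b ∧ a ∉ I ∧ b ∉ I ∧ B = bs I a b := by
  have hIB : I ⊆ B := fun e he => rep_mem_of_one h (hone e he) hB
  have hBT : ∀ e ∈ B, e ∉ I → e ∈ T := by
    intro e he heI
    by_contra hcon
    exact rep_not_mem_of_zero h (hzero e heI hcon) hB he
  have hcard : (B \ I).card = 2 := by
    rw [Finset.card_sdiff_of_subset hIB, hc B (h.mem B hB)]; omega
  obtain ⟨a, b, hab, hBI⟩ := Finset.card_eq_two.1 hcard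
  have ha : a ∈ B \ I := by rw [hBI]; simp
  have hb : b ∈ B \ I := by rw [hBI]; simp
  rw [Finset.mem_sdiff] at ha hb
  refine ⟨a, hBT a ha.1 ha.2, b, hBT b hb.1 hb.2, hab, ha.2, hb.2, ?_⟩
  rw [← Finset.sdiff_union_of_subset hIB, hBI]
  ext e; simp [bs]

theorem dot4 (a u s t : P) (x : P → ℝ) :
    ∑ e, ((if e = a then (1:ℝ) else 0) + (if e = u then 1 else 0) - (if e = s then 1 else 0)
      - (if e = t then 1 else 0)) * x e = x a + x u - x s - x t := by
  simp [add_mul, sub_mul, Finset.sum_add_distrib, Finset.sum_sub_distrib]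

theorem dot5 (a a' u s t : P) (x : P → ℝ) :
    ∑ e, ((if e = a then (1:ℝ) else 0) + (if e = a' then 1 else 0) + (if e = u then 1 else 0)
      - (if e = s then 1 else 0) - (if e = t then 1 else 0)) * x e
      = x a + x a' + x u - x s - x t := by
  simp [add_mul, sub_mul, Finset.sum_add_distrib, Finset.sum_sub_distrib]

theorem neg_pair {I : Finset P} {a u s t p q : P} (h1 : a ≠ u) (h2 : a ≠ s) (h3 : a ≠ t)
    (h4 : u ≠ s) (h5 : u ≠ t) (h6 : s ≠ t) (ha : a ∉ I) (hu : u ∉ I) (hs : s ∉ I) (ht : t ∉ I)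
    (hp : p ∈ ({a, u, s, t} : Finset P)) (hq : q ∈ ({a, u, s, t} : Finset P)) (hpq : p ≠ q)
    (hneg : ind (bs I p q) a + ind (bs I p q) u - ind (bs I p q) s - ind (bs I p q) t < 0) :
    bs I p q = bs I s t := by
  have e1 := h1.symm; have e2 := h2.symm; have e3 := h3.symm; have e4 := h4.symm
  have e5 := h5.symm; have e6 := h6.symm
  simp only [Finset.mem_insert, Finset.mem_singleton] at hp hq
  rcases hp with rfl | rfl | rfl | rfl <;> rcases hq with rfl | rfl | rfl | rfl <;>
    first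
    | exact absurd rfl hpq
    | rfl
    | exact bs_comm _ _ _
    | (exfalso; simp [ind, bs, *] at hneg <;> norm_num at hneg)

theorem neg_pair5 {I : Finset P} {a a' u s t p q : P} (h1 : a ≠ u) (h2 : a ≠ s) (h3 : a ≠ t)
    (h4 : u ≠ s) (h5 : u ≠ t) (h6 : s ≠ t) (k0 : a' ≠ a) (k1 : a' ≠ u) (k2 : a' ≠ s)
    (k3 : a' ≠ t) (ha : a ∉ I) (ha' : a' ∉ I) (hu : u ∉ I) (hs : s ∉ I) (ht : t ∉ I)
    (hp : p ∈ ({a, a', u, s, t} : Finset P)) (hq : q ∈ ({a, a', u, s, t} : Finset P))
    (hpq : p ≠ q) (hneg : ind (bs I p q) a + ind (bs I p q) a' + ind (bs I p q) u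
      - ind (bs I p q) s - ind (bs I p q) t < 0) :
    bs I p q = bs I s t := by
  have e1 := h1.symm; have e2 := h2.symm; have e3 := h3.symm; have e4 := h4.symm
  have e5 := h5.symm; have e6 := h6.symm; have f0 := k0.symm; have f1 := k1.symm
  have f2 := k2.symm; have f3 := k3.symm
  simp only [Finset.mem_insert, Finset.mem_singleton] at hp hq
  rcases hp with rfl | rfl | rfl | rfl | rfl <;> rcases hq with rfl | rfl | rfl | rfl | rfl <;>
    first
    | exact absurd rfl hpq
    | rfl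
    | exact bs_comm _ _ _
    | (exfalso; simp [ind, bs, *] at hneg <;> norm_num at hneg)

end Pool.Agent.X52.PG
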