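import Pool.Agent.X52.PGSplit

/-!
# Splits of octahedra: replacing parallel elements, replacing the contracted set
-/

set_option autoImplicit false
set_option linter.unusedSectionVars false

namespace Pool.Agent.X52.PG

open Finset

variable {P : Type} [Fintype P] [DecidableEq P]
variable {r : ℕ} {M : Finset P → Prop} {C : Set (Finset P → Prop)}

theorem oc_abdc (I : Finset P) (a b c d : P) : oc I a b c d = oc I a b d c := by
  unfold oc; rw [bs_comm I c d]

theorem repl_half (S : Subd r M C) {N : Finset P → Prop} (hN : N ∈ C) {I : Finset P}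
    (hI : I.card + 2 = r) {x x' y z w : P} (D : D4 I x y z w) (k0 : x' ≠ x) (k1 : x' ≠ y)
    (k2 : x' ≠ z) (k3 : x' ≠ w) (hx' : x' ∉ I) {v : P → ℝ} {l : Finset P → ℝ} (h : Rep N v l)
    (vx : v x = 1/4) (vx' : v x' = 1/4) (vy : v y = 1/2) (vz : v z = 1/2) (vw : v w = 1/2)
    (hone : ∀ e ∈ I, v e = 1)
    (hzero : ∀ e, e ∉ I → e ∉ ({x, x', y, z, w} : Finset P) → v e = 0)
    (hpar : ¬ N (bs I x x')) :
    oc I x y z w ∈ poly N ∧ ∃ u ∈ ({y, z, w} : Finset P), N (bs I x u) := by
  have e1 := D.ab.symm; have e2 := D.ac.symm; have e3 := D.ad.symm; have e4 := D.bc.symm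
  have e5 := D.bd.symm; have e6 := D.cd.symm
  have hc := S.cardN hN
  obtain ⟨B, hB, haB⟩ := rep_exists_mem h (e := x) (by rw [vx]; norm_num)
  obtain ⟨p, hp, q, hq, hpq, _, _, rfl⟩ := supp_pair hc hI h _ hone hzero hB
  have hu : ∃ u ∈ ({y, z, w} : Finset P), 0 < l (bs I x u) := by
    have key : ∀ u ∈ ({x, x', y, z, w} : Finset P), u ≠ x → 0 < l (bs I x u) →
        u ∈ ({y, z, w} : Finset P) := by
      intro u hu hux hl
      simp only [Finset.mem_insert, Finset.mem_singleton] at hu ⊢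
      rcases hu with h' | h' | h' | h' | h'
      · exact absurd h' hux
      · subst h'; exact absurd (h.mem _ hl) hpar
      · exact Or.inl h'
      · exact Or.inr (Or.inl h')
      · exact Or.inr (Or.inr h')
    simp only [bs, Finset.mem_insert] at haB
    rcases haB with h' | h' | h'
    · subst h'; exact ⟨q, key q hq hpq.symm hB, hB⟩
    · subst h'; exact ⟨p, key p hp hpq (by rw [bs_comm]; exact hB), by rw [bs_comm]; exact hB⟩
    · exact absurd h' D.a
  obtain ⟨u, hu, hlu⟩ := hu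
  refine ⟨?_, u, hu, h.mem _ hlu⟩
  simp only [Finset.mem_insert, Finset.mem_singleton] at hu
  rcases hu with rfl | rfl | rfl
  · have := comp5 hc hI h D.ab D.ac D.ad D.bc D.bd D.cd k0 k1 k2 k3 D.a hx' D.b D.c D.d hone
      hzero (by rw [vx, vx', vy, vz, vw]; norm_num) hlu
    exact oc_mem (h.mem _ hlu) (h.mem _ this)
  · have := comp5 hc hI h D.ac D.ab D.ad e4 D.cd D.bd k0 k2 k1 k3 D.a hx' D.c D.b D.d hone
      (fun e h1 h2 => hzero e h1 (fun h3 => h2 (by
        simp only [Finset.mem_insert, Finset.mem_singleton] at h3 ⊢; tauto)))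
      (by rw [vx, vx', vy, vz, vw]; norm_num) hlu
    rw [D.oc_acbd]
    exact oc_mem (h.mem _ hlu) (h.mem _ this)
  · have := comp5 hc hI h D.ad D.ab D.ac e5 e6 D.bc k0 k3 k1 k2 D.a hx' D.d D.b D.c hone
      (fun e h1 h2 => hzero e h1 (fun h3 => h2 (by
        simp only [Finset.mem_insert, Finset.mem_singleton] at h3 ⊢; tauto)))
      (by rw [vx, vx', vy, vz, vw]; norm_num) hlu
    rw [oc_abdc, oc_swap D.ab e6 D.ad D.bc D.a D.b D.d D.c]
    exact oc_mem (h.mem _ hlu) (h.mem _ this)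

theorem Sp.repl (S : Subd r M C) {I : Finset P} (hI : I.card + 2 = r) {x x' y z w : P}
    (q : Q4 M I x y z w) (m1 : M (bs I x' y)) (m2 : M (bs I x' z)) (m3 : M (bs I x' w))
    (hpar : ¬ M (bs I x x')) (h : Sp C I x y z w) : Sp C I x' y z w := by
  by_cases hxx : x' = x
  · rw [hxx]; exact h
  have D := q.dist S hI
  have q' : Q4 M I x' y z w := ⟨m1, m2, m3, q.bc, q.bd, q.cd⟩
  have D' := q'.dist S hI
  set v : P → ℝ := (1/2 : ℝ) • oc I x y z w + (1/2 : ℝ) • oc I x' y z w with hvdef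
  have hv : v ∈ poly M := convex_poly M (oc_mem q.ab q.cd) (oc_mem q'.ab q'.cd)
    (by norm_num) (by norm_num) (by norm_num)
  obtain ⟨N, hN, hvN⟩ := S.cover v hv
  obtain ⟨l, hl⟩ := exists_rep hvN
  have val : ∀ e, v e = (1/2) * (if e ∈ I then 1 else if e ∈ ({x, y, z, w} : Finset P) then 1/2
      else 0) + (1/2) * (if e ∈ I then 1 else if e ∈ ({x', y, z, w} : Finset P) then 1/2
      else 0) := by
    intro e; simp only [hvdef, Pi.add_apply, Pi.smul_apply, smul_eq_mul, D.val, D'.val]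
  have vx : v x = 1/4 := by
    rw [val]; simp [D.a, D.ab, D.ac, D.ad, Ne.symm hxx]; norm_num
  have vx' : v x' = 1/4 := by
    rw [val]; simp [D'.a, D'.ab, D'.ac, D'.ad, hxx]; norm_num
  have vy : v y = 1/2 := by rw [val]; simp [D.b]; norm_num
  have vz : v z = 1/2 := by rw [val]; simp [D.c]; norm_num
  have vw : v w = 1/2 := by rw [val]; simp [D.d]; norm_num
  have hone : ∀ e ∈ I, v e = 1 := by intro e he; rw [val]; simp [he]; norm_num
  have hzero : ∀ e, e ∉ I → e ∉ ({x, x', y, z, w} : Finset P) → v e = 0 := by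
    intro e he he'
    simp only [Finset.mem_insert, Finset.mem_singleton, not_or] at he'
    rw [val]; simp [he, he'.1, he'.2.1, he'.2.2.1, he'.2.2.2.1, he'.2.2.2.2]
  have hparN : ¬ N (bs I x x') := fun h' => hpar (S.sub N hN _ h')
  have hparN' : ¬ N (bs I x' x) := by rw [bs_comm]; exact hparN
  obtain ⟨ho, u, hu, hNu⟩ := repl_half S hN hI D hxx D'.ab D'.ac D'.ad D'.a hl vx vx' vy vz vw
    hone hzero hparN
  obtain ⟨ho', -⟩ := repl_half S hN hI D' (Ne.symm hxx) D.ab D.ac D.ad D.a hl vx' vx vy vz vw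
    hone (fun e h1 h2 => hzero e h1 (fun h3 => h2 (by
        simp only [Finset.mem_insert, Finset.mem_singleton] at h3 ⊢; tauto))) hparN'
  refine ⟨N, hN, ho', ?_⟩
  rintro ⟨g1, g2⟩
  have h3 : ¬ N (bs I x y) := fun h' => (h.all S hN ho) ⟨h', g2⟩
  have hu' : u ≠ y := by rintro rfl; exact h3 hNu
  have hux' : u ≠ x' := by
    simp only [Finset.mem_insert, Finset.mem_singleton] at hu
    rcases hu with rfl | rfl | rfl
    exacts [D'.ab.symm, D'.ac.symm, D'.ad.symm]
  rcases exch_pair (S.exch N hN) (S.cardN hN) hI hNu g1 hux' hu' with k | k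
  · exact hparN k
  · exact h3 k

theorem prodStr (S : Subd r M C) {N : Finset P → Prop} (hN : N ∈ C) {J : Finset P} {p p' : P}
    (hp : p ∉ J) (hp' : p' ∉ J) (hpp : p ≠ p') (T : Finset P)
    (hcol : ∀ B, M B → (B ∩ T).card ≤ 2) {a b c d : P} (ha : a ∈ T) (hb : b ∈ T) (hc : c ∈ T)
    (hd : d ∈ T) (hab : a ≠ b) (hpT : p ∉ T) 
    (h1 : N (bs (insert p J) a b)) (h2 : N (bs (insert p' J) c d)) :
    N (bs (insert p' J) a b) := by
  have hpa : p ≠ a := fun h => hpT (h ▸ ha)
  have hpb : p ≠ b := fun h => hpT (h ▸ hb)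
  have hpc : p ≠ c := fun h => hpT (h ▸ hc)
  have hpd : p ≠ d := fun h => hpT (h ▸ hd)
  obtain ⟨f, hf, hf', hNf⟩ := S.exch N hN _ _ h1 h2 p (by simp [bs])
    (by simp [bs, hpc, hpd, hpp, hp])
  have he : (bs (insert p J) a b).erase p = bs J a b := by
    ext e; simp only [bs, Finset.mem_erase, Finset.mem_insert]
    constructor
    · rintro ⟨h, h' | h' | h' | h'⟩
      · exact Or.inl h'
      · exact Or.inr (Or.inl h')
      · exact absurd h' h
      · exact Or.inr (Or.inr h')
    · rintro (h | h | h)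
      · exact ⟨fun h' => hpa (h'.symm.trans h), Or.inl h⟩
      · exact ⟨fun h' => hpb (h'.symm.trans h), Or.inr (Or.inl h)⟩
      · exact ⟨fun h' => hp (h' ▸ h), Or.inr (Or.inr (Or.inr h))⟩
  rw [he] at hNf
  have hthree : ∀ g ∈ T, g ∉ bs (insert p J) a b → ¬ N (insert g (bs J a b)) := by
    intro g hg hg' hNg
    have h3 := hcol _ (S.sub N hN _ hNg)
    have hga : g ≠ a := fun h => hg' (by simp [bs, h])
    have hgb : g ≠ b := fun h => hg' (by simp [bs, h])
    have : ({g, a, b} : Finset P) ⊆ insert g (bs J a b) ∩ T := by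
      intro e he
      simp only [Finset.mem_insert, Finset.mem_singleton] at he
      rcases he with rfl | rfl | rfl <;> simp [bs, ha, hb, hg]
    have h4 := Finset.card_le_card this
    rw [Finset.card_insert_of_notMem (by simp [hga, hgb]), Finset.card_pair hab] at h4
    omega
  have hfJ : f ∉ J := fun h => hf' (by simp [bs, h])
  have hf2 := hf
  simp only [bs, Finset.mem_insert] at hf2
  rcases hf2 with h | h | h | h
  · exact absurd (h ▸ hNf) (hthree c hc (h ▸ hf'))
  · exact absurd (h ▸ hNf) (hthree d hd (h ▸ hf'))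
  · subst h
    have : insert f (bs J a b) = bs (insert f J) a b := by
      ext e; simp only [bs, Finset.mem_insert]; tauto
    rw [← this]; exact hNf
  · exact absurd h hfJ

end Pool.Agent.X52.PG
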