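import Pool.Agent.X52.PGOct

/-!
# Splits of octahedra: uniqueness, and invariance under replacing parallel elements
-/

set_option autoImplicit false
set_option linter.unusedSectionVars false

namespace Pool.Agent.X52.PG

open Finset

variable {P : Type} [Fintype P] [DecidableEq P]
variable {r : ℕ} {M : Finset P → Prop} {C : Set (Finset P → Prop)}

theorem comp4 {N : Finset P → Prop} (hc : ∀ B, N B → B.card = r) {I : Finset P}
    (hI : I.card + 2 = r) {v : P → ℝ} {l : Finset P → ℝ} (h : Rep N v l) {a u s t : P}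
    (h1 : a ≠ u) (h2 : a ≠ s) (h3 : a ≠ t) (h4 : u ≠ s) (h5 : u ≠ t) (h6 : s ≠ t)
    (ha : a ∉ I) (hu : u ∉ I) (hs : s ∉ I) (ht : t ∉ I) (hone : ∀ e ∈ I, v e = 1)
    (hzero : ∀ e, e ∉ I → e ∉ ({a, u, s, t} : Finset P) → v e = 0)
    (hv : v a + v u - v s - v t = 0) (hB : 0 < l (bs I a u)) : 0 < l (bs I s t) := by
  have e1 := h1.symm; have e2 := h2.symm; have e3 := h3.symm; have e4 := h4.symm
  have e5 := h5.symm; have e6 := h6.symm
  obtain ⟨A, hA, hneg⟩ := rep_pos_neg h _ ((dot4 a u s t v).trans hv) hB (by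
    rw [dot4]; simp [ind, bs, *])
  rw [dot4] at hneg
  obtain ⟨p, hp, q, hq, hpq, _, _, rfl⟩ := supp_pair hc hI h _ hone hzero hA
  rw [neg_pair h1 h2 h3 h4 h5 h6 ha hu hs ht hp hq hpq hneg] at hA
  exact hA

theorem comp5 {N : Finset P → Prop} (hc : ∀ B, N B → B.card = r) {I : Finset P}
    (hI : I.card + 2 = r) {v : P → ℝ} {l : Finset P → ℝ} (h : Rep N v l) {a a' u s t : P}
    (h1 : a ≠ u) (h2 : a ≠ s) (h3 : a ≠ t) (h4 : u ≠ s) (h5 : u ≠ t) (h6 : s ≠ t)
    (k0 : a' ≠ a) (k1 : a' ≠ u) (k2 : a' ≠ s) (k3 : a' ≠ t)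
    (ha : a ∉ I) (ha' : a' ∉ I) (hu : u ∉ I) (hs : s ∉ I) (ht : t ∉ I) (hone : ∀ e ∈ I, v e = 1)
    (hzero : ∀ e, e ∉ I → e ∉ ({a, a', u, s, t} : Finset P) → v e = 0)
    (hv : v a + v a' + v u - v s - v t = 0) (hB : 0 < l (bs I a u)) : 0 < l (bs I s t) := by
  have e1 := h1.symm; have e2 := h2.symm; have e3 := h3.symm; have e4 := h4.symm
  have e5 := h5.symm; have e6 := h6.symm; have f0 := k0.symm; have f1 := k1.symm
  have f2 := k2.symm; have f3 := k3.symm
  obtain ⟨A, hA, hneg⟩ := rep_pos_neg h _ ((dot5 a a' u s t v).trans hv) hB (by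
    rw [dot5]; simp [ind, bs, *])
  rw [dot5] at hneg
  obtain ⟨p, hp, q, hq, hpq, _, _, rfl⟩ := supp_pair hc hI h _ hone hzero hA
  rw [neg_pair5 h1 h2 h3 h4 h5 h6 k0 k1 k2 k3 ha ha' hu hs ht hp hq hpq hneg] at hA
  exact hA

/-- distinctness data for four elements outside `I` -/
structure D4 (I : Finset P) (a b c d : P) : Prop where
  ab : a ≠ b
  ac : a ≠ c
  ad : a ≠ d
  bc : b ≠ c
  bd : b ≠ d
  cd : c ≠ d
  a : a ∉ I
  b : b ∉ I
  c : c ∉ I
  d : d ∉ I

theorem Q4.dist (S : Subd r M C) {I : Finset P} (hI : I.card + 2 = r) {a b c d : P}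
    (q : Q4 M I a b c d) : D4 I a b c d := by
  obtain ⟨h1, h2, h3⟩ := bs_card hI (S.card _ q.ab)
  obtain ⟨h4, _, h5⟩ := bs_card hI (S.card _ q.cd)
  exact ⟨h1, (bs_card hI (S.card _ q.ac)).1, (bs_card hI (S.card _ q.ad)).1,
    (bs_card hI (S.card _ q.bc)).1, (bs_card hI (S.card _ q.bd)).1, h4, h2, h3,
    (bs_card hI (S.card _ q.cd)).2.1, h5⟩

theorem D4.val {I : Finset P} {a b c d : P} (D : D4 I a b c d) (e : P) :
    oc I a b c d e = if e ∈ I then 1 else if e ∈ ({a, b, c, d} : Finset P) then 1/2 else 0 := by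
  have e1 := D.ab.symm; have e2 := D.ac.symm; have e3 := D.ad.symm; have e4 := D.bc.symm
  have e5 := D.bd.symm; have e6 := D.cd.symm
  rw [oc_apply D.ab D.cd D.a D.b D.c D.d]
  by_cases hI : e ∈ I
  · have h1 : e ≠ a := fun h => D.a (h ▸ hI)
    have h2 : e ≠ b := fun h => D.b (h ▸ hI)
    have h3 : e ≠ c := fun h => D.c (h ▸ hI)
    have h4 : e ≠ d := fun h => D.d (h ▸ hI)
    simp [ind, hI, h1, h2, h3, h4]
  · by_cases h1 : e = a
    · subst h1; simp [ind, hI, D.ab, D.ac, D.ad]
    · by_cases h2 : e = b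
      · subst h2; simp [ind, hI, h1, D.bc, D.bd]
      · by_cases h3 : e = c
        · subst h3; simp [ind, hI, h1, h2, D.cd]
        · by_cases h4 : e = d
          · subst h4; simp [ind, hI, h1, h2, h3]
          · simp [ind, hI, h1, h2, h3, h4]

theorem antipodal (S : Subd r M C) {N : Finset P → Prop} (hN : N ∈ C) {I : Finset P}
    (hI : I.card + 2 = r) {a b c d : P} (D : D4 I a b c d) (ho : oc I a b c d ∈ poly N) :
    (N (bs I a b) ∧ N (bs I c d)) ∨ (N (bs I a c) ∧ N (bs I b d)) ∨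
      (N (bs I a d) ∧ N (bs I b c)) := by
  have e1 := D.ab.symm; have e2 := D.ac.symm; have e3 := D.ad.symm; have e4 := D.bc.symm
  have e5 := D.bd.symm; have e6 := D.cd.symm
  obtain ⟨l, hl⟩ := exists_rep ho
  have hc := S.cardN hN
  have hone : ∀ e ∈ I, oc I a b c d e = 1 := fun e he => by rw [D.val]; simp [he]
  have hzero : ∀ e, e ∉ I → e ∉ ({a, b, c, d} : Finset P) → oc I a b c d e = 0 := by
    intro e he he'; rw [D.val, if_neg he, if_neg he']
  have hval : ∀ e ∈ ({a, b, c, d} : Finset P), oc I a b c d e = 1/2 := by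
    intro e he; rw [D.val, if_pos he, if_neg]
    simp only [Finset.mem_insert, Finset.mem_singleton] at he
    rcases he with rfl | rfl | rfl | rfl
    exacts [D.a, D.b, D.c, D.d]
  have va := hval a (by simp)
  have vb := hval b (by simp)
  have vc := hval c (by simp)
  have vd := hval d (by simp)
  obtain ⟨B, hB, haB⟩ := rep_exists_mem hl (e := a) (by rw [va]; norm_num)
  obtain ⟨p, hp, q, hq, hpq, _, _, rfl⟩ := supp_pair hc hI hl _ hone hzero hB
  have hu : ∃ u ∈ ({b, c, d} : Finset P), 0 < l (bs I a u) := by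
    simp only [bs, Finset.mem_insert] at haB
    rcases haB with h | h | h
    · subst h; refine ⟨q, ?_, hB⟩
      simp only [Finset.mem_insert, Finset.mem_singleton] at hq ⊢
      rcases hq with h' | h' | h' | h'
      · exact absurd h'.symm hpq
      · simp [h']
      · simp [h']
      · simp [h']
    · subst h; refine ⟨p, ?_, by rw [bs_comm]; exact hB⟩
      simp only [Finset.mem_insert, Finset.mem_singleton] at hp ⊢
      rcases hp with h' | h' | h' | h'
      · exact absurd h' hpq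
      · simp [h']
      · simp [h']
      · simp [h']
    · exact absurd h D.a
  obtain ⟨u, hu, hlu⟩ := hu
  simp only [Finset.mem_insert, Finset.mem_singleton] at hu
  rcases hu with rfl | rfl | rfl
  · left
    refine ⟨hl.mem _ hlu, hl.mem _ ?_⟩
    exact comp4 hc hI hl D.ab D.ac D.ad D.bc D.bd D.cd D.a D.b D.c D.d hone hzero
      (by rw [va, vb, vc, vd]; norm_num) hlu
  · right; left
    refine ⟨hl.mem _ hlu, hl.mem _ ?_⟩
    exact comp4 hc hI hl D.ac D.ab D.ad e4 D.cd D.bd D.a D.c D.b D.d hone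
      (fun e h1 h2 => hzero e h1 (fun h3 => h2 (by
        simp only [Finset.mem_insert, Finset.mem_singleton] at h3 ⊢; tauto)))
      (by rw [va, vb, vc, vd]; norm_num) hlu
  · right; right
    refine ⟨hl.mem _ hlu, hl.mem _ ?_⟩
    exact comp4 hc hI hl D.ad D.ab D.ac e5 e6 D.bc D.a D.d D.b D.c hone
      (fun e h1 h2 => hzero e h1 (fun h3 => h2 (by
        simp only [Finset.mem_insert, Finset.mem_singleton] at h3 ⊢; tauto)))
      (by rw [va, vb, vc, vd]; norm_num) hlu

theorem D4.oc_acbd {I : Finset P} {a b c d : P} (D : D4 I a b c d) :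
    oc I a b c d = oc I a c b d := oc_swap D.ab D.cd D.ac D.bd D.a D.b D.c D.d

theorem Sp.uniq (S : Subd r M C) {I : Finset P} (hI : I.card + 2 = r) {a b c d : P}
    (D : D4 I a b c d) (h1 : Sp C I a b c d) (h2 : Sp C I a c b d) : False := by
  obtain ⟨N, hN, ho, h⟩ := h1
  have h' := h2.all S hN (D.oc_acbd ▸ ho)
  have hc := S.cardN hN
  have hE := S.exch N hN
  have e1 := D.ab.symm; have e2 := D.ac.symm; have e3 := D.ad.symm; have e4 := D.bc.symm
  have e5 := D.bd.symm; have e6 := D.cd.symm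
  rcases antipodal S hN hI D ho with h3 | h3 | ⟨had, hbc⟩
  · exact h h3
  · exact h' h3
  · by_cases k1 : N (bs I a b)
    · have k2 : ¬ N (bs I c d) := fun k => h ⟨k1, k⟩
      by_cases k3 : N (bs I a c)
      · have k4 : ¬ N (bs I b d) := fun k => h' ⟨k3, k⟩
        rcases exch_pair hE hc hI (by rw [bs_comm]; exact had : N (bs I d a)) hbc D.ab D.ac
          with k | k
        · exact k4 (by rw [bs_comm]; exact k)
        · exact k2 (by rw [bs_comm]; exact k)
      · rcases exch_pair hE hc hI (by rw [bs_comm]; exact hbc : N (bs I c b)) had e1 D.bd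
          with k | k
        · exact k3 (by rw [bs_comm]; exact k)
        · exact k2 k
    · by_cases k3 : N (bs I a c)
      · have k4 : ¬ N (bs I b d) := fun k => h' ⟨k3, k⟩
        rcases exch_pair hE hc hI hbc had e2 D.cd with k | k
        · exact k1 (by rw [bs_comm]; exact k)
        · exact k4 k
      · rcases exch_pair hE hc hI had hbc e5 e6 with k | k
        · exact k1 k
        · exact k3 k

end Pool.Agent.X52.PG
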