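import Pool.Agent.X52.PGFinal

/-!
# A cell containing all bases inside a circuit of size `r + 1`
-/

set_option autoImplicit false
set_option linter.unusedSectionVars false

namespace Pool.Agent.X52.PG

open Finset

variable {P : Type} [Fintype P] [DecidableEq P]
variable {r : ℕ} {M : Finset P → Prop} {C : Set (Finset P → Prop)}

theorem ind_nonneg (B : Finset P) (e : P) : 0 ≤ ind B e := by
  unfold ind; split_ifs <;> norm_num

theorem ind_le_one (B : Finset P) (e : P) : ind B e ≤ 1 := by
  unfold ind; split_ifs <;> norm_num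

theorem poly_le_one {N : Finset P → Prop} {x : P → ℝ} (hx : x ∈ poly N) (e : P) : x e ≤ 1 := by
  obtain ⟨l, hl⟩ := exists_rep hx
  rw [hl.eq e, ← hl.sum]
  apply Finset.sum_le_sum
  intro B _
  have := mul_le_mul_of_nonneg_left (ind_le_one B e) (hl.nonneg B)
  linarith

theorem poly_avg {N : Finset P → Prop} {ι : Type} [DecidableEq ι] (s : Finset ι) (hs : s.Nonempty)
    (A : ι → Finset P) (hA : ∀ i ∈ s, N (A i)) :
    (∑ i ∈ s, (1 / (s.card : ℝ)) • ind (A i)) ∈ poly N := by
  apply (convex_poly N).sum_mem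
  · intro i _; positivity
  · have : (s.card : ℝ) ≠ 0 := by exact_mod_cast hs.card_pos.ne'
    simp [this]
  · intro i hi; exact ind_mem (hA i hi)

theorem star_cell (S : Subd r M C) {U : Finset P} (hU : U.card = r + 1)
    (hUM : ∀ e ∈ U, M (U.erase e)) (hpos : ∀ x, ∃ A, M A ∧ x ∈ A) :
    ∃ N ∈ C, (∀ e ∈ U, N (U.erase e)) ∧ ∀ x, ∃ A, N A ∧ x ∈ A := by
  have hUne : U.Nonempty := by rw [← Finset.card_pos]; omega
  obtain ⟨u0, hu0⟩ := hUne
  choose A hAM hxA using hpos
  set k : ℝ := (((Finset.univ : Finset P).card : ℕ) : ℝ) with hk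
  have hkpos : 0 < k := by
    rw [hk]; exact_mod_cast Finset.card_pos.2 ⟨u0, Finset.mem_univ _⟩
  set cs : P → ℝ := ∑ x ∈ (Finset.univ : Finset P), (1 / k) • ind (A x) with hcs
  have hcsM : cs ∈ poly M := poly_avg Finset.univ ⟨u0, Finset.mem_univ _⟩ A (fun i _ => hAM i)
  have hcspos : ∀ x, 0 < cs x := by
    intro x
    rw [hcs, Finset.sum_apply]
    apply Finset.sum_pos'
    · intro i _; simp only [Pi.smul_apply, smul_eq_mul]
      exact mul_nonneg (by positivity) (ind_nonneg _ _)
    · refine ⟨x, Finset.mem_univ _, ?_⟩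
      simp only [Pi.smul_apply, smul_eq_mul, ind, hxA x, if_true]; positivity
  set z : P → ℝ := ∑ e ∈ U, (1 / (U.card : ℝ)) • ind (U.erase e) with hz
  have hzM : z ∈ poly M := poly_avg U ⟨u0, hu0⟩ _ hUM
  have hz0 : ∀ t, t ∉ U → z t = 0 := by
    intro t ht
    rw [hz, Finset.sum_apply]
    apply Finset.sum_eq_zero
    intro i _
    simp [ind, ht]
  have hz1 : ∀ t ∈ U, z t ≤ 1 - 1 / ((r : ℝ) + 1) := by
    intro t ht
    rw [hz, Finset.sum_apply]
    rw [← Finset.add_sum_erase U _ ht]
    have h1 : ((1 / (U.card : ℝ)) • ind (U.erase t)) t = 0 := by simp [ind]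
    rw [h1, zero_add]
    have h2 : ∑ x ∈ U.erase t, ((1 / (U.card : ℝ)) • ind (U.erase x)) t
        ≤ ∑ x ∈ U.erase t, (1 / (U.card : ℝ)) := by
      apply Finset.sum_le_sum
      intro i _
      simp only [Pi.smul_apply, smul_eq_mul]
      have := mul_le_mul_of_nonneg_left (ind_le_one (U.erase i) t)
        (by positivity : (0:ℝ) ≤ 1 / (U.card : ℝ))
      linarith
    refine h2.trans ?_
    rw [Finset.sum_const, Finset.card_erase_of_mem ht, hU]
    simp only [Nat.add_sub_cancel, nsmul_eq_mul]
    push_cast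
    have : (r : ℝ) + 1 ≠ 0 := by positivity
    field_simp
    linarith
  set ε : ℝ := 1 / (2 + k * (r + 1)) with hε
  have hεpos : 0 < ε := by positivity
  have hr0 : (0:ℝ) ≤ r := Nat.cast_nonneg r
  have hε1 : k * (r + 1) * ε < 1 - ε := by
    rw [hε]
    have : (0:ℝ) < 2 + k * (r + 1) := by positivity
    rw [lt_sub_iff_add_lt, mul_one_div, ← add_div, div_lt_one this]
    linarith
  have hεle : ε ≤ 1 := by
    have : 0 ≤ k * (r + 1) * ε := by positivity
    linarith
  have hyM : (1 - ε) • z + ε • cs ∈ poly M :=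
    convex_poly M hzM hcsM (by linarith) hεpos.le (by ring)
  obtain ⟨N, hN, hyN⟩ := S.cover _ hyM
  obtain ⟨l, hl⟩ := exists_rep hyN
  refine ⟨N, hN, ?_, ?_⟩
  · intro e he
    by_contra hcon
    set s : P → ℝ := fun t => if t = e ∨ t ∉ U then 1 else 0 with hs
    have hs0 : ∀ t, 0 ≤ s t := by intro t; simp only [hs]; split_ifs <;> norm_num
    have h1 : 1 ≤ ∑ t, s t * ((1 - ε) • z + ε • cs) t := by
      rw [rep_dot hl s, ← hl.sum]
      apply Finset.sum_le_sum
      intro B _
      rcases (hl.nonneg B).lt_or_eq with h3 | h3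
      · have hNB := hl.mem B h3
        have hBc := S.cardN hN B hNB
        have : ∃ t ∈ B, t = e ∨ t ∉ U := by
          by_contra hcon2
          push Not at hcon2
          have hBU : B ⊆ U.erase e := by
            intro t ht
            exact Finset.mem_erase.2 ⟨(hcon2 t ht).1, (hcon2 t ht).2⟩
          have : B = U.erase e := Finset.eq_of_subset_of_card_le hBU (by
            rw [Finset.card_erase_of_mem he, hU, hBc]; simp)
          exact hcon (this ▸ hNB)
        obtain ⟨t, ht, hte⟩ := this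
        have h4 : 1 ≤ ∑ e, s e * ind B e := by
          rw [dot_ind]
          have h5 : s t ≤ ∑ e ∈ B, s e := Finset.single_le_sum (fun i _ => hs0 i) ht
          have h6 : s t = 1 := by simp only [hs]; rw [if_pos hte]
          linarith
        have := mul_le_mul_of_nonneg_left h4 h3.le
        linarith
      · rw [← h3]; simp
    have h2 : ∑ t, s t * ((1 - ε) • z + ε • cs) t
        ≤ ∑ t, ((if t = e then (1 - ε) * z e + ε * cs e else 0) + ε) := by
      apply Finset.sum_le_sum
      intro t _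
      simp only [Pi.add_apply, Pi.smul_apply, smul_eq_mul, hs]
      by_cases hte : t = e
      · subst hte; simp [hεpos.le]
      · by_cases htU : t ∈ U
        · simp [hte, htU, hεpos.le]
        · simp only [hte, htU, hz0 t htU]
          have := mul_le_mul_of_nonneg_left (poly_le_one hcsM t) hεpos.le
          simp; linarith
    rw [Finset.sum_add_distrib, Finset.sum_ite_eq' Finset.univ e] at h2
    simp only [Finset.mem_univ, if_true, Finset.sum_const, nsmul_eq_mul] at h2
    rw [← hk] at h2
    have h3 := hz1 e he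
    have h4 := poly_le_one hcsM e
    have h5 : (1 - ε) * z e ≤ (1 - ε) * (1 - 1 / ((r : ℝ) + 1)) :=
      mul_le_mul_of_nonneg_left h3 (by linarith)
    have h6 : ε * cs e ≤ ε := by
      have := mul_le_mul_of_nonneg_left h4 hεpos.le; linarith
    have h7 : (1 - ε) * (1 - 1 / ((r : ℝ) + 1)) = (1 - ε) - (1 - ε) / ((r : ℝ) + 1) := by
      field_simp
    have h8 : k * ε < (1 - ε) / ((r : ℝ) + 1) := by
      rw [lt_div_iff₀ (by positivity)]; linarith
    linarith
  · intro x
    have hy : 0 < ((1 - ε) • z + ε • cs) x := by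
      simp only [Pi.add_apply, Pi.smul_apply, smul_eq_mul]
      have h1 : 0 ≤ z x := by
        rw [hz, Finset.sum_apply]
        apply Finset.sum_nonneg
        intro i _; simp only [Pi.smul_apply, smul_eq_mul]
        exact mul_nonneg (by positivity) (ind_nonneg _ _)
      have h2 := mul_nonneg (by linarith : (0:ℝ) ≤ 1 - ε) h1
      have h3 := mul_pos hεpos (hcspos x)
      linarith
    obtain ⟨B, hB, hxB⟩ := rep_exists_mem hl hy
    exact ⟨B, hl.mem B hB, hxB⟩

theorem main_of_clo (S : Subd r M C) (hEM : Exch M) (hClo : ∀ N ∈ C, Clo r M N)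
    {U : Finset P} (hU : U.card = r + 1)
    (hUM : ∀ e ∈ U, M (U.erase e)) (hpos : ∀ x, ∃ A, M A ∧ x ∈ A) :
    ∃ N ∈ C, ∀ A, M A → N A := by
  obtain ⟨N, hN, hNU, hloop⟩ := star_cell S hU hUM hpos
  refine ⟨N, hN, ?_⟩
  have hUne : U.Nonempty := by rw [← Finset.card_pos]; omega
  obtain ⟨u, hu⟩ := hUne
  have hE := S.exch N hN
  have hc := S.cardN hN
  have hNM := S.sub N hN
  have hcomp : Comp N M (U.erase u) := by
    apply comp_of_star hE hc hNM (hClo N hN) (hNU u hu) (u := u) (by simp) ?_ hloop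
    intro i hi
    rw [Finset.mem_erase] at hi
    have : insert u ((U.erase u).erase i) = U.erase i := by
      rw [Finset.erase_right_comm, Finset.insert_erase (Finset.mem_erase.2 ⟨hi.1.symm, hu⟩)]
    rw [this]; exact hNU i hi.2
  intro A hA
  exact (all_of_comp hE hc hNM hEM S.card (hClo N hN) (hNU u hu) hcomp _ A hA rfl).1

end Pool.Agent.X52.PG
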