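import Pool.Agent.X52.PGGeo

/-!
# Projective geometries: splits are invariant under swapping the coordinates of a line
-/

set_option autoImplicit false
set_option linter.unusedSectionVars false

namespace Pool.Agent.X52.PG

open Finset

variable {K : Type} [Field K] {V : Type} [AddCommGroup V] [Module K V] [FiniteDimensional K V]
variable {P : Type} [Fintype P] [DecidableEq P]
variable {r : ℕ} {C : Set (Finset P → Prop)}

theorem pt_coord {vec : P → V} {pt : V → P}
    (hpt : ∀ v, v ≠ 0 → ∃ c : K, c ≠ 0 ∧ vec (pt v) = c • v) {v : V} {f : V →ₗ[K] K}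
    (hf : f v ≠ 0) : ∃ c : K, c ≠ 0 ∧ vec (pt v) = c • v := by
  apply hpt; intro h; apply hf; rw [h, map_zero]

theorem ne_zero_of {v : V} {f g : V →ₗ[K] K} (h : ¬ (f v = 0 ∧ g v = 0)) : v ≠ 0 := by
  intro h0; apply h; rw [h0]; simp

theorem swapInv {vec : P → V} {pt : V → P} (hr : Module.finrank K V = r)
    (hpt : ∀ v, v ≠ 0 → ∃ c : K, c ≠ 0 ∧ vec (pt v) = c • v)
    (S : Subd r (PB K vec r) C) {J : Finset P} {p : P} (hJ : J.card + 3 = r) (hp : p ∉ J)
    {u v : V} {f g h : V →ₗ[K] K} (fJ : ∀ x ∈ J, f (vec x) = 0) (gJ : ∀ x ∈ J, g (vec x) = 0)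
    (hJ0 : ∀ x ∈ J, h (vec x) = 0) (fp : f (vec p) = 0) (gp : g (vec p) = 0)
    (hp1 : h (vec p) = 1) (fu : f u = 1) (gu : g u = 0) (hu : h u = 0) (fv : f v = 0)
    (gv : g v = 1) (hv : h v = 0) (hind : LinearIndepOn K vec ((insert p J : Finset P) : Set P))
    {α β : Fin 4 → K} (hd : ∀ i j, i ≠ j → α i * β j - α j * β i ≠ 0)
    (hs : Sp C (insert p J) (pt (α 0 • u + β 0 • v)) (pt (α 1 • u + β 1 • v))
      (pt (α 2 • u + β 2 • v)) (pt (α 3 • u + β 3 • v))) :
    Sp C (insert p J) (pt (β 0 • u + α 0 • v)) (pt (β 1 • u + α 1 • v))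
      (pt (β 2 • u + α 2 • v)) (pt (β 3 • u + α 3 • v)) := by
  set w : V := vec p with hw
  have hI : (insert p J).card + 2 = r := by rw [Finset.card_insert_of_notMem hp]; omega
  have h01 : ∀ i : Fin 4, ¬ (α i = 0 ∧ β i = 0) := by
    rintro i ⟨h1, h2⟩
    have : ∃ j : Fin 4, i ≠ j := ⟨i + 1, by fin_cases i <;> decide⟩
    obtain ⟨j, hj⟩ := this
    apply hd i j hj; rw [h1, h2]; ring
  -- the second complement
  have hw' : w - u + v ≠ 0 := by
    intro h0
    have : g (w - u + v) = 0 := by rw [h0]; simp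
    simp only [map_add, map_sub, gp, gu, gv] at this; norm_num at this
  obtain ⟨c', hc', hvp'⟩ := hpt _ hw'
  set p' : P := pt (w - u + v) with hp'def
  have fp' : f (vec p') = -c' := by
    rw [hvp']; simp only [map_smul, map_add, map_sub, fp, fu, fv, smul_eq_mul]; ring
  have gp' : g (vec p') = c' := by
    rw [hvp']; simp only [map_smul, map_add, map_sub, gp, gu, gv, smul_eq_mul]; ring
  have hp'v : h (vec p') = c' := by
    rw [hvp']; simp only [map_smul, map_add, map_sub, hp1, hu, hv, smul_eq_mul]; ring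
  have hpp : p ≠ p' := by
    intro h0
    have : g (vec p) = g (vec p') := by rw [← h0]
    rw [gp', ← hw, gp] at this; exact hc' this.symm
  have hp'J : p' ∉ J := by
    intro h0; have := gJ p' h0; rw [gp'] at this; exact hc' this
  have hI' : (insert p' J).card + 2 = r := by rw [Finset.card_insert_of_notMem hp'J]; omega
  have hindJ : LinearIndepOn K vec (J : Set P) := hind.mono (by simp)
  have hind' : LinearIndepOn K vec ((insert p' J : Finset P) : Set P) := by
    rw [Finset.coe_insert, linearIndepOn_insert (by simpa using hp'J)]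
    refine ⟨hindJ, ?_⟩
    intro h0
    have : Submodule.span K (vec '' (J : Set P)) ≤ LinearMap.ker g := by
      rw [Submodule.span_le]; rintro _ ⟨t, ht, rfl⟩; exact gJ t ht
    have h1 : g (vec p') = 0 := this h0
    rw [gp'] at h1; exact hc' h1
  have fI : ∀ x ∈ insert p J, f (vec x) = 0 := by
    intro x hx; rw [Finset.mem_insert] at hx
    rcases hx with rfl | hx
    exacts [fp, fJ x hx]
  have gI : ∀ x ∈ insert p J, g (vec x) = 0 := by
    intro x hx; rw [Finset.mem_insert] at hx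
    rcases hx with rfl | hx
    exacts [gp, gJ x hx]
  have fI' : ∀ x ∈ insert p' J, (f + h) (vec x) = 0 := by
    intro x hx; rw [Finset.mem_insert] at hx
    rcases hx with rfl | hx
    · rw [LinearMap.add_apply, fp', hp'v]; ring
    · rw [LinearMap.add_apply, fJ x hx, hJ0 x hx]; ring
  have gI' : ∀ x ∈ insert p' J, (g - h) (vec x) = 0 := by
    intro x hx; rw [Finset.mem_insert] at hx
    rcases hx with rfl | hx
    · rw [LinearMap.sub_apply, gp', hp'v]; ring
    · rw [LinearMap.sub_apply, gJ x hx, hJ0 x hx]; ring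
  have dI := det_iff hr hI hind fI gI (a := u) (b := v) (by rw [fu, gv, fv, gu]; norm_num)
  have dI' := det_iff hr hI' hind' fI' gI' (a := u) (b := v)
    (by simp only [LinearMap.add_apply, LinearMap.sub_apply, fu, gv, fv, gu, hu, hv]; norm_num)
  -- coordinates of the points
  have co : ∀ a b c : K, ¬ (a = 0 ∧ b = 0) → ∃ t : K, t ≠ 0 ∧
      vec (pt (a • u + b • v + c • w)) = t • (a • u + b • v + c • w) ∧
      f (vec (pt (a • u + b • v + c • w))) = t * a ∧
      g (vec (pt (a • u + b • v + c • w))) = t * b ∧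
      h (vec (pt (a • u + b • v + c • w))) = t * c := by
    intro a b c hab
    have f1 : f (a • u + b • v + c • w) = a := by
      simp only [map_add, map_smul, fu, fv, fp, smul_eq_mul]; ring
    have g1 : g (a • u + b • v + c • w) = b := by
      simp only [map_add, map_smul, gu, gv, gp, smul_eq_mul]; ring
    have k1 : h (a • u + b • v + c • w) = c := by
      simp only [map_add, map_smul, hu, hv, hp1, smul_eq_mul]; ring
    obtain ⟨t, ht, hvt⟩ := hpt (a • u + b • v + c • w)
      (ne_zero_of (f := f) (g := g) (by rw [f1, g1]; exact hab))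
    refine ⟨t, ht, hvt, ?_, ?_, ?_⟩
    · rw [hvt, map_smul, f1, smul_eq_mul]
    · rw [hvt, map_smul, g1, smul_eq_mul]
    · rw [hvt, map_smul, k1, smul_eq_mul]
  have z0 : ∀ a b : K, a • u + b • v = a • u + b • v + (0:K) • w := by intro a b; simp
  set X : Fin 4 → P := fun i => pt (α i • u + β i • v) with hX
  set Y : Fin 4 → P := fun i => pt (α i • u + β i • v + (β i - α i) • w) with hY
  set Z : Fin 4 → P := fun i => pt (β i • u + α i • v) with hZ
  have cX : ∀ i, ∃ t : K, t ≠ 0 ∧ vec (X i) = t • (α i • u + β i • v) ∧ f (vec (X i)) = t * α i ∧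
      g (vec (X i)) = t * β i ∧ h (vec (X i)) = 0 := by
    intro i
    obtain ⟨t, ht, h1, h2, h3, h4⟩ := co (α i) (β i) 0 (h01 i)
    rw [← z0] at h1 h2 h3 h4
    exact ⟨t, ht, h1, h2, h3, by rw [hX]; simp only; rw [h4]; ring⟩
  have cY : ∀ i, ∃ t : K, t ≠ 0 ∧ vec (Y i) = t • (α i • u + β i • v + (β i - α i) • w) ∧
      f (vec (Y i)) = t * α i ∧ g (vec (Y i)) = t * β i ∧ h (vec (Y i)) = t * (β i - α i) := by
    intro i; exact co (α i) (β i) (β i - α i) (h01 i)
  have cZ : ∀ i, ∃ t : K, t ≠ 0 ∧ vec (Z i) = t • (β i • u + α i • v) ∧ f (vec (Z i)) = t * β i ∧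
      g (vec (Z i)) = t * α i ∧ h (vec (Z i)) = 0 := by
    intro i
    obtain ⟨t, ht, h1, h2, h3, h4⟩ := co (β i) (α i) 0 (fun h' => h01 i ⟨h'.2, h'.1⟩)
    rw [← z0] at h1 h2 h3 h4
    exact ⟨t, ht, h1, h2, h3, by rw [hZ]; simp only; rw [h4]; ring⟩
  -- parallel relations
  have pXY : ∀ i, Par (fun x => f (vec x)) (fun x => g (vec x)) (X i) (Y i) := by
    intro i
    obtain ⟨t, ht, _, h2, h3, _⟩ := cX i
    obtain ⟨s, hs', _, k2, k3, _⟩ := cY i
    refine ⟨s / t, div_ne_zero hs' ht, ?_, ?_⟩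
    · simp only [h2, k2]; field_simp
    · simp only [h3, k3]; field_simp
  have pYZ : ∀ i, Par (fun x => (f + h) (vec x)) (fun x => (g - h) (vec x)) (Y i) (Z i) := by
    intro i
    obtain ⟨t, ht, _, h2, h3, h4⟩ := cZ i
    obtain ⟨s, hs', _, k2, k3, k4⟩ := cY i
    refine ⟨t / s, div_ne_zero ht hs', ?_, ?_⟩
    · simp only [LinearMap.add_apply, h2, h4, k2, k4]; field_simp; ring
    · simp only [LinearMap.sub_apply, h3, h4, k3, k4]; field_simp; ring
  -- bases
  have mX : ∀ i j, i ≠ j → PB K vec r (bs (insert p J) (X i) (X j)) := by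
    intro i j hij
    obtain ⟨t, ht, _, h2, h3, _⟩ := cX i
    obtain ⟨s, hs', _, k2, k3, _⟩ := cX j
    rw [dI, h2, h3, k2, k3]
    intro h0
    have : (t * s) * (α i * β j - α j * β i) = 0 := by linear_combination h0
    exact (mul_ne_zero (mul_ne_zero ht hs') (hd i j hij)) this
  have qX : Q4 (PB K vec r) (insert p J) (X 0) (X 1) (X 2) (X 3) :=
    ⟨mX 0 1 (by decide), mX 0 2 (by decide), mX 0 3 (by decide), mX 1 2 (by decide),
      mX 1 3 (by decide), mX 2 3 (by decide)⟩
  obtain ⟨qY, sY⟩ := chain S hI dI pXY qX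
  have mY' : ∀ i j, i ≠ j → PB K vec r (bs (insert p' J) (Y i) (Y j)) := by
    intro i j hij
    obtain ⟨t, ht, _, h2, h3, h4⟩ := cY i
    obtain ⟨s, hs', _, k2, k3, k4⟩ := cY j
    rw [dI']
    simp only [LinearMap.add_apply, LinearMap.sub_apply]
    rw [h2, h3, h4, k2, k3, k4]
    intro h0
    have : (t * s) * (α i * β j - α j * β i) = 0 := by linear_combination -h0
    exact (mul_ne_zero (mul_ne_zero ht hs') (hd i j hij)) this
  have qY' : Q4 (PB K vec r) (insert p' J) (Y 0) (Y 1) (Y 2) (Y 3) :=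
    ⟨mY' 0 1 (by decide), mY' 0 2 (by decide), mY' 0 3 (by decide), mY' 1 2 (by decide),
      mY' 1 3 (by decide), mY' 2 3 (by decide)⟩
  obtain ⟨qZ', sZ'⟩ := chain S hI' dI' pYZ qY'
  have mZ : ∀ i j, i ≠ j → PB K vec r (bs (insert p J) (Z i) (Z j)) := by
    intro i j hij
    obtain ⟨t, ht, _, h2, h3, _⟩ := cZ i
    obtain ⟨s, hs', _, k2, k3, _⟩ := cZ j
    rw [dI, h2, h3, k2, k3]
    intro h0
    have : (t * s) * (α i * β j - α j * β i) = 0 := by linear_combination -h0
    exact (mul_ne_zero (mul_ne_zero ht hs') (hd i j hij)) this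
  have qZ : Q4 (PB K vec r) (insert p J) (Z 0) (Z 1) (Z 2) (Z 3) :=
    ⟨mZ 0 1 (by decide), mZ 0 2 (by decide), mZ 0 3 (by decide), mZ 1 2 (by decide),
      mZ 1 3 (by decide), mZ 2 3 (by decide)⟩
  have colY : ∀ B, PB K vec r B → (B ∩ ({Y 0, Y 1, Y 2, Y 3} : Finset P)).card ≤ 2 := by
    apply col_le (e1 := u - w) (e2 := v + w)
    have : ∀ i, vec (Y i) ∈ Submodule.span K ({u - w, v + w} : Set V) := by
      intro i
      obtain ⟨t, _, h1, _⟩ := cY i
      rw [h1, Submodule.mem_span_pair]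
      refine ⟨t * α i, t * β i, ?_⟩
      module
    intro x hx
    simp only [Finset.mem_insert, Finset.mem_singleton] at hx
    rcases hx with rfl | rfl | rfl | rfl
    exacts [this 0, this 1, this 2, this 3]
  have colZ : ∀ B, PB K vec r B → (B ∩ ({Z 0, Z 1, Z 2, Z 3} : Finset P)).card ≤ 2 := by
    apply col_le (e1 := u) (e2 := v)
    have : ∀ i, vec (Z i) ∈ Submodule.span K ({u, v} : Set V) := by
      intro i
      obtain ⟨t, _, h1, _⟩ := cZ i
      rw [h1, Submodule.mem_span_pair]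
      refine ⟨t * β i, t * α i, ?_⟩
      module
    intro x hx
    simp only [Finset.mem_insert, Finset.mem_singleton] at hx
    rcases hx with rfl | rfl | rfl | rfl
    exacts [this 0, this 1, this 2, this 3]
  have s1 := sY hs
  have s2 := Sp.replI S hJ hp hp'J hpp qY qY' colY s1
  have s3 := sZ' s2
  exact Sp.replI S hJ hp'J hp hpp.symm qZ' qZ colZ s3

end Pool.Agent.X52.PG
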