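import Pool.Agent.X52.PGSwap

/-!
# Projective geometries: no octahedron is split
-/

set_option autoImplicit false
set_option linter.unusedSectionVars false

namespace Pool.Agent.X52.PG

open Finset

variable {K : Type} [Field K] {V : Type} [AddCommGroup V] [Module K V] [FiniteDimensional K V]
variable {P : Type} [Fintype P] [DecidableEq P]
variable {r : ℕ} {C : Set (Finset P → Prop)}

theorem par_of_det {fx gx fy gy : K} (hdet : fx * gy - fy * gx = 0) (hx : ¬ (fx = 0 ∧ gx = 0))
    (hy : ¬ (fy = 0 ∧ gy = 0)) : ∃ c : K, c ≠ 0 ∧ fx = c * fy ∧ gx = c * gy := by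
  by_cases h1 : fy = 0
  · have h2 : gy ≠ 0 := fun h => hy ⟨h1, h⟩
    have h3 : fx = 0 := by
      rw [h1] at hdet
      have : fx * gy = 0 := by linear_combination hdet
      exact (mul_eq_zero.1 this).resolve_right h2
    have h4 : gx ≠ 0 := fun h => hx ⟨h3, h⟩
    exact ⟨gx / gy, div_ne_zero h4 h2, by rw [h3, h1]; ring, by field_simp⟩
  · have h4 : fx ≠ 0 := by
      intro h
      rw [h] at hdet
      have : fy * gx = 0 := by linear_combination -hdet
      exact hx ⟨h, (mul_eq_zero.1 this).resolve_left h1⟩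
    refine ⟨fx / fy, div_ne_zero h4 h1, by field_simp, ?_⟩
    field_simp
    linear_combination -hdet

/-- the data of the points of a projective geometry -/
structure Geo (K : Type) [Field K] {V : Type} [AddCommGroup V] [Module K V] {P : Type}
    (vec : P → V) (pt : V → P) : Prop where
  ne : ∀ x, vec x ≠ 0
  pt : ∀ v, v ≠ 0 → ∃ c : K, c ≠ 0 ∧ vec (pt v) = c • v
  inj : ∀ x y, ∀ c : K, c ≠ 0 → vec x = c • vec y → x = y

theorem Geo.pt_eq {vec : P → V} {pt : V → P} (G : Geo K vec pt) {x : P} {c : K} (hc : c ≠ 0)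
    {v : V} (hv : v = c • vec x) : pt v = x := by
  have h0 : v ≠ 0 := by rw [hv]; exact smul_ne_zero hc (G.ne x)
  obtain ⟨t, ht, hvt⟩ := G.pt v h0
  apply G.inj _ _ (t * c) (mul_ne_zero ht hc)
  rw [hvt, hv, smul_smul]

theorem unsplit {vec : P → V} {pt : V → P} (hr : Module.finrank K V = r) (G : Geo K vec pt)
    (S : Subd r (PB K vec r) C) (hr3 : 3 ≤ r) {I : Finset P} (hI : I.card + 2 = r) {a b c d : P}
    (q : Q4 (PB K vec r) I a b c d) : ¬ Sp C I a b c d := by
  classical
  have D := q.dist S hI
  have hIne : I.Nonempty := by rw [← Finset.card_pos]; omega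
  obtain ⟨p, hpI⟩ := hIne
  have hIeq : insert p (I.erase p) = I := Finset.insert_erase hpI
  have hpJ : p ∉ I.erase p := by simp
  have hJ : (I.erase p).card + 3 = r := by rw [Finset.card_erase_of_mem hpI]; omega
  have hindI : LinearIndepOn K vec (I : Set P) := q.ab.1.mono (by
    intro t ht
    have : t ∈ I := ht
    show t ∈ ((bs I a b : Finset P) : Set P)
    simp [bs, this])
  have memI : ∀ x y t : P, t ∈ I → t ∈ bs I x y := fun x y t ht => by simp [bs, ht]
  obtain ⟨fa, fa1, fa0⟩ := dualf q.ab.1 (e := a) (by simp [bs])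
  obtain ⟨gb, gb1, gb0⟩ := dualf q.ab.1 (e := b) (by simp [bs])
  have fab : fa (vec b) = 0 := fa0 b (by simp [bs]) D.ab.symm
  have gba : gb (vec a) = 0 := gb0 a (by simp [bs]) D.ab
  have faI : ∀ x ∈ I, fa (vec x) = 0 := fun x hx =>
    fa0 x (memI _ _ x hx) (fun h => D.a (h ▸ hx))
  have gbI : ∀ x ∈ I, gb (vec x) = 0 := fun x hx =>
    gb0 x (memI _ _ x hx) (fun h => D.b (h ▸ hx))
  have dI := det_iff hr hI hindI faI gbI (a := vec a) (b := vec b)
    (by rw [fa1, gb1, fab, gba]; norm_num)
  set L : Finset P := Finset.univ.filter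
    (fun x => vec x = fa (vec x) • vec a + gb (vec x) • vec b) with hL
  have memL : ∀ x, x ∈ L ↔ vec x = fa (vec x) • vec a + gb (vec x) • vec b := by
    intro x; simp [hL]
  have haL : a ∈ L := by rw [memL, fa1, gba]; simp
  have hbL : b ∈ L := by rw [memL, fab, gb1]; simp
  have nz : ∀ x ∈ L, ¬ (fa (vec x) = 0 ∧ gb (vec x) = 0) := by
    rintro x hx ⟨h1, h2⟩
    rw [memL, h1, h2] at hx
    apply G.ne x; rw [hx]; simp
  have hLM : ∀ x ∈ L, ∀ y ∈ L, x ≠ y → PB K vec r (bs I x y) := by
    intro x hx y hy hxy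
    rw [dI]
    intro hdet
    obtain ⟨t, ht, h1, h2⟩ := par_of_det hdet (nz x hx) (nz y hy)
    apply hxy
    apply G.inj x y t ht
    rw [memL] at hx hy
    rw [hx, hy, h1, h2, smul_add, smul_smul, smul_smul]
  have hL2 : 2 ≤ L.card := by
    have : ({a, b} : Finset P) ⊆ L := by
      intro t ht
      simp only [Finset.mem_insert, Finset.mem_singleton] at ht
      rcases ht with rfl | rfl
      exacts [haL, hbL]
    have := Finset.card_le_card this
    rwa [Finset.card_pair D.ab] at this
  have hσ : ∀ a' ∈ L, ∀ b' ∈ L, ∀ z' ∈ L, a' ≠ b' → a' ≠ z' → b' ≠ z' → ∃ σ : P → P,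
      (∀ x ∈ L, σ x ∈ L) ∧ (∀ x ∈ L, σ (σ x) = x) ∧ σ a' = a' ∧ σ b' = z' ∧
      ∀ x1 ∈ L, ∀ x2 ∈ L, ∀ x3 ∈ L, ∀ x4 ∈ L, x1 ≠ x2 → x1 ≠ x3 → x1 ≠ x4 → x2 ≠ x3 →
        x2 ≠ x4 → x3 ≠ x4 → Sp C I x1 x2 x3 x4 → Sp C I (σ x1) (σ x2) (σ x3) (σ x4) := by
    intro a' ha' b' hb' z' hz' hab haz hbz
    have hB' := hLM b' hb' z' hz' hbz
    obtain ⟨hbz', hb'I, hz'I⟩ := bs_card hI hB'.2
    obtain ⟨f', f'1, f'0⟩ := dualf hB'.1 (e := b') (by simp [bs])
    obtain ⟨g', g'1, g'0⟩ := dualf hB'.1 (e := z') (by simp [bs])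
    obtain ⟨h, hp1, hp0⟩ := dualf hB'.1 (e := p) (memI _ _ p hpI)
    have f'z : f' (vec z') = 0 := f'0 z' (by simp [bs]) hbz.symm
    have g'b : g' (vec b') = 0 := g'0 b' (by simp [bs]) hbz
    have hb0 : h (vec b') = 0 := hp0 b' (by simp [bs]) (fun h' => hb'I (h' ▸ hpI))
    have hz0 : h (vec z') = 0 := hp0 z' (by simp [bs]) (fun h' => hz'I (h' ▸ hpI))
    have f'I : ∀ x ∈ I, f' (vec x) = 0 := fun x hx =>
      f'0 x (memI _ _ x hx) (fun h' => hb'I (h' ▸ hx))
    have g'I : ∀ x ∈ I, g' (vec x) = 0 := fun x hx =>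
      g'0 x (memI _ _ x hx) (fun h' => hz'I (h' ▸ hx))
    have coord : ∀ x ∈ L, vec x = f' (vec x) • vec b' + g' (vec x) • vec z' := by
      intro x hx
      have hdet := (dI b' z').1 hB'
      have hx' := (memL x).1 hx
      have hb'' := (memL b').1 hb'
      have hz'' := (memL z').1 hz'
      set b1 := fa (vec b')
      set b2 := gb (vec b')
      set z1 := fa (vec z')
      set z2 := gb (vec z')
      set x1 := fa (vec x)
      set x2 := gb (vec x)
      have e1 : (b1 * z2 - z1 * b2) • vec x
          = (x1 * z2 - x2 * z1) • vec b' + (x2 * b1 - x1 * b2) • vec z' := by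
        rw [hx', hb'', hz'']; module
      have e2 : (b1 * z2 - z1 * b2) * f' (vec x) = x1 * z2 - x2 * z1 := by
        have := congrArg f' e1
        simp only [map_add, map_smul, smul_eq_mul, f'1, f'z] at this
        linear_combination this
      have e3 : (b1 * z2 - z1 * b2) * g' (vec x) = x2 * b1 - x1 * b2 := by
        have := congrArg g' e1
        simp only [map_add, map_smul, smul_eq_mul, g'1, g'b] at this
        linear_combination this
      have e4 : (b1 * z2 - z1 * b2) • vec x
          = (b1 * z2 - z1 * b2) • (f' (vec x) • vec b' + g' (vec x) • vec z') := by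
        rw [e1, smul_add, smul_smul, smul_smul, e2, e3]
      exact smul_right_injective V hdet e4
    set lam := f' (vec a') with hlam
    set mu := g' (vec a') with hmu
    have ha'' := coord a' ha'
    rw [← hlam, ← hmu] at ha''
    have lam0 : lam ≠ 0 := by
      intro h0
      rw [h0, zero_smul, zero_add] at ha''
      by_cases hm : mu = 0
      · rw [hm, zero_smul] at ha''; exact G.ne _ ha''
      · exact haz (G.inj _ _ mu hm ha'')
    have mu0 : mu ≠ 0 := by
      intro h0
      rw [h0, zero_smul, add_zero] at ha''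
      exact hab (G.inj _ _ lam lam0 ha'')
    set u : V := lam • vec b' with hu
    set v : V := mu • vec z' with hv
    set f : V →ₗ[K] K := lam⁻¹ • f' with hf
    set g : V →ₗ[K] K := mu⁻¹ • g' with hg
    have fu : f u = 1 := by
      simp only [hf, hu, LinearMap.smul_apply, map_smul, smul_eq_mul, f'1]; field_simp
    have gu : g u = 0 := by
      simp only [hg, hu, LinearMap.smul_apply, map_smul, smul_eq_mul, g'b]; ring
    have hu0 : h u = 0 := by simp only [hu, map_smul, smul_eq_mul, hb0]; ring
    have fv : f v = 0 := by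
      simp only [hf, hv, LinearMap.smul_apply, map_smul, smul_eq_mul, f'z]; ring
    have gv : g v = 1 := by
      simp only [hg, hv, LinearMap.smul_apply, map_smul, smul_eq_mul, g'1]; field_simp
    have hv0 : h v = 0 := by simp only [hv, map_smul, smul_eq_mul, hz0]; ring
    have fI : ∀ x ∈ I, f (vec x) = 0 := by
      intro x hx; simp only [hf, LinearMap.smul_apply, smul_eq_mul, f'I x hx]; ring
    have gI : ∀ x ∈ I, g (vec x) = 0 := by
      intro x hx; simp only [hg, LinearMap.smul_apply, smul_eq_mul, g'I x hx]; ring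
    have hJ0 : ∀ x ∈ I.erase p, h (vec x) = 0 := by
      intro x hx
      rw [Finset.mem_erase] at hx
      exact hp0 x (memI _ _ x hx.2) hx.1
    have coord2 : ∀ x ∈ L, vec x = f (vec x) • u + g (vec x) • v := by
      intro x hx
      have h1 := coord x hx
      have h2 : f (vec x) • u = f' (vec x) • vec b' := by
        simp only [hf, hu, LinearMap.smul_apply, smul_eq_mul, smul_smul]
        congr 1; field_simp
      have h3 : g (vec x) • v = g' (vec x) • vec z' := by
        simp only [hg, hv, LinearMap.smul_apply, smul_eq_mul, smul_smul]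
        congr 1; field_simp
      rw [h2, h3]; exact h1
    have nz2 : ∀ x ∈ L, ¬ (f (vec x) = 0 ∧ g (vec x) = 0) := by
      rintro x hx ⟨h1, h2⟩
      have := coord2 x hx
      rw [h1, h2] at this
      apply G.ne x; rw [this]; simp
    have swne : ∀ x ∈ L, g (vec x) • u + f (vec x) • v ≠ 0 := by
      intro x hx h0
      apply nz2 x hx
      constructor
      · have := congrArg g h0
        simp only [map_add, map_smul, smul_eq_mul, gu, gv, map_zero] at this
        linear_combination this
      · have := congrArg f h0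
        simp only [map_add, map_smul, smul_eq_mul, fu, fv, map_zero] at this
        linear_combination this
    have LV : ∀ s t : K, ∀ x y : V, x = fa x • vec a + gb x • vec b →
        y = fa y • vec a + gb y • vec b →
        s • x + t • y = fa (s • x + t • y) • vec a + gb (s • x + t • y) • vec b := by
      intro s t x y hx hy
      simp only [map_add, map_smul, smul_eq_mul]
      have : s • x + t • y = s • (fa x • vec a + gb x • vec b)
          + t • (fa y • vec a + gb y • vec b) := by rw [← hx, ← hy]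
      rw [this]; module
    refine ⟨fun x => pt (g (vec x) • u + f (vec x) • v), ?_, ?_, ?_, ?_, ?_⟩
    · intro x hx
      obtain ⟨t, ht, hvt⟩ := G.pt _ (swne x hx)
      rw [memL, hvt]
      have e1 : t • (g (vec x) • u + f (vec x) • v)
          = (t * g (vec x) * lam) • vec b' + (t * f (vec x) * mu) • vec z' := by
        rw [hu, hv]; module
      rw [e1]
      exact LV _ _ _ _ ((memL b').1 hb') ((memL z').1 hz')
    · intro x hx
      obtain ⟨t, ht, hvt⟩ := G.pt _ (swne x hx)
      simp only
      rw [hvt]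
      apply G.pt_eq (c := t) ht
      simp only [map_smul, map_add, fu, gu, fv, gv, smul_eq_mul]
      have h1 := coord2 x hx
      calc (t * (g (vec x) * 0 + f (vec x) * 1)) • u + (t * (g (vec x) * 1 + f (vec x) * 0)) • v
          = t • (f (vec x) • u + g (vec x) • v) := by module
        _ = t • vec x := by rw [← h1]
    · have h1 : f (vec a') = 1 := by
        simp only [hf, LinearMap.smul_apply, smul_eq_mul, ← hlam]; field_simp
      have h2 : g (vec a') = 1 := by
        simp only [hg, LinearMap.smul_apply, smul_eq_mul, ← hmu]; field_simp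
      simp only
      rw [h1, h2]
      apply G.pt_eq (c := 1) one_ne_zero
      rw [one_smul, one_smul, one_smul, ha'']
    · have h1 : f (vec b') = lam⁻¹ := by
        simp only [hf, LinearMap.smul_apply, smul_eq_mul, f'1]; ring
      have h2 : g (vec b') = 0 := by
        simp only [hg, LinearMap.smul_apply, smul_eq_mul, g'b]; ring
      simp only
      rw [h1, h2]
      apply G.pt_eq (c := lam⁻¹ * mu) (mul_ne_zero (inv_ne_zero lam0) mu0)
      rw [hv]; module
    · intro x1 hx1 x2 hx2 x3 hx3 x4 hx4 n12 n13 n14 n23 n24 n34 hs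
      have dI2 := det_iff hr hI hindI fI gI (a := u) (b := v)
        (by rw [fu, gv, fv, gu]; norm_num)
      have hdet : ∀ x ∈ L, ∀ y ∈ L, x ≠ y →
          f (vec x) * g (vec y) - f (vec y) * g (vec x) ≠ 0 :=
        fun x hx y hy hxy => (dI2 x y).1 (hLM x hx y hy hxy)
      have hpt : ∀ x ∈ L, pt (f (vec x) • u + g (vec x) • v) = x := by
        intro x hx
        apply G.pt_eq (c := 1) one_ne_zero
        rw [one_smul]; exact (coord2 x hx).symm
      have key := swapInv (α := ![f (vec x1), f (vec x2), f (vec x3), f (vec x4)])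
        (β := ![g (vec x1), g (vec x2), g (vec x3), g (vec x4)]) hr G.pt S hJ hpJ
        (fun x hx => fI x (Finset.mem_of_mem_erase hx))
        (fun x hx => gI x (Finset.mem_of_mem_erase hx)) hJ0 (fI p hpI) (gI p hpI) hp1 fu gu hu0
        fv gv hv0 (by rw [hIeq]; exact hindI) ?_ ?_
      · rw [hIeq] at key
        exact key
      · intro i j hij
        fin_cases i <;> fin_cases j
        all_goals first
          | exact absurd rfl hij
          | exact hdet _ hx1 _ hx2 n12
          | exact hdet _ hx1 _ hx3 n13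
          | exact hdet _ hx1 _ hx4 n14
          | exact hdet _ hx2 _ hx3 n23
          | exact hdet _ hx2 _ hx4 n24
          | exact hdet _ hx3 _ hx4 n34
          | exact hdet _ hx2 _ hx1 n12.symm
          | exact hdet _ hx3 _ hx1 n13.symm
          | exact hdet _ hx4 _ hx1 n14.symm
          | exact hdet _ hx3 _ hx2 n23.symm
          | exact hdet _ hx4 _ hx2 n24.symm
          | exact hdet _ hx4 _ hx3 n34.symm
      · rw [hIeq]
        show Sp C I (pt (f (vec x1) • u + g (vec x1) • v)) (pt (f (vec x2) • u + g (vec x2) • v))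
          (pt (f (vec x3) • u + g (vec x3) • v)) (pt (f (vec x4) • u + g (vec x4) • v))
        rw [hpt x1 hx1, hpt x2 hx2, hpt x3 hx3, hpt x4 hx4]; exact hs
  obtain ⟨N, hN, hall⟩ := line_all S hI hL2 hLM hσ
  intro hs
  -- move `c`, `d` to the line
  have mv : ∀ x : P, ¬ (fa (vec x) = 0 ∧ gb (vec x) = 0) →
      ∃ y ∈ L, Par (fun t => fa (vec t)) (fun t => gb (vec t)) x y := by
    intro x hx
    have h0 : fa (vec x) • vec a + gb (vec x) • vec b ≠ 0 := by
      intro h0
      apply hx
      constructor
      · have := congrArg fa h0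
        simp only [map_add, map_smul, smul_eq_mul, fa1, fab, map_zero] at this
        linear_combination this
      · have := congrArg gb h0
        simp only [map_add, map_smul, smul_eq_mul, gb1, gba, map_zero] at this
        linear_combination this
    obtain ⟨t, ht, hvt⟩ := G.pt _ h0
    have e1 : fa (vec (pt (fa (vec x) • vec a + gb (vec x) • vec b))) = t * fa (vec x) := by
      rw [hvt]; simp only [map_add, map_smul, smul_eq_mul, fa1, fab]; ring
    have e2 : gb (vec (pt (fa (vec x) • vec a + gb (vec x) • vec b))) = t * gb (vec x) := by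
      rw [hvt]; simp only [map_add, map_smul, smul_eq_mul, gb1, gba]; ring
    refine ⟨pt (fa (vec x) • vec a + gb (vec x) • vec b), ?_, t, ht, e1, e2⟩
    rw [memL, e1, e2, hvt]; module
  have hcnz : ¬ (fa (vec c) = 0 ∧ gb (vec c) = 0) := by
    rintro ⟨h1, h2⟩
    have := (dI a c).1 q.ac
    rw [h1, h2] at this; apply this; ring
  have hdnz : ¬ (fa (vec d) = 0 ∧ gb (vec d) = 0) := by
    rintro ⟨h1, h2⟩
    have := (dI a d).1 q.ad
    rw [h1, h2] at this; apply this; ring
  obtain ⟨c', hc', pc⟩ := mv c hcnz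
  obtain ⟨d', hd', pd⟩ := mv d hdnz
  have prefl : ∀ x : P, Par (fun t => fa (vec t)) (fun t => gb (vec t)) x x :=
    fun x => ⟨1, one_ne_zero, by simp, by simp⟩
  obtain ⟨q', sI⟩ := chain S hI dI (x := ![a, b, c, d]) (y := ![a, b, c', d']) (by
    intro i; fin_cases i
    · exact prefl a
    · exact prefl b
    · exact pc
    · exact pd) q
  have s' : Sp C I a b c' d' := sI hs
  have q'' : Q4 (PB K vec r) I a b c' d' := q'
  have D' := q''.dist S hI
  have n1 := hall a haL b hbL D.ab
  have n2 := hall c' hc' d' hd' D'.cd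
  exact s'.all S hN (oc_mem n1 n2) ⟨n1, n2⟩

theorem clo_of_geo {vec : P → V} {pt : V → P} (hr : Module.finrank K V = r) (G : Geo K vec pt)
    (S : Subd r (PB K vec r) C) (hr3 : 3 ≤ r) (N : Finset P → Prop) (hN : N ∈ C) :
    Clo r (PB K vec r) N := by
  intro I a b c d hI q h1 h2
  have D := q.dist S hI
  have q' : Q4 (PB K vec r) I a c b d :=
    ⟨q.ac, q.ab, q.ad, by rw [bs_comm]; exact q.bc, q.cd, q.bd⟩
  by_contra hcon
  apply unsplit hr G S hr3 hI q'
  refine ⟨N, hN, ?_, fun h => hcon h.1⟩
  rw [← D.oc_acbd]; exact oc_mem h1 h2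

end Pool.Agent.X52.PG
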