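import Pool.Agent.X52.RMat

/-!
# The matroids around a four-point line are decomposable
-/

set_option autoImplicit false
set_option linter.unusedSectionVars false

namespace Pool.Agent.X52.PG

open Finset
open Pool.Agent.Results.MP_da28a5_co.Indecomposable

variable {E : Type} [Fintype E] [DecidableEq E]

theorem img_erase {f0 : E → Fin 5} {A : Finset E} (hA : (A.image f0).card = A.card) {e : E}
    (he : e ∈ A) : (A.erase e).image f0 = (A.image f0).erase (f0 e) := by
  have hinj : Set.InjOn f0 A := Finset.card_image_iff.1 hA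
  ext s
  simp only [Finset.mem_image, Finset.mem_erase]
  constructor
  · rintro ⟨t, ⟨h1, h2⟩, rfl⟩
    exact ⟨fun h => h1 (hinj h2 he h), t, h2, rfl⟩
  · rintro ⟨h1, t, h2, rfl⟩
    exact ⟨t, ⟨fun h => h1 (by rw [h]), h2⟩, rfl⟩

theorem val_pull (f0 : E → Fin 5) (ok : Finset (Fin 5) → Prop) (w5 : Finset (Fin 5) → ℝ)
    (hok3 : ∀ S, ok S → S.card = 3)
    (hV5 : ∀ A B, ok A → ok B → ∀ e ∈ A, e ∉ B → ∃ f ∈ B, f ∉ A ∧ ok (insert f (A.erase e)) ∧
      ok (insert e (B.erase f)) ∧
      w5 (insert f (A.erase e)) + w5 (insert e (B.erase f)) ≤ w5 A + w5 B) :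
    Val (fun B : Finset E => B.card = 3 ∧ ok (B.image f0)) (fun B => w5 (B.image f0)) := by
  rintro A B ⟨hA, hoA⟩ ⟨hB, hoB⟩ e he he'
  have hiA : (A.image f0).card = A.card := by rw [hok3 _ hoA, hA]
  have hiB : (B.image f0).card = B.card := by rw [hok3 _ hoB, hB]
  have hinjA : Set.InjOn f0 A := Finset.card_image_iff.1 hiA
  have hcard : ∀ f ∈ B, f ∉ A → (insert f (A.erase e)).card = 3 ∧
      (insert e (B.erase f)).card = 3 := by
    intro f hf hf'
    rw [Finset.card_insert_of_notMem (fun h => hf' (Finset.mem_of_mem_erase h)),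
      Finset.card_insert_of_notMem (fun h => he' (Finset.mem_of_mem_erase h)),
      Finset.card_erase_of_mem he, Finset.card_erase_of_mem hf, hA, hB]
    exact ⟨rfl, rfl⟩
  have himg : ∀ f ∈ B, (insert f (A.erase e)).image f0 = insert (f0 f) ((A.image f0).erase (f0 e))
      ∧ (insert e (B.erase f)).image f0 = insert (f0 e) ((B.image f0).erase (f0 f)) := by
    intro f hf
    rw [Finset.image_insert, Finset.image_insert, img_erase hiA he, img_erase hiB hf]
    exact ⟨rfl, rfl⟩
  by_cases h : f0 e ∈ B.image f0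
  · obtain ⟨f, hf, hfe⟩ := Finset.mem_image.1 h
    have hf' : f ∉ A := by
      intro hfA
      exact he' ((hinjA hfA he hfe) ▸ hf)
    have h1 := (himg f hf).1
    have h2 := (himg f hf).2
    rw [hfe, Finset.insert_erase (Finset.mem_image_of_mem f0 he)] at h1
    rw [hfe, Finset.insert_erase (by rw [← hfe]; exact Finset.mem_image_of_mem f0 hf)] at h2
    refine ⟨f, hf, hf', ⟨(hcard f hf hf').1, by rw [h1]; exact hoA⟩,
      ⟨(hcard f hf hf').2, by rw [h2]; exact hoB⟩, ?_⟩
    show w5 ((insert f (A.erase e)).image f0) + w5 ((insert e (B.erase f)).image f0)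
      ≤ w5 (A.image f0) + w5 (B.image f0)
    rw [h1, h2]
  · obtain ⟨s, hs, hs', k1, k2, k3⟩ := hV5 _ _ hoA hoB (f0 e) (Finset.mem_image_of_mem f0 he) h
    obtain ⟨f, hf, rfl⟩ := Finset.mem_image.1 hs
    have hf' : f ∉ A := fun hfA => hs' (Finset.mem_image_of_mem f0 hfA)
    have h1 := (himg f hf).1
    have h2 := (himg f hf).2
    refine ⟨f, hf, hf', ⟨(hcard f hf hf').1, by rw [h1]; exact k1⟩,
      ⟨(hcard f hf hf').2, by rw [h2]; exact k2⟩, ?_⟩
    show w5 ((insert f (A.erase e)).image f0) + w5 ((insert e (B.erase f)).image f0)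
      ≤ w5 (A.image f0) + w5 (B.image f0)
    rw [h1, h2]; exact k3

/-- triples on five points, `{1, 2, 3}` being a base only if `κ` -/
def ok5 (κ : Bool) (S : Finset (Fin 5)) : Prop := S.card = 3 ∧ (S = {1, 2, 3} → κ = true)

instance (κ : Bool) (S : Finset (Fin 5)) : Decidable (ok5 κ S) := by
  unfold ok5; infer_instance

/-- the split of the pair `{2, 3}` -/
def wn (S : Finset (Fin 5)) : ℕ := if 2 ∈ S ∧ 3 ∈ S then 1 else 0

theorem val5 : ∀ κ : Bool, ∀ A B : Finset (Fin 5), ok5 κ A → ok5 κ B → ∀ e ∈ A, e ∉ B →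
    ∃ f ∈ B, f ∉ A ∧ ok5 κ (insert f (A.erase e)) ∧ ok5 κ (insert e (B.erase f)) ∧
      wn (insert f (A.erase e)) + wn (insert e (B.erase f)) ≤ wn A + wn B := by
  decide +kernel

theorem ok5_all : ∀ κ : Bool, ok5 κ {0, 1, 4} ∧ ok5 κ {2, 3, 4} ∧ ok5 κ {0, 2, 4} ∧
    ok5 κ {1, 3, 4} := by decide

theorem decomp {N : Matroid E} (hE : N.E = Set.univ) (κ : Bool) (f0 : E → Fin 5)
    (hfam : ∀ B, fam N B ↔ (B.card = 3 ∧ ok5 κ (B.image f0))) {a b c d q : E}
    (ha : f0 a = 0) (hb : f0 b = 1) (hc : f0 c = 2) (hd : f0 d = 3) (hq : f0 q = 4) :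
    ¬ IsIndecomposable N := by
  intro h
  have hV : Val (fam N) (fun B => (wn (B.image f0) : ℝ)) := by
    have h1 := val_pull f0 (ok5 κ) (fun S => (wn S : ℝ)) (fun S hS => hS.1) (by
      intro A B hA hB e he he'
      obtain ⟨f, hf, hf', h1, h2, h3⟩ := val5 κ A B hA hB e he he'
      exact ⟨f, hf, hf', h1, h2, by exact_mod_cast h3⟩)
    have h2 : fam N = (fun B : Finset E => B.card = 3 ∧ ok5 κ (B.image f0)) :=
      funext fun B => propext (hfam B)
    rw [h2]; exact h1
  have hsub := regSub_sub hE hV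
  obtain ⟨⟨_, x, hx, hcell⟩, -⟩ := (h _ hsub N).2 rfl
  have hab : a ≠ b := fun h => by rw [h, hb] at ha; exact absurd ha (by decide)
  have hac : a ≠ c := fun h => by rw [h, hc] at ha; exact absurd ha (by decide)
  have hbd : b ≠ d := fun h => by rw [h, hd] at hb; exact absurd hb (by decide)
  have hcd : c ≠ d := fun h => by rw [h, hd] at hc; exact absurd hc (by decide)
  have haq : a ≠ q := fun h => by rw [h, hq] at ha; exact absurd ha (by decide)
  have hbq : b ≠ q := fun h => by rw [h, hq] at hb; exact absurd hb (by decide)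
  have hcq : c ≠ q := fun h => by rw [h, hq] at hc; exact absurd hc (by decide)
  have hdq : d ≠ q := fun h => by rw [h, hq] at hd; exact absurd hd (by decide)
  have himg : ∀ y z : E, (bs {q} y z).image f0 = {f0 y, f0 z, 4} := by
    intro y z; unfold bs; rw [Finset.image_insert, Finset.image_insert, Finset.image_singleton, hq]
  have hmem : ∀ y z : E, ok5 κ {f0 y, f0 z, 4} → fam N (bs {q} y z) := by
    intro y z hok
    rw [hfam, himg]
    refine ⟨?_, hok⟩
    have h1 : ((bs {q} y z).image f0).card ≤ (bs {q} y z).card := Finset.card_image_le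
    rw [himg, hok.1] at h1
    have h2 : (bs {q} y z).card ≤ 3 := Finset.card_le_three
    omega
  have m1 : fam N (bs {q} a b) := hmem a b (by rw [ha, hb]; exact (ok5_all κ).1)
  have m2 : fam N (bs {q} c d) := hmem c d (by rw [hc, hd]; exact (ok5_all κ).2.1)
  have m3 : fam N (bs {q} a c) := hmem a c (by rw [ha, hc]; exact (ok5_all κ).2.2.1)
  have m4 : fam N (bs {q} b d) := hmem b d (by rw [hb, hd]; exact (ok5_all κ).2.2.2)
  have hsum : ind (bs {q} a b) + ind (bs {q} c d) = ind (bs {q} a c) + ind (bs {q} b d) := by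
    have na : a ∉ ({q} : Finset E) := by simpa using haq
    have nb : b ∉ ({q} : Finset E) := by simpa using hbq
    have nc : c ∉ ({q} : Finset E) := by simpa using hcq
    have nd : d ∉ ({q} : Finset E) := by simpa using hdq
    ext e
    simp only [Pi.add_apply]
    rw [ind_bs hab na nb, ind_bs hcd nc nd, ind_bs hac na nc, ind_bs hbd nb nd]; ring
  have hfin := (cell_pair hx ((hcell _).1 m1) ((hcell _).1 m2) m3 m4 hsum).1
  simp only [himg, ha, hb, hc, hd] at hfin
  have e1 : wn {0, 1, 4} = 0 := by decide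
  have e2 : wn {2, 3, 4} = 1 := by decide
  have e3 : wn {0, 2, 4} = 0 := by decide
  have e4 : wn {1, 3, 4} = 0 := by decide
  rw [e1, e2, e3, e4] at hfin
  norm_num at hfin

end Pool.Agent.X52.PG
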