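import Pool.Agent.X52.RMain

/-!
# A decomposable maximal cell in a finest subdivision
-/

set_option autoImplicit false
set_option linter.unusedSectionVars false

namespace Pool.Agent.X52.PG

open Finset
open Pool.Agent.Results.MP_da28a5_co.Indecomposable

variable {K : Type} [Field K] {V : Type} [AddCommGroup V] [Module K V] [FiniteDimensional K V]
variable {E : Type} [Fintype E] [DecidableEq E]

theorem s3a (y z u : E) : ({y, z, u} : Finset E) = {z, u, y} := by
  rw [Finset.insert_comm y z, Finset.pair_comm y u]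

theorem p4a (y z u v : E) : ({y, z, u, v} : Finset E) = {z, u, y, v} := by
  rw [Finset.insert_comm y z, Finset.insert_comm y u]

theorem p4b (y z u v : E) : ({y, z, u, v} : Finset E) = {z, v, y, u} := by
  rw [Finset.insert_comm y z, ← s3a v y u]

theorem p4c (y z u v : E) : ({y, z, u, v} : Finset E) = {u, v, y, z} := by
  rw [s3a z u v, Finset.insert_comm y u, Finset.insert_comm y v]

theorem p4d (a b c d : E) : ({a, b, c, d} : Finset E) = {c, a, b, d} := by
  rw [Finset.insert_comm b c, Finset.insert_comm a c]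

theorem p4e (a b c d : E) : ({a, b, c, d} : Finset E) = {d, a, b, c} := by
  rw [Finset.pair_comm c d, Finset.insert_comm b d, Finset.insert_comm a d]

theorem line_not_PB {vec : E → V} (hr : Module.finrank K V = 3) {f2 : V →ₗ[K] K} {q0 : E}
    (hq0 : f2 (vec q0) ≠ 0) {T : Finset E} (hT : ∀ t ∈ T, f2 (vec t) = 0) :
    ¬ PB K vec 3 T := by
  intro h
  have h1 : vec q0 ∈ Submodule.span K (vec '' (T : Set E)) := by
    rw [span_top hr h]; trivial
  exact hq0 (vanish_span hT h1)

theorem ins_PB {vec : E → V} {pt : V → E} (G : Geo K vec pt) {f2 : V →ₗ[K] K} {S : Finset E}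
    (hS : S.card = 2) (h0 : ∀ s ∈ S, f2 (vec s) = 0) {e : E} (he : f2 (vec e) ≠ 0) :
    PB K vec 3 (insert e S) :=
  PB_ins (two_indep G hS) (by rw [hS]) (fun h => he (vanish_span h0 h))

theorem cell_line {vec : E → V} {pt : V → E} (hr : Module.finrank K V = 3) (G : Geo K vec pt)
    {f2 : V →ₗ[K] K} {q0 : E} (hq0 : f2 (vec q0) ≠ 0) {L : Finset E}
    (hL : ∀ x, x ∈ L ↔ f2 (vec x) = 0) {x : E → ℝ}
    (hx : x ∈ poly (fun B : Finset E => B.card = 3)) {T : Finset E}
    (hT : cell (fun B : Finset E => B.card = 3) (wt K vec) x T) (hTL : T ⊆ L)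
    {B : Finset E} (hB : cell (fun B : Finset E => B.card = 3) (wt K vec) x B) :
    2 ≤ (B ∩ L).card := by
  classical
  by_contra hlt
  push Not at hlt
  have hB3 : B.card = 3 := cell_sub hB
  have hT3 : T.card = 3 := cell_sub hT
  have hsd := Finset.card_inter_add_card_sdiff B L
  have hT0 : ∀ t ∈ T, f2 (vec t) = 0 := fun t ht => (hL t).1 (hTL ht)
  have hTn := line_not_PB hr hq0 hT0
  obtain ⟨e, he⟩ : (B \ L).Nonempty := by rw [← Finset.card_pos]; omega
  obtain ⟨heB, heL⟩ := Finset.mem_sdiff.1 he
  have hef : f2 (vec e) ≠ 0 := fun h => heL ((hL e).2 h)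
  have heT : e ∉ T := fun h => heL (hTL h)
  have hcB : (B.erase e).card = 2 := by rw [Finset.card_erase_of_mem heB, hB3]
  have fin : ∀ f ∈ T, f ∉ B → wt K vec (insert f (B.erase e)) < wt K vec B + 1 → False := by
    intro f hf hfB hlt'
    have hcT : (T.erase f).card = 2 := by rw [Finset.card_erase_of_mem hf, hT3]
    have h1 : PB K vec 3 (insert e (T.erase f)) :=
      ins_PB G hcT (fun s hs => hT0 s (Finset.mem_of_mem_erase hs)) hef
    have hc1 : (insert f (B.erase e)).card = 3 := by
      rw [Finset.card_insert_of_notMem (fun h => hfB (Finset.mem_of_mem_erase h)), hcB]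
    have := (cell_pair hx hB hT hc1 h1.2 (swap_sum heB heT hf hfB)).1
    rw [wt_zero h1, wt_one hTn] at this
    linarith
  by_cases pB : PB K vec 3 B
  · by_cases h : ∃ f ∈ T, vec f ∉ Submodule.span K (vec '' ((B.erase e : Finset E) : Set E))
    · obtain ⟨f, hf, hfs⟩ := h
      have hfB : f ∉ B := by
        intro h
        by_cases hfe : f = e
        · exact heT (hfe ▸ hf)
        · exact hfs (Submodule.subset_span ⟨f, by simp [hfe, h], rfl⟩)
      apply fin f hf hfB
      rw [wt_zero (PB_ins (two_indep G hcB) (by rw [hcB]) hfs), wt_zero pB]; norm_num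
    · push Not at h
      obtain ⟨θ, hθ1, hθ0⟩ := dualf pB.1 heB
      have hθT : ∀ f ∈ T, θ (vec f) = 0 := fun f hf =>
        vanish_span (fun s hs => by
          rw [Finset.mem_erase] at hs; exact hθ0 s hs.2 hs.1) (h f hf)
      obtain ⟨y, hy⟩ : T.Nonempty := by rw [← Finset.card_pos]; omega
      have hcT : (T.erase y).card = 2 := by rw [Finset.card_erase_of_mem hy, hT3]
      have h1 : PB K vec 3 (insert e (T.erase y)) :=
        ins_PB G hcT (fun s hs => hT0 s (Finset.mem_of_mem_erase hs)) hef
      have h2 : f2 = (f2 (vec e)) • θ := by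
        apply LinearMap.ext_on (span_top hr h1)
        rintro _ ⟨t, ht, rfl⟩
        have ht' : t ∈ insert e (T.erase y) := ht
        rw [Finset.mem_insert] at ht'
        rcases ht' with rfl | ht'
        · simp [hθ1]
        · have h3 := Finset.mem_of_mem_erase ht'
          simp [hT0 t h3, hθT t h3]
      have h4 : B.erase e ⊆ B ∩ L := by
        intro s hs
        have hs' := Finset.mem_erase.1 hs
        rw [Finset.mem_inter]
        refine ⟨hs'.2, (hL s).2 ?_⟩
        rw [h2]; simp [hθ0 s hs'.2 hs'.1]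
      have := Finset.card_le_card h4
      omega
  · have hne : ∃ f ∈ T, f ∉ B := by
      by_contra hcon
      push Not at hcon
      have h4 : T ⊆ B ∩ L := fun t ht => Finset.mem_inter.2 ⟨hcon t ht, hTL ht⟩
      have := Finset.card_le_card h4
      omega
    obtain ⟨f, hf, hfB⟩ := hne
    apply fin f hf hfB
    rw [wt_one pB]
    have := wt_le (K := K) (vec := vec) (insert f (B.erase e))
    linarith

theorem pg_maxcell {vec : E → V} {pt : V → E} (hr : Module.finrank K V = 3) (G : Geo K vec pt)
    {PGm : Matroid E} (hPGE : PGm.E = Set.univ) (hPG : ∀ B, fam PGm B ↔ PB K vec 3 B) (e0 : E) :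
    IsMaximalCell (RegSub (fun B : Finset E => B.card = 3) (wt K vec)) PGm := by
  classical
  set F : Finset E → Prop := fun B => B.card = 3 with hF
  set s : Finset (Finset E) := Finset.univ.filter (fun B => PB K vec 3 B) with hs
  obtain ⟨A0, hA0, -⟩ := exists_base hr G e0
  have hsne : s.Nonempty := ⟨A0, by simp [hs, hA0]⟩
  have hspos : (0 : ℝ) < s.card := by exact_mod_cast hsne.card_pos
  set l : Finset E → ℝ := fun B => if B ∈ s then 1 / (s.card : ℝ) else 0 with hl
  set x : E → ℝ := fun e => ∑ B, l B * ind B e with hxdef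
  have hlrep : Rep F x l := by
    refine ⟨?_, ?_, ?_, fun e => rfl⟩
    · intro B; simp only [hl]; split_ifs <;> positivity
    · intro B hB
      simp only [hl] at hB
      split_ifs at hB with h
      · exact (Finset.mem_filter.1 h).2.2
      · exact absurd hB (lt_irrefl _)
    · simp only [hl, Finset.sum_ite_mem, Finset.univ_inter, Finset.sum_const, nsmul_eq_mul]
      field_simp
  have hx : x ∈ poly F := hlrep.mem_poly
  have hcost0 : cost (wt K vec) l = 0 := by
    unfold cost
    apply Finset.sum_eq_zero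
    intro B _
    simp only [hl]
    split_ifs with h
    · rw [wt_zero (Finset.mem_filter.1 h).2]; ring
    · ring
  have hcostnn : ∀ k, Rep F x k → 0 ≤ cost (wt K vec) k := fun k hk =>
    Finset.sum_nonneg fun B _ => mul_nonneg (hk.nonneg B) (wt_nonneg B)
  have hcell : ∀ B, PB K vec 3 B → cell F (wt K vec) x B := by
    intro B hB
    refine ⟨l, ⟨hlrep, fun k hk => by rw [hcost0]; exact hcostnn k hk⟩, ?_⟩
    have : B ∈ s := by simp [hs, hB]
    simp only [hl, this, if_true]; positivity
  refine ⟨⟨hPGE, x, hx, fun B => ?_⟩, ?_⟩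
  · rw [hPG]
    exact ⟨hcell B, fun h => cell_eq_PB hr G hx hcell h⟩
  · rintro N' ⟨hE', x', hx', hN'⟩ hle
    rw [mp_eq, mp_eq, poly_sub_iff] at hle
    have h1 : ∀ B, PB K vec 3 B → cell F (wt K vec) x' B := by
      intro B hB
      rw [← hN']; exact hle B ((hPG B).2 hB)
    apply fam_ext (hE'.trans hPGE.symm)
    intro B
    rw [hN', hPG]
    exact ⟨fun h => cell_eq_PB hr G hx' h1 h, h1 B⟩

theorem exists_maxcell {C : Set (Matroid E)} {E0 : Set E} (hg : ∀ N ∈ C, N.E = E0)
    {N1 : Matroid E} (hN1 : N1 ∈ C) :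
    ∃ N, IsMaximalCell C N ∧ matroidPolytope N1 ⊆ matroidPolytope N := by
  obtain ⟨m, hm, hmin⟩ := exists_min_rel
    (fun N N' : Matroid E => matroidPolytope N' ⊆ matroidPolytope N) (fun _ => Set.Subset.rfl)
    (fun _ _ _ h1 h2 => h2.trans h1)
    {N | N ∈ C ∧ matroidPolytope N1 ⊆ matroidPolytope N} ⟨N1, hN1, Set.Subset.rfl⟩
  refine ⟨m, ⟨hm.1, ?_⟩, hm.2⟩
  intro N' hN' hle
  have h1 := hmin N' ⟨hN', hm.2.trans hle⟩ hle
  exact eq_of_subset ((hg N' hN').trans (hg m hm.1).symm) h1 hle

theorem main_abs {vec : E → V} {pt : V → E} (hr : Module.finrank K V = 3) (G : Geo K vec pt)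
    {PGm : Matroid E} (hPGE : PGm.E = Set.univ) (hPG : ∀ B, fam PGm B ↔ PB K vec 3 B)
    (hind : IsIndecomposable PGm) {U : Matroid E} (hUE : U.E = Set.univ)
    (hU : ∀ B, fam U B ↔ B.card = 3) {f2 : V →ₗ[K] K} {q0 : E} (hq0 : f2 (vec q0) ≠ 0)
    {a b c d : E} (hab : a ≠ b) (hac : a ≠ c) (had : a ≠ d) (hbc : b ≠ c) (hbd : b ≠ d)
    (hcd : c ≠ d) (hL : ∀ x, x ∈ ({a, b, c, d} : Finset E) ↔ f2 (vec x) = 0) :
    ∃ C, IsMatroidSubdivision U C ∧
      (∀ C', IsMatroidSubdivision U C' → Refines C' C → Refines C C') ∧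
      ∃ N, IsMaximalCell C N ∧ ¬ IsIndecomposable N := by
  classical
  set F : Finset E → Prop := fun B => B.card = 3 with hF
  have hUF : fam U = F := funext fun B => propext (hU B)
  have hS : IsMatroidSubdivision U (RegSub F (wt K vec)) := by
    have := regSub_sub (w := wt K vec) hUE (by rw [hUF]; exact val_wt hr G)
    rwa [hUF] at this
  have hmax := pg_maxcell hr G hPGE hPG q0
  obtain ⟨C, hC, href, hfin⟩ := exists_finest hS
  refine ⟨C, hC, hfin, ?_⟩
  have hres := restrict_sub hS hC href hmax
  have hPGC : PGm ∈ C := ((hind _ hres PGm).2 rfl).1.1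
  set L : Finset E := {a, b, c, d} with hLdef
  have hLcard : L.card = 4 := by
    rw [hLdef, Finset.card_insert_of_notMem, Finset.card_insert_of_notMem, Finset.card_pair hcd]
    · simp [hbc, hbd]
    · simp [hab, hac, had]
  have hq0L : q0 ∉ L := fun h => hq0 ((hL q0).1 h)
  -- the bases with two elements on the line
  set s : Finset (Finset E) := Finset.univ.filter (fun B => B.card = 3 ∧ (B ∩ L).card = 2) with hs
  have hsPB : ∀ B ∈ s, PB K vec 3 B := by
    intro B hB
    obtain ⟨-, hB3, hB2⟩ := Finset.mem_filter.1 hB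
    have hsd := Finset.card_inter_add_card_sdiff B L
    obtain ⟨e, he⟩ := Finset.card_eq_one.1 (show (B \ L).card = 1 by omega)
    have hBe : B = insert e (B ∩ L) := by
      ext t
      constructor
      · intro ht
        by_cases htL : t ∈ L
        · exact Finset.mem_insert_of_mem (Finset.mem_inter.2 ⟨ht, htL⟩)
        · have : t ∈ B \ L := Finset.mem_sdiff.2 ⟨ht, htL⟩
          rw [he, Finset.mem_singleton] at this
          rw [this]; exact Finset.mem_insert_self _ _
      · intro ht
        rw [Finset.mem_insert] at ht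
        rcases ht with rfl | ht
        · have : t ∈ B \ L := by rw [he]; simp
          exact (Finset.mem_sdiff.1 this).1
        · exact (Finset.mem_inter.1 ht).1
    have heL : e ∉ L := by
      have : e ∈ B \ L := by rw [he]; simp
      exact (Finset.mem_sdiff.1 this).2
    rw [hBe]
    exact ins_PB G hB2 (fun t ht => (hL t).1 (Finset.mem_inter.1 ht).2)
      (fun h => heL ((hL e).2 h))
  have hsne : s.Nonempty := by
    refine ⟨insert q0 {a, b}, Finset.mem_filter.2 ⟨Finset.mem_univ _, ?_, ?_⟩⟩
    · rw [Finset.card_insert_of_notMem, Finset.card_pair hab]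
      intro h
      apply hq0L
      simp only [Finset.mem_insert, Finset.mem_singleton] at h
      rcases h with rfl | rfl <;> simp [hLdef]
    · have : (insert q0 {a, b} : Finset E) ∩ L = {a, b} := by
        ext t
        simp only [Finset.mem_inter, Finset.mem_insert, Finset.mem_singleton]
        constructor
        · rintro ⟨rfl | h, h2⟩
          · exact absurd h2 hq0L
          · exact h
        · intro h
          refine ⟨Or.inr h, ?_⟩
          rcases h with rfl | rfl <;> simp [hLdef]
      rw [this, Finset.card_pair hab]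
  set bF : E → ℝ := ∑ B ∈ s, (1 / (s.card : ℝ)) • ind B with hbF
  have hbFU : bF ∈ poly F :=
    poly_avg s hsne (fun B => B) (fun B hB => (Finset.mem_filter.1 hB).2.1)
  have hbFPG : bF ∈ matroidPolytope PGm := by
    rw [mp_eq]; exact poly_avg s hsne (fun B => B) (fun B hB => (hPG B).2 (hsPB B hB))
  have hT3 : ({a, b, c} : Finset E).card = 3 := by
    rw [Finset.card_insert_of_notMem (by simp [hab, hac]), Finset.card_pair hbc]
  have hcov : ∀ t : ℝ, 0 < t → t < 1 → ∃ G' ∈ {G' | ∃ N ∈ C, G' = fam N},
      (1 - t) • bF + t • ind {a, b, c} ∈ poly G' := by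
    intro t ht0 ht1
    have h1 : (1 - t) • bF + t • ind {a, b, c} ∈ matroidPolytope U := by
      rw [mp_eq, hUF]
      exact convex_poly F hbFU (ind_mem (N := F) hT3) (by linarith) ht0.le (by ring)
    rw [← hC.cover] at h1
    simp only [Set.mem_iUnion] at h1
    obtain ⟨N, hN, hxN⟩ := h1
    exact ⟨fam N, ⟨N, hN, rfl⟩, by rw [← mp_eq]; exact hxN⟩
  obtain ⟨G', ⟨N1, hN1, rfl⟩, hb1, t, ht0, ht1, hxt⟩ := pigeon bF (ind {a, b, c}) hcov
  -- all bases with two elements on the line are in `N1`
  have hFN1 : ∀ B ∈ s, fam N1 B := by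
    have hface := hC.face PGm hPGC N1 hN1
    have hconv : Convex ℝ (matroidPolytope PGm) := convex_convexHull ℝ _
    have h1 := avg_mem_extreme hconv hface
      (fun B hB => by rw [mp_eq]; exact ind_mem ((hPG B).2 (hsPB B hB)))
      (s := s) ⟨hbFPG, by rw [mp_eq]; exact hb1⟩
    intro B hB
    have := (h1 B hB).2
    rw [mp_eq] at this; exact of_ind_mem this
  -- a triple of the line is in `N1`
  have hcardN : ∀ N ∈ C, ∀ B, fam N B → B.card = 3 := by
    intro N hN B hB
    have h1 : ind B ∈ matroidPolytope U := by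
      rw [← hC.cover]
      exact Set.mem_biUnion hN (by rw [mp_eq]; exact ind_mem hB)
    rw [mp_eq, hUF] at h1
    exact of_ind_mem h1
  have hT : ∃ T, fam N1 T ∧ T ⊆ L := by
    by_contra hcon
    push Not at hcon
    obtain ⟨l, hl⟩ := exists_rep hxt
    have hle : ∀ B, fam N1 B → (B ∩ L).card ≤ 2 := by
      intro B hB
      by_contra h
      push Not at h
      apply hcon B hB
      have h3 := hcardN N1 hN1 B hB
      have h4 : B ∩ L = B := Finset.eq_of_subset_of_card_le Finset.inter_subset_left (by omega)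
      exact Finset.inter_eq_left.1 h4
    have h1 : ∑ e, ind L e * ((1 - t) • bF + t • ind {a, b, c}) e ≤ 2 := by
      rw [rep_dot hl (ind L)]
      have h2 : (2 : ℝ) = ∑ B, l B * 2 := by rw [← Finset.sum_mul, hl.sum]; ring
      rw [h2]
      apply Finset.sum_le_sum
      intro B _
      rcases (hl.nonneg B).lt_or_eq with h3 | h3
      · apply mul_le_mul_of_nonneg_left _ h3.le
        rw [dot_ind, sum_ind, Finset.inter_comm]
        exact_mod_cast hle B (hl.mem B h3)
      · rw [← h3]; simp
    have h5 : ∑ e, ind L e * ((1 - t) • bF + t • ind {a, b, c}) e = (1 - t) * 2 + t * 3 := by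
      have h6 : ∑ e, ind L e * bF e = 2 := by
        have h7 : ∀ e, ind L e * bF e = ∑ B ∈ s, (1 / (s.card : ℝ)) * (ind L e * ind B e) := by
          intro e
          rw [hbF, Finset.sum_apply, Finset.mul_sum]
          apply Finset.sum_congr rfl
          intro B _; simp only [Pi.smul_apply, smul_eq_mul]; ring
        simp only [h7]
        rw [Finset.sum_comm]
        have h8 : ∀ B ∈ s, ∑ e, (1 / (s.card : ℝ)) * (ind L e * ind B e)
            = (1 / (s.card : ℝ)) * 2 := by
          intro B hB
          rw [← Finset.mul_sum, dot_ind, sum_ind, Finset.inter_comm,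
            (Finset.mem_filter.1 hB).2.2]
          norm_num
        rw [Finset.sum_congr rfl h8, Finset.sum_const, nsmul_eq_mul]
        have : (s.card : ℝ) ≠ 0 := by exact_mod_cast hsne.card_pos.ne'
        field_simp
      have h9 : ∑ e, ind L e * ind ({a, b, c} : Finset E) e = 3 := by
        rw [dot_ind, sum_ind]
        have : L ∩ {a, b, c} = {a, b, c} := by
          apply Finset.inter_eq_right.2
          intro u hu
          simp only [Finset.mem_insert, Finset.mem_singleton] at hu
          rcases hu with rfl | rfl | rfl <;> simp [hLdef]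
        rw [this, hT3]; norm_num
      have h10 : ∀ e, ind L e * ((1 - t) • bF + t • ind {a, b, c}) e
          = (1 - t) * (ind L e * bF e) + t * (ind L e * ind {a, b, c} e) := by
        intro e; simp only [Pi.add_apply, Pi.smul_apply, smul_eq_mul]; ring
      simp only [h10]
      rw [Finset.sum_add_distrib, ← Finset.mul_sum, ← Finset.mul_sum, h6, h9]
    rw [h5] at h1
    linarith
  obtain ⟨T, hT1, hTL⟩ := hT
  -- the maximal cell
  obtain ⟨N, hNmax, hN1N⟩ := exists_maxcell hC.ground hN1
  refine ⟨N, hNmax, ?_⟩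
  have hNE : N.E = Set.univ := (hC.ground N hNmax.1).trans hUE
  rw [mp_eq, mp_eq, poly_sub_iff] at hN1N
  have hFN : ∀ B, B.card = 3 → (B ∩ L).card = 2 → fam N B := fun B h1 h2 =>
    hN1N B (hFN1 B (Finset.mem_filter.2 ⟨Finset.mem_univ _, h1, h2⟩))
  have hTN : fam N T := hN1N T hT1
  have hN3 := hcardN N hNmax.1
  have hN2 : ∀ B, fam N B → 2 ≤ (B ∩ L).card := by
    obtain ⟨N'', ⟨_, x, hx, hcell⟩, hle⟩ := href N hNmax.1
    rw [mp_eq, mp_eq, poly_sub_iff] at hle
    intro B hB
    exact cell_line hr G hq0 hL hx ((hcell T).1 (hle T hTN)) hTL ((hcell B).1 (hle B hB))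
  have hEN := exch_fam N
  -- every pair of the line is in a triple base
  have hpair : ∀ y z u v : E, L = {y, z, u, v} → y ≠ z → y ≠ u → y ≠ v → z ≠ u → z ≠ v →
      u ≠ v → fam N {y, z, u} ∨ fam N {y, z, v} := by
    intro y z u v hLe hyz hyu hyv hzu hzv huv
    have hyL : y ∈ L := by rw [hLe]; simp
    have hzL : z ∈ L := by rw [hLe]; simp
    have hqy : q0 ≠ y := fun h => hq0L (h ▸ hyL)
    have hqz : q0 ≠ z := fun h => hq0L (h ▸ hzL)
    have h1 : fam N (insert q0 {y, z}) := by
      apply hFN
      · rw [Finset.card_insert_of_notMem (by simp [hqy, hqz]), Finset.card_pair hyz]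
      · have : (insert q0 {y, z} : Finset E) ∩ L = {y, z} := by
          ext t
          simp only [Finset.mem_inter, Finset.mem_insert, Finset.mem_singleton]
          constructor
          · rintro ⟨rfl | h, h2⟩
            · exact absurd h2 hq0L
            · exact h
          · intro h
            refine ⟨Or.inr h, ?_⟩
            rcases h with rfl | rfl
            exacts [hyL, hzL]
        rw [this, Finset.card_pair hyz]
    obtain ⟨f, hf, hf', hNf⟩ := hEN _ T h1 hTN q0 (by simp) (fun h => hq0L (hTL h))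
    have h2 : (insert q0 {y, z} : Finset E).erase q0 = {y, z} := by
      rw [Finset.erase_insert]; simp [hqy, hqz]
    rw [h2] at hNf
    have hfL := hTL hf
    rw [hLe] at hfL
    have h3 : ∀ g : E, insert g ({y, z} : Finset E) = {y, z, g} := by
      intro g; exact s3a g y z
    rw [h3] at hNf
    simp only [Finset.mem_insert, Finset.mem_singleton] at hfL
    rcases hfL with rfl | rfl | rfl | rfl
    · exact absurd (by simp) hf'
    · exact absurd (by simp) hf'
    · exact Or.inl hNf
    · exact Or.inr hNf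
  have perm : ∀ y z u v : E, L = {y, z, u, v} → y ≠ z → y ≠ u → y ≠ v → z ≠ u → z ≠ v →
      u ≠ v → fam N {y, z, u} → fam N {y, z, v} → fam N {y, u, v} → ¬ IsIndecomposable N := by
    intro y z u v hLe hyz hyu hyv hzu hzv huv k1 k2 k3
    exact line_decomp hNE (q := q0) hyz hyu hyv hzu hzv huv (by rw [← hLe]; exact hq0L) hN3
      (by rw [← hLe]; exact hN2) (by rw [← hLe]; exact hFN) k1 k2 k3
  have tri : ∀ y z u : E, ({y, z, u} : Finset E) = {z, y, u} := by
    intro y z u; exact Finset.insert_comm _ _ _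
  have tri2 : ∀ y z u : E, ({y, z, u} : Finset E) = {y, u, z} := by
    intro y z u; rw [Finset.pair_comm z u]
  -- `z u v` not a base: then the other three are
  have bad : ∀ y z u v : E, L = {y, z, u, v} → y ≠ z → y ≠ u → y ≠ v → z ≠ u → z ≠ v →
      u ≠ v → ¬ fam N {z, u, v} → ¬ IsIndecomposable N := by
    intro y z u v hLe hyz hyu hyv hzu hzv huv hbad
    apply perm y z u v hLe hyz hyu hyv hzu hzv huv
    · rcases hpair z u y v (by rw [hLe]; exact p4a y z u v) hzu hyz.symm hzv hyu.symm huv hyv with k | k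
      · have : ({y, z, u} : Finset E) = {z, u, y} := s3a y z u
        rw [this]; exact k
      · exact absurd k hbad
    · rcases hpair z v y u (by rw [hLe]; exact p4b y z u v) hzv hyz.symm hzu hyv.symm huv.symm hyu with k | k
      · have : ({y, z, v} : Finset E) = {z, v, y} := s3a y z v
        rw [this]; exact k
      · exact absurd (by rw [tri2]; exact k) hbad
    · rcases hpair u v y z (by rw [hLe]; exact p4c y z u v) huv hyu.symm hzu.symm hyv.symm hzv.symm hyz with k | k
      · have : ({y, u, v} : Finset E) = {u, v, y} := s3a y u v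
        rw [this]; exact k
      · exfalso; apply hbad
        have : ({z, u, v} : Finset E) = {u, v, z} := s3a z u v
        rw [this]; exact k
  by_cases g1 : fam N {a, b, c}
  · by_cases g2 : fam N {a, b, d}
    · by_cases g3 : fam N {a, c, d}
      · exact perm a b c d rfl hab hac had hbc hbd hcd g1 g2 g3
      · exact bad b a c d (Finset.insert_comm _ _ _) hab.symm hbc hbd hac had hcd g3
    · exact bad c a b d (p4d a b c d) hac.symm hbc.symm hcd hab had hbd g2
  · exact bad d a b c (p4e a b c d) had.symm hbd.symm hcd.symm hab hac hbc g1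

end Pool.Agent.X52.PG
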