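import Pool.Agent.X52.RSub
import Pool.Agent.X52.PGMain

/-!
# The corank valuation of a projective plane
-/

set_option autoImplicit false
set_option linter.unusedSectionVars false

namespace Pool.Agent.X52.PG

open Finset

variable {K : Type} [Field K] {V : Type} [AddCommGroup V] [Module K V] [FiniteDimensional K V]
variable {P : Type} [Fintype P] [DecidableEq P]
variable {r : ℕ}

theorem vanish_span {vec : P → V} {S : Finset P} {f : V →ₗ[K] K} (h : ∀ s ∈ S, f (vec s) = 0)
    {v : V} (hv : v ∈ Submodule.span K (vec '' (S : Set P))) : f v = 0 := by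
  have : Submodule.span K (vec '' (S : Set P)) ≤ LinearMap.ker f := by
    rw [Submodule.span_le]; rintro _ ⟨t, ht, rfl⟩; exact h t ht
  exact this hv

theorem PB_ins {vec : P → V} {S : Finset P} (hS : LinearIndepOn K vec (S : Set P))
    (hc : S.card + 1 = r) {z : P} (hz : vec z ∉ Submodule.span K (vec '' (S : Set P))) :
    PB K vec r (insert z S) := by
  have hzS : z ∉ S := fun h => hz (Submodule.subset_span ⟨z, h, rfl⟩)
  refine ⟨?_, by rw [Finset.card_insert_of_notMem hzS, hc]⟩
  rw [Finset.coe_insert, linearIndepOn_insert (fun h => hzS (Finset.mem_coe.1 h))]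
  exact ⟨hS, hz⟩

theorem erase_span {vec : P → V} {A : Finset P} (hA : PB K vec r A) {e : P} (he : e ∈ A) :
    vec e ∉ Submodule.span K (vec '' ((A.erase e : Finset P) : Set P)) := by
  have hAe : (A : Set P) = insert e ((A.erase e : Finset P) : Set P) := by
    rw [← Finset.coe_insert, Finset.insert_erase he]
  have h1 := hA.1
  rw [hAe, linearIndepOn_insert (by simp)] at h1
  exact h1.2

/-- symmetric exchange -/
theorem sym_exch {vec : P → V} (hr : Module.finrank K V = r) {A B : Finset P}
    (hA : PB K vec r A) (hB : PB K vec r B) {e : P} (he : e ∈ A) (_he' : e ∉ B) :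
    ∃ f ∈ B, f ∉ A ∧ PB K vec r (insert f (A.erase e)) ∧ PB K vec r (insert e (B.erase f)) := by
  classical
  obtain ⟨φ, hφ1, hφ0⟩ := dualf hA.1 he
  have hβ : ∀ f ∈ B, ∃ g : V →ₗ[K] K, g (vec f) = 1 ∧ ∀ e' ∈ B, e' ≠ f → g (vec e') = 0 :=
    fun f hf => dualf hB.1 hf
  choose! β hβ1 hβ0 using hβ
  have hid : ∀ v : V, v = ∑ f ∈ B, β f v • vec f := by
    have h1 : (LinearMap.id : V →ₗ[K] V) = ∑ f ∈ B, (β f).smulRight (vec f) := by
      apply LinearMap.ext_on (span_top hr hB)
      rintro _ ⟨t, ht, rfl⟩
      have ht' : t ∈ B := ht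
      simp only [LinearMap.id_apply, LinearMap.sum_apply, LinearMap.smulRight_apply]
      rw [← Finset.add_sum_erase B _ ht', hβ1 t ht', one_smul]
      have : ∑ x ∈ B.erase t, (β x) (vec t) • vec x = 0 := by
        apply Finset.sum_eq_zero
        intro x hx; rw [Finset.mem_erase] at hx
        rw [hβ0 x hx.2 t ht' hx.1.symm, zero_smul]
      rw [this, add_zero]
    intro v
    have h2 := congrArg (fun g : V →ₗ[K] V => g v) h1
    simpa only [LinearMap.id_apply, LinearMap.sum_apply, LinearMap.smulRight_apply] using h2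
  have hex : ∃ f ∈ B, β f (vec e) ≠ 0 ∧ φ (vec f) ≠ 0 := by
    by_contra hcon
    push Not at hcon
    have h3 : φ (vec e) = 0 := by
      rw [hid (vec e), map_sum]
      apply Finset.sum_eq_zero
      intro f hf
      rw [map_smul, smul_eq_mul]
      by_cases h : β f (vec e) = 0
      · rw [h, zero_mul]
      · rw [hcon f hf h, mul_zero]
    rw [hφ1] at h3; exact one_ne_zero h3
  obtain ⟨f, hf, hf1, hf2⟩ := hex
  have hfA : f ∉ A := by
    intro h
    by_cases hfe : f = e
    · exact _he' (hfe ▸ hf)
    · exact hf2 (hφ0 f h hfe)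
  refine ⟨f, hf, hfA, ?_, ?_⟩
  · apply PB_ins (hA.1.mono (by simp))
      (by rw [Finset.card_erase_add_one he]; exact hA.2)
    intro h
    exact hf2 (vanish_span (fun s hs => by
      rw [Finset.mem_erase] at hs; exact hφ0 s hs.2 hs.1) h)
  · apply PB_ins (hB.1.mono (by simp))
      (by rw [Finset.card_erase_add_one hf]; exact hB.2)
    intro h
    exact hf1 (vanish_span (fun s hs => by
      rw [Finset.mem_erase] at hs; exact hβ0 f hf s hs.2 hs.1) h)

theorem two_indep {vec : P → V} {pt : V → P} (G : Geo K vec pt) {S : Finset P}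
    (hS : S.card = 2) : LinearIndepOn K vec (S : Set P) := by
  obtain ⟨x, y, hxy, rfl⟩ := Finset.card_eq_two.1 hS
  rw [Finset.coe_insert, linearIndepOn_insert (by simpa using hxy)]
  refine ⟨?_, ?_⟩
  · rw [Finset.coe_singleton, linearIndepOn_singleton_iff]; exact G.ne y
  · intro h
    rw [Finset.coe_singleton, Set.image_singleton, Submodule.mem_span_singleton] at h
    obtain ⟨c, hc⟩ := h
    by_cases hc0 : c = 0
    · rw [hc0, zero_smul] at hc; exact G.ne x hc.symm
    · exact hxy (G.inj x y c hc0 hc.symm)

theorem exists_off {vec : P → V} (hr : Module.finrank K V = r) {S B : Finset P}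
    (hS : S.card + 1 = r) (hB : PB K vec r B) :
    ∃ f ∈ B, vec f ∉ Submodule.span K (vec '' (S : Set P)) := by
  classical
  by_contra hcon
  push Not at hcon
  have h2 : Submodule.span K (vec '' (B : Set P)) ≤ Submodule.span K (vec '' (S : Set P)) := by
    rw [Submodule.span_le]; rintro _ ⟨t, ht, rfl⟩; exact hcon t ht
  rw [span_top hr hB] at h2
  have h3 : Module.finrank K (Submodule.span K (vec '' (S : Set P))) = r := by
    rw [top_le_iff.1 h2, finrank_top, hr]
  have h4 : Module.finrank K (Submodule.span K (vec '' (S : Set P))) ≤ S.card := by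
    have := finrank_span_finset_le_card (R := K) (S.image vec)
    rw [Finset.coe_image] at this
    exact this.trans Finset.card_image_le
  omega

open Classical in
/-- corank of a triple -/
noncomputable def wt (K : Type) [Field K] {V : Type} [AddCommGroup V] [Module K V]
    (vec : P → V) (B : Finset P) : ℝ := if PB K vec 3 B then 0 else 1

theorem wt_zero {vec : P → V} {B : Finset P} (h : PB K vec 3 B) : wt K vec B = 0 := by
  unfold wt; rw [if_pos h]

theorem wt_one {vec : P → V} {B : Finset P} (h : ¬ PB K vec 3 B) : wt K vec B = 1 := by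
  unfold wt; rw [if_neg h]

theorem wt_le {vec : P → V} (B : Finset P) : wt K vec B ≤ 1 := by
  unfold wt; split_ifs <;> norm_num

theorem wt_nonneg {vec : P → V} (B : Finset P) : 0 ≤ wt K vec B := by
  unfold wt; split_ifs <;> norm_num

theorem val_wt {vec : P → V} {pt : V → P} (hr : Module.finrank K V = 3) (G : Geo K vec pt) :
    Val (fun B : Finset P => B.card = 3) (wt K vec) := by
  classical
  intro A B hA hB e he he'
  change A.card = 3 at hA
  change B.card = 3 at hB
  have hcA : (A.erase e).card = 2 := by rw [Finset.card_erase_of_mem he, hA]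
  have card1 : ∀ f, f ∉ A → (insert f (A.erase e)).card = 3 := by
    intro f hf
    rw [Finset.card_insert_of_notMem (fun h => hf (Finset.mem_of_mem_erase h)), hcA]
  have card2 : ∀ f ∈ B, (insert e (B.erase f)).card = 3 := by
    intro f hf
    rw [Finset.card_insert_of_notMem (fun h => he' (Finset.mem_of_mem_erase h)),
      Finset.card_erase_of_mem hf, hB]
  have hne : ∃ f ∈ B, f ∉ A := by
    by_contra hcon
    push Not at hcon
    have h1 : B = A := Finset.eq_of_subset_of_card_le hcon (by rw [hA, hB])
    exact he' (h1 ▸ he)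
  by_cases pA : PB K vec 3 A
  · by_cases pB : PB K vec 3 B
    · obtain ⟨f, hf, hf', h1, h2⟩ := sym_exch hr pA pB he he'
      refine ⟨f, hf, hf', card1 f hf', card2 f hf, ?_⟩
      rw [wt_zero h1, wt_zero h2, wt_zero pA, wt_zero pB]
    · by_cases h : ∃ f ∈ B, vec f ∉ Submodule.span K (vec '' ((A.erase e : Finset P) : Set P))
      · obtain ⟨f, hf, hfs⟩ := h
        have hfA : f ∉ A := by
          intro h
          by_cases hfe : f = e
          · exact he' (hfe ▸ hf)
          · exact hfs (Submodule.subset_span ⟨f, by simp [hfe, h], rfl⟩)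
        refine ⟨f, hf, hfA, card1 f hfA, card2 f hf, ?_⟩
        have h1 : PB K vec 3 (insert f (A.erase e)) := PB_ins (pA.1.mono (by simp))
          (by rw [hcA]) hfs
        rw [wt_zero h1, wt_zero pA, wt_one pB]
        have := wt_le (K := K) (vec := vec) (insert e (B.erase f))
        linarith
      · push Not at h
        obtain ⟨f, hf, hf'⟩ := hne
        refine ⟨f, hf, hf', card1 f hf', card2 f hf, ?_⟩
        have hcB : (B.erase f).card = 2 := by rw [Finset.card_erase_of_mem hf, hB]
        have h1 : PB K vec 3 (insert e (B.erase f)) := by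
          apply PB_ins (two_indep G hcB) (by rw [hcB])
          intro h2
          apply erase_span pA he
          have h3 : Submodule.span K (vec '' ((B.erase f : Finset P) : Set P))
              ≤ Submodule.span K (vec '' ((A.erase e : Finset P) : Set P)) := by
            rw [Submodule.span_le]; rintro _ ⟨t, ht, rfl⟩
            exact h t (Finset.mem_of_mem_erase (Finset.mem_coe.1 ht))
          exact h3 h2
        rw [wt_zero h1, wt_zero pA, wt_one pB]
        have := wt_le (K := K) (vec := vec) (insert f (A.erase e))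
        linarith
  · by_cases pB : PB K vec 3 B
    · obtain ⟨f, hf, hfs⟩ := exists_off hr (S := A.erase e) (by rw [hcA]) pB
      have hfA : f ∉ A := by
        intro h
        by_cases hfe : f = e
        · exact he' (hfe ▸ hf)
        · exact hfs (Submodule.subset_span ⟨f, by simp [hfe, h], rfl⟩)
      refine ⟨f, hf, hfA, card1 f hfA, card2 f hf, ?_⟩
      have h1 : PB K vec 3 (insert f (A.erase e)) := PB_ins (two_indep G hcA)
        (by rw [hcA]) hfs
      rw [wt_zero h1, wt_zero pB, wt_one pA]
      have := wt_le (K := K) (vec := vec) (insert e (B.erase f))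
      linarith
    · obtain ⟨f, hf, hf'⟩ := hne
      refine ⟨f, hf, hf', card1 f hf', card2 f hf, ?_⟩
      rw [wt_one pA, wt_one pB]
      have h1 := wt_le (K := K) (vec := vec) (insert e (B.erase f))
      have h2 := wt_le (K := K) (vec := vec) (insert f (A.erase e))
      linarith

/-- a cell containing all bases of the plane has no other members -/
theorem cell_eq_PB {vec : P → V} {pt : V → P} (hr : Module.finrank K V = 3) (G : Geo K vec pt)
    {x : P → ℝ} (hx : x ∈ poly (fun B : Finset P => B.card = 3))
    (h : ∀ B, PB K vec 3 B → cell (fun B : Finset P => B.card = 3) (wt K vec) x B)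
    {B : Finset P} (hB : cell (fun B : Finset P => B.card = 3) (wt K vec) x B) :
    PB K vec 3 B := by
  classical
  by_contra pB
  have hB3 : B.card = 3 := by
    obtain ⟨l, hl, hlB⟩ := hB; exact hl.1.mem B hlB
  obtain ⟨b1, b2, b3, h12, h13, h23, rfl⟩ := Finset.card_eq_three.1 hB3
  -- a point off the line
  have hc2 : ({b1, b2} : Finset P).card = 2 := Finset.card_pair h12
  obtain ⟨A0, hA0, -⟩ := exists_base hr G b1
  obtain ⟨p, -, hp⟩ := exists_off hr (S := {b1, b2}) (by rw [hc2]) hA0
  have hT : PB K vec 3 (insert p {b1, b2}) := PB_ins (two_indep G hc2) (by rw [hc2]) hp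
  obtain ⟨φ, hφ1, hφ0⟩ := dualf hT.1 (e := p) (by simp)
  have hp1 : p ≠ b1 := fun h => hp (Submodule.subset_span ⟨b1, by simp, by rw [h]⟩)
  have hp2 : p ≠ b2 := fun h => hp (Submodule.subset_span ⟨b2, by simp, by rw [h]⟩)
  have φ1 : φ (vec b1) = 0 := hφ0 b1 (by simp) hp1.symm
  have φ2 : φ (vec b2) = 0 := hφ0 b2 (by simp) hp2.symm
  have φ3 : φ (vec b3) = 0 := by
    have h1 : vec b3 ∈ Submodule.span K (vec '' (({b1, b2} : Finset P) : Set P)) := by
      by_contra h0
      have := PB_ins (r := 3) (two_indep G hc2) (by rw [hc2]) h0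
      apply pB
      have he : ({b1, b2, b3} : Finset P) = insert b3 {b1, b2} := by
        ext t; simp only [Finset.mem_insert, Finset.mem_singleton]; tauto
      rw [he]; exact this
    apply vanish_span (S := {b1, b2}) ?_ h1
    intro s hs
    simp only [Finset.mem_insert, Finset.mem_singleton] at hs
    rcases hs with rfl | rfl
    exacts [φ1, φ2]
  obtain ⟨ψ, hψ1, hψ0⟩ := dualf hT.1 (e := b2) (by simp)
  have ψ1 : ψ (vec b1) = 0 := hψ0 b1 (by simp) h12
  have ψp : ψ (vec p) = 0 := hψ0 p (by simp) hp2
  have hv0 : vec p + vec b2 ≠ 0 := by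
    intro h0
    have := congrArg φ h0
    rw [map_add, hφ1, φ2, map_zero] at this; norm_num at this
  obtain ⟨c, hc, hvc⟩ := G.pt _ hv0
  set q := pt (vec p + vec b2) with hq
  have φq : φ (vec q) = c := by rw [hvc, map_smul, map_add, hφ1, φ2, smul_eq_mul]; ring
  have ψq : ψ (vec q) = c := by rw [hvc, map_smul, map_add, hψ1, ψp, smul_eq_mul]; ring
  have hqb : ∀ b, φ (vec b) = 0 → q ≠ b := by
    intro b hb h; rw [h, hb] at φq; exact hc φq.symm
  have hpb : ∀ b, φ (vec b) = 0 → p ≠ b := by
    intro b hb h; rw [h, hb] at hφ1; exact zero_ne_one hφ1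
  have hqp : q ≠ p := by
    intro h; rw [h, ψp] at ψq; exact hc ψq.symm
  -- the pair
  have ins : ∀ (x y z : P) (θ : V →ₗ[K] K), x ≠ y → θ (vec x) = 0 → θ (vec y) = 0 →
      θ (vec z) ≠ 0 → PB K vec 3 (insert z {x, y}) := by
    intro x y z θ hxy hx hy hz
    have hc2 : ({x, y} : Finset P).card = 2 := Finset.card_pair hxy
    apply PB_ins (two_indep G hc2) (by rw [hc2])
    intro h0
    apply hz
    apply vanish_span (S := {x, y}) ?_ h0
    intro s hs
    simp only [Finset.mem_insert, Finset.mem_singleton] at hs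
    rcases hs with rfl | rfl
    exacts [hx, hy]
  have hAp : PB K vec 3 (insert q {b1, p}) :=
    ins b1 p q ψ hp1.symm ψ1 ψp (by rw [ψq]; exact hc)
  have hA' : PB K vec 3 (insert q {b1, b2}) :=
    ins b1 b2 q φ h12 φ1 φ2 (by rw [φq]; exact hc)
  have hB' : PB K vec 3 (insert p {b1, b3}) :=
    ins b1 b3 p φ h13 φ1 φ3 (by rw [hφ1]; exact one_ne_zero)
  have hswap := swap_sum (A := insert q {b1, p}) (B := {b1, b2, b3}) (e := p) (f := b2)
    (by simp) (by simp [hp1, hp2, hpb b3 φ3]) (by simp)
    (by simp [h12.symm, hp2.symm, (hqb b2 φ2).symm])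
  have e1 : insert b2 ((insert q {b1, p} : Finset P).erase p) = insert q {b1, b2} := by
    ext t; simp only [Finset.mem_insert, Finset.mem_singleton, Finset.mem_erase]
    constructor
    · rintro (h | ⟨h1, h2 | h2 | h2⟩)
      · exact Or.inr (Or.inr h)
      · exact Or.inl h2
      · exact Or.inr (Or.inl h2)
      · exact absurd h2 h1
    · rintro (h | h | h)
      · exact Or.inr ⟨fun h' => hqp (h.symm.trans h'), Or.inl h⟩
      · exact Or.inr ⟨fun h' => hp1 (h'.symm.trans h), Or.inr (Or.inl h)⟩
      · exact Or.inl h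
  have e2 : insert p (({b1, b2, b3} : Finset P).erase b2) = insert p {b1, b3} := by
    ext t; simp only [Finset.mem_insert, Finset.mem_singleton, Finset.mem_erase]
    constructor
    · rintro (h | ⟨h1, h2 | h2 | h2⟩)
      · exact Or.inl h
      · exact Or.inr (Or.inl h2)
      · exact absurd h2 h1
      · exact Or.inr (Or.inr h2)
    · rintro (h | h | h)
      · exact Or.inl h
      · exact Or.inr ⟨fun h' => h12 (h.symm.trans h'), Or.inl h⟩
      · exact Or.inr ⟨fun h' => h23 (h'.symm.trans h), Or.inr (Or.inr h)⟩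
  rw [e1, e2] at hswap
  have := (cell_pair hx (h _ hAp) hB hA'.2 hB'.2 hswap).1
  rw [wt_zero hAp, wt_one pB, wt_zero hA', wt_zero hB'] at this
  norm_num at this

end Pool.Agent.X52.PG
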