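import Pool.Agent.X52.RDec

/-!
# A decomposable maximal cell in a finest subdivision (abstract form)
-/

set_option autoImplicit false
set_option linter.unusedSectionVars false

namespace Pool.Agent.X52.PG

open Finset
open Pool.Agent.Results.MP_da28a5_co.Indecomposable

variable {K : Type} [Field K] {V : Type} [AddCommGroup V] [Module K V] [FiniteDimensional K V]
variable {E : Type} [Fintype E] [DecidableEq E]

theorem fam_ext {N N' : Matroid E} (hE : N.E = N'.E) (h : ∀ B, fam N B ↔ fam N' B) : N = N' := by
  classical
  apply Matroid.ext_isBase hE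
  intro B _
  have := h B.toFinset
  unfold fam at this
  rwa [Set.coe_toFinset] at this

theorem line_decomp {N : Matroid E} (hE : N.E = Set.univ) {a b c d q : E} (hab : a ≠ b)
    (hac : a ≠ c) (had : a ≠ d) (hbc : b ≠ c) (hbd : b ≠ d) (hcd : c ≠ d)
    (hq : q ∉ ({a, b, c, d} : Finset E))
    (h3 : ∀ B, fam N B → B.card = 3) (h2 : ∀ B, fam N B → 2 ≤ (B ∩ {a, b, c, d}).card)
    (hF : ∀ B : Finset E, B.card = 3 → (B ∩ {a, b, c, d}).card = 2 → fam N B)
    (habc : fam N {a, b, c}) (habd : fam N {a, b, d}) (hacd : fam N {a, c, d}) :
    ¬ IsIndecomposable N := by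
  classical
  set f0 : E → Fin 5 := fun x => if x = a then 0 else if x = b then 1 else if x = c then 2 else
    if x = d then 3 else 4 with hf0
  have fa : f0 a = 0 := by simp [hf0]
  have fb : f0 b = 1 := by simp [hf0, hab.symm]
  have fc : f0 c = 2 := by simp [hf0, hac.symm, hbc.symm]
  have fd : f0 d = 3 := by simp [hf0, had.symm, hbd.symm, hcd.symm]
  have f4 : ∀ x, x ∉ ({a, b, c, d} : Finset E) → f0 x = 4 := by
    intro x hx
    simp only [Finset.mem_insert, Finset.mem_singleton, not_or] at hx
    simp [hf0, hx.1, hx.2.1, hx.2.2.1, hx.2.2.2]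
  have fl : ∀ x ∈ ({a, b, c, d} : Finset E), f0 x ≠ 4 := by
    intro x hx
    simp only [Finset.mem_insert, Finset.mem_singleton] at hx
    rcases hx with rfl | rfl | rfl | rfl
    · rw [fa]; decide
    · rw [fb]; decide
    · rw [fc]; decide
    · rw [fd]; decide
  have finj : ∀ x ∈ ({a, b, c, d} : Finset E), ∀ y ∈ ({a, b, c, d} : Finset E),
      f0 x = f0 y → x = y := by
    intro x hx y hy hxy
    simp only [Finset.mem_insert, Finset.mem_singleton] at hx hy
    rcases hx with rfl | rfl | rfl | rfl <;> rcases hy with rfl | rfl | rfl | rfl <;>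
      first
      | rfl
      | (exfalso; simp only [fa, fb, fc, fd] at hxy; revert hxy; decide)
  set κ : Bool := decide (fam N {b, c, d}) with hκ
  refine decomp hE κ f0 ?_ fa fb fc fd (f4 q hq)
  have hinter : ∀ B : Finset E, (B.image f0).card = B.card →
      (B ∩ {a, b, c, d}).card = ((B.image f0).erase 4).card := by
    intro B hB
    have hinj : Set.InjOn f0 B := Finset.card_image_iff.1 hB
    have h1 : (B ∩ {a, b, c, d}).image f0 = (B.image f0).erase 4 := by
      ext s
      simp only [Finset.mem_image, Finset.mem_erase, Finset.mem_inter]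
      constructor
      · rintro ⟨t, ⟨k1, k2⟩, rfl⟩; exact ⟨fl t k2, t, k1, rfl⟩
      · rintro ⟨k1, t, k2, rfl⟩
        refine ⟨t, ⟨k2, ?_⟩, rfl⟩
        by_contra h; exact k1 (f4 t h)
    rw [← h1, Finset.card_image_of_injOn]
    exact hinj.mono (by intro t ht; exact (Finset.mem_inter.1 (Finset.mem_coe.1 ht)).1)
  have hback : ∀ B : Finset E, ∀ S : Finset (Fin 5), B.image f0 = S → 4 ∉ S →
      ∀ x, x ∈ B ↔ (x ∈ ({a, b, c, d} : Finset E) ∧ f0 x ∈ S) := by
    intro B S hS h4 x
    constructor
    · intro hx
      have h1 : f0 x ∈ S := by rw [← hS]; exact Finset.mem_image_of_mem f0 hx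
      refine ⟨?_, h1⟩
      by_contra h; rw [f4 x h] at h1; exact h4 h1
    · rintro ⟨h1, h2⟩
      rw [← hS] at h2
      obtain ⟨y, hy, hxy⟩ := Finset.mem_image.1 h2
      have hyl : y ∈ ({a, b, c, d} : Finset E) := by
        by_contra h
        apply h4; rw [← hS, ← f4 y h]; exact Finset.mem_image_of_mem f0 hy
      rw [← finj y hyl x h1 hxy]; exact hy
  have key : ∀ S : Finset (Fin 5), S.card = 3 → 4 ∉ S →
      S = {1, 2, 3} ∨ S = {0, 2, 3} ∨ S = {0, 1, 3} ∨ S = {0, 1, 2} := by decide
  intro B
  constructor
  · intro hB
    have hc := h3 B hB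
    have h2' := h2 B hB
    have hinj : Set.InjOn f0 B := by
      intro x hx y hy hxy
      by_contra hne
      have hx' : x ∈ B := hx
      have hy' : y ∈ B := hy
      by_cases hxl : x ∈ ({a, b, c, d} : Finset E)
      · by_cases hyl : y ∈ ({a, b, c, d} : Finset E)
        · exact hne (finj x hxl y hyl hxy)
        · rw [f4 y hyl] at hxy; exact fl x hxl hxy
      · by_cases hyl : y ∈ ({a, b, c, d} : Finset E)
        · rw [f4 x hxl] at hxy; exact fl y hyl hxy.symm
        · have h5 : ({x, y} : Finset E) ⊆ B \ {a, b, c, d} := by
            intro t ht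
            simp only [Finset.mem_insert, Finset.mem_singleton] at ht
            rcases ht with rfl | rfl
            · exact Finset.mem_sdiff.2 ⟨hx', hxl⟩
            · exact Finset.mem_sdiff.2 ⟨hy', hyl⟩
          have h6 := Finset.card_le_card h5
          rw [Finset.card_pair hne] at h6
          have h7 := Finset.card_inter_add_card_sdiff B {a, b, c, d}
          omega
    have himg : (B.image f0).card = 3 := by rw [Finset.card_image_of_injOn hinj, hc]
    refine ⟨hc, himg, ?_⟩
    intro hS
    have hBeq : B = {b, c, d} := by
      ext x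
      rw [hback B _ hS (by decide) x]
      simp only [Finset.mem_insert, Finset.mem_singleton]
      constructor
      · rintro ⟨rfl | rfl | rfl | rfl, h⟩
        · rw [fa] at h; exfalso; revert h; decide
        · exact Or.inl rfl
        · exact Or.inr (Or.inl rfl)
        · exact Or.inr (Or.inr rfl)
      · rintro (rfl | rfl | rfl)
        · exact ⟨by simp, Or.inl fb⟩
        · exact ⟨by simp, Or.inr (Or.inl fc)⟩
        · exact ⟨by simp, Or.inr (Or.inr fd)⟩
    rw [hκ, ← hBeq]; simpa using hB
  · rintro ⟨hc, himg, hk⟩
    have hcc : (B.image f0).card = B.card := by rw [himg, hc]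
    have hint := hinter B hcc
    by_cases h4 : (4 : Fin 5) ∈ B.image f0
    · rw [Finset.card_erase_of_mem h4, himg] at hint
      exact hF B hc hint
    · rcases key _ himg h4 with hS | hS | hS | hS
      · have hBeq : B = {b, c, d} := by
          ext x
          rw [hback B _ hS (by decide) x]
          simp only [Finset.mem_insert, Finset.mem_singleton]
          constructor
          · rintro ⟨rfl | rfl | rfl | rfl, h⟩
            · rw [fa] at h; exfalso; revert h; decide
            · exact Or.inl rfl
            · exact Or.inr (Or.inl rfl)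
            · exact Or.inr (Or.inr rfl)
          · rintro (rfl | rfl | rfl)
            · exact ⟨by simp, Or.inl fb⟩
            · exact ⟨by simp, Or.inr (Or.inl fc)⟩
            · exact ⟨by simp, Or.inr (Or.inr fd)⟩
        have := hk hS
        rw [hκ] at this
        rw [hBeq]; simpa using this
      · have hBeq : B = {a, c, d} := by
          ext x
          rw [hback B _ hS (by decide) x]
          simp only [Finset.mem_insert, Finset.mem_singleton]
          constructor
          · rintro ⟨rfl | rfl | rfl | rfl, h⟩
            · exact Or.inl rfl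
            · rw [fb] at h; exfalso; revert h; decide
            · exact Or.inr (Or.inl rfl)
            · exact Or.inr (Or.inr rfl)
          · rintro (rfl | rfl | rfl)
            · exact ⟨by simp, Or.inl fa⟩
            · exact ⟨by simp, Or.inr (Or.inl fc)⟩
            · exact ⟨by simp, Or.inr (Or.inr fd)⟩
        rw [hBeq]; exact hacd
      · have hBeq : B = {a, b, d} := by
          ext x
          rw [hback B _ hS (by decide) x]
          simp only [Finset.mem_insert, Finset.mem_singleton]
          constructor
          · rintro ⟨rfl | rfl | rfl | rfl, h⟩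
            · exact Or.inl rfl
            · exact Or.inr (Or.inl rfl)
            · rw [fc] at h; exfalso; revert h; decide
            · exact Or.inr (Or.inr rfl)
          · rintro (rfl | rfl | rfl)
            · exact ⟨by simp, Or.inl fa⟩
            · exact ⟨by simp, Or.inr (Or.inl fb)⟩
            · exact ⟨by simp, Or.inr (Or.inr fd)⟩
        rw [hBeq]; exact habd
      · have hBeq : B = {a, b, c} := by
          ext x
          rw [hback B _ hS (by decide) x]
          simp only [Finset.mem_insert, Finset.mem_singleton]
          constructor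
          · rintro ⟨rfl | rfl | rfl | rfl, h⟩
            · exact Or.inl rfl
            · exact Or.inr (Or.inl rfl)
            · exact Or.inr (Or.inr rfl)
            · rw [fd] at h; exfalso; revert h; decide
          · rintro (rfl | rfl | rfl)
            · exact ⟨by simp, Or.inl fa⟩
            · exact ⟨by simp, Or.inr (Or.inl fb)⟩
            · exact ⟨by simp, Or.inr (Or.inr fc)⟩
        rw [hBeq]; exact habc

end Pool.Agent.X52.PG
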