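import Pool.Agent.X52.RGeo
import Pool.Agent.Results.MP_da28a5_co.Indecomposable

/-!
# Matroid subdivisions: regular ones, restrictions, finest refinements
-/

set_option autoImplicit false
set_option linter.unusedSectionVars false

namespace Pool.Agent.X52.PG

open Finset
open Pool.Agent.Results.MP_da28a5_co.Indecomposable

variable {E : Type} [Fintype E] [DecidableEq E]

/-- the family of bases -/
def fam (N : Matroid E) : Finset E → Prop := fun B => N.IsBase (B : Set E)

theorem mp_eq (N : Matroid E) : matroidPolytope N = poly (fam N) := polytope_eq N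

theorem exch_fam (N : Matroid E) : Exch (fam N) := by
  intro A B hA hB e heA heB
  obtain ⟨y, hy, hyN⟩ := Matroid.IsBase.exchange hA hB (e := e)
    ⟨by exact_mod_cast heA, by exact_mod_cast heB⟩
  refine ⟨y, by exact_mod_cast hy.1, by exact_mod_cast hy.2, ?_⟩
  show N.IsBase ((insert y (A.erase e) : Finset E) : Set E)
  rw [Finset.coe_insert, Finset.coe_erase]; exact hyN

theorem exists_mat (F : Finset E → Prop) (h0 : ∃ B, F B) (hE : Exch F) :
    ∃ N : Matroid E, N.E = Set.univ ∧ ∀ B : Finset E, fam N B ↔ F B := by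
  classical
  refine ⟨Matroid.ofIsBaseOfFinite (E := Set.univ) Set.finite_univ
    (fun B => ∃ B0 : Finset E, F B0 ∧ (B0 : Set E) = B) ?_ ?_ (fun _ _ => Set.subset_univ _),
    rfl, ?_⟩
  · obtain ⟨B, hB⟩ := h0; exact ⟨B, B, hB, rfl⟩
  · rintro _ _ ⟨A, hA, rfl⟩ ⟨B, hB, rfl⟩ e he
    obtain ⟨f, hf, hf', hF⟩ := hE A B hA hB e (by exact_mod_cast he.1) (by exact_mod_cast he.2)
    refine ⟨f, ⟨by exact_mod_cast hf, by exact_mod_cast hf'⟩, _, hF, ?_⟩
    rw [Finset.coe_insert, Finset.coe_erase]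
  · intro B
    constructor
    · rintro ⟨B0, hB0, h⟩
      rw [← Finset.coe_injective h]; exact hB0
    · intro hB; exact ⟨B, hB, rfl⟩

/-- the matroids of the cells of the regular subdivision -/
def RegSub (F : Finset E → Prop) (w : Finset E → ℝ) : Set (Matroid E) :=
  {N | N.E = Set.univ ∧ ∃ x ∈ poly F, ∀ B : Finset E, fam N B ↔ cell F w x B}

theorem cell_sub {F : Finset E → Prop} {w : Finset E → ℝ} {x : E → ℝ} {B : Finset E}
    (h : cell F w x B) : F B := by
  obtain ⟨l, hl, hB⟩ := h; exact hl.1.mem B hB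

theorem poly_mono {F F' : Finset E → Prop} (h : ∀ B, F B → F' B) : poly F ⊆ poly F' := by
  apply convexHull_mono
  rintro x ⟨B, hB, rfl⟩
  exact ⟨B, h B hB, rfl⟩

theorem poly_sub_iff {F F' : Finset E → Prop} : poly F ⊆ poly F' ↔ ∀ B, F B → F' B :=
  ⟨fun h B hB => of_ind_mem (h (ind_mem hB)), poly_mono⟩

theorem poly_congr {F F' : Finset E → Prop} (h : ∀ B, F B ↔ F' B) : poly F = poly F' := by
  have : F = F' := funext fun B => propext (h B)
  rw [this]

theorem exists_of_mem_poly {F : Finset E → Prop} {x : E → ℝ} (hx : x ∈ poly F) : ∃ B, F B := by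
  by_contra hcon
  push Not at hcon
  have : {x | ∃ B, F B ∧ x = ind B} = (∅ : Set (E → ℝ)) := by
    ext x; simp [hcon]
  unfold poly at hx
  rw [this, convexHull_empty] at hx; exact hx

theorem regSub_sub {M0 : Matroid E} (hE : M0.E = Set.univ) {w : Finset E → ℝ}
    (hV : Val (fam M0) w) : IsMatroidSubdivision M0 (RegSub (fam M0) w) := by
  refine ⟨fun N hN => hN.1.trans hE.symm, ?_, ?_⟩
  · apply Set.Subset.antisymm
    · apply Set.iUnion₂_subset
      rintro N ⟨_, x, hx, hN⟩
      rw [mp_eq, mp_eq, poly_congr hN]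
      exact poly_mono fun B hB => cell_sub hB
    · intro x hx
      rw [mp_eq] at hx
      have h1 := mem_poly_cell (w := w) hx
      obtain ⟨N, hNE, hN⟩ := exists_mat _ (exists_of_mem_poly h1) (cell_exch hV hx)
      simp only [Set.mem_iUnion]
      refine ⟨N, ⟨hNE, x, hx, hN⟩, ?_⟩
      rw [mp_eq, poly_congr hN]; exact h1
  · rintro N ⟨_, x, hx, hN⟩ N' ⟨_, x', hx', hN'⟩
    rw [mp_eq, mp_eq, poly_congr hN, poly_congr hN']
    refine ⟨Set.inter_subset_left, ?_⟩
    rintro z1 h1 z2 h2 z ⟨_, hz⟩ ⟨a, b, ha, hb, hab, hz'⟩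
    exact ⟨h1, cell_face hx hx' h1 h2 hz ha hb hab hz'⟩

theorem closed_poly (F : Finset E → Prop) : IsClosed (poly F) := by
  have hfin : {x : E → ℝ | ∃ B, F B ∧ x = ind B}.Finite := by
    apply Set.Finite.subset (Set.finite_range (fun B : Finset E => ind B))
    rintro x ⟨B, _, rfl⟩; exact ⟨B, rfl⟩
  exact (hfin.isCompact_convexHull ℝ).isClosed

theorem pigeon {S : Set (Finset E → Prop)} (x c : E → ℝ)
    (h : ∀ t : ℝ, 0 < t → t < 1 → ∃ F ∈ S, (1 - t) • x + t • c ∈ poly F) :
    ∃ F ∈ S, x ∈ poly F ∧ ∃ t : ℝ, 0 < t ∧ t < 1 ∧ (1 - t) • x + t • c ∈ poly F := by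
  by_contra hcon
  push Not at hcon
  set t : ℕ → ℝ := fun n => 1 / ((n : ℝ) + 2) with ht
  have ht0 : ∀ n, 0 < t n := by intro n; simp only [ht]; positivity
  have ht1 : ∀ n, t n < 1 := by
    intro n; simp only [ht]; rw [div_lt_one (by positivity)]
    have : (0:ℝ) ≤ n := Nat.cast_nonneg n
    linarith
  have htend : Filter.Tendsto t Filter.atTop (nhds 0) := by
    have h1 := (tendsto_one_div_add_atTop_nhds_zero_nat (𝕜 := ℝ)).comp
      (Filter.tendsto_add_atTop_nat 1)
    refine h1.congr ?_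
    intro n; simp only [ht, Function.comp]; push_cast; ring_nf
  have hxt : Filter.Tendsto (fun n => (1 - t n) • x + t n • c) Filter.atTop (nhds x) := by
    have h1 : Filter.Tendsto (fun n => (1 - t n) • x + t n • c) Filter.atTop
        (nhds ((1 - 0 : ℝ) • x + (0 : ℝ) • c)) :=
      ((tendsto_const_nhds.sub htend).smul_const x).add (htend.smul_const c)
    simpa using h1
  have hall : ∀ F : Finset E → Prop, ∀ᶠ n in Filter.atTop,
      F ∈ S → (1 - t n) • x + t n • c ∉ poly F := by
    intro F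
    by_cases hF : F ∈ S
    · by_cases hx : x ∈ poly F
      · exact Filter.Eventually.of_forall fun n _ => hcon F hF hx (t n) (ht0 n) (ht1 n)
      · have := hxt.eventually ((closed_poly F).isOpen_compl.mem_nhds hx)
        exact this.mono fun n hn _ => hn
    · exact Filter.Eventually.of_forall fun n h => absurd h hF
  have hall2 := Filter.eventually_all.2 hall
  obtain ⟨n, hn⟩ := hall2.exists
  obtain ⟨F, hF, hxF⟩ := h (t n) (ht0 n) (ht1 n)
  exact hn F hF hxF

theorem avg_mem_extreme {G Q : Set (E → ℝ)} (hQ : Convex ℝ Q) (hG : IsExtreme ℝ Q G)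
    {s : Finset (Finset E)} (hv : ∀ B ∈ s, ind B ∈ Q)
    (hc : (∑ B ∈ s, (1 / (s.card : ℝ)) • ind B) ∈ G) : ∀ B ∈ s, ind B ∈ G := by
  intro B hB
  by_cases h1 : s.card = 1
  · obtain ⟨B', hB'⟩ := Finset.card_eq_one.1 h1
    rw [hB'] at hB hc
    simp only [Finset.sum_singleton, Finset.card_singleton] at hc
    rw [Finset.mem_singleton] at hB
    rw [hB]; simpa using hc
  · have hpos : 0 < s.card := Finset.card_pos.2 ⟨B, hB⟩
    have h2 : 2 ≤ s.card := by omega
    have hm : (2 : ℝ) ≤ s.card := by exact_mod_cast h2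
    have hce : ((s.erase B).card : ℝ) = (s.card : ℝ) - 1 := by
      rw [Finset.card_erase_of_mem hB, Nat.cast_sub (by omega)]; simp
    have hz : (∑ B' ∈ s.erase B, (1 / ((s.erase B).card : ℝ)) • ind B') ∈ Q := by
      apply hQ.sum_mem
      · intro i _; positivity
      · have : ((s.erase B).card : ℝ) ≠ 0 := by rw [hce]; intro h; linarith
        simp [this]
      · intro i hi; exact hv i (Finset.mem_of_mem_erase hi)
    refine hG.left_mem_of_mem_openSegment (hv B hB) hz hc ?_
    refine ⟨1 / (s.card : ℝ), ((s.card : ℝ) - 1) / s.card, by positivity,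
      div_pos (by linarith) (by linarith), by field_simp; ring, ?_⟩
    rw [← Finset.add_sum_erase s _ hB]
    congr 1
    rw [Finset.smul_sum]
    apply Finset.sum_congr rfl
    intro B' _
    rw [smul_smul, hce]
    congr 1
    have h3 : (s.card : ℝ) - 1 ≠ 0 := by intro h; linarith
    have h4 : (s.card : ℝ) ≠ 0 := by intro h; linarith
    field_simp

/-- every cell of `C'` lies in a cell of `C` -/
def Refines (C' C : Set (Matroid E)) : Prop :=
  ∀ N' ∈ C', ∃ N ∈ C, matroidPolytope N' ⊆ matroidPolytope N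

theorem restrict_sub {M0 : Matroid E} {C C' : Set (Matroid E)} (hC : IsMatroidSubdivision M0 C)
    (hC' : IsMatroidSubdivision M0 C') (href : Refines C' C) {N0 : Matroid E}
    (hN0 : IsMaximalCell C N0) :
    IsMatroidSubdivision N0 {N ∈ C' | matroidPolytope N ⊆ matroidPolytope N0} := by
  classical
  refine ⟨fun N hN => (hC'.ground N hN.1).trans (hC.ground N0 hN0.1).symm, ?_,
    fun N hN N' hN' => hC'.face N hN.1 N' hN'.1⟩
  apply Set.Subset.antisymm
  · apply Set.iUnion₂_subset
    intro N hN; exact hN.2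
  · intro x hx
    set s : Finset (Finset E) := Finset.univ.filter (fun B => fam N0 B) with hs
    obtain ⟨B0, hB0⟩ := exists_of_mem_poly (by rw [mp_eq] at hx; exact hx)
    have hsne : s.Nonempty := ⟨B0, by simp [hs, hB0]⟩
    set c : E → ℝ := ∑ B ∈ s, (1 / (s.card : ℝ)) • ind B with hc
    have hcN0 : c ∈ matroidPolytope N0 := by
      rw [mp_eq]
      exact poly_avg s hsne (fun B => B) (fun B hB => (Finset.mem_filter.1 hB).2)
    have hind : ∀ B ∈ s, ind B ∈ matroidPolytope N0 := by
      intro B hB; rw [mp_eq]; exact ind_mem (Finset.mem_filter.1 hB).2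
    have hconv : Convex ℝ (matroidPolytope N0) := convex_convexHull ℝ _
    have hsub0 : matroidPolytope N0 ⊆ matroidPolytope M0 := by
      rw [← hC.cover]; exact Set.subset_biUnion_of_mem hN0.1
    have key : ∀ t : ℝ, 0 < t → t < 1 →
        ∃ F ∈ {F | ∃ N ∈ C', matroidPolytope N ⊆ matroidPolytope N0 ∧ F = fam N},
          (1 - t) • x + t • c ∈ poly F := by
      intro t ht0 ht1
      have hxt : (1 - t) • x + t • c ∈ matroidPolytope N0 :=
        hconv hx hcN0 (by linarith) ht0.le (by ring)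
      have hxM := hsub0 hxt
      rw [← hC'.cover] at hxM
      simp only [Set.mem_iUnion] at hxM
      obtain ⟨N, hN, hxN⟩ := hxM
      obtain ⟨N'', hN'', hsub⟩ := href N hN
      have hface := hC.face N0 hN0.1 N'' hN''
      have hcG : c ∈ matroidPolytope N0 ∩ matroidPolytope N'' :=
        hface.right_mem_of_mem_openSegment hx hcN0 ⟨hxt, hsub hxN⟩
          ⟨1 - t, t, by linarith, ht0, by ring, rfl⟩
      have hall := avg_mem_extreme hconv hface hind hcG
      have hle : matroidPolytope N0 ⊆ matroidPolytope N'' := by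
        rw [mp_eq, mp_eq]
        apply poly_mono
        intro B hB
        have := (hall B (by simp [hs, hB])).2
        rw [mp_eq] at this; exact of_ind_mem this
      have heq : N'' = N0 := hN0.2 N'' hN'' hle
      refine ⟨fam N, ⟨N, hN, heq ▸ hsub, rfl⟩, ?_⟩
      rw [← mp_eq]; exact hxN
    obtain ⟨F, ⟨N, hN, hNsub, rfl⟩, hxF, -⟩ := pigeon x c key
    simp only [Set.mem_iUnion]
    exact ⟨N, ⟨hN, hNsub⟩, by rw [mp_eq]; exact hxF⟩

instance finMat : Finite (Matroid E) := by
  apply Finite.of_injective (fun N : Matroid E => (N.E, fun B : Set E => N.IsBase B))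
  intro N N' h
  simp only [Prod.mk.injEq] at h
  apply Matroid.ext_isBase h.1
  intro B _
  rw [congrFun h.2 B]

theorem exists_min_rel {α : Type} [Finite α] (R : α → α → Prop) (hrefl : ∀ a, R a a)
    (htrans : ∀ a b c, R a b → R b c → R a c) (s : Set α) (hs : s.Nonempty) :
    ∃ m ∈ s, ∀ y ∈ s, R y m → R m y := by
  obtain ⟨m, hm, hmin⟩ := Set.exists_min_image s (fun a => {b | R b a}.ncard) s.toFinite hs
  refine ⟨m, hm, ?_⟩
  intro y hy hym
  have hsub : {b | R b y} ⊆ {b | R b m} := fun b hb => htrans b y m hb hym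
  have heq : {b | R b y} = {b | R b m} :=
    Set.eq_of_subset_of_ncard_le hsub (hmin y hy) (Set.toFinite _)
  have : m ∈ {b | R b m} := hrefl m
  rw [← heq] at this; exact this

theorem exists_finest {M0 : Matroid E} {C : Set (Matroid E)} (hC : IsMatroidSubdivision M0 C) :
    ∃ C', IsMatroidSubdivision M0 C' ∧ Refines C' C ∧
      ∀ C'', IsMatroidSubdivision M0 C'' → Refines C'' C' → Refines C' C'' := by
  obtain ⟨m, hm, hmin⟩ := exists_min_rel (fun C' C : Set (Matroid E) => Refines C' C)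
    (fun C N hN => ⟨N, hN, Set.Subset.rfl⟩)
    (fun C1 C2 C3 h12 h23 N hN => by
        obtain ⟨N2, hN2, h2⟩ := h12 N hN
        obtain ⟨N3, hN3, h3⟩ := h23 N2 hN2
        exact ⟨N3, hN3, h2.trans h3⟩)
    {C' | IsMatroidSubdivision M0 C' ∧ Refines C' C} ⟨C, hC, fun N hN => ⟨N, hN, Set.Subset.rfl⟩⟩
  refine ⟨m, hm.1, hm.2, ?_⟩
  intro C'' h1 h2
  refine hmin C'' ⟨h1, ?_⟩ h2
  intro N hN
  obtain ⟨N2, hN2, h2⟩ := h2 N hN
  obtain ⟨N3, hN3, h3⟩ := hm.2 N2 hN2
  exact ⟨N3, hN3, h2.trans h3⟩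

end Pool.Agent.X52.PG
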