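import Pool.Agent.X52.PGStar

/-!
# Regular subdivisions: cells of a valuated family
-/

set_option autoImplicit false
set_option linter.unusedSectionVars false

namespace Pool.Agent.X52.PG

open Finset

variable {P : Type} [Fintype P] [DecidableEq P]
variable {M : Finset P → Prop} {w : Finset P → ℝ}

theorem Rep.mem_poly {N : Finset P → Prop} {x : P → ℝ} {l : Finset P → ℝ} (h : Rep N x l) :
    x ∈ poly N := by
  classical
  have hx : x = ∑ B ∈ Finset.univ.filter (fun B => 0 < l B), l B • ind B := by
    ext e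
    rw [h.eq e, Finset.sum_apply]
    have : ∑ B, l B * ind B e = ∑ B, (if 0 < l B then l B * ind B e else 0) := by
      apply Finset.sum_congr rfl
      intro B _
      split_ifs with h1
      · rfl
      · have : l B = 0 := le_antisymm (not_lt.1 h1) (h.nonneg B)
        rw [this]; ring
    rw [this, ← Finset.sum_filter]
    rfl
  rw [hx]
  apply (convex_poly N).sum_mem
  · intro B _; exact h.nonneg B
  · rw [Finset.sum_filter, ← h.sum]
    apply Finset.sum_congr rfl
    intro B _
    split_ifs with h1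
    · rfl
    · exact (le_antisymm (not_lt.1 h1) (h.nonneg B)).symm
  · intro B hB
    rw [Finset.mem_filter] at hB
    exact ind_mem (h.mem B hB.2)

/-- cost of a representation -/
def cost (w : Finset P → ℝ) (l : Finset P → ℝ) : ℝ := ∑ B, l B * w B

/-- cost-minimal representation -/
def MinRep (M : Finset P → Prop) (w : Finset P → ℝ) (x : P → ℝ) (l : Finset P → ℝ) : Prop :=
  Rep M x l ∧ ∀ k, Rep M x k → cost w l ≤ cost w k

/-- the cell of `x` -/
def cell (M : Finset P → Prop) (w : Finset P → ℝ) (x : P → ℝ) (B : Finset P) : Prop :=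
  ∃ l, MinRep M w x l ∧ 0 < l B

theorem Rep.le_one {N : Finset P → Prop} {x : P → ℝ} {l : Finset P → ℝ} (h : Rep N x l)
    (B : Finset P) : l B ≤ 1 := by
  rw [← h.sum]; exact Finset.single_le_sum (fun i _ => h.nonneg i) (Finset.mem_univ B)

theorem Rep.zero {N : Finset P → Prop} {x : P → ℝ} {l : Finset P → ℝ} (h : Rep N x l)
    {B : Finset P} (hB : ¬ N B) : l B = 0 := by
  by_contra h0
  exact hB (h.mem B (lt_of_le_of_ne (h.nonneg B) (Ne.symm h0)))

theorem exists_minRep {x : P → ℝ} (hx : x ∈ poly M) : ∃ l, MinRep M w x l := by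
  classical
  set K : Set (Finset P → ℝ) := {l | Rep M x l} with hK
  have hKeq : K = (⋂ B, {l | 0 ≤ l B}) ∩ (⋂ B, {l | ¬ M B → l B = 0}) ∩ {l | ∑ B, l B = 1}
      ∩ (⋂ e, {l | x e = ∑ B, l B * ind B e}) := by
    ext l
    simp only [hK, Set.mem_ofPred_eq, Set.mem_inter_iff, Set.mem_iInter]
    constructor
    · intro h; exact ⟨⟨⟨h.nonneg, fun B hB => h.zero hB⟩, h.sum⟩, h.eq⟩
    · rintro ⟨⟨⟨h1, h2⟩, h3⟩, h4⟩
      refine ⟨h1, ?_, h3, h4⟩
      intro B hB
      by_contra hM
      rw [h2 B hM] at hB; exact lt_irrefl _ hB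
  have hcl : IsClosed K := by
    rw [hKeq]
    refine IsClosed.inter (IsClosed.inter (IsClosed.inter ?_ ?_) ?_) ?_
    · exact isClosed_iInter fun B => isClosed_le continuous_const (continuous_apply B)
    · refine isClosed_iInter fun B => ?_
      by_cases hB : M B
      · have : {l : Finset P → ℝ | ¬ M B → l B = 0} = Set.univ := by
          ext l; simp [hB]
        rw [this]; exact isClosed_univ
      · have : {l : Finset P → ℝ | ¬ M B → l B = 0} = {l | l B = 0} := by
          ext l; simp [hB]
        rw [this]; exact isClosed_eq (continuous_apply B) continuous_const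
    · exact isClosed_eq (continuous_finsetSum _ fun B _ => continuous_apply B) continuous_const
    · refine isClosed_iInter fun e => isClosed_eq continuous_const ?_
      exact continuous_finsetSum _ fun B _ => (continuous_apply B).mul continuous_const
  have hsub : K ⊆ Set.Icc (0 : Finset P → ℝ) 1 := by
    intro l hl
    exact ⟨fun B => hl.nonneg B, fun B => hl.le_one B⟩
  have hcomp : IsCompact K := IsCompact.of_isClosed_subset isCompact_Icc hcl hsub
  have hne : K.Nonempty := exists_rep hx
  obtain ⟨l, hl, hmin⟩ := hcomp.exists_isMinOn hne (f := cost w)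
    (continuous_finsetSum _ fun B _ => (continuous_apply B).mul continuous_const).continuousOn
  exact ⟨l, hl, fun k hk => hmin hk⟩

theorem cost_lin (a b : ℝ) (l k : Finset P → ℝ) :
    cost w (fun B => a * l B + b * k B) = a * cost w l + b * cost w k := by
  unfold cost
  rw [Finset.mul_sum, Finset.mul_sum, ← Finset.sum_add_distrib]
  apply Finset.sum_congr rfl; intro B _; ring

theorem Rep.comb {N : Finset P → Prop} {x y : P → ℝ} {l k : Finset P → ℝ} (hl : Rep N x l)
    (hk : Rep N y k) {a b : ℝ} (ha : 0 ≤ a) (hb : 0 ≤ b) (hab : a + b = 1) :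
    Rep N (a • x + b • y) (fun B => a * l B + b * k B) := by
  refine ⟨fun B => add_nonneg (mul_nonneg ha (hl.nonneg B)) (mul_nonneg hb (hk.nonneg B)),
    ?_, ?_, ?_⟩
  · intro B hB
    by_contra hM
    rw [hl.zero hM, hk.zero hM] at hB; simp at hB
  · rw [Finset.sum_add_distrib, ← Finset.mul_sum, ← Finset.mul_sum, hl.sum, hk.sum]
    simpa using hab
  · intro e
    have : ∀ B, (a * l B + b * k B) * ind B e = a * (l B * ind B e) + b * (k B * ind B e) := by
      intro B; ring
    simp only [this, Finset.sum_add_distrib, ← Finset.mul_sum]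
    rw [← hl.eq, ← hk.eq]; rfl

theorem MinRep.comb {x : P → ℝ} {l k : Finset P → ℝ} (hl : MinRep M w x l)
    (hk : MinRep M w x k) {a b : ℝ} (ha : 0 ≤ a) (hb : 0 ≤ b) (hab : a + b = 1) :
    MinRep M w x (fun B => a * l B + b * k B) := by
  have hx : a • x + b • x = x := by rw [← add_smul, hab, one_smul]
  refine ⟨?_, ?_⟩
  · have := hl.1.comb hk.1 ha hb hab
    rwa [hx] at this
  · intro m hm
    rw [cost_lin]
    have h1 := mul_le_mul_of_nonneg_left (hl.2 m hm) ha
    have h2 := mul_le_mul_of_nonneg_left (hk.2 m hm) hb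
    have h3 : a * cost w m + b * cost w m = cost w m := by rw [← add_mul, hab, one_mul]
    linarith

theorem exists_full {x : P → ℝ} (hx : x ∈ poly M) :
    ∃ l, MinRep M w x l ∧ ∀ B, cell M w x B → 0 < l B := by
  classical
  have key : ∀ s : Finset (Finset P), ∃ l, MinRep M w x l ∧ ∀ B ∈ s, cell M w x B → 0 < l B := by
    intro s
    induction s using Finset.induction_on with
    | empty => obtain ⟨l, hl⟩ := exists_minRep (M := M) (w := w) hx; exact ⟨l, hl, by simp⟩
    | insert A s _ ih =>
      obtain ⟨l, hl, hls⟩ := ih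
      by_cases hA : cell M w x A
      · obtain ⟨k, hk, hkA⟩ := hA
        refine ⟨_, hl.comb hk (a := 1/2) (b := 1/2) (by norm_num) (by norm_num) (by norm_num), ?_⟩
        intro B hB hc
        have h1 := hl.1.nonneg B
        have h2 := hk.1.nonneg B
        rw [Finset.mem_insert] at hB
        rcases hB with rfl | hB
        · linarith
        · have := hls B hB hc; linarith
      · refine ⟨l, hl, ?_⟩
        intro B hB hc
        rw [Finset.mem_insert] at hB
        rcases hB with rfl | hB
        · exact absurd hc hA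
        · exact hls B hB hc
  obtain ⟨l, hl, h⟩ := key Finset.univ
  exact ⟨l, hl, fun B hB => h B (Finset.mem_univ B) hB⟩

theorem core {x z : P → ℝ} (hx : x ∈ poly M) {k k' : Finset P → ℝ} (hk : Rep M z k)
    (hks : ∀ B, 0 < k B → cell M w x B) (hk' : Rep M z k') :
    cost w k ≤ cost w k' ∧ (cost w k' ≤ cost w k → ∀ B, 0 < k' B → cell M w x B) := by
  classical
  obtain ⟨l, hl, hfull⟩ := exists_full (M := M) (w := w) hx
  have hε : ∃ ε : ℝ, 0 < ε ∧ ∀ B, ε * k B ≤ l B := by
    obtain ⟨B0, hB0⟩ : ∃ B, 0 < l B := by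
      by_contra hcon
      push Not at hcon
      have : ∑ A, l A ≤ 0 := Finset.sum_nonpos (fun A _ => hcon A)
      rw [hl.1.sum] at this; norm_num at this
    set s := Finset.univ.filter (fun B => 0 < l B) with hs
    have hsne : s.Nonempty := ⟨B0, by simp [hs, hB0]⟩
    obtain ⟨B1, hB1, hmin⟩ := s.exists_min_image l hsne
    refine ⟨l B1, (Finset.mem_filter.1 hB1).2, ?_⟩
    intro B
    by_cases hB : 0 < k B
    · have h1 := hfull B (hks B hB)
      have h2 := hmin B (by simp [hs, h1])
      have h3 := mul_le_mul_of_nonneg_left (hk.le_one B) (Finset.mem_filter.1 hB1).2.le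
      linarith
    · have : k B = 0 := le_antisymm (not_lt.1 hB) (hk.nonneg B)
      rw [this, mul_zero]; exact hl.1.nonneg B
  obtain ⟨ε, hε, hεk⟩ := hε
  set l' : Finset P → ℝ := fun B => l B - ε * k B + ε * k' B with hl'
  have hrep : Rep M x l' := by
    refine ⟨?_, ?_, ?_, ?_⟩
    · intro B
      have h1 := hεk B
      have h2 := mul_nonneg hε.le (hk'.nonneg B)
      simp only [hl']; linarith
    · intro B hB
      by_contra hM
      simp only [hl'] at hB
      rw [hl.1.zero hM, hk.zero hM, hk'.zero hM] at hB; simp at hB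
    · simp only [hl', Finset.sum_add_distrib, Finset.sum_sub_distrib, ← Finset.mul_sum, hl.1.sum,
        hk.sum, hk'.sum]; ring
    · intro e
      have : ∀ B, l' B * ind B e = l B * ind B e - ε * (k B * ind B e) + ε * (k' B * ind B e) := by
        intro B; simp only [hl']; ring
      simp only [this, Finset.sum_add_distrib, Finset.sum_sub_distrib, ← Finset.mul_sum]
      rw [← hl.1.eq, ← hk.eq, ← hk'.eq]; ring
  have hcost : cost w l' = cost w l - ε * (cost w k - cost w k') := by
    unfold cost
    have : ∀ B, l' B * w B = l B * w B - ε * (k B * w B) + ε * (k' B * w B) := by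
      intro B; simp only [hl']; ring
    simp only [this, Finset.sum_add_distrib, Finset.sum_sub_distrib, ← Finset.mul_sum]
    ring
  have h1 := hl.2 l' hrep
  rw [hcost] at h1
  have h2 : ε * (cost w k - cost w k') ≤ 0 := by linarith
  have h3 : cost w k - cost w k' ≤ 0 := by
    by_contra h; push Not at h
    have := mul_pos hε h; linarith
  refine ⟨by linarith, ?_⟩
  intro h4 B hB
  refine ⟨l', ⟨hrep, ?_⟩, ?_⟩
  · intro m hm
    have h5 := hl.2 m hm
    have h6 : cost w k = cost w k' := le_antisymm (by linarith) h4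
    rw [hcost, h6]; linarith
  · have h5 := hεk B
    have h6 := mul_pos hε hB
    simp only [hl']; linarith

/-- a rep of the midpoint of two members -/
theorem pair_rep {N : Finset P → Prop} {A B : Finset P} (hA : N A) (hB : N B) :
    Rep N ((1/2 : ℝ) • ind A + (1/2 : ℝ) • ind B)
      (fun D => 1/2 * (if D = A then 1 else 0) + 1/2 * (if D = B then 1 else 0)) := by
  have h1 : ∀ A, N A → Rep N (ind A) (fun D => if D = A then 1 else 0) := by
    intro A hA
    refine ⟨?_, ?_, ?_, ?_⟩
    · intro A; split_ifs <;> norm_num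
    · intro D hD; split_ifs at hD with h
      · exact h ▸ hA
      · exact absurd hD (lt_irrefl _)
    · simp
    · intro e; simp
  exact (h1 A hA).comb (h1 B hB) (by norm_num) (by norm_num) (by norm_num)

theorem pair_cost (A B : Finset P) :
    cost w (fun D => 1/2 * (if D = A then 1 else 0) + 1/2 * (if D = B then 1 else 0))
      = 1/2 * w A + 1/2 * w B := by
  have h1 : ∀ A, cost w (fun D => if D = A then 1 else 0) = w A := by
    intro A; simp [cost]
  rw [cost_lin (w := w) (1/2) (1/2) (fun D => if D = A then 1 else 0)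
    (fun D => if D = B then 1 else 0), h1, h1]

/-- two members of a cell and a cheaper or equal pair with the same sum -/
theorem cell_pair {x : P → ℝ} (hx : x ∈ poly M) {A B A' B' : Finset P} (hA : cell M w x A)
    (hB : cell M w x B) (hA' : M A') (hB' : M B')
    (hsum : ind A + ind B = ind A' + ind B') :
    w A + w B ≤ w A' + w B' ∧ (w A' + w B' ≤ w A + w B → cell M w x A' ∧ cell M w x B') := by
  have cM : ∀ D, cell M w x D → M D := by
    rintro D ⟨l, hl, hD⟩; exact hl.1.mem D hD
  have hz : (1/2 : ℝ) • ind A + (1/2 : ℝ) • ind B = (1/2 : ℝ) • ind A' + (1/2 : ℝ) • ind B' := by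
    rw [← smul_add, ← smul_add, hsum]
  have r1 := pair_rep (cM A hA) (cM B hB)
  have r2 := pair_rep hA' hB'
  rw [← hz] at r2
  have hc := core (w := w) hx r1 (by
    intro D hD
    by_cases h1 : D = A
    · rw [h1]; exact hA
    · by_cases h2 : D = B
      · rw [h2]; exact hB
      · simp [h1, h2] at hD) r2
  rw [pair_cost, pair_cost] at hc
  refine ⟨by linarith [hc.1], ?_⟩
  intro h
  have h3 := hc.2 (by linarith)
  have hp : ∀ D E : Finset P, 0 ≤ (1/2 : ℝ) * (if D = E then 1 else 0) := by
    intro D E; split_ifs <;> norm_num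
  constructor
  · apply h3; have := hp A' B'; simp only [if_true]; linarith
  · apply h3; have := hp B' A'; simp only [if_true]; linarith

/-- valuated exchange property -/
def Val (M : Finset P → Prop) (w : Finset P → ℝ) : Prop :=
  ∀ A B, M A → M B → ∀ e ∈ A, e ∉ B → ∃ f ∈ B, f ∉ A ∧ M (insert f (A.erase e)) ∧
    M (insert e (B.erase f)) ∧ w (insert f (A.erase e)) + w (insert e (B.erase f)) ≤ w A + w B

theorem swap_sum {A B : Finset P} {e f : P} (he : e ∈ A) (he' : e ∉ B) (hf : f ∈ B)
    (hf' : f ∉ A) :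
    ind A + ind B = ind (insert f (A.erase e)) + ind (insert e (B.erase f)) := by
  have hef : e ≠ f := fun h => hf' (h ▸ he)
  ext t
  simp only [Pi.add_apply, ind, Finset.mem_insert, Finset.mem_erase]
  by_cases h1 : t = e
  · subst h1; simp [he, he', hef]
  · by_cases h2 : t = f
    · subst h2; simp [h1, hf, hf']
    · simp [h1, h2]

theorem cell_exch (hV : Val M w) {x : P → ℝ} (hx : x ∈ poly M) : Exch (cell M w x) := by
  intro A B hA hB e he he'
  have cM : ∀ D, cell M w x D → M D := by
    rintro D ⟨l, hl, hD⟩; exact hl.1.mem D hD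
  obtain ⟨f, hf, hf', h1, h2, h3⟩ := hV A B (cM A hA) (cM B hB) e he he'
  exact ⟨f, hf, hf', ((cell_pair hx hA hB h1 h2 (swap_sum he he' hf hf')).2 h3).1⟩

theorem mem_poly_cell {x : P → ℝ} (hx : x ∈ poly M) : x ∈ poly (cell M w x) := by
  obtain ⟨l, hl, -⟩ := exists_full (M := M) (w := w) hx
  exact Rep.mem_poly (l := l) ⟨hl.1.nonneg, fun B hB => ⟨l, hl, hB⟩, hl.1.sum, hl.1.eq⟩

theorem rep_mono {N N' : Finset P → Prop} (h : ∀ B, N B → N' B) {x : P → ℝ}
    {l : Finset P → ℝ} (hl : Rep N x l) : Rep N' x l :=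
  ⟨hl.nonneg, fun B hB => h B (hl.mem B hB), hl.sum, hl.eq⟩

theorem cell_face {x x' : P → ℝ} (hx : x ∈ poly M) (hx' : x' ∈ poly M) {z1 z2 z : P → ℝ}
    (h1 : z1 ∈ poly (cell M w x)) (h2 : z2 ∈ poly (cell M w x))
    (hz' : z ∈ poly (cell M w x')) {a b : ℝ} (ha : 0 < a) (hb : 0 < b) (hab : a + b = 1)
    (hz : a • z1 + b • z2 = z) : z1 ∈ poly (cell M w x') := by
  have cM : ∀ x D, cell M w x D → M D := by
    rintro x D ⟨l, hl, hD⟩; exact hl.1.mem D hD
  obtain ⟨k1, hk1⟩ := exists_rep h1
  obtain ⟨k2, hk2⟩ := exists_rep h2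
  obtain ⟨k', hk'⟩ := exists_rep hz'
  have hk := hk1.comb hk2 ha.le hb.le hab
  rw [hz] at hk
  have c1 := (core (w := w) hx (rep_mono (cM x) hk) hk.mem (rep_mono (cM x') hk')).1
  have c2 := (core (w := w) hx' (rep_mono (cM x') hk') hk'.mem (rep_mono (cM x) hk)).2 c1
  apply Rep.mem_poly (l := k1)
  refine ⟨hk1.nonneg, ?_, hk1.sum, hk1.eq⟩
  intro B hB
  apply c2
  have := mul_pos ha hB
  have := mul_nonneg hb.le (hk2.nonneg B)
  linarith

end Pool.Agent.X52.PG
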